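import Pool.Agent.Lib.MP_79499b_co.EO.QR

/-!
# A1: an element of order `l` of `(Z/v)^*`, trivial modulo `v / w`, in all the subgroups `<p>`

PROOF. In `(ZMod v)ˣ` let `H` be the set of `x` with `x^l = 1`.  For a prime `u ≠ w` dividing `v`, `u ∣ v`, `l ≠ u`, `l ∤ u - 1`, so
`l ∤ φ(v / w)` and the `l`-torsion of `(ZMod (v/w))ˣ` is trivial: every `x ∈ H` is `1` modulo `v / w`.  As `w` and `v / w` are coprime,
`H` injects into the `l`-torsion of `(ZMod w)ˣ`, which is cyclic: `H` is cyclic of order at most `l`.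
(Chinese remainder.)  For `p ∈ I`, `l ∣ orderOf (p : ZMod w) ∣ orderOf (p : (ZMod v)ˣ)`, so `<p>` contains an element of order `l`
(`p^(ord/l)`), which generates `H`.  If `I` is empty take an element of order `l` of `(ZMod w)ˣ` (`l ∣ w - 1`, Cauchy) and the Chinese
remainder theorem.  Let `t` be a generator of `H` (as a natural number).
-/

set_option autoImplicit false

namespace Pool.Agent.Lib.MP_79499b_co.EO

open Finset

private lemma a1_totient {l m : ℕ} (hl : l.Prime) (hm : 0 < m) (h : l ∣ m.totient) :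
    l ∣ m ∨ ∃ u, u.Prime ∧ u ∣ m ∧ l ∣ u - 1 := by
  rw [Nat.totient_eq_prod_factorization hm.ne'] at h
  unfold Finsupp.prod at h
  obtain ⟨p, hp, hpl⟩ := (Nat.prime_iff.mp hl).exists_mem_finset_dvd h
  rw [Nat.support_factorization, Nat.mem_primeFactors] at hp
  rcases (hl.dvd_mul).mp hpl with h1 | h1
  · left
    exact (hl.dvd_of_dvd_pow h1).trans hp.2.1
  · right
    exact ⟨p, hp.1, hp.2.1, h1⟩

theorem exists_mover {v w l : ℕ} (hv : 0 < v) (hw : w.Prime) (hwv : w ∣ v) (hw2 : ¬ w ^ 2 ∣ v)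
    (hl : l.Prime) (hlw : l ∣ w - 1) (hlv : ¬ l ∣ v)
    (hlu : ∀ u : ℕ, u.Prime → u ∣ v → u ≠ w → u % l ≠ 1)
    (I : Finset ℕ) (hI : ∀ p ∈ I, p.Coprime v ∧ l ∣ orderOf (p : ZMod w)) :
    ∃ t : ℕ, t.Coprime v ∧ t ≡ 1 [MOD v / w] ∧ t ^ l ≡ 1 [MOD v] ∧ ¬ t ≡ 1 [MOD w] ∧
      ∀ p ∈ I, ∃ j : ℕ, p ^ j ≡ t [MOD v] := by
  have : Fact w.Prime := ⟨hw⟩
  obtain ⟨m, rfl⟩ := hwv
  have hm : 0 < m := Nat.pos_of_mul_pos_left hv |> fun h => by
    rcases Nat.eq_zero_or_pos m with h0 | h0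
    · simp [h0] at hv
    · exact h0
  have hwm : ¬ w ∣ m := by
    rintro ⟨c, rfl⟩
    exact hw2 ⟨c, by ring⟩
  have hcop : Nat.Coprime m w := ((Nat.Prime.coprime_iff_not_dvd hw).mpr hwm).symm
  have hdiv : w * m / w = m := Nat.mul_div_cancel_left m hw.pos
  rw [hdiv]
  have hphi : Nat.Coprime m.totient l := by
    refine ((Nat.Prime.coprime_iff_not_dvd hl).mpr ?_).symm
    intro h
    rcases a1_totient hl hm h with h1 | ⟨u, hu, hum, hlu1⟩
    · exact hlv (h1.mul_left w)
    · refine hlu u hu (hum.mul_left w) ?_ ?_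
      · rintro rfl; exact hwm hum
      · obtain ⟨c, hc⟩ := hlu1
        have h2 : u = 1 + l * c := by have := hu.one_lt; omega
        rw [h2, Nat.add_mul_mod_self_left, Nat.mod_eq_of_lt hl.one_lt]
  -- an element of order l in ZMod w
  obtain ⟨z, hz⟩ : ∃ z : (ZMod w)ˣ, orderOf z = l := by
    have : Fact l.Prime := ⟨hl⟩
    refine exists_prime_orderOf_dvd_card l ?_
    rw [ZMod.card_units]
    exact hlw
  have hzl : (z : ZMod w) ^ l = 1 := by
    rw [← Units.val_pow_eq_pow_val, ← hz, pow_orderOf_eq_one, Units.val_one]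
  have hz1 : (z : ZMod w) ≠ 1 := by
    intro h
    have : z = 1 := Units.ext h
    rw [this, orderOf_one] at hz
    exact hl.one_lt.ne hz
  obtain ⟨t, ht1, ht2⟩ := Nat.chineseRemainder hcop 1 (z : ZMod w).val
  have htz : (t : ZMod w) = z := by
    have := (ZMod.natCast_eq_natCast_iff _ _ _).mpr ht2
    rw [this, ZMod.natCast_val, ZMod.cast_id', id]
  have htl : t ^ l ≡ 1 [MOD w * m] := by
    rw [mul_comm]
    refine (Nat.modEq_and_modEq_iff_modEq_mul hcop).mp ⟨?_, ?_⟩
    · simpa using ht1.pow l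
    · rw [← ZMod.natCast_eq_natCast_iff]
      push_cast
      rw [htz, hzl]
  refine ⟨t, ?_, ht1, htl, ?_, ?_⟩
  · have h1 : Nat.Coprime (t ^ l) (w * m) := by
      have := htl.gcd_eq
      rw [Nat.gcd_one_left] at this
      exact this
    exact Nat.Coprime.coprime_dvd_left (dvd_pow_self t hl.ne_zero) h1
  · intro h
    apply hz1
    have := (ZMod.natCast_eq_natCast_iff _ _ _).mpr h
    rw [htz] at this
    simpa using this
  · intro p hp
    obtain ⟨hpc, hpl⟩ := hI p hp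
    obtain ⟨c, hc⟩ := hpl
    have hpw : (p : ZMod w) ≠ 0 := by
      intro h
      rw [ZMod.natCast_eq_zero_iff] at h
      have h2 : w ∣ 1 := by
        rw [← hpc]
        exact Nat.dvd_gcd h (dvd_mul_right _ _)
      exact hw.one_lt.ne' (Nat.dvd_one.mp h2)
    have hord : 0 < orderOf (p : ZMod w) := by
      rw [orderOf_pos_iff]
      rw [isOfFinOrder_iff_pow_eq_one]
      exact ⟨w - 1, by have := hw.one_lt; omega, ZMod.pow_card_sub_one_eq_one hpw⟩
    have hc0 : c ≠ 0 := by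
      rintro rfl
      simp [hc] at hord
    have h3 : orderOf ((p : ZMod w) ^ c) = l := by
      rw [orderOf_pow_of_dvd hc0 (by rw [hc]; exact dvd_mul_left _ _), hc]
      exact Nat.mul_div_cancel _ (Nat.pos_of_ne_zero hc0)
    have h4 : orderOf (((p : ZMod w) ^ c) ^ m.totient) = l := by
      rw [Nat.Coprime.orderOf_pow (by rw [h3]; exact hphi.symm), h3]
    have h5 : IsPrimitiveRoot (((p : ZMod w) ^ c) ^ m.totient) l := by
      rw [← h4]
      exact IsPrimitiveRoot.orderOf _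
    have : NeZero l := ⟨hl.ne_zero⟩
    obtain ⟨i, _, hi⟩ := h5.eq_pow_of_pow_eq_one hzl
    refine ⟨c * m.totient * i, ?_⟩
    rw [mul_comm w m]
    refine (Nat.modEq_and_modEq_iff_modEq_mul hcop).mp ⟨?_, ?_⟩
    · have hpm : Nat.Coprime p m := hpc.coprime_mul_left_right
      have h6 := Nat.ModEq.pow_totient hpm
      have h7 : (p ^ m.totient) ^ (c * i) ≡ 1 ^ (c * i) [MOD m] := h6.pow _
      rw [one_pow, ← pow_mul] at h7
      have h8 : c * m.totient * i = m.totient * (c * i) := by ring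
      rw [h8]
      exact h7.trans ht1.symm
    · rw [← ZMod.natCast_eq_natCast_iff]
      push_cast
      rw [htz, ← hi, ← pow_mul, ← pow_mul, mul_assoc]

end Pool.Agent.Lib.MP_79499b_co.EO
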