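import Pool.Agent.Lib.MP_79499b_co.EO.QR
import Pool.Agent.Lib.MP_79499b_co.General

/-!
# A2: the multiplier theorem and a fixed translate

PROOF. Put `v = |G|`, `k = |D|`, `λ = (n^(m-2) - 1)/(n - 1)`; `k - λ = n^(m-2)`, `k = n λ + 1`, `v = n k + 1`, so `gcd(k, v) = gcd(n, v) = 1`.
In the group ring `D D^(-1) = n^(m-2) + λ G`.  `n₁ = ∏_{p ∈ I} p^((m-2) v_p(n))` divides `n^(m-2)` and `n₁ > λ` (`hbig`).
For each `p ∈ I` some power of `p` is `t` modulo `v`, so `dvd_twist_gen` / `dvd_twist_comp` (General.lean, see how TwoPrime.lean /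
EvenExcl29.lean / Master.lean use them) give `n₁ ∣ D^(t) D^(-1) - λ G` and `multiplier_gen` gives `D^(t) = h D`, i.e.
`{d^t} = {h d}`.  Choose `g` with `g^k = (∏_{d ∈ D} d)⁻¹` (`gcd(k, v) = 1`), `D' = g D`: the product of the elements of `D'` is `1`;
`{d^t : d ∈ D'} = h' D'` for some `h'`; taking products `1 = h'^k`, so `h' = 1`.
(Translation by `g` preserves the difference property.)
-/

set_option autoImplicit false

namespace Pool.Agent.Lib.MP_79499b_co.EO

open Finset

theorem a2_geom {n : ℕ} (hn : 2 ≤ n) (t : ℕ) : (∑ i ∈ Finset.range t, n ^ i) * (n - 1) = n ^ t - 1 := by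
  rw [Nat.geomSum_eq hn, Nat.div_mul_cancel]
  exact Nat.sub_one_dvd_pow_sub_one n t

theorem a2_prod_dvd {n : ℕ} (hn : 2 ≤ n) (I : Finset ℕ) (hI : ∀ p ∈ I, p.Prime ∧ p ∣ n) (e : ℕ) :
    ∏ p ∈ I, p ^ (e * n.factorization p) ∣ n ^ e := by
  have h1 : ∏ p ∈ I, p ^ (e * n.factorization p) = (∏ p ∈ I, p ^ n.factorization p) ^ e := by
    rw [← Finset.prod_pow]
    refine Finset.prod_congr rfl fun p _ => ?_
    rw [← pow_mul, mul_comm]
  rw [h1]
  refine pow_dvd_pow_of_dvd ?_ e
  have h2 : n = ∏ p ∈ n.primeFactors, p ^ n.factorization p := by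
    conv_lhs => rw [← Nat.prod_factorization_pow_eq_self (show n ≠ 0 by omega)]
    rfl
  conv_rhs => rw [h2]
  refine Finset.prod_dvd_prod_of_subset _ _ _ ?_
  intro p hp
  obtain ⟨h3, h4⟩ := hI p hp
  exact Nat.mem_primeFactors.mpr ⟨h3, h4, by omega⟩

theorem a2_prime_mem {n : ℕ} (I : Finset ℕ) (hI : ∀ p ∈ I, p.Prime) (e : ℕ) {r : ℕ} (hr : r.Prime)
    (h : r ∣ ∏ p ∈ I, p ^ (e * n.factorization p)) : r ∈ I := by
  obtain ⟨p, hp, hrp⟩ := (Prime.dvd_finset_prod_iff hr.prime _).mp h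
  have h1 : r ∣ p := hr.dvd_of_dvd_pow hrp
  have h2 : r = p := (Nat.prime_dvd_prime_iff_eq hr (hI p hp)).mp h1
  rw [h2]; exact hp

/-- the consequences of the multiplier equation -/
theorem a2_map {G : Type} [CommGroup G] [Fintype G] [DecidableEq G] {D : Finset G} {t : ℕ} {h : G}
    (hh : pw t (el D) = MonoidAlgebra.single h 1 * el D) (d : G) (hd : d ∈ D) : h⁻¹ * d ^ t ∈ D := by
  have h1 : (pw t (el D)).coeff (d ^ t) = (MonoidAlgebra.single h 1 * el D).coeff (d ^ t) := by rw [hh]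
  have h2 : (MonoidAlgebra.single h (1 : ℤ) * el D).coeff (d ^ t) =
      if h⁻¹ * d ^ t ∈ D then 1 else 0 := by
    have : (MonoidAlgebra.single h (1 : ℤ) * el D) = el (D.image (fun x => h * x)) := by
      unfold el
      rw [Finset.mul_sum, Finset.sum_image (fun a _ b _ hab => mul_left_cancel hab)]
      refine Finset.sum_congr rfl fun x _ => ?_
      rw [MonoidAlgebra.single_mul_single, mul_one]
    rw [this, coeff_el]
    congr 1
    rw [Finset.mem_image, eq_iff_iff]
    constructor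
    · rintro ⟨a, ha, hab⟩
      rw [← hab]; simpa using ha
    · intro hx
      exact ⟨_, hx, by simp⟩
  have h3 : (1 : ℤ) ≤ (pw t (el D)).coeff (d ^ t) := by
    have h4 : (pw t (el D)).coeff (d ^ t) = ∑ x ∈ D, if x ^ t = d ^ t then (1 : ℤ) else 0 := by
      unfold el
      rw [map_sum, MonoidAlgebra.coeff_sum, Finsupp.finsetSum_apply]
      refine Finset.sum_congr rfl fun x _ => ?_
      rw [pw_single, MonoidAlgebra.coeff_single, Finsupp.single_apply]
    rw [h4]
    calc (1 : ℤ) = if d ^ t = d ^ t then (1 : ℤ) else 0 := by simp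
      _ ≤ _ := Finset.single_le_sum (f := fun x => if x ^ t = d ^ t then (1 : ℤ) else 0)
          (fun x _ => by split_ifs <;> norm_num) hd
  rw [h1, h2] at h3
  by_contra h5
  rw [if_neg h5] at h3
  norm_num at h3

theorem a2_translate {G : Type} [CommGroup G] [Fintype G] [DecidableEq G] (D : Finset G) (g x : G) :
    (((D.image (fun d => g * d)) ×ˢ (D.image (fun d => g * d))).filter
      (fun p : G × G => p.1 * p.2⁻¹ = x)).card = ((D ×ˢ D).filter (fun p : G × G => p.1 * p.2⁻¹ = x)).card := by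
  symm
  refine Finset.card_bij (fun p _ => (g * p.1, g * p.2)) ?_ ?_ ?_
  · intro p hp
    rw [Finset.mem_filter, Finset.mem_product] at hp
    rw [Finset.mem_filter, Finset.mem_product]
    refine ⟨⟨Finset.mem_image_of_mem _ hp.1.1, Finset.mem_image_of_mem _ hp.1.2⟩, ?_⟩
    rw [← hp.2]
    simp only
    rw [mul_inv, ← mul_assoc, mul_comm g p.1, mul_assoc p.1 g, mul_inv_cancel, mul_one]
  · intro p _ q _ hpq
    simp only [Prod.mk.injEq, mul_right_inj] at hpq
    exact Prod.ext hpq.1 hpq.2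
  · intro p hp
    rw [Finset.mem_filter, Finset.mem_product, Finset.mem_image, Finset.mem_image] at hp
    obtain ⟨⟨⟨a, ha, ha'⟩, ⟨b, hb, hb'⟩⟩, h⟩ := hp
    refine ⟨(a, b), ?_, ?_⟩
    · rw [Finset.mem_filter, Finset.mem_product]
      refine ⟨⟨ha, hb⟩, ?_⟩
      rw [← h, ← ha', ← hb']
      simp only
      rw [mul_inv, ← mul_assoc, mul_comm g a, mul_assoc a g, mul_inv_cancel, mul_one]
    · exact Prod.ext ha' hb'

theorem exists_fixed {G : Type} [CommGroup G] [Fintype G] [DecidableEq G] {D : Finset G} {n m : ℕ}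
    (hn : 2 ≤ n) (hm : 3 ≤ m) (hv : Fintype.card G * (n - 1) = n ^ m - 1)
    (hk : D.card * (n - 1) = n ^ (m - 1) - 1)
    (hD : ∀ g : G, g ≠ 1 → ((D ×ˢ D).filter (fun p : G × G => p.1 * p.2⁻¹ = g)).card * (n - 1) =
      n ^ (m - 2) - 1)
    {t : ℕ} (ht : t.Coprime (Fintype.card G)) (I : Finset ℕ)
    (hI : ∀ p ∈ I, p.Prime ∧ p ∣ n ∧ ∃ j : ℕ, p ^ j ≡ t [MOD Fintype.card G])
    (hbig : n ^ (m - 2) - 1 < (n - 1) * ∏ p ∈ I, p ^ ((m - 2) * n.factorization p)) :
    ∃ D' : Finset G, D'.card = D.card ∧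
      (∀ g : G, g ≠ 1 → ((D' ×ˢ D').filter (fun p : G × G => p.1 * p.2⁻¹ = g)).card * (n - 1) =
        n ^ (m - 2) - 1) ∧ ∀ g ∈ D', g ^ t ∈ D' := by
  have hn1 : 0 < n - 1 := by omega
  have hv' : Fintype.card G = ∑ i ∈ Finset.range m, n ^ i := by
    apply Nat.eq_of_mul_eq_mul_right hn1
    rw [hv, a2_geom hn]
  have hk' : D.card = ∑ i ∈ Finset.range (m - 1), n ^ i := by
    apply Nat.eq_of_mul_eq_mul_right hn1
    rw [hk, a2_geom hn]
  set lam := ∑ i ∈ Finset.range (m - 2), n ^ i with hlam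
  have hlam' : ∀ g : G, g ≠ 1 → ((D ×ˢ D).filter (fun p : G × G => p.1 * p.2⁻¹ = g)).card = lam := by
    intro g hg
    apply Nat.eq_of_mul_eq_mul_right hn1
    rw [hD g hg, a2_geom hn]
  have hkl : D.card = lam + n ^ (m - 2) := by
    rw [hk', hlam, ← Finset.sum_range_succ]
    congr 2
    omega
  have hvk : Fintype.card G = n * D.card + 1 := by
    rw [hv', hk']
    obtain ⟨m', rfl⟩ : ∃ m', m = m' + 1 := ⟨m - 1, by omega⟩
    rw [Finset.sum_range_succ']
    simp only [Nat.add_sub_cancel, pow_zero]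
    rw [Finset.mul_sum]
    congr 1
    exact Finset.sum_congr rfl fun i _ => by rw [pow_succ, mul_comm]
  set n1 := ∏ p ∈ I, p ^ ((m - 2) * n.factorization p) with hn1def
  have hdvd : n1 ∣ n ^ (m - 2) := a2_prod_dvd hn I (fun p hp => ⟨(hI p hp).1, (hI p hp).2.1⟩) (m - 2)
  have hlt : lam < n1 := by
    have h1 : lam * (n - 1) < n1 * (n - 1) := by
      rw [hlam, a2_geom hn, mul_comm n1]; exact hbig
    exact Nat.lt_of_mul_lt_mul_right h1
  have hcard : Nat.card G = Fintype.card G := Nat.card_eq_fintype_card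
  have hcopn : (Nat.card G).Coprime n := by
    rw [hcard, hvk]
    rw [Nat.coprime_comm]
    simp
  have hcopk : (Nat.card G).Coprime D.card := by
    rw [hcard, hvk]
    rw [Nat.coprime_comm]
    simp
  have hcop1 : (Nat.card G).Coprime n1 := Nat.Coprime.coprime_dvd_right hdvd (hcopn.pow_right _)
  have hcopt : (Nat.card G).Coprime t := by rw [hcard]; exact ht.symm
  have hD1 := el_mul_iv D (lam := (lam : ℤ)) (fun g hg => by exact_mod_cast hlam' g hg)
  have hN : ((D.card : ℤ) - lam) = ((n ^ (m - 2) : ℕ) : ℤ) := by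
    rw [hkl]; push_cast; ring
  rw [hN] at hD1
  have htw := dvd_twist_comp (el D) hD1 (n₁ := n1) (by exact_mod_cast hdvd) hcop1 (m := t) (by
    intro r hr hrn
    have hrI : r ∈ I := a2_prime_mem I (fun p hp => (hI p hp).1) (m - 2) hr hrn
    obtain ⟨_, _, j, hj⟩ := hI r hrI
    refine ⟨j, fun x => ?_⟩
    rw [← pow_mod_card x t, ← pow_mod_card x (r ^ j)]
    exact congrArg _ hj.symm)
  obtain ⟨h, hh⟩ := multiplier_gen (el D) (fun g => by rw [coeff_el]; split_ifs <;> norm_num) hD1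
    (by positivity) (n₁ := n1) (by exact_mod_cast hdvd) (Or.inl (by exact_mod_cast hlt)) hcopt htw
  have hmap : ∀ d ∈ D, h⁻¹ * d ^ t ∈ D := a2_map hh
  have hpinj : Function.Injective (fun x : G => x ^ t) := by
    have := (powCoprime hcopt).injective
    intro a b hab
    exact this (by simpa using hab)
  have hprod : ∏ d ∈ D, d = ∏ d ∈ D, (h⁻¹ * d ^ t) := by
    have himg : D.image (fun d => h⁻¹ * d ^ t) = D := by
      refine Finset.eq_of_subset_of_card_le ?_ ?_
      · intro x hx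
        rw [Finset.mem_image] at hx
        obtain ⟨d, hd, rfl⟩ := hx
        exact hmap d hd
      · rw [Finset.card_image_of_injective]
        intro a b hab
        exact hpinj (mul_left_cancel hab)
    conv_lhs => rw [← himg]
    rw [Finset.prod_image]
    intro a _ b _ hab
    exact hpinj (mul_left_cancel hab)
  set P := ∏ d ∈ D, d with hP
  have hP2 : h ^ D.card * P = P ^ t := by
    rw [Finset.prod_mul_distrib, Finset.prod_const, Finset.prod_pow, ← hP] at hprod
    calc h ^ D.card * P = h ^ D.card * (h⁻¹ ^ D.card * P ^ t) := by rw [← hprod]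
      _ = P ^ t := by rw [← mul_assoc, ← mul_pow, mul_inv_cancel, one_pow, one_mul]
  obtain ⟨g, hg⟩ : ∃ g : G, g ^ D.card = P⁻¹ := by
    obtain ⟨g, hg⟩ := (powCoprime hcopk).surjective P⁻¹
    exact ⟨g, by simpa using hg⟩
  have hc : g ^ t * h * g⁻¹ = 1 := by
    have h1 : (g ^ t * h * g⁻¹) ^ D.card = 1 := by
      have h2 : (g ^ t * h * g⁻¹) ^ D.card = (g ^ D.card) ^ t * h ^ D.card * (g ^ D.card)⁻¹ := by
        rw [mul_pow, mul_pow, ← pow_mul, ← pow_mul, mul_comm t, inv_pow]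
      rw [h2, hg, inv_inv, mul_assoc, hP2, inv_pow, inv_mul_cancel]
    have h3 := (powCoprime hcopk).injective (a₁ := g ^ t * h * g⁻¹) (a₂ := 1) (by simpa using h1)
    exact h3
  refine ⟨D.image (fun d => g * d), ?_, ?_, ?_⟩
  · exact Finset.card_image_of_injective _ (mul_right_injective g)
  · intro x hx
    rw [a2_translate]
    exact hD x hx
  · intro x hx
    rw [Finset.mem_image] at hx
    obtain ⟨d, hd, rfl⟩ := hx
    rw [Finset.mem_image]
    refine ⟨h⁻¹ * d ^ t, hmap d hd, ?_⟩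
    have h4 : g ^ t * h = g := by
      rw [mul_inv_eq_one] at hc
      exact hc
    rw [mul_pow]
    calc g * (h⁻¹ * d ^ t) = (g ^ t * h) * (h⁻¹ * d ^ t) := by rw [h4]
      _ = g ^ t * d ^ t := by group

end Pool.Agent.Lib.MP_79499b_co.EO
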