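import Pool.Agent.Lib.MP_79499b_co.EO.QR

/-!
# A3: no difference set is fixed by a mover with small support

PROOF. Let `v = |G|`, `k = |D|`, `(n - 1) λ = n^(m-2) - 1`.  `G' = {g : g^(v/w) = 1}` (order `v / w`), `N = {g : g^w = 1}` (order `w`; `w`
prime to `v / w`).  For `d ∈ D`, `d ∉ G'`: the elements `d^(t^i)`, `0 ≤ i < l`, lie in `D` (`hfix`), are distinct (if `d^(t^i) = d^(t^j)`, `i < j`,
then the order of `d`, which is divisible by `w`, divides `t^j - t^i`, so `w ∣ t^(j-i) - 1`, but the order of `t` mod `w` is the prime `l`), and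
`d^(t^i) d⁻¹ = d^(t^i - 1) ∈ N` because `v / w ∣ t^i - 1`.  So every `d ∈ D \ G'` has at least `l - 1` partners `d' ∈ D`, `d' ≠ d`, with
`d' d⁻¹ ∈ N`; the number of such pairs is at most `λ (w - 1)` (each `g ≠ 1` in `N` has `λ` representations).  With `k0 = |D ∩ G'|`:
`(l - 1)(k - k0) ≤ λ (w - 1) ≤ λ n = k - 1` and `l ≥ 3` give `2 k0 ≥ k + 1`.
The quotients of pairs in `D ∩ G'` lie in `G'`: `k0 (k0 - 1) ≤ λ (v/w - 1)`, and `w λ (v/w - 1) ≤ λ (v - 1) = k (k - 1)`.
So `w (k + 1)(k - 1) ≤ 4 w k0 (k0 - 1) ≤ 4 k (k - 1)`, `w (k + 1) ≤ 4 k`, contradiction to `w ≥ 5` (`k ≥ 2`: `k ≥ n + 1`).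
-/

set_option autoImplicit false

namespace Pool.Agent.Lib.MP_79499b_co.EO

open Finset

private lemma a3_pairs {G : Type} [CommGroup G] [Fintype G] [DecidableEq G] {D S : Finset G}
    {lam : ℕ}
    (hD : ∀ g ∈ S, ((D ×ˢ D).filter (fun p : G × G => p.1 * p.2⁻¹ = g)).card = lam) :
    ((D ×ˢ D).filter (fun p : G × G => p.1 * p.2⁻¹ ∈ S)).card = S.card * lam := by
  rw [card_eq_sum_card_fiberwise (f := fun p : G × G => p.1 * p.2⁻¹) (t := S)]
  · rw [← smul_eq_mul, ← sum_const]
    refine sum_congr rfl fun g hg => ?_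
    rw [filter_filter, ← hD g hg]
    congr 1
    ext p
    simp only [mem_filter]
    constructor
    · rintro ⟨h1, h2, h3⟩
      exact ⟨h1, h3⟩
    · rintro ⟨h1, h3⟩
      exact ⟨h1, by rw [h3]; exact hg, h3⟩
  · intro p hp
    rw [mem_coe, mem_filter] at hp
    exact hp.2

private lemma a3_cardN {G : Type} [CommGroup G] [Fintype G] [DecidableEq G] {w : ℕ}
    (hw : w.Prime) (hw2 : ¬ w ^ 2 ∣ Fintype.card G) :
    (univ.filter (fun g : G => g ^ w = 1)).card ≤ w := by
  have : Fact w.Prime := ⟨hw⟩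
  let N : Subgroup G := (powMonoidHom w : G →* G).ker
  have h1 : (univ.filter (fun g : G => g ^ w = 1)).card = Nat.card N := by
    rw [← Fintype.card_subtype, ← Nat.card_eq_fintype_card]
    refine Nat.card_congr (Equiv.subtypeEquivRight fun x => ?_)
    simp [N, MonoidHom.mem_ker]
  have h2 : IsPGroup w N := by
    intro g
    refine ⟨1, ?_⟩
    have := g.2
    rw [MonoidHom.mem_ker] at this
    ext
    simpa using this
  obtain ⟨k, hk⟩ := IsPGroup.iff_card.mp h2
  have h3 : Nat.card N ∣ Nat.card G := Subgroup.card_subgroup_dvd_card N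
  rw [Nat.card_eq_fintype_card (α := G), hk] at h3
  have h4 : k ≤ 1 := by
    by_contra h
    exact hw2 ((pow_dvd_pow w (by omega)).trans h3)
  rw [h1, hk]
  calc w ^ k ≤ w ^ 1 := Nat.pow_le_pow_right hw.pos h4
    _ = w := pow_one w

private lemma a3_cardG {G : Type} [CommGroup G] [Fintype G] [DecidableEq G] {w m' : ℕ}
    (hw : w.Prime) (hG : Fintype.card G = w * m') (hwm : ¬ w ∣ m') :
    (univ.filter (fun g : G => g ^ m' = 1)).card ≤ m' := by
  have : Fact w.Prime := ⟨hw⟩
  let N : Subgroup G := (powMonoidHom m' : G →* G).ker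
  have h1 : (univ.filter (fun g : G => g ^ m' = 1)).card = Nat.card N := by
    rw [← Fintype.card_subtype, ← Nat.card_eq_fintype_card]
    refine Nat.card_congr (Equiv.subtypeEquivRight fun x => ?_)
    simp [N, MonoidHom.mem_ker]
  have h2 : ¬ w ∣ Nat.card N := by
    intro h
    obtain ⟨x, hx⟩ := exists_prime_orderOf_dvd_card' w h
    have h3 := x.2
    rw [MonoidHom.mem_ker] at h3
    have h4 : x ^ m' = 1 := by
      ext
      simpa using h3
    have h5 : orderOf x ∣ m' := orderOf_dvd_of_pow_eq_one h4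
    rw [hx] at h5
    exact hwm h5
  have h3 : Nat.card N ∣ Nat.card G := Subgroup.card_subgroup_dvd_card N
  rw [Nat.card_eq_fintype_card (α := G), hG] at h3
  have h4 : Nat.Coprime (Nat.card N) w := ((Nat.Prime.coprime_iff_not_dvd hw).mpr h2).symm
  have h5 : 0 < m' := by
    rcases Nat.eq_zero_or_pos m' with h | h
    · exact absurd (h ▸ dvd_zero w) hwm
    · exact h
  rw [h1]
  exact Nat.le_of_dvd h5 (h4.dvd_of_dvd_mul_left h3)

/-- the distinctness of the powers -/
private lemma a3_inj {G : Type} [CommGroup G] [Fintype G] [DecidableEq G] {w m' t l : ℕ}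
    (hw : w.Prime) (hG : Fintype.card G = w * m') (hl : l.Prime) (htl : t ^ l ≡ 1 [MOD w])
    (htw : ¬ t ≡ 1 [MOD w]) {d : G} (hd : ¬ d ^ m' = 1) {i j : ℕ} (hij : i < j) (hj : j < l)
    (h : d ^ (t ^ i) = d ^ (t ^ j)) : False := by
  have : Fact w.Prime := ⟨hw⟩
  have h1 : (d ^ m') ^ w = 1 := by
    rw [← pow_mul, mul_comm, ← hG, pow_card_eq_one]
  have h2 : orderOf (d ^ m') = w := orderOf_eq_prime h1 hd
  have h3 : (d ^ m') ^ (t ^ i) = (d ^ m') ^ (t ^ j) := by
    rw [← pow_mul, ← pow_mul, mul_comm m', mul_comm m', pow_mul, pow_mul, h]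
  rw [pow_eq_pow_iff_modEq, h2] at h3
  have htw0 : Nat.Coprime t w := by
    have h4 : Nat.Coprime (t ^ l) w := by
      have := htl.gcd_eq
      rw [Nat.gcd_one_left] at this
      exact this
    exact Nat.Coprime.coprime_dvd_left (dvd_pow_self t hl.ne_zero) h4
  have h5 : 1 ≡ t ^ (j - i) [MOD w] := by
    refine Nat.ModEq.cancel_left_of_coprime (c := t ^ i) ?_ ?_
    · exact (Nat.Coprime.pow_left i htw0).symm
    · rw [← pow_add, Nat.add_sub_cancel' hij.le, mul_one]
      exact h3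
  -- order of t in ZMod w divides both l and j - i
  have h6 : orderOf (t : ZMod w) ∣ l := by
    rw [orderOf_dvd_iff_pow_eq_one]
    have := (ZMod.natCast_eq_natCast_iff _ _ _).mpr htl
    simpa using this
  have h7 : orderOf (t : ZMod w) ∣ j - i := by
    rw [orderOf_dvd_iff_pow_eq_one]
    have := (ZMod.natCast_eq_natCast_iff _ _ _).mpr h5
    simpa using this.symm
  have h8 : Nat.Coprime l (j - i) := by
    refine (Nat.Prime.coprime_iff_not_dvd hl).mpr ?_
    intro h
    have := Nat.le_of_dvd (by omega) h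
    omega
  have h9 : orderOf (t : ZMod w) ∣ 1 := by
    rw [← h8]
    exact Nat.dvd_gcd h6 h7
  rw [Nat.dvd_one, orderOf_eq_one_iff] at h9
  apply htw
  rw [← ZMod.natCast_eq_natCast_iff]
  simpa using h9

theorem fixed_contra {G : Type} [CommGroup G] [Fintype G] [DecidableEq G] {D : Finset G} {n m : ℕ}
    (hn : 2 ≤ n) (hm : 3 ≤ m) (hv : Fintype.card G * (n - 1) = n ^ m - 1)
    (hk : D.card * (n - 1) = n ^ (m - 1) - 1)
    (hD : ∀ g : G, g ≠ 1 → ((D ×ˢ D).filter (fun p : G × G => p.1 * p.2⁻¹ = g)).card * (n - 1) =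
      n ^ (m - 2) - 1)
    {t w l : ℕ} (hw : w.Prime) (hw5 : 5 ≤ w) (hwn : w ≤ n + 1) (hwv : w ∣ Fintype.card G)
    (hw2 : ¬ w ^ 2 ∣ Fintype.card G) (hl : l.Prime) (hl3 : 3 ≤ l)
    (ht : t.Coprime (Fintype.card G)) (ht1 : t ≡ 1 [MOD Fintype.card G / w])
    (htl : t ^ l ≡ 1 [MOD Fintype.card G]) (htw : ¬ t ≡ 1 [MOD w])
    (hfix : ∀ g ∈ D, g ^ t ∈ D) : False := by
  obtain ⟨m', hG⟩ := hwv
  have hwm : ¬ w ∣ m' := by
    rintro ⟨c, rfl⟩
    exact hw2 ⟨c, by rw [hG]; ring⟩
  rw [hG, Nat.mul_div_cancel_left m' hw.pos] at ht1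
  rw [hG] at htl
  have hm'0 : 0 < m' := by
    rcases Nat.eq_zero_or_pos m' with h | h
    · exact absurd (h ▸ dvd_zero w) hwm
    · exact h
  -- the number lam
  obtain ⟨r, rfl⟩ : ∃ r, m = r + 2 := ⟨m - 2, by omega⟩
  have e1 : r + 2 - 1 = r + 1 := by omega
  have e2 : r + 2 - 2 = r := by omega
  rw [e1] at hk
  rw [e2] at hD
  obtain ⟨q, rfl⟩ : ∃ q, n = q + 1 := ⟨n - 1, by omega⟩
  rw [Nat.add_sub_cancel] at hv hk hD
  obtain ⟨lam, hlam⟩ : ∃ lam, lam * q = (q + 1) ^ r - 1 := by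
    obtain ⟨c, hc⟩ : q ∣ (q + 1) ^ r - 1 := by
      have := Nat.sub_one_dvd_pow_sub_one (q + 1) r
      rwa [Nat.add_sub_cancel] at this
    exact ⟨c, by rw [hc, mul_comm]⟩
  have hq : 0 < q := by omega
  have hD' : ∀ g : G, g ≠ 1 →
      ((D ×ˢ D).filter (fun p : G × G => p.1 * p.2⁻¹ = g)).card = lam := by
    intro g hg
    have := hD g hg
    rw [← hlam] at this
    exact Nat.eq_of_mul_eq_mul_right hq this
  -- numerical relations
  have hp0 : 1 ≤ (q + 1) ^ r := Nat.one_le_pow _ _ (by omega)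
  have hL : lam * q + 1 = (q + 1) ^ r := by omega
  have hk1 : D.card = (q + 1) * lam + 1 := by
    have h1 : D.card * q + 1 = (q + 1) ^ (r + 1) := by
      have : 1 ≤ (q + 1) ^ (r + 1) := Nat.one_le_pow _ _ (by omega)
      omega
    rw [pow_succ, ← hL] at h1
    have h2 : D.card * q = ((q + 1) * lam + 1) * q := by
      have h4 : ((q + 1) * lam + 1) * q + 1 = (lam * q + 1) * (q + 1) := by ring
      exact Nat.add_right_cancel (h1.trans h4.symm)
    exact Nat.eq_of_mul_eq_mul_right hq h2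
  have hv1 : Fintype.card G = (q + 1) * D.card + 1 := by
    have h1 : Fintype.card G * q + 1 = (q + 1) ^ (r + 2) := by
      have : 1 ≤ (q + 1) ^ (r + 2) := Nat.one_le_pow _ _ (by omega)
      omega
    have h3 : D.card * q + 1 = (q + 1) ^ (r + 1) := by
      have : 1 ≤ (q + 1) ^ (r + 1) := Nat.one_le_pow _ _ (by omega)
      omega
    rw [pow_succ, ← h3] at h1
    have h2 : Fintype.card G * q = ((q + 1) * D.card + 1) * q := by
      have h4 : ((q + 1) * D.card + 1) * q + 1 = (D.card * q + 1) * (q + 1) := by ring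
      exact Nat.add_right_cancel (h1.trans h4.symm)
    exact Nat.eq_of_mul_eq_mul_right hq h2
  have hlam1 : 1 ≤ lam := by
    rcases Nat.eq_zero_or_pos lam with h | h
    · rw [h] at hL
      have : 1 < (q + 1) ^ r := Nat.one_lt_pow (by omega) (by omega)
      omega
    · exact h
  -- iterates
  have hiter : ∀ (i : ℕ) (d : G), d ∈ D → d ^ (t ^ i) ∈ D := by
    intro i
    induction i with
    | zero => intro d hd; simpa using hd
    | succ i ih =>
      intro d hd
      rw [pow_succ, pow_mul]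
      exact hfix _ (ih d hd)
  -- the pairs with quotient in N
  set N : Finset G := (univ.filter (fun g : G => g ^ w = 1)).erase 1 with hN
  set G' : Finset G := univ.filter (fun g : G => g ^ m' = 1) with hG'
  have hNc : N.card ≤ w - 1 := by
    rw [hN, card_erase_of_mem (by simp)]
    exact Nat.sub_le_sub_right (a3_cardN hw hw2) 1
  have hG'c : (G'.erase 1).card ≤ m' - 1 := by
    rw [card_erase_of_mem (by simp [hG'])]
    exact Nat.sub_le_sub_right (a3_cardG hw hG hwm) 1
  have hP1 : ((D ×ˢ D).filter (fun p : G × G => p.1 * p.2⁻¹ ∈ N)).card = N.card * lam := by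
    refine a3_pairs fun g hg => hD' g ?_
    exact (mem_erase.mp hg).1
  have hP2 : ((D ×ˢ D).filter (fun p : G × G => p.1 * p.2⁻¹ ∈ G'.erase 1)).card
      = (G'.erase 1).card * lam := by
    refine a3_pairs fun g hg => hD' g ?_
    exact (mem_erase.mp hg).1
  set D0 : Finset G := D.filter (fun d => d ∈ G') with hD0
  have hsplit : (D.filter (fun d => ¬ d ∈ G')).card + D0.card = D.card := by
    rw [add_comm]
    exact card_filter_add_card_filter_not (s := D) (fun d => d ∈ G')
  -- lower bound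
  have hlow : (D.filter (fun d => ¬ d ∈ G')).card * (l - 1) ≤ N.card * lam := by
    rw [← hP1]
    have h1 : (D.filter (fun d => ¬ d ∈ G')).card * (l - 1)
        = ((D.filter (fun d => ¬ d ∈ G')) ×ˢ Ico 1 l).card := by
      rw [card_product, Nat.card_Ico]
    rw [h1]
    refine card_le_card_of_injOn (fun p => (p.1 ^ (t ^ p.2), p.1)) ?_ ?_
    · rintro ⟨d, i⟩ hp
      rw [mem_coe, mem_product, mem_filter, mem_Ico] at hp
      obtain ⟨⟨hd, hdG⟩, hi1, hil⟩ := hp
      simp only at hd hdG hi1 hil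
      rw [mem_coe, mem_filter, mem_product]
      refine ⟨⟨hiter i d hd, hd⟩, ?_⟩
      simp only
      have hdG' : ¬ d ^ m' = 1 := by simpa [hG'] using hdG
      rw [hN, mem_erase, mem_filter]
      refine ⟨?_, mem_univ _, ?_⟩
      · intro h
        rw [mul_inv_eq_one] at h
        refine a3_inj hw hG hl (htl.of_mul_right m') htw hdG' (i := 0) (j := i) (by omega) hil ?_
        rw [pow_zero, pow_one]
        exact h.symm
      · have h2 : t ^ i ≡ 1 [MOD m'] := by simpa using ht1.pow i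
        have h3 : w * t ^ i ≡ w * 1 [MOD w * m'] := h2.mul_left' w
        rw [mul_pow, ← pow_mul, inv_pow, mul_inv_eq_one]
        rw [mul_one, ← hG] at h3
        rw [mul_comm]
        rw [pow_eq_pow_iff_modEq]
        exact h3.of_dvd (orderOf_dvd_card)
    · rintro ⟨d, i⟩ hp ⟨d', i'⟩ hp' heq
      rw [mem_coe, mem_product, mem_filter, mem_Ico] at hp hp'
      obtain ⟨⟨hd, hdG⟩, hi1, hil⟩ := hp
      obtain ⟨⟨hd', hdG'⟩, hi1', hil'⟩ := hp'
      simp only at hd hdG hi1 hil hd' hdG' hi1' hil'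
      simp only [Prod.mk.injEq] at heq
      obtain ⟨h1, rfl⟩ := heq
      have hdG'' : ¬ d ^ m' = 1 := by simpa [hG'] using hdG
      rcases lt_trichotomy i i' with h | h | h
      · exact (a3_inj hw hG hl (htl.of_mul_right m') htw hdG'' h hil' h1).elim
      · rw [h]
      · exact (a3_inj hw hG hl (htl.of_mul_right m') htw hdG'' h hil h1.symm).elim
  have hlow2 : D0.card * D0.card - D0.card ≤ (G'.erase 1).card * lam := by
    rw [← hP2, ← offDiag_card]
    refine card_le_card ?_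
    rintro ⟨a, b⟩ hab
    rw [mem_offDiag] at hab
    obtain ⟨ha, hb, hne⟩ := hab
    simp only [hD0, mem_filter] at ha hb
    rw [mem_filter, mem_product, mem_erase]
    refine ⟨⟨ha.1, hb.1⟩, ?_, ?_⟩
    · simp only
      rw [Ne, mul_inv_eq_one]
      exact hne
    · have ha2 : a ^ m' = 1 := by simpa [hG'] using ha.2
      have hb2 : b ^ m' = 1 := by simpa [hG'] using hb.2
      simp [hG', mul_pow, ha2, hb2]
  -- the arithmetic
  have f1 : (D.filter (fun d => ¬ d ∈ G')).card * 2 ≤ (q + 1) * lam := by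
    calc (D.filter (fun d => ¬ d ∈ G')).card * 2
        ≤ (D.filter (fun d => ¬ d ∈ G')).card * (l - 1) := Nat.mul_le_mul_left _ (by omega)
      _ ≤ N.card * lam := hlow
      _ ≤ (q + 1) * lam := Nat.mul_le_mul_right _ (by omega)
  have f2 : D.card + 1 ≤ 2 * D0.card := by omega
  have f3 : D0.card * D0.card - D0.card ≤ (m' - 1) * lam :=
    hlow2.trans (Nat.mul_le_mul_right _ hG'c)
  -- integers
  have g1 : ((D.card : ℤ)) = (q + 1) * lam + 1 := by exact_mod_cast hk1
  have g2 : (w : ℤ) * m' = (q + 1) * D.card + 1 := by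
    rw [hG] at hv1
    exact_mod_cast hv1
  have g3 : ((D.card : ℤ)) + 1 ≤ 2 * D0.card := by exact_mod_cast f2
  have g4 : ((D0.card : ℤ)) * D0.card - D0.card ≤ (m' - 1) * lam := by
    have h1 : D0.card ≤ D0.card * D0.card := Nat.le_mul_self _
    have h2 : ((D0.card * D0.card - D0.card : ℕ) : ℤ) ≤ (((m' - 1) * lam : ℕ) : ℤ) := by
      exact_mod_cast f3
    rw [Nat.cast_sub h1, Nat.cast_mul, Nat.cast_mul, Nat.cast_sub (by omega)] at h2
    push_cast at h2
    exact h2
  have g5 : (5 : ℤ) ≤ w := by exact_mod_cast hw5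
  have g6 : (1 : ℤ) ≤ lam := by exact_mod_cast hlam1
  have g7 : (1 : ℤ) ≤ q := by exact_mod_cast hq
  have g8 : (2 : ℤ) ≤ D.card := by
    rw [g1]; nlinarith
  generalize (D.card : ℤ) = k at *
  generalize (D0.card : ℤ) = k0 at *
  generalize (w : ℤ) = W at *
  generalize (m' : ℤ) = M at *
  generalize (lam : ℤ) = L at *
  generalize (q : ℤ) = Q at *
  -- W * (k0^2 - k0) ≤ (W M - W) L ≤ Q' k L = k (k - 1)
  have a1 : W * (k0 * k0 - k0) ≤ k * (k - 1) := by
    have b1 : W * (k0 * k0 - k0) ≤ W * ((M - 1) * L) := mul_le_mul_of_nonneg_left g4 (by linarith)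
    have b2 : W * ((M - 1) * L) = ((Q + 1) * k + 1 - W) * L := by
      rw [← g2]; ring
    have b3 : ((Q + 1) * k + 1 - W) * L ≤ ((Q + 1) * k) * L :=
      mul_le_mul_of_nonneg_right (by linarith) (by linarith)
    have b4 : ((Q + 1) * k) * L = k * (k - 1) := by
      rw [g1]; ring
    linarith
  have a2 : (k + 1) * (k - 1) ≤ 4 * (k0 * k0 - k0) := by
    have b1 : k * k ≤ (2 * k0 - 1) * (2 * k0 - 1) :=
      mul_self_le_mul_self (by linarith) (by linarith)
    linarith
  have a3 : W * ((k + 1) * (k - 1)) ≤ 4 * (k * (k - 1)) := by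
    have : W * ((k + 1) * (k - 1)) ≤ W * (4 * (k0 * k0 - k0)) :=
      mul_le_mul_of_nonneg_left a2 (by linarith)
    linarith
  have a4 : 5 * ((k + 1) * (k - 1)) ≤ W * ((k + 1) * (k - 1)) :=
    mul_le_mul_of_nonneg_right g5 (mul_nonneg (by linarith) (by linarith))
  have a5 : 0 < (k - 1) * (k + 5) := mul_pos (by linarith) (by linarith)
  linarith

end Pool.Agent.Lib.MP_79499b_co.EO
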