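import Pool.Agent.Lib.MP_79499b_co.EO.A1
import Pool.Agent.Lib.MP_79499b_co.EO.A2
import Pool.Agent.Lib.MP_79499b_co.EO.A3

/-!
# A4: the exclusion theorem

PROOF. `|G| = vv m n` (`vv_mul`).  `exists_mover` with `v = vv m n` (`p ∣ n` is prime to `vv m n = 1 mod n`), `exists_fixed`,
`fixed_contra`.
-/

set_option autoImplicit false

namespace Pool.Agent.Lib.MP_79499b_co.EO

open Finset

private lemma a4_coprime {n m p : ℕ} (hm : 1 ≤ m) (hp : p ∣ n) : p.Coprime (vv m n) := by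
  obtain ⟨k, rfl⟩ : ∃ k, m = k + 1 := ⟨m - 1, by omega⟩
  have h1 : vv (k + 1) n = 1 + n * ∑ i ∈ range k, n ^ i := by
    unfold vv
    rw [sum_range_succ', mul_sum, pow_zero, add_comm]
    congr 1
    exact sum_congr rfl fun i _ => by ring
  rw [h1]
  obtain ⟨c, hc⟩ := hp
  have h2 : 1 + n * ∑ i ∈ range k, n ^ i = 1 + p * (c * ∑ i ∈ range k, n ^ i) := by
    nth_rewrite 1 [hc]
    ring
  rw [h2]
  simp

theorem excluded {n m : ℕ} (hn : 2 ≤ n) (hm : 3 ≤ m) (ho : AbOrder n m)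
    {w l : ℕ} (hw : w.Prime) (hw5 : 5 ≤ w) (hwn : w ≤ n + 1) (hwv : w ∣ vv m n)
    (hl : l.Prime) (hl3 : 3 ≤ l) (hlw : l ∣ w - 1) (hEv : ¬ Ev m w l n)
    (I : Finset ℕ) (hI : ∀ p ∈ I, p.Prime ∧ p ∣ n ∧ l ∣ orderOf (p : ZMod w))
    (hbig : n ^ (m - 2) - 1 < (n - 1) * ∏ p ∈ I, p ^ ((m - 2) * n.factorization p)) : False := by
  obtain ⟨G, _, _, _, D, hG, hk, hD⟩ := ho
  have hvv : vv m n * (n - 1) = n ^ m - 1 := by
    unfold vv
    exact Nat.geomSum_eq (m := n) (by omega) m ▸ by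
      rw [Nat.div_mul_cancel]
      exact Nat.sub_one_dvd_pow_sub_one n m
  have hcard : Fintype.card G = vv m n := by
    have h1 : Fintype.card G * (n - 1) = vv m n * (n - 1) := by rw [hG, hvv]
    exact Nat.eq_of_mul_eq_mul_right (by omega) h1
  unfold Ev at hEv
  push Not at hEv
  obtain ⟨hw2, hlv, hu⟩ := hEv hwv
  have hv0 : 0 < vv m n := by
    rw [← hcard]; exact Fintype.card_pos
  obtain ⟨t, ht, ht1, htl, htw, htI⟩ := exists_mover hv0 hw hwv hw2 hl hlw hlv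
    (fun u hu1 hu2 hu3 hu4 => hu u hu1 hu3 hu4 hu2) I
    (fun p hp => ⟨a4_coprime (by omega) (hI p hp).2.1, (hI p hp).2.2⟩)
  rw [← hcard] at ht ht1 htl htI hwv hw2
  obtain ⟨D', hD'c, hD', hfix⟩ := exists_fixed hn hm hG hk hD ht I
    (fun p hp => ⟨(hI p hp).1, (hI p hp).2.1, htI p hp⟩) hbig
  exact fixed_contra hn hm hG (by rw [hD'c]; exact hk) hD' hw hw5 hwn hwv hw2 hl hl3 ht ht1 htl htw
    hfix

end Pool.Agent.Lib.MP_79499b_co.EO
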