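import Pool.Agent.Lib.MP_79499b_co.EO.S1

/-!
# S2: large smooth parts are rare

PROOF. `sm_facts`: `n = sm y n * u` where `u` has only prime factors `> y` (`Nat.factorization_prod_pow_eq_self`).
`sm_count`: if `S ≤ sm y n` and `1 ≤ n < x` then `n` is a multiple of a `y`-smooth `j ≥ S`, `j < x`; for each `j` at most `x / j`
such `n`.  Sum with `rankin_tail`.
`bad_w`: for `j ≤ M` with `W ≤ j`, `j < (sm y j)^4`: `j = t u`, `t = sm y j`, `t ≥ W^(1/4)`, `t` smooth, `u ≤ M`; so the sum is at most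
`(∑_{t smooth, t ≥ W^(1/4), t ≤ M} 1/t) (∑_{u ≤ M} 1/u)`.
-/

set_option autoImplicit false

namespace Pool.Agent.Lib.MP_79499b_co.EO

open Finset
open scoped Classical

theorem sm_facts (y n : ℕ) (hn : 1 ≤ n) : 1 ≤ sm y n ∧ (∀ p ∈ (sm y n).primeFactors, p ≤ y) ∧
    sm y n * ∏ p ∈ n.primeFactors.filter (fun p => y < p), p ^ n.factorization p = n := by
  refine ⟨?_, ?_, ?_⟩
  · unfold sm
    refine Nat.one_le_iff_ne_zero.mpr (prod_ne_zero_iff.mpr ?_)
    intro p hp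
    rw [mem_filter, Nat.mem_primeFactors] at hp
    exact pow_ne_zero _ hp.1.1.ne_zero
  · intro p hp
    rw [Nat.mem_primeFactors] at hp
    obtain ⟨hp1, hp2, _⟩ := hp
    unfold sm at hp2
    obtain ⟨q, hq, hpq⟩ := (Nat.prime_iff.mp hp1).exists_mem_finset_dvd hp2
    rw [mem_filter, Nat.mem_primeFactors] at hq
    have h1 := hp1.dvd_of_dvd_pow hpq
    rw [Nat.prime_dvd_prime_iff_eq hp1 hq.1.1] at h1
    rw [h1]
    exact hq.2
  · have h1 : ∏ p ∈ n.primeFactors, p ^ n.factorization p = n :=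
      Nat.prod_factorization_pow_eq_self (by omega)
    unfold sm
    have h2 : n.primeFactors.filter (fun p => y < p)
        = n.primeFactors.filter (fun p => ¬ p ≤ y) := by
      refine filter_congr fun p _ => ?_
      rw [not_le]
    rw [h2, prod_filter_mul_prod_filter_not]
    exact h1

private lemma s2_mult (x j : ℕ) (hj : 1 ≤ j) :
    cnt x (fun n => 1 ≤ n ∧ j ∣ n) ≤ x * ((1 : ℝ) / j) := by
  unfold cnt
  refine (Nat.cast_le.mpr (?_ : _ ≤ x / j)).trans ?_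
  · rw [← Nat.Ioc_filter_dvd_card_eq_div]
    refine card_le_card ?_
    intro n hn
    simp only [mem_filter, mem_range] at hn
    simp only [mem_filter, mem_Ioc]
    exact ⟨⟨by omega, by omega⟩, hn.2.2⟩
  · calc ((x / j : ℕ) : ℝ) ≤ (x : ℝ) / j := Nat.cast_div_le
      _ = x * ((1 : ℝ) / j) := by ring

theorem sm_count : ∃ C : ℝ, 0 < C ∧ ∀ (y x : ℕ) (S σ : ℝ), 2 ≤ y → 1 ≤ S → 0 < σ → σ ≤ 1 / 4 →
    cnt x (fun n => 1 ≤ n ∧ S ≤ (sm y n : ℝ)) ≤
      x * (S ^ (-σ) * Real.exp (C * (y : ℝ) ^ σ * (1 + Real.log (1 + Real.log y)))) := by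
  obtain ⟨C, hC, h⟩ := rankin_tail
  refine ⟨C, hC, ?_⟩
  intro y x S σ hy hS hσ hσ'
  have h1 := h y x S σ hy hS hσ hσ'
  set T := (Icc 1 x).filter (fun j : ℕ => (∀ p ∈ j.primeFactors, p ≤ y) ∧ S ≤ (j : ℝ)) with hT
  calc cnt x (fun n => 1 ≤ n ∧ S ≤ (sm y n : ℝ))
      ≤ cnt x (fun n => ∃ j ∈ T, 1 ≤ n ∧ j ∣ n) := by
        refine cnt_mono fun n hn hh => ?_
        obtain ⟨g1, g2, g3⟩ := sm_facts y n hh.1
        have g4 : sm y n ∣ n := ⟨_, g3.symm⟩
        refine ⟨sm y n, ?_, hh.1, g4⟩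
        rw [hT, mem_filter, mem_Icc]
        exact ⟨⟨g1, (Nat.le_of_dvd hh.1 g4).trans hn.le⟩, g2, hh.2⟩
    _ ≤ ∑ j ∈ T, cnt x (fun n => 1 ≤ n ∧ j ∣ n) := cnt_exists x T (fun j n => 1 ≤ n ∧ j ∣ n)
    _ ≤ ∑ j ∈ T, x * ((1 : ℝ) / j) := by
        refine sum_le_sum fun j hj => s2_mult x j ?_
        rw [hT, mem_filter, mem_Icc] at hj
        exact hj.1.1
    _ = x * ∑ j ∈ T, (1 : ℝ) / j := by rw [mul_sum]
    _ ≤ _ := mul_le_mul_of_nonneg_left h1 (Nat.cast_nonneg _)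

theorem bad_w : ∃ C : ℝ, 0 < C ∧ ∀ (y M : ℕ) (W σ : ℝ), 2 ≤ y → 1 ≤ M → 1 ≤ W → 0 < σ → σ ≤ 1 / 4 →
    ∑ j ∈ (Icc 1 M).filter (fun j : ℕ => W ≤ (j : ℝ) ∧ j < (sm y j) ^ 4), (1 : ℝ) / j ≤
      (1 + Real.log M) *
        (W ^ (-σ / 4) * Real.exp (C * (y : ℝ) ^ σ * (1 + Real.log (1 + Real.log y)))) := by
  obtain ⟨C, hC, h⟩ := rankin_tail
  refine ⟨C, hC, ?_⟩
  intro y M W σ hy hM hW hσ hσ'
  have hW4 : 1 ≤ W ^ ((1 : ℝ) / 4) := Real.one_le_rpow hW (by norm_num)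
  have h1 := h y M (W ^ ((1 : ℝ) / 4)) σ hy hW4 hσ hσ'
  set T := (Icc 1 M).filter
    (fun j : ℕ => (∀ p ∈ j.primeFactors, p ≤ y) ∧ W ^ ((1 : ℝ) / 4) ≤ (j : ℝ)) with hT
  have hpow : (W ^ ((1 : ℝ) / 4)) ^ (-σ) = W ^ (-σ / 4) := by
    rw [← Real.rpow_mul (by linarith)]
    congr 1
    ring
  rw [hpow] at h1
  have h2 : ∑ u ∈ Icc 1 M, (1 : ℝ) / u ≤ 1 + Real.log M := by
    have := harmonic_le_one_add_log M
    rw [harmonic_eq_sum_Icc] at this
    push_cast at this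
    simpa [one_div] using this
  have hharm : 0 ≤ ∑ u ∈ Icc 1 M, (1 : ℝ) / u := sum_nonneg fun _ _ => by positivity
  calc ∑ j ∈ (Icc 1 M).filter (fun j : ℕ => W ≤ (j : ℝ) ∧ j < (sm y j) ^ 4), (1 : ℝ) / j
      ≤ ∑ q ∈ T ×ˢ Icc 1 M, ((1 : ℝ) / q.1) * ((1 : ℝ) / q.2) := by
        have h3 : ∀ j ∈ (Icc 1 M).filter (fun j : ℕ => W ≤ (j : ℝ) ∧ j < (sm y j) ^ 4),
            (sm y j, j / sm y j) ∈ T ×ˢ Icc 1 M ∧ (sm y j) * (j / sm y j) = j := by
          intro j hj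
          rw [mem_filter, mem_Icc] at hj
          obtain ⟨⟨hj1, hjM⟩, hWj, hjs⟩ := hj
          obtain ⟨g1, g2, g3⟩ := sm_facts y j hj1
          have g4 : sm y j ∣ j := ⟨_, g3.symm⟩
          have g5 : sm y j * (j / sm y j) = j := Nat.mul_div_cancel' g4
          refine ⟨?_, g5⟩
          rw [mem_product, hT, mem_filter, mem_Icc, mem_Icc]
          refine ⟨⟨⟨g1, (Nat.le_of_dvd hj1 g4).trans hjM⟩, g2, ?_⟩, ?_, ?_⟩
          · have g6 : W ≤ ((sm y j : ℕ) : ℝ) ^ 4 := by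
              have : (j : ℝ) ≤ ((sm y j : ℕ) : ℝ) ^ 4 := by exact_mod_cast hjs.le
              linarith
            calc W ^ ((1 : ℝ) / 4) ≤ (((sm y j : ℕ) : ℝ) ^ 4) ^ ((1 : ℝ) / 4) :=
                  Real.rpow_le_rpow (by linarith) g6 (by norm_num)
              _ = ((sm y j : ℕ) : ℝ) := by
                  rw [← Real.rpow_natCast, ← Real.rpow_mul (Nat.cast_nonneg _)]
                  norm_num
          · exact Nat.div_pos (Nat.le_of_dvd hj1 g4) (by omega)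
          · exact (Nat.div_le_self _ _).trans hjM
        have h4 : ∑ j ∈ (Icc 1 M).filter (fun j : ℕ => W ≤ (j : ℝ) ∧ j < (sm y j) ^ 4),
            (1 : ℝ) / j = ∑ q ∈ ((Icc 1 M).filter (fun j : ℕ => W ≤ (j : ℝ) ∧
              j < (sm y j) ^ 4)).image (fun j => (sm y j, j / sm y j)),
              ((1 : ℝ) / q.1) * ((1 : ℝ) / q.2) := by
          rw [sum_image]
          · refine sum_congr rfl fun j hj => ?_
            have h5 := (h3 j hj).2
            have h6 : (j : ℝ) = (sm y j : ℝ) * ((j / sm y j : ℕ) : ℝ) := by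
              rw [← Nat.cast_mul, h5]
            simp only
            nth_rewrite 1 [h6]
            rw [one_div_mul_one_div]
          · intro i hi j hj hij
            simp only [Prod.mk.injEq] at hij
            calc i = sm y i * (i / sm y i) := (h3 i hi).2.symm
              _ = sm y j * (j / sm y j) := by rw [hij.2, hij.1]
              _ = j := (h3 j hj).2
        rw [h4]
        refine sum_le_sum_of_subset_of_nonneg ?_ fun _ _ _ => by positivity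
        intro q hq
        rw [mem_image] at hq
        obtain ⟨j, hj, rfl⟩ := hq
        exact (h3 j hj).1
    _ = (∑ t ∈ T, (1 : ℝ) / t) * ∑ u ∈ Icc 1 M, (1 : ℝ) / u := by
        rw [sum_mul_sum, sum_product]
    _ ≤ (W ^ (-σ / 4) * Real.exp (C * (y : ℝ) ^ σ * (1 + Real.log (1 + Real.log y)))) *
          (1 + Real.log M) := mul_le_mul h1 h2 hharm (by positivity)
    _ = _ := by ring

end Pool.Agent.Lib.MP_79499b_co.EO
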