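import Pool.Agent.Lib.MP_79499b_co.EO.A4
import Pool.Agent.Lib.MP_79499b_co.EO.S2

/-!
# B1: for a composite order and a good prime `w` one of the rare events occurs

PROOF. Suppose none of the three alternatives holds.
(i) `n` has a prime factor `p` with `x < p w`.  `r = n / p`: `r ≥ 2` (`n` is not prime), `r < w` (`r p = n < x < p w`), `r ∣ n`.  By the third
alternative `w < (orderOf r)^4`, so `orderOf (r : ZMod w) > sm Λ (w - 1)`; `orderOf r ∣ w - 1` (`r` prime to `w`), so `orderOf r` has a prime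
factor `l > Λ` (a divisor of `w - 1` all of whose prime factors are `≤ Λ` divides `sm Λ (w - 1)`).  `n^m = 1` in `ZMod w`
(`(n - 1) vv m n = n^m - 1`), `n = p r`, so `(p^m) (r^m) = 1`; if `l ∤ orderOf p` then, with `T = orderOf p`, `r^(m T) = 1`, so
`l ∣ m T`, `l ∣ m`, impossible as `l > Λ ≥ 7`, `m ≤ 6`.  So `l ∣ orderOf p`.  Apply `excluded` with `I = {p}`: `hbig`: `p ≥ (n + 1)/w`, so
`(n - 1) p^(m-2) w^(m-2) ≥ (n-1) n^(m-2)` and `n - 1 ≥ w^(m-2)` (`w ≤ y`, `(y+1)^6 ≤ n`).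
(ii) All prime factors `p` of `n` satisfy `p w ≤ x`.  `w - 1 > sm Λ (w - 1)` (`17 ≤ w`, `(sm)^4 ≤ w`), so `w - 1` has a prime factor `l > Λ`.
By the second alternative every prime `p ∣ n`, `p > w`, has `l ∣ orderOf p`.  Apply `excluded` with `I` = the prime factors `p > y` of `n`:
`∏_{p ∈ I} p^((m-2) v_p(n)) = (n / sm y n)^(m-2)` (`sm_facts`) and `n - 1 ≥ (sm y n)^4 ≥ (sm y n)^(m-2)`.
`w ≤ n + 1` since `w ≤ y`, `(y + 1)^6 ≤ n`.
-/

set_option autoImplicit false

namespace Pool.Agent.Lib.MP_79499b_co.EO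

open Finset

theorem b1_factor {Λ W D : ℕ} (hW : 1 ≤ W) (hD : D ∣ W) (h : sm Λ W < D) :
    ∃ l : ℕ, l.Prime ∧ Λ < l ∧ l ∣ D := by
  by_contra hcon
  push Not at hcon
  obtain ⟨h1, -, h3⟩ := sm_facts Λ W hW
  have hD0 : D ≠ 0 := by
    rintro rfl
    omega
  have hcop : Nat.Coprime D (∏ p ∈ W.primeFactors.filter (fun p => Λ < p), p ^ W.factorization p) := by
    apply Nat.Coprime.prod_right
    intro p hp
    rw [mem_filter, Nat.mem_primeFactors] at hp
    obtain ⟨⟨hp1, hp2, hp3⟩, hp4⟩ := hp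
    apply Nat.Coprime.pow_right
    exact ((Nat.Prime.coprime_iff_not_dvd hp1).mpr (hcon p hp1 hp4)).symm
  have h4 : D ∣ sm Λ W := by
    rw [← h3] at hD
    exact hcop.dvd_of_dvd_mul_right hD
  have h5 := Nat.le_of_dvd h1 h4
  omega

theorem ded {m n x w y Λ : ℕ} (hm : m = 4 ∨ m = 6) (hn2 : 2 ≤ n) (hnx : n < x) (hnp : ¬ n.Prime)
    (ho : AbOrder n m) (hw : w.Prime) (hwy : w ≤ y) (hyn : (y + 1) ^ 6 ≤ n)
    (hsm : (sm y n) ^ 4 + 1 ≤ n) (hΛ : 7 ≤ Λ) (hwΛ : (sm Λ (w - 1)) ^ 4 ≤ w) (hw17 : 17 ≤ w)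
    (hwv : w ∣ vv m n) :
    (∃ l : ℕ, l.Prime ∧ l ∣ w - 1 ∧ Λ < l ∧ Ev m w l n) ∨
    (∃ l : ℕ, l.Prime ∧ l ∣ w - 1 ∧ Λ < l ∧ ∃ p : ℕ, p.Prime ∧ p ∣ n ∧ w < p ∧ p * w ≤ x ∧
      ¬ l ∣ orderOf (p : ZMod w)) ∨
    (∃ r : ℕ, 2 ≤ r ∧ r < w ∧ r ∣ n ∧ (orderOf (r : ZMod w)) ^ 4 ≤ w) := by
  by_contra hcon
  push Not at hcon
  obtain ⟨hA, hB, hC⟩ := hcon
  have hwf : Fact w.Prime := ⟨hw⟩
  have hm1 : 1 ≤ m := by omega
  have hm3 : 3 ≤ m := by omega
  have hn1 : 1 ≤ n := by omega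
  have hW1 : 1 ≤ w - 1 := by omega
  have hwn : w ≤ n + 1 := by
    have h1 : y + 1 ≤ (y + 1) ^ 6 := Nat.le_self_pow (by norm_num) _
    omega
  -- powers
  have hpow : ((n : ZMod w)) ^ m = 1 := by
    have h1 := vv_mul m n hn1
    have h2 : w ∣ n ^ m - 1 := by
      rw [← h1]
      exact Dvd.dvd.mul_right hwv _
    have h3 : 1 ≤ n ^ m := Nat.one_le_pow _ _ hn1
    have h4 : ((n ^ m - 1 : ℕ) : ZMod w) = 0 := (ZMod.natCast_eq_zero_iff _ _).mpr h2
    rw [Nat.cast_sub h3] at h4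
    push_cast at h4
    exact sub_eq_zero.mp h4
  have hne : ∀ r : ℕ, r ∣ n → (r : ZMod w) ≠ 0 := by
    rintro r ⟨c, hc⟩ h0
    have h1 : (n : ZMod w) = 0 := by
      rw [hc]
      push_cast
      rw [h0, zero_mul]
    rw [h1, zero_pow (by omega)] at hpow
    exact zero_ne_one hpow
  have hbigof : ∀ Z : ℕ, n ^ (m - 2) ≤ (n - 1) * Z → n ^ (m - 2) - 1 < (n - 1) * Z := by
    intro Z hZ
    have h1 : 1 ≤ n ^ (m - 2) := Nat.one_le_pow _ _ hn1
    omega
  by_cases hcase : ∃ p : ℕ, p.Prime ∧ p ∣ n ∧ x < p * w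
  · obtain ⟨p, hp, ⟨r, hr⟩, hxp⟩ := hcase
    have hp0 := hp.pos
    have hrn : r ∣ n := ⟨p, by rw [hr, mul_comm]⟩
    have hpn : p ∣ n := ⟨r, hr⟩
    have hr2 : 2 ≤ r := by
      rcases Nat.lt_or_ge r 2 with h | h
      · exfalso
        have h1 : r = 0 ∨ r = 1 := by omega
        rcases h1 with h1 | h1
        · rw [h1, mul_zero] at hr
          omega
        · rw [h1, mul_one] at hr
          rw [hr] at hnp
          exact hnp hp
      · exact h
    have hrw : r < w := by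
      have h1 : p * r < p * w := by
        rw [← hr]
        omega
      exact Nat.lt_of_mul_lt_mul_left h1
    have h1 := hC r hr2 hrw hrn
    have h2 : sm Λ (w - 1) < orderOf (r : ZMod w) := by
      by_contra h3
      push Not at h3
      have h4 := Nat.pow_le_pow_left h3 4
      omega
    have h3 : orderOf (r : ZMod w) ∣ w - 1 := ZMod.orderOf_dvd_card_sub_one (hne r hrn)
    obtain ⟨l, hl, hΛl, hlr⟩ := b1_factor hW1 h3 h2
    have hlw : l ∣ w - 1 := hlr.trans h3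
    have hlp : l ∣ orderOf (p : ZMod w) := by
      have h4 : (r : ZMod w) ^ (m * orderOf (p : ZMod w)) = 1 := by
        have h5 : ((p : ZMod w) * r) ^ m = 1 := by
          have : ((p : ZMod w) * r) = (n : ZMod w) := by
            rw [hr]
            push_cast
            rfl
          rw [this, hpow]
        have h6 : ((p : ZMod w) * r) ^ (m * orderOf (p : ZMod w)) = 1 := by
          rw [pow_mul, h5, one_pow]
        have h7 : (p : ZMod w) ^ (m * orderOf (p : ZMod w)) = 1 := by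
          rw [mul_comm m, pow_mul, pow_orderOf_eq_one, one_pow]
        rw [mul_pow, h7, one_mul] at h6
        exact h6
      have h5 : l ∣ m * orderOf (p : ZMod w) := hlr.trans (orderOf_dvd_of_pow_eq_one h4)
      rcases (Nat.Prime.dvd_mul hl).mp h5 with h6 | h6
      · exfalso
        have := Nat.le_of_dvd (by omega) h6
        omega
      · exact h6
    refine excluded hn2 hm3 ho hw (by omega) hwn hwv hl (by omega) hlw (hA l hl hlw hΛl) {p} ?_ ?_
    · intro q hq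
      rw [mem_singleton] at hq
      subst hq
      exact ⟨hp, hpn, hlp⟩
    · rw [prod_singleton]
      apply hbigof
      have hv : 1 ≤ n.factorization p := (hp.dvd_iff_one_le_factorization (by omega)).mp hpn
      have h4 : p ^ (m - 2) ≤ p ^ ((m - 2) * n.factorization p) :=
        Nat.pow_le_pow_right hp0 (Nat.le_mul_of_pos_right _ hv)
      have h5 : n ^ (m - 2) ≤ (p * w) ^ (m - 2) := Nat.pow_le_pow_left (by omega) _
      have h6 : w ^ (m - 2) ≤ n - 1 := by
        have h7 : w ^ (m - 2) ≤ w ^ 4 := Nat.pow_le_pow_right hw.pos (by omega)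
        have h8 : w ^ 4 + 1 ≤ (y + 1) ^ 6 := by
          have h9 : (w + 1) ^ 6 ≤ (y + 1) ^ 6 := Nat.pow_le_pow_left (by omega) _
          have h10 : w ^ 4 + 1 ≤ (w + 1) ^ 6 := by
            calc w ^ 4 + 1 ≤ (w + 1) ^ 4 := by nlinarith [Nat.zero_le (w ^ 3), Nat.zero_le (w ^ 2), Nat.zero_le w]
              _ ≤ (w + 1) ^ 6 := Nat.pow_le_pow_right (by omega) (by norm_num)
          exact h10.trans h9
        omega
      calc n ^ (m - 2) ≤ (p * w) ^ (m - 2) := h5
        _ = w ^ (m - 2) * p ^ (m - 2) := by rw [mul_pow, mul_comm]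
        _ ≤ (n - 1) * p ^ ((m - 2) * n.factorization p) := Nat.mul_le_mul h6 h4
  · push Not at hcase
    have h2 : sm Λ (w - 1) < w - 1 := by
      by_contra h3
      push Not at h3
      have h4 := Nat.pow_le_pow_left h3 4
      have h5 : w < (w - 1) ^ 4 := by
        have h6 : (w - 1) ^ 4 = (w - 1) * (w - 1) * (w - 1) ^ 2 := by ring
        have h7 : 16 ≤ w - 1 := by omega
        have h8 : 16 * (w - 1) ≤ (w - 1) * (w - 1) := Nat.mul_le_mul_right _ h7
        have h9 : 1 ≤ (w - 1) ^ 2 := Nat.one_le_pow _ _ (by omega)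
        have h10 : (w - 1) * (w - 1) * 1 ≤ (w - 1) * (w - 1) * (w - 1) ^ 2 :=
          Nat.mul_le_mul_left _ h9
        omega
      omega
    obtain ⟨l, hl, hΛl, hlw⟩ := b1_factor hW1 (dvd_refl (w - 1)) h2
    refine excluded hn2 hm3 ho hw (by omega) hwn hwv hl (by omega) hlw (hA l hl hlw hΛl)
      (n.primeFactors.filter (fun p => y < p)) ?_ ?_
    · intro p hp
      rw [mem_filter, Nat.mem_primeFactors] at hp
      obtain ⟨⟨hp1, hp2, hp3⟩, hp4⟩ := hp
      exact ⟨hp1, hp2, hB l hl hlw hΛl p hp1 hp2 (by omega) (hcase p hp1 hp2)⟩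
    · obtain ⟨s1, -, s3⟩ := sm_facts y n hn1
      apply hbigof
      have h4 : ∏ p ∈ n.primeFactors.filter (fun p => y < p), p ^ ((m - 2) * n.factorization p) =
          (∏ p ∈ n.primeFactors.filter (fun p => y < p), p ^ n.factorization p) ^ (m - 2) := by
        rw [← prod_pow]
        refine prod_congr rfl fun p _ => ?_
        rw [← pow_mul, mul_comm]
      rw [h4]
      have h5 : (sm y n) ^ (m - 2) ≤ n - 1 := by
        have h6 : (sm y n) ^ (m - 2) ≤ (sm y n) ^ 4 := Nat.pow_le_pow_right s1 (by omega)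
        omega
      calc n ^ (m - 2) = (sm y n) ^ (m - 2) *
          (∏ p ∈ n.primeFactors.filter (fun p => y < p), p ^ n.factorization p) ^ (m - 2) := by
            rw [← mul_pow, s3]
        _ ≤ _ := Nat.mul_le_mul_right _ h5

end Pool.Agent.Lib.MP_79499b_co.EO
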