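import Mathlib

/-!
# Orders of abelian difference sets with Singer parameters for `m = 4` and `m = 6`: definitions

Here `vv m n = 1 + n + ... + n^(m-1)` is the order of the group, `qp s n = n^2 + s n + 1` and
`qf s a b = a^2 + s a b + b^2`.
-/

set_option autoImplicit false

namespace Pool.Agent.Lib.MP_79499b_co.EO

open Finset
open scoped Classical

/-- the order of the group -/
def vv (m n : ℕ) : ℕ := ∑ i ∈ range m, n ^ i

/-- the quadratic form `a^2 + s a b + b^2` -/
def qf (s a b : ℕ) : ℕ := a ^ 2 + s * (a * b) + b ^ 2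

/-- the polynomial `n^2 + s n + 1` -/
def qp (s n : ℕ) : ℕ := n ^ 2 + s * n + 1

/-- the number of `n < x` with `P n` -/
noncomputable def cnt (x : ℕ) (P : ℕ → Prop) : ℝ := (((range x).filter P).card : ℝ)

/-- the `y`-smooth part of `n` -/
noncomputable def sm (y n : ℕ) : ℕ := ∏ p ∈ n.primeFactors.filter (fun p => p ≤ y), p ^ n.factorization p

/-- `w ∣ v` and one of the failing events for the pair `(w, l)` occurs -/
def Ev (m w l n : ℕ) : Prop :=
  w ∣ vv m n ∧ (w ^ 2 ∣ vv m n ∨ l ∣ vv m n ∨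
    ∃ u : ℕ, u.Prime ∧ u ≠ w ∧ u % l = 1 ∧ u ∣ vv m n)

/-- some abelian group has a difference set with the Singer parameters for `(n, m)` -/
def AbOrder (n m : ℕ) : Prop :=
  ∃ (G : Type) (_ : CommGroup G) (_ : Fintype G) (_ : DecidableEq G) (D : Finset G),
    Fintype.card G * (n - 1) = n ^ m - 1 ∧
    D.card * (n - 1) = n ^ (m - 1) - 1 ∧
    ∀ g : G, g ≠ 1 →
      ((D ×ˢ D).filter (fun p : G × G => p.1 * p.2⁻¹ = g)).card * (n - 1) =
        n ^ (m - 2) - 1

/-- the good primes: `w0 < w ≤ z` and the `Λ`-smooth part of `w - 1` is at most `w^(1/4)`, where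
`w0 = exp (log x)^ε`, `z = exp (log x)^(1-ε)`, `Λ = (log x)^A` -/
def Good (ε : ℝ) (A x w : ℕ) : Prop :=
  w.Prime ∧ Real.exp (Real.log x ^ ε) < w ∧ (w : ℝ) ≤ Real.exp (Real.log x ^ (1 - ε)) ∧
    (sm ⌊Real.log x ^ A⌋₊ (w - 1)) ^ 4 ≤ w

/-! ### counting -/

lemma cnt_nonneg (x : ℕ) (P : ℕ → Prop) : 0 ≤ cnt x P := by unfold cnt; positivity

lemma cnt_mono {x : ℕ} {P P' : ℕ → Prop} (h : ∀ n, n < x → P n → P' n) : cnt x P ≤ cnt x P' := by
  unfold cnt
  refine Nat.cast_le.mpr (card_le_card ?_)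
  intro n hn
  rw [mem_filter, mem_range] at *
  exact ⟨hn.1, h n hn.1 hn.2⟩

lemma cnt_or (x : ℕ) (P P' : ℕ → Prop) : cnt x (fun n => P n ∨ P' n) ≤ cnt x P + cnt x P' := by
  unfold cnt
  rw [← Nat.cast_add]
  refine Nat.cast_le.mpr ((card_le_card ?_).trans (card_union_le _ _))
  intro n hn
  simp only [mem_filter, mem_union] at hn ⊢
  tauto

lemma cnt_false (x : ℕ) : cnt x (fun _ => False) = 0 := by
  unfold cnt
  simp

/-- union bound -/
lemma cnt_exists {ι : Type*} (x : ℕ) (S : Finset ι) (P : ι → ℕ → Prop) :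
    cnt x (fun n => ∃ i ∈ S, P i n) ≤ ∑ i ∈ S, cnt x (P i) := by
  induction S using Finset.induction_on with
  | empty => simp [cnt]
  | insert a S ha ih =>
    rw [sum_insert ha]
    refine le_trans ?_ ((cnt_or x (P a) (fun n => ∃ i ∈ S, P i n)).trans (by linarith))
    refine cnt_mono fun n _ h => ?_
    obtain ⟨i, hi, h⟩ := h
    rw [mem_insert] at hi
    rcases hi with rfl | hi
    · exact Or.inl h
    · exact Or.inr ⟨i, hi, h⟩

/-- counting in residue classes -/
lemma cnt_period {M : ℕ} (hM : 0 < M) (x : ℕ) (P : ℕ → Prop) (hP : ∀ n, P n → P (n % M)) :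
    cnt x P ≤ (((range M).filter P).card : ℝ) * (x / M + 1) := by
  have h1 : ((range x).filter P).card ≤ ((range M).filter P).card * (x / M + 1) := by
    have h2 : ((range x).filter P).card ≤ (((range M).filter P) ×ˢ range (x / M + 1)).card := by
      refine card_le_card_of_injOn (fun n => (n % M, n / M)) ?_ ?_
      · intro n hn
        rw [mem_coe, mem_filter, mem_range] at hn
        rw [mem_coe, mem_product, mem_filter, mem_range, mem_range]
        refine ⟨⟨Nat.mod_lt _ hM, hP n hn.2⟩, ?_⟩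
        have : n / M ≤ x / M := Nat.div_le_div_right hn.1.le
        simp only
        omega
      · intro a _ b _ hab
        simp only [Prod.mk.injEq] at hab
        rw [← Nat.div_add_mod a M, ← Nat.div_add_mod b M, hab.1, hab.2]
    rwa [card_product, card_range] at h2
  unfold cnt
  calc (((range x).filter P).card : ℝ) ≤ ((((range M).filter P).card * (x / M + 1) : ℕ) : ℝ) :=
        Nat.cast_le.mpr h1
    _ = (((range M).filter P).card : ℝ) * (((x / M : ℕ) : ℝ) + 1) := by push_cast; ring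
    _ ≤ _ := by
        refine mul_le_mul_of_nonneg_left ?_ (Nat.cast_nonneg _)
        have := @Nat.cast_div_le ℝ _ _ _ x M
        linarith

end Pool.Agent.Lib.MP_79499b_co.EO
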