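import Pool.Agent.Lib.MP_79499b_co.EO.Few

/-!
# F1: the relation `n = ν` has few solutions

PROOF. Put `f = (η + b e) / a`, `η^2 = 1`, and let `c = a^2 + s a b + b^2`.  Multiplying the relation by `a`:
`2 e c = (2 ν + s) a - η (s a + 2 b)`.  For fixed `b` with `c ≠ 0` there is exactly one `e` (`2 ≠ 0`), in total at
most `w` pairs.  The `b` with `c = 0` are at most two (monic quadratic in `b`), at most `2 w` pairs.
-/

set_option autoImplicit false

namespace Pool.Agent.Lib.MP_79499b_co.EO

open Finset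
open scoped Classical

/-- a monic quadratic equation over a field has at most two solutions -/
theorem F1_quad {w : ℕ} [Fact w.Prime] (u v : ZMod w) :
    (univ.filter (fun b : ZMod w => b ^ 2 + u * b + v = 0)).card ≤ 2 := by
  by_cases h : ∃ b₀ : ZMod w, b₀ ^ 2 + u * b₀ + v = 0
  · obtain ⟨b₀, h₀⟩ := h
    refine (card_le_card (t := {b₀, -b₀ - u}) ?_).trans (card_le_two)
    intro b hb
    rw [mem_filter] at hb
    have h1 : (b - b₀) * (b + b₀ + u) = 0 := by linear_combination hb.2 - h₀
    rw [mem_insert, mem_singleton]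
    rcases mul_eq_zero.1 h1 with h2 | h2
    · exact Or.inl (sub_eq_zero.1 h2)
    · right
      linear_combination h2
  · rw [filter_eq_empty_iff.2 (fun b _ hb => h ⟨b, hb⟩)]
    simp

theorem F1_card {w : ℕ} [Fact w.Prime] : (univ : Finset (ZMod w)).card = w := by
  rw [card_univ, ZMod.card]

theorem few_relN {w : ℕ} [Fact w.Prime] (hw : 3 ≤ w) (s : ℕ) (ν : ZMod w) :
    Few w (relN s ν) := by
  intro a ha η hη
  have h2 : (2 : ZMod w) ≠ 0 := by
    intro h
    have h3 : ((2 : ℕ) : ZMod w) = 0 := by exact_mod_cast h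
    rw [ZMod.natCast_eq_zero_iff] at h3
    exact absurd (Nat.le_of_dvd (by norm_num) h3) (by omega)
  set B : Finset (ZMod w) :=
    univ.filter (fun b : ZMod w => b ^ 2 + ((s : ZMod w) * a) * b + a ^ 2 = 0) with hB
  have hBc : B.card ≤ 2 := F1_quad _ _
  set S := univ.filter (fun t : ZMod w × ZMod w =>
    relN s ν a t.1 t.2 ((η + t.1 * t.2) * a⁻¹)) with hS
  have key : ∀ t ∈ S, 2 * t.2 * (t.1 ^ 2 + ((s : ZMod w) * a) * t.1 + a ^ 2) =
      a * (2 * ν + s) - η * (s * a + 2 * t.1) := by
    intro t ht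
    rw [hS, mem_filter] at ht
    have h1 := ht.2
    unfold relN at h1
    have h3 : a * ((η + t.1 * t.2) * a⁻¹) = η + t.1 * t.2 := by field_simp
    linear_combination a * h1 - (s * a + 2 * t.1) * h3
  have hsub : S ⊆ (S.filter (fun t => t.1 ∉ B)) ∪ B ×ˢ univ := by
    intro t ht
    rw [mem_union, mem_filter, mem_product]
    by_cases h : t.1 ∈ B
    · exact Or.inr ⟨h, mem_univ _⟩
    · exact Or.inl ⟨ht, h⟩
  have h1 : (S.filter (fun t => t.1 ∉ B)).card ≤ w := by
    refine le_trans ?_ (le_of_eq (F1_card (w := w)))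
    refine card_le_card_of_injOn Prod.fst (fun _ _ => mem_coe.2 (mem_univ _)) ?_
    intro t ht t' ht' h
    rw [mem_coe, mem_filter] at ht ht'
    have k1 := key t ht.1
    have k2 := key t' ht'.1
    have hc : t.1 ^ 2 + ((s : ZMod w) * a) * t.1 + a ^ 2 ≠ 0 := by
      intro h0
      apply ht.2
      rw [hB, mem_filter]
      exact ⟨mem_univ _, h0⟩
    rw [← h] at k2
    have h4 : (t.2 - t'.2) * (2 * (t.1 ^ 2 + ((s : ZMod w) * a) * t.1 + a ^ 2)) = 0 := by
      linear_combination k1 - k2
    rcases mul_eq_zero.1 h4 with h5 | h5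
    · exact Prod.ext h (sub_eq_zero.1 h5)
    · exact absurd h5 (mul_ne_zero h2 hc)
  calc S.card ≤ ((S.filter (fun t => t.1 ∉ B)) ∪ B ×ˢ univ).card := card_le_card hsub
    _ ≤ (S.filter (fun t => t.1 ∉ B)).card + (B ×ˢ (univ : Finset (ZMod w))).card :=
        card_union_le _ _
    _ ≤ w + 2 * w := by
        refine Nat.add_le_add h1 ?_
        rw [card_product, F1_card]
        exact Nat.mul_le_mul_right _ hBc
    _ = 3 * w := by ring

end Pool.Agent.Lib.MP_79499b_co.EO
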