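import Pool.Agent.Lib.MP_79499b_co.EO.Few

/-!
# F2: the relations `c = κ` and `c' = κ` have few solutions

PROOF. `relC`: a monic quadratic equation for `b` (coefficients depend on `a` only): at most two `b`, any `e`: `2 w` pairs.
`relD`: `f = (η + b e) / a`.  For `e ≠ 0` the equation `e^2 + s e f + f^2 = κ` is a monic quadratic in `f` and
`b ↦ f` is a bijection: at most two `b`; for `e = 0` at most `w` values of `b`.  Together `2 w + w ≤ 3 w`.
-/

set_option autoImplicit false

namespace Pool.Agent.Lib.MP_79499b_co.EO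

open Finset
open scoped Classical

/-- a monic quadratic equation over a field has at most two solutions -/
theorem F2_quad {w : ℕ} [Fact w.Prime] (u v : ZMod w) :
    (univ.filter (fun b : ZMod w => b ^ 2 + u * b + v = 0)).card ≤ 2 := by
  by_cases h : ∃ b₀ : ZMod w, b₀ ^ 2 + u * b₀ + v = 0
  · obtain ⟨b₀, h₀⟩ := h
    refine (card_le_card (t := {b₀, -b₀ - u}) ?_).trans (card_le_two)
    intro b hb
    rw [mem_filter] at hb
    have h1 : (b - b₀) * (b + b₀ + u) = 0 := by linear_combination hb.2 - h₀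
    rw [mem_insert, mem_singleton]
    rcases mul_eq_zero.1 h1 with h2 | h2
    · exact Or.inl (sub_eq_zero.1 h2)
    · right
      linear_combination h2
  · rw [filter_eq_empty_iff.2 (fun b _ hb => h ⟨b, hb⟩)]
    simp

theorem F2_card {w : ℕ} [Fact w.Prime] : (univ : Finset (ZMod w)).card = w := by
  rw [card_univ, ZMod.card]

theorem few_relC {w : ℕ} [Fact w.Prime] (s : ℕ) (κ : ZMod w) : Few w (relC s κ) := by
  intro a ha η hη
  set B : Finset (ZMod w) :=
    univ.filter (fun b : ZMod w => b ^ 2 + ((s : ZMod w) * a) * b + (a ^ 2 - κ) = 0) with hB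
  have hBc : B.card ≤ 2 := F2_quad _ _
  have hsub : univ.filter (fun t : ZMod w × ZMod w =>
      relC s κ a t.1 t.2 ((η + t.1 * t.2) * a⁻¹)) ⊆ B ×ˢ univ := by
    intro t ht
    rw [mem_filter] at ht
    have h1 := ht.2
    unfold relC at h1
    rw [mem_product, hB, mem_filter]
    exact ⟨⟨mem_univ _, by linear_combination h1⟩, mem_univ _⟩
  refine (card_le_card hsub).trans ?_
  rw [card_product, F2_card]
  exact Nat.mul_le_mul_right _ (hBc.trans (by norm_num))

theorem F2_pairs {w : ℕ} [Fact w.Prime] (s : ℕ) (κ : ZMod w) :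
    (univ.filter (fun q : ZMod w × ZMod w =>
      q.1 ^ 2 + (s : ZMod w) * (q.1 * q.2) + q.2 ^ 2 = κ)).card ≤ 2 * w := by
  have h1 := card_le_mul_card_image_of_maps_to (f := Prod.fst)
    (s := univ.filter (fun q : ZMod w × ZMod w =>
      q.1 ^ 2 + (s : ZMod w) * (q.1 * q.2) + q.2 ^ 2 = κ)) (t := (univ : Finset (ZMod w)))
    (fun _ _ => mem_univ _) 2 ?_
  · rwa [F2_card] at h1
  · intro e _
    refine le_trans ?_ (F2_quad ((s : ZMod w) * e) (e ^ 2 - κ))
    refine card_le_card_of_injOn Prod.snd ?_ ?_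
    · intro q hq
      rw [mem_coe, mem_filter, mem_filter] at hq
      rw [mem_coe, mem_filter]
      refine ⟨mem_univ _, ?_⟩
      rw [← hq.2]
      linear_combination hq.1.2
    · intro q hq q' hq' h
      rw [mem_coe, mem_filter] at hq hq'
      exact Prod.ext (hq.2.trans hq'.2.symm) h

theorem few_relD {w : ℕ} [Fact w.Prime] (s : ℕ) (κ : ZMod w) : Few w (relD s κ) := by
  intro a ha η hη
  set S := univ.filter (fun t : ZMod w × ZMod w =>
    relD s κ a t.1 t.2 ((η + t.1 * t.2) * a⁻¹)) with hS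
  have hsub : S ⊆ (S.filter (fun t => t.2 ≠ 0)) ∪ univ ×ˢ {0} := by
    intro t ht
    rw [mem_union, mem_filter, mem_product]
    by_cases h : t.2 = 0
    · exact Or.inr ⟨mem_univ _, mem_singleton.2 h⟩
    · exact Or.inl ⟨ht, h⟩
  have h1 : (S.filter (fun t => t.2 ≠ 0)).card ≤ 2 * w := by
    refine le_trans ?_ (F2_pairs s κ)
    refine card_le_card_of_injOn (fun t => (t.2, (η + t.1 * t.2) * a⁻¹)) ?_ ?_
    · intro t ht
      rw [mem_coe, mem_filter, hS, mem_filter] at ht
      rw [mem_coe, mem_filter]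
      exact ⟨mem_univ _, ht.1.2⟩
    · intro t ht t' ht' h
      rw [mem_coe, mem_filter] at ht ht'
      simp only [Prod.mk.injEq] at h
      obtain ⟨h5, h6⟩ := h
      have h7 : η + t.1 * t.2 = η + t'.1 * t'.2 := mul_right_cancel₀ (inv_ne_zero ha) h6
      rw [← h5] at h7
      have h8 : t.1 * t.2 = t'.1 * t.2 := by linear_combination h7
      exact Prod.ext (mul_right_cancel₀ ht.2 h8) h5
  calc S.card ≤ ((S.filter (fun t => t.2 ≠ 0)) ∪ univ ×ˢ {0}).card := card_le_card hsub
    _ ≤ (S.filter (fun t => t.2 ≠ 0)).card +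
        ((univ : Finset (ZMod w)) ×ˢ ({0} : Finset (ZMod w))).card := card_union_le _ _
    _ ≤ 2 * w + w := by
        refine Nat.add_le_add h1 ?_
        rw [card_product, F2_card, card_singleton, mul_one]
    _ = 3 * w := by ring

end Pool.Agent.Lib.MP_79499b_co.EO
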