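import Pool.Agent.Lib.MP_79499b_co.EO.Defs

/-!
# Relations between the four numbers `a, b, e, f` with few solutions modulo a prime

The numbers satisfy `a f - b e = η = ± 1`, so modulo a prime not dividing `a` the number `f` is
`(η + b e) / a`.
-/

set_option autoImplicit false

namespace Pool.Agent.Lib.MP_79499b_co.EO

open Finset
open scoped Classical

/-- the relation `R` has at most `3 w` solutions `(b, e)` modulo `w` for every `a ≠ 0` -/
def Few (w : ℕ) [Fact w.Prime] (R : ZMod w → ZMod w → ZMod w → ZMod w → Prop) : Prop :=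
  ∀ a : ZMod w, a ≠ 0 → ∀ η : ZMod w, (η = 1 ∨ η = -1) →
    (univ.filter (fun t : ZMod w × ZMod w => R a t.1 t.2 ((η + t.1 * t.2) * a⁻¹))).card ≤ 3 * w

/-- `2 n + s = 2 ν + s`, where `2 n + s = 2 a e + s (a f + b e) + 2 b f` -/
def relN {w : ℕ} (s : ℕ) (ν : ZMod w) (a b e f : ZMod w) : Prop :=
  2 * (a * e) + (s : ZMod w) * (a * f + b * e) + 2 * (b * f) = 2 * ν + s

/-- `a^2 + s a b + b^2 = κ` -/
def relC {w : ℕ} (s : ℕ) (κ : ZMod w) (a b _e _f : ZMod w) : Prop :=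
  a ^ 2 + (s : ZMod w) * (a * b) + b ^ 2 = κ

/-- `e^2 + s e f + f^2 = κ` -/
def relD {w : ℕ} (s : ℕ) (κ : ZMod w) (_a _b e f : ZMod w) : Prop :=
  e ^ 2 + (s : ZMod w) * (e * f) + f ^ 2 = κ

end Pool.Agent.Lib.MP_79499b_co.EO
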