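import Pool.Agent.Lib.MP_79499b_co.EO.K6
import Pool.Agent.Lib.MP_79499b_co.EO.Few

/-!
# G1: the count for one `a` with relations modulo two primes

Here `cntA x a Rw Rl` is the number of pairs `(b, e)`, `b ≤ a`, `a e ≤ x`, such that for some `f` with
`a f = b e + 1` or `b e = a f + 1` both relations hold.

PROOF. Let `q` be the product of those of the primes `w`, `l` which do not divide `a`.  Split according to the sign
(`a f = b e + 1`: `η = 1`, `a ∣ b e + 1`; `b e = a f + 1`: `η = -1`, `a ∣ b e - 1`).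
Let `Ω ⊆ range q × range q` be the set of `(b0, e0)` such that for each prime `u ∈ {w, l}` not dividing `a` the
relation `R_u (a, b0, e0, (η + b0 e0) / a)` holds in `ZMod u` (if both primes divide `a`, `q = 1`, `Ω = {(0,0)}`).
By the Chinese remainder theorem and `Few`, `Ω.card ≤ 9 q` (`(3 w)(3 l)`, `3 w`, `3 l` or `1`).
If `(b, e)` is counted then `f = (η + b e) / a` in `ZMod u`, so `(b % q, e % q) ∈ Ω`.  `per_a` bounds the number by
`9 q (4 x / (q^2 a) + errK a x)` for each sign; in all four cases this is at most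
`36 x g / (w l a) + 9 w l errK a x`, where `w l / q = g`.
The hypotheses `w l ≤ a`, `a (w l) ≤ x` give those of `per_a`.
-/

set_option autoImplicit false

namespace Pool.Agent.Lib.MP_79499b_co.EO

open Finset
open scoped Classical

/-- pairs `(b, e)` counted for `a` -/
noncomputable def cntA (x a : ℕ) {w l : ℕ} (Rw : ZMod w → ZMod w → ZMod w → ZMod w → Prop)
    (Rl : ZMod l → ZMod l → ZMod l → ZMod l → Prop) : ℝ :=
  (((range (a + 1) ×ˢ range (x / a + 1)).filter (fun t : ℕ × ℕ =>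
    ∃ f : ℕ, (a * f = t.1 * t.2 + 1 ∨ t.1 * t.2 = a * f + 1) ∧
      Rw a t.1 t.2 f ∧ Rl a t.1 t.2 f)).card : ℝ)

/-- the part `w` of the modulus `q` -/
noncomputable def g1_q (w a : ℕ) : ℕ := if w ∣ a then 1 else w

theorem g1_q_pos {w : ℕ} (hw : 0 < w) (a : ℕ) : 1 ≤ g1_q w a := by
  unfold g1_q
  split_ifs
  · exact le_refl _
  · exact hw

theorem g1_q_le {w : ℕ} (hw : 0 < w) (a : ℕ) : g1_q w a ≤ w := by
  unfold g1_q
  split_ifs
  · exact hw
  · exact le_refl _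

/-- the admissible residues modulo `w` -/
noncomputable def g1_T {w : ℕ} (R : ZMod w → ZMod w → ZMod w → ZMod w → Prop) [NeZero w]
    (a : ℕ) (η : ℤ) : Finset (ZMod w × ZMod w) :=
  if w ∣ a then {(0, 0)} else
    univ.filter (fun t : ZMod w × ZMod w => R a t.1 t.2 (((η : ℤ) + t.1 * t.2) * (a : ZMod w)⁻¹))

theorem g1_T_card {w : ℕ} [Fact w.Prime] (R : ZMod w → ZMod w → ZMod w → ZMod w → Prop)
    (hR : Few w R) (a : ℕ) (η : ℤ) (hη : η = 1 ∨ η = -1) : (g1_T R a η).card ≤ 3 * g1_q w a := by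
  unfold g1_T g1_q
  by_cases h : w ∣ a
  · rw [if_pos h, if_pos h]
    simp
  · rw [if_neg h, if_neg h]
    have ha : (a : ZMod w) ≠ 0 := by
      intro h0
      exact h ((ZMod.natCast_eq_zero_iff a w).1 h0)
    refine hR a ha ((η : ℤ) : ZMod w) ?_
    rcases hη with rfl | rfl
    · left
      simp
    · right
      simp

/-- the residue of a pair, `0` if `w` divides `a` -/
noncomputable def g1_m (w a : ℕ) (t : ℕ × ℕ) : ZMod w × ZMod w :=
  if w ∣ a then (0, 0) else ((t.1 : ZMod w), (t.2 : ZMod w))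

theorem g1_m_mod {w a : ℕ} {t t' : ℕ × ℕ} (h : g1_m w a t = g1_m w a t') :
    t.1 ≡ t'.1 [MOD g1_q w a] ∧ t.2 ≡ t'.2 [MOD g1_q w a] := by
  unfold g1_m at h
  unfold g1_q
  by_cases hw : w ∣ a
  · rw [if_pos hw]
    exact ⟨Nat.modEq_one, Nat.modEq_one⟩
  · rw [if_neg hw, if_neg hw] at h
    rw [if_neg hw]
    have h1 := congrArg Prod.fst h
    have h2 := congrArg Prod.snd h
    exact ⟨(ZMod.natCast_eq_natCast_iff _ _ _).1 h1, (ZMod.natCast_eq_natCast_iff _ _ _).1 h2⟩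

theorem g1_coprime {w l : ℕ} (hw : w.Prime) (hl : l.Prime) (hwl : w ≠ l) (a : ℕ) :
    Nat.Coprime (g1_q w a) (g1_q l a) := by
  unfold g1_q
  split_ifs
  · exact Nat.coprime_one_left _
  · exact Nat.coprime_one_left _
  · exact Nat.coprime_one_right _
  · exact (Nat.coprime_primes hw hl).2 hwl

theorem g1_coprime_a {w : ℕ} (hw : w.Prime) (a : ℕ) : Nat.Coprime (g1_q w a) a := by
  unfold g1_q
  split_ifs with h
  · exact Nat.coprime_one_left _
  · exact (Nat.Prime.coprime_iff_not_dvd hw).2 h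

/-- the counted pairs have admissible residues -/
theorem g1_mem {w : ℕ} [Fact w.Prime] (R : ZMod w → ZMod w → ZMod w → ZMod w → Prop)
    (a b e f : ℕ) (η : ℤ) (h : (a : ℤ) * f = b * e + η) (hR : R a b e f) :
    g1_m w a (b, e) ∈ g1_T R a η := by
  unfold g1_m g1_T
  by_cases hw : w ∣ a
  · rw [if_pos hw, if_pos hw]
    exact mem_singleton_self _
  · rw [if_neg hw, if_neg hw, mem_filter]
    refine ⟨mem_univ _, ?_⟩
    have ha : (a : ZMod w) ≠ 0 := by
      intro h0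
      exact hw ((ZMod.natCast_eq_zero_iff a w).1 h0)
    have h1 : ((η : ℤ) : ZMod w) + (b : ZMod w) * (e : ZMod w) = (a : ZMod w) * (f : ZMod w) := by
      have h2 := congrArg (fun z : ℤ => (z : ZMod w)) h
      push_cast at h2
      rw [h2]
      ring
    have h3 : (((η : ℤ) : ZMod w) + (b : ZMod w) * (e : ZMod w)) * (a : ZMod w)⁻¹ = f := by
      rw [h1, mul_comm (a : ZMod w), mul_assoc, mul_inv_cancel₀ ha, mul_one]
    show R a b e ((((η : ℤ) : ZMod w) + (b : ZMod w) * (e : ZMod w)) * (a : ZMod w)⁻¹)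
    rw [h3]
    exact hR

/-- the residue of a pair modulo a multiple of the modulus -/
theorem g1_m_eq {w a q : ℕ} (hq : g1_q w a ∣ q) (t : ℕ × ℕ) :
    g1_m w a (t.1 % q, t.2 % q) = g1_m w a t := by
  unfold g1_m
  unfold g1_q at hq
  by_cases hw : w ∣ a
  · rw [if_pos hw, if_pos hw]
  · rw [if_neg hw, if_neg hw]
    rw [if_neg hw] at hq
    have h1 : ((t.1 % q : ℕ) : ZMod w) = t.1 := by
      rw [ZMod.natCast_eq_natCast_iff]
      exact (Nat.mod_modEq t.1 q).of_dvd hq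
    have h2 : ((t.2 % q : ℕ) : ZMod w) = t.2 := by
      rw [ZMod.natCast_eq_natCast_iff]
      exact (Nat.mod_modEq t.2 q).of_dvd hq
    rw [h1, h2]

/-- the admissible residues modulo `q` -/
noncomputable def g1_O {w l : ℕ} [NeZero w] [NeZero l]
    (Rw : ZMod w → ZMod w → ZMod w → ZMod w → Prop)
    (Rl : ZMod l → ZMod l → ZMod l → ZMod l → Prop) (a : ℕ) (η : ℤ) : Finset (ℕ × ℕ) :=
  (range (g1_q w a * g1_q l a) ×ˢ range (g1_q w a * g1_q l a)).filter
    (fun t => g1_m w a t ∈ g1_T Rw a η ∧ g1_m l a t ∈ g1_T Rl a η)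

theorem g1_O_card {w l : ℕ} [Fact w.Prime] [Fact l.Prime] (hwl : w ≠ l)
    (Rw : ZMod w → ZMod w → ZMod w → ZMod w → Prop)
    (Rl : ZMod l → ZMod l → ZMod l → ZMod l → Prop) (hRw : Few w Rw) (hRl : Few l Rl)
    (a : ℕ) (η : ℤ) (hη : η = 1 ∨ η = -1) :
    (g1_O Rw Rl a η).card ≤ 9 * (g1_q w a * g1_q l a) := by
  have h1 : (g1_O Rw Rl a η).card ≤ (g1_T Rw a η ×ˢ g1_T Rl a η).card := by
    refine card_le_card_of_injOn (fun t => (g1_m w a t, g1_m l a t)) ?_ ?_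
    · intro t ht
      have ht' := (mem_filter.1 (mem_coe.1 ht)).2
      exact mem_coe.2 (mem_product.2 ht')
    · intro t ht t' ht' htt
      have hr := mem_product.1 (mem_filter.1 (mem_coe.1 ht)).1
      have hr' := mem_product.1 (mem_filter.1 (mem_coe.1 ht')).1
      rw [mem_range, mem_range] at hr hr'
      have h2 := g1_m_mod (congrArg Prod.fst htt)
      have h3 := g1_m_mod (congrArg Prod.snd htt)
      have hc := g1_coprime (Fact.out : w.Prime) (Fact.out : l.Prime) hwl a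
      have h4 := (Nat.modEq_and_modEq_iff_modEq_mul hc).1 ⟨h2.1, h3.1⟩
      have h5 := (Nat.modEq_and_modEq_iff_modEq_mul hc).1 ⟨h2.2, h3.2⟩
      exact Prod.ext (h4.eq_of_lt_of_lt hr.1 hr'.1) (h5.eq_of_lt_of_lt hr.2 hr'.2)
  rw [card_product] at h1
  calc (g1_O Rw Rl a η).card ≤ (g1_T Rw a η).card * (g1_T Rl a η).card := h1
    _ ≤ (3 * g1_q w a) * (3 * g1_q l a) :=
        Nat.mul_le_mul (g1_T_card Rw hRw a η hη) (g1_T_card Rl hRl a η hη)
    _ = 9 * (g1_q w a * g1_q l a) := by ring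

theorem g1_err_nonneg (a x : ℕ) : 0 ≤ errK a x := by
  unfold errK
  positivity

/-- one sign -/
theorem g1_one (x a w l : ℕ) [Fact w.Prime] [Fact l.Prime] (hwl : w ≠ l)
    (Rw : ZMod w → ZMod w → ZMod w → ZMod w → Prop)
    (Rl : ZMod l → ZMod l → ZMod l → ZMod l → Prop) (hRw : Few w Rw) (hRl : Few l Rl)
    (ha : w * l ≤ a) (hax : a * (w * l) ≤ x) (η : ℤ) (hη : η = 1 ∨ η = -1) :
    (((range (a + 1) ×ˢ range (x / a + 1)).filter (fun t : ℕ × ℕ =>
      ∃ f : ℕ, (a : ℤ) * f = t.1 * t.2 + η ∧ Rw a t.1 t.2 f ∧ Rl a t.1 t.2 f)).card : ℝ) ≤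
      36 * x * ((if w ∣ a then (w : ℝ) else 1) * (if l ∣ a then (l : ℝ) else 1)) /
      ((w : ℝ) * l * a) + 9 * ((w : ℝ) * l) * errK a x := by
  have hw := (Fact.out : w.Prime)
  have hl := (Fact.out : l.Prime)
  set q : ℕ := g1_q w a * g1_q l a with hq
  have hq1 : 1 ≤ q := Nat.mul_pos (g1_q_pos hw.pos a) (g1_q_pos hl.pos a)
  have hqwl : q ≤ w * l := Nat.mul_le_mul (g1_q_le hw.pos a) (g1_q_le hl.pos a)
  have hqa : q ≤ a := hqwl.trans ha
  have haq : a * q ≤ x := (Nat.mul_le_mul_left a hqwl).trans hax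
  have hcop : Nat.Coprime q a := Nat.Coprime.mul_left (g1_coprime_a hw a) (g1_coprime_a hl a)
  have hO : g1_O Rw Rl a η ⊆ range q ×ˢ range q := filter_subset _ _
  have hper := per_a x a q (g1_O Rw Rl a η) η hη hq1 hqa haq hcop hO
  have hsub : (range (a + 1) ×ˢ range (x / a + 1)).filter (fun t : ℕ × ℕ =>
      ∃ f : ℕ, (a : ℤ) * f = t.1 * t.2 + η ∧ Rw a t.1 t.2 f ∧ Rl a t.1 t.2 f) ⊆
      (range (a + 1) ×ˢ range (x / a + 1)).filter (fun t : ℕ × ℕ =>
      (a : ℤ) ∣ (t.1 : ℤ) * (t.2 : ℤ) + η ∧ (t.1 % q, t.2 % q) ∈ g1_O Rw Rl a η) := by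
    intro t ht
    rw [mem_filter] at ht ⊢
    obtain ⟨ht1, f, hf, h1, h2⟩ := ht
    refine ⟨ht1, ⟨(f : ℤ), hf.symm⟩, ?_⟩
    unfold g1_O
    rw [mem_filter, mem_product, mem_range, mem_range]
    refine ⟨⟨Nat.mod_lt _ hq1, Nat.mod_lt _ hq1⟩, ?_, ?_⟩
    · rw [g1_m_eq (Dvd.intro _ rfl)]
      exact g1_mem Rw a t.1 t.2 f η hf h1
    · rw [g1_m_eq (Dvd.intro_left _ rfl)]
      exact g1_mem Rl a t.1 t.2 f η hf h2
  have hcard : (((range (a + 1) ×ˢ range (x / a + 1)).filter (fun t : ℕ × ℕ =>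
      ∃ f : ℕ, (a : ℤ) * f = t.1 * t.2 + η ∧ Rw a t.1 t.2 f ∧ Rl a t.1 t.2 f)).card : ℝ) ≤
      ((g1_O Rw Rl a η).card : ℝ) * (4 * x / ((q : ℝ) ^ 2 * a) + errK a x) :=
    le_trans (Nat.cast_le.2 (card_le_card hsub)) hper
  refine hcard.trans ?_
  have hqr : (1 : ℝ) ≤ q := by exact_mod_cast hq1
  have hwr : (0 : ℝ) < w := by exact_mod_cast hw.pos
  have hlr : (0 : ℝ) < l := by exact_mod_cast hl.pos
  have har : (0 : ℝ) < a := by
    have : 0 < a := lt_of_lt_of_le (Nat.mul_pos hw.pos hl.pos) ha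
    exact_mod_cast this
  have herr := g1_err_nonneg a x
  have hOc : ((g1_O Rw Rl a η).card : ℝ) ≤ 9 * q := by
    have := g1_O_card hwl Rw Rl hRw hRl a η hη
    exact_mod_cast this
  have hsum0 : 0 ≤ 4 * (x : ℝ) / ((q : ℝ) ^ 2 * a) + errK a x := by positivity
  have hqwlr : (q : ℝ) ≤ w * l := by exact_mod_cast hqwl
  have hgw : (g1_q w a : ℝ) * (if w ∣ a then (w : ℝ) else 1) = w := by
    unfold g1_q
    split_ifs <;> simp
  have hgl : (g1_q l a : ℝ) * (if l ∣ a then (l : ℝ) else 1) = l := by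
    unfold g1_q
    split_ifs <;> simp
  have hmain : 36 * (x : ℝ) / (q * a) = 36 * x * ((if w ∣ a then (w : ℝ) else 1) *
      (if l ∣ a then (l : ℝ) else 1)) / ((w : ℝ) * l * a) := by
    rw [div_eq_div_iff (by positivity) (by positivity)]
    have h3 : (w : ℝ) * l = q * ((if w ∣ a then (w : ℝ) else 1) *
        (if l ∣ a then (l : ℝ) else 1)) := by
      rw [hq]
      push_cast
      nth_rewrite 1 [← hgw]
      nth_rewrite 1 [← hgl]
      ring
    rw [h3]
    ring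
  calc ((g1_O Rw Rl a η).card : ℝ) * (4 * x / ((q : ℝ) ^ 2 * a) + errK a x)
      ≤ (9 * q) * (4 * x / ((q : ℝ) ^ 2 * a) + errK a x) :=
        mul_le_mul_of_nonneg_right hOc hsum0
    _ = 36 * x / (q * a) + 9 * q * errK a x := by
        field_simp
        ring
    _ ≤ 36 * x / (q * a) + 9 * ((w : ℝ) * l) * errK a x := by
        have := mul_le_mul_of_nonneg_right hqwlr herr
        linarith
    _ = _ := by rw [hmain]

theorem cntA_le (x a w l : ℕ) [Fact w.Prime] [Fact l.Prime] (hwl : w ≠ l)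
    (Rw : ZMod w → ZMod w → ZMod w → ZMod w → Prop)
    (Rl : ZMod l → ZMod l → ZMod l → ZMod l → Prop) (hRw : Few w Rw) (hRl : Few l Rl)
    (ha : w * l ≤ a) (hax : a * (w * l) ≤ x) :
    cntA x a Rw Rl ≤ 72 * x * ((if w ∣ a then (w : ℝ) else 1) * (if l ∣ a then (l : ℝ) else 1)) /
      ((w : ℝ) * l * a) + 18 * ((w : ℝ) * l) * errK a x := by
  have h1 := g1_one x a w l hwl Rw Rl hRw hRl ha hax 1 (Or.inl rfl)
  have h2 := g1_one x a w l hwl Rw Rl hRw hRl ha hax (-1) (Or.inr rfl)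
  have h3 : cntA x a Rw Rl ≤
      (((range (a + 1) ×ˢ range (x / a + 1)).filter (fun t : ℕ × ℕ =>
        ∃ f : ℕ, (a : ℤ) * f = t.1 * t.2 + 1 ∧ Rw a t.1 t.2 f ∧ Rl a t.1 t.2 f)).card : ℝ) +
      (((range (a + 1) ×ˢ range (x / a + 1)).filter (fun t : ℕ × ℕ =>
        ∃ f : ℕ, (a : ℤ) * f = t.1 * t.2 + (-1) ∧ Rw a t.1 t.2 f ∧ Rl a t.1 t.2 f)).card : ℝ) := by
    unfold cntA
    rw [← Nat.cast_add]
    refine Nat.cast_le.2 ((card_le_card ?_).trans (card_union_le _ _))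
    intro t ht
    rw [mem_filter] at ht
    rw [mem_union, mem_filter, mem_filter]
    obtain ⟨ht1, f, hf | hf, h4, h5⟩ := ht
    · left
      refine ⟨ht1, f, ?_, h4, h5⟩
      exact_mod_cast hf
    · right
      refine ⟨ht1, f, ?_, h4, h5⟩
      have h6 : (t.1 : ℤ) * t.2 = a * f + 1 := by exact_mod_cast hf
      rw [h6]
      ring
  refine h3.trans ((add_le_add h1 h2).trans (le_of_eq ?_))
  ring

end Pool.Agent.Lib.MP_79499b_co.EO
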