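import Pool.Agent.Lib.MP_79499b_co.EO.K6
import Pool.Agent.Lib.MP_285fcd_nt.Tau

/-!
# K7: two sums over `a`

PROOF. (1) `a = d j`: `∑ 1/(d j) ≤ (1/d) (1 + log N)`.
(2) `errK a x ≤ τ(a)^2 N^(5/6) (1 + log x)^2 (4 + x / A^2)` for `A ≤ a ≤ N`, and
`∑_{a ≤ N} τ(a)^2 ≤ N ∑_{a ≤ N} τ(a)^2 / a ≤ N (∑_{b ≤ N} τ(b) / b)^2 ≤ N (1 + log N)^4`
(`τ(a)^2 = τ(a) ∑_{b c = a} 1 ≤ ∑_{b c = a} τ(b) τ(c)`, the same for `τ(b) = ∑_{b = d e} 1`).
-/

set_option autoImplicit false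

namespace Pool.Agent.Lib.MP_79499b_co.EO

open Finset
open scoped Classical

theorem k7_harm (N : ℕ) : ∑ a ∈ Icc 1 N, (1 : ℝ) / a ≤ 1 + Real.log N := by
  have h1 := harmonic_le_one_add_log N
  rw [harmonic_eq_sum_Icc] at h1
  push_cast at h1
  simpa only [one_div] using h1

theorem sum_inv_mult (N d : ℕ) (hd : 1 ≤ d) (hN : 1 ≤ N) :
    ∑ a ∈ (Icc 1 N).filter (fun a => d ∣ a), (1 : ℝ) / a ≤ (1 + Real.log N) / d := by
  have hd0 : (0 : ℝ) < d := by exact_mod_cast hd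
  have h1 : ∑ a ∈ (Icc 1 N).filter (fun a => d ∣ a), (1 : ℝ) / a ≤
      ∑ j ∈ Icc 1 N, (1 : ℝ) / ((d * j : ℕ) : ℝ) := by
    have h2 : (Icc 1 N).filter (fun a => d ∣ a) ⊆ (Icc 1 N).image (fun j => d * j) := by
      intro a ha
      rw [mem_filter, mem_Icc] at ha
      obtain ⟨⟨h1, h2⟩, c, rfl⟩ := ha
      rw [mem_image]
      refine ⟨c, mem_Icc.mpr ⟨?_, ?_⟩, rfl⟩
      · rcases Nat.eq_zero_or_pos c with h0 | h0
        · subst h0; omega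
        · exact h0
      · exact (Nat.le_mul_of_pos_left c hd).trans h2
    calc ∑ a ∈ (Icc 1 N).filter (fun a => d ∣ a), (1 : ℝ) / a
        ≤ ∑ a ∈ (Icc 1 N).image (fun j => d * j), (1 : ℝ) / (a : ℝ) :=
          sum_le_sum_of_subset_of_nonneg h2 fun _ _ _ => by positivity
      _ = ∑ j ∈ Icc 1 N, (1 : ℝ) / ((d * j : ℕ) : ℝ) := by
          rw [sum_image]
          intro a _ b _ hab
          exact Nat.eq_of_mul_eq_mul_left hd hab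
  have h2 : ∑ j ∈ Icc 1 N, (1 : ℝ) / ((d * j : ℕ) : ℝ) = (∑ j ∈ Icc 1 N, (1 : ℝ) / j) / d := by
    rw [sum_div]
    refine sum_congr rfl fun j _ => ?_
    push_cast
    rw [div_div, mul_comm]
  rw [h2] at h1
  exact h1.trans (div_le_div_of_nonneg_right (k7_harm N) hd0.le)

theorem k7_log_nonneg (N : ℕ) : 0 ≤ Real.log N := Real.log_natCast_nonneg N

theorem sum_tau_div (N : ℕ) (hN : 1 ≤ N) :
    ∑ a ∈ Icc 1 N, (a.divisors.card : ℝ) / a ≤ (1 + Real.log N) ^ 2 := by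
  have h1 := Pool.Agent.Lib.MP_285fcd_nt.sum_tau_mul_le (fun _ => 1) (fun _ => by norm_num)
    (fun _ _ => by norm_num) N
  have h2 : ∑ a ∈ Icc 1 N, (a.divisors.card : ℝ) / a =
      ∑ a ∈ Icc 1 N, (Pool.Agent.Lib.MP_285fcd_nt.tau a : ℝ) * 1 / a := by
    refine sum_congr rfl fun a _ => ?_
    rw [mul_one]
    rfl
  rw [h2]
  refine h1.trans (pow_le_pow_left₀ (sum_nonneg fun _ _ => by positivity) (k7_harm N) 2)

theorem sum_tau_sq (N : ℕ) (hN : 1 ≤ N) :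
    ∑ a ∈ Icc 1 N, (a.divisors.card : ℝ) ^ 2 ≤ N * (1 + Real.log N) ^ 4 := by
  have h1 := Pool.Agent.Lib.MP_285fcd_nt.sum_tau_mul_le
    (fun a => (Pool.Agent.Lib.MP_285fcd_nt.tau a : ℝ)) (fun _ => Nat.cast_nonneg _)
    (fun a b => by exact_mod_cast Pool.Agent.Lib.MP_285fcd_nt.tau_mul_le a b) N
  have h2 : ∑ a ∈ Icc 1 N, (a.divisors.card : ℝ) ^ 2 ≤
      N * ∑ a ∈ Icc 1 N, (Pool.Agent.Lib.MP_285fcd_nt.tau a : ℝ) *
        (Pool.Agent.Lib.MP_285fcd_nt.tau a : ℝ) / a := by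
    rw [mul_sum]
    refine sum_le_sum fun a ha => ?_
    rw [mem_Icc] at ha
    have ha0 : (0 : ℝ) < a := by exact_mod_cast ha.1
    have haN : (a : ℝ) ≤ N := by exact_mod_cast ha.2
    have h3 : (a.divisors.card : ℝ) ^ 2 = (a : ℝ) * ((Pool.Agent.Lib.MP_285fcd_nt.tau a : ℝ) *
        (Pool.Agent.Lib.MP_285fcd_nt.tau a : ℝ) / a) := by
      rw [mul_div_cancel₀ _ ha0.ne', sq]
      rfl
    rw [h3]
    exact mul_le_mul_of_nonneg_right haN (by positivity)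
  refine h2.trans (mul_le_mul_of_nonneg_left ?_ (Nat.cast_nonneg _))
  refine h1.trans ?_
  have h4 : ∑ a ∈ Icc 1 N, (Pool.Agent.Lib.MP_285fcd_nt.tau a : ℝ) / a ≤
      (1 + Real.log N) ^ 2 := sum_tau_div N hN
  calc (∑ a ∈ Icc 1 N, (Pool.Agent.Lib.MP_285fcd_nt.tau a : ℝ) / a) ^ 2
      ≤ ((1 + Real.log N) ^ 2) ^ 2 :=
        pow_le_pow_left₀ (sum_nonneg fun _ _ => by positivity) h4 2
    _ = (1 + Real.log N) ^ 4 := by ring

theorem sum_err (x A : ℕ) (hx : 3 ≤ x) (hA : 1 ≤ A) :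
    ∑ a ∈ Icc A (Nat.sqrt x), errK a x ≤
      (x : ℝ) ^ (11 / 12 : ℝ) * (1 + Real.log x) ^ 6 * (4 + (x : ℝ) / A ^ 2) := by
  set N := Nat.sqrt x with hN
  have hN1 : 1 ≤ N := by
    rw [hN]
    exact Nat.sqrt_pos.mpr (by omega)
  have hA0 : (0 : ℝ) < A := by exact_mod_cast hA
  have hN0 : (0 : ℝ) < N := by exact_mod_cast hN1
  have hx0 : (0 : ℝ) < x := by
    have : 0 < x := by omega
    exact_mod_cast this
  have hNx : (N : ℝ) ≤ x := by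
    have : N ≤ x := Nat.sqrt_le_self x
    exact_mod_cast this
  have hNx2 : (N : ℝ) ≤ (x : ℝ) ^ (1 / 2 : ℝ) := by
    rw [← Real.sqrt_eq_rpow]
    apply Real.le_sqrt_of_sq_le
    have : N ^ 2 ≤ x := by
      rw [hN, sq]
      exact Nat.sqrt_le x
    exact_mod_cast this
  have hlx : 0 ≤ Real.log x := k7_log_nonneg x
  have hln : 0 ≤ Real.log N := k7_log_nonneg N
  have hlog : Real.log N ≤ Real.log x := Real.log_le_log hN0 hNx
  have h1 : ∀ a ∈ Icc A N, errK a x ≤ (a.divisors.card : ℝ) ^ 2 *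
      ((N : ℝ) ^ (5 / 6 : ℝ) * (1 + Real.log x) ^ 2 * (4 + (x : ℝ) / A ^ 2)) := by
    intro a ha
    rw [mem_Icc] at ha
    have haA : (A : ℝ) ≤ a := by exact_mod_cast ha.1
    have haN : (a : ℝ) ≤ N := by exact_mod_cast ha.2
    have ha0 : (0 : ℝ) < a := hA0.trans_le haA
    have h2 : (a : ℝ) ^ (5 / 6 : ℝ) ≤ (N : ℝ) ^ (5 / 6 : ℝ) :=
      Real.rpow_le_rpow ha0.le haN (by norm_num)
    have h3 : (x : ℝ) / a ^ 2 ≤ x / A ^ 2 :=
      div_le_div_of_nonneg_left hx0.le (by positivity) (pow_le_pow_left₀ hA0.le haA 2)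
    unfold errK
    calc (a.divisors.card : ℝ) ^ 2 * (a : ℝ) ^ (5 / 6 : ℝ) * (1 + Real.log x) ^ 2 *
          (4 + (x : ℝ) / a ^ 2)
        = (a.divisors.card : ℝ) ^ 2 * ((a : ℝ) ^ (5 / 6 : ℝ) * (1 + Real.log x) ^ 2 *
          (4 + (x : ℝ) / a ^ 2)) := by ring
      _ ≤ _ := by
          refine mul_le_mul_of_nonneg_left ?_ (by positivity)
          refine mul_le_mul (mul_le_mul_of_nonneg_right h2 (by positivity)) ?_ (by positivity)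
            (by positivity)
          linarith
  have h4 : ∑ a ∈ Icc A N, (a.divisors.card : ℝ) ^ 2 ≤ N * (1 + Real.log N) ^ 4 := by
    refine le_trans (sum_le_sum_of_subset_of_nonneg ?_ fun _ _ _ => by positivity)
      (sum_tau_sq N hN1)
    intro a ha
    rw [mem_Icc] at *
    omega
  have h5 : (N : ℝ) * (N : ℝ) ^ (5 / 6 : ℝ) ≤ (x : ℝ) ^ (11 / 12 : ℝ) := by
    have h6 : (N : ℝ) * (N : ℝ) ^ (5 / 6 : ℝ) = (N : ℝ) ^ (11 / 6 : ℝ) := by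
      nth_rewrite 1 [← Real.rpow_one (N : ℝ)]
      rw [← Real.rpow_add hN0]
      norm_num
    rw [h6]
    calc (N : ℝ) ^ (11 / 6 : ℝ) ≤ ((x : ℝ) ^ (1 / 2 : ℝ)) ^ (11 / 6 : ℝ) :=
          Real.rpow_le_rpow hN0.le hNx2 (by norm_num)
      _ = (x : ℝ) ^ (11 / 12 : ℝ) := by
          rw [← Real.rpow_mul hx0.le]
          norm_num
  have h7 : (1 + Real.log N) ^ 4 ≤ (1 + Real.log x) ^ 4 :=
    pow_le_pow_left₀ (by linarith) (by linarith) 4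
  calc ∑ a ∈ Icc A N, errK a x
      ≤ ∑ a ∈ Icc A N, (a.divisors.card : ℝ) ^ 2 *
        ((N : ℝ) ^ (5 / 6 : ℝ) * (1 + Real.log x) ^ 2 * (4 + (x : ℝ) / A ^ 2)) := sum_le_sum h1
    _ = (∑ a ∈ Icc A N, (a.divisors.card : ℝ) ^ 2) *
        ((N : ℝ) ^ (5 / 6 : ℝ) * (1 + Real.log x) ^ 2 * (4 + (x : ℝ) / A ^ 2)) := by
        rw [sum_mul]
    _ ≤ (N * (1 + Real.log N) ^ 4) *
        ((N : ℝ) ^ (5 / 6 : ℝ) * (1 + Real.log x) ^ 2 * (4 + (x : ℝ) / A ^ 2)) :=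
        mul_le_mul_of_nonneg_right h4 (by positivity)
    _ = ((N : ℝ) * (N : ℝ) ^ (5 / 6 : ℝ)) * (1 + Real.log N) ^ 4 *
        ((1 + Real.log x) ^ 2 * (4 + (x : ℝ) / A ^ 2)) := by ring
    _ ≤ ((x : ℝ) ^ (11 / 12 : ℝ)) * (1 + Real.log x) ^ 4 *
        ((1 + Real.log x) ^ 2 * (4 + (x : ℝ) / A ^ 2)) := by
        refine mul_le_mul_of_nonneg_right ?_ (by positivity)
        exact mul_le_mul h5 h7 (by positivity) (by positivity)
    _ = _ := by ring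

end Pool.Agent.Lib.MP_79499b_co.EO
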