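import Pool.Agent.Lib.MP_79499b_co.EO.G1
import Pool.Agent.Lib.MP_79499b_co.EO.K7

/-!
# G2: the sum over `a`

PROOF. Sum `cntA_le` over `A ≤ a ≤ √x`.  Main terms: for each subset of `{w, l}` the sum of `1/a` over the
multiples of its product `g` (`w ≠ l` primes) is at most `(1 + log x) / g` (`sum_inv_mult`), so together
`4 * 72 x (1 + log x) / (w l)`.  Errors: `18 w l * sum_err ≤ 18 w l x^(11/12) (1 + log x)^6 (4 + 3 w l)`, because
`x ≤ 3 w l A^2`; with `w l ≤ w^2 ≤ x^(1/100)` this is `≤ C x / (w l)` (`x^(11/12 + 3/100) (log x)^6 ≤ C x`).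
The hypotheses of `cntA_le`: `w l ≤ a` because `3 w l a^2 ≥ x ≥ w^200`; `a w l ≤ √x w l ≤ x`.
-/

set_option autoImplicit false

namespace Pool.Agent.Lib.MP_79499b_co.EO

open Finset
open scoped Classical

theorem g2_log {x : ℝ} (hx : 1 ≤ x) : (1 + Real.log x) ^ 5 ≤ 95 ^ 5 * x ^ (4 / 75 : ℝ) := by
  have hx0 : 0 ≤ x := by linarith
  have h1 : Real.log x ≤ x ^ (4 / 375 : ℝ) / (4 / 375) := Real.log_le_rpow_div hx0 (by norm_num)
  have h2 : 1 ≤ x ^ (4 / 375 : ℝ) := Real.one_le_rpow hx (by norm_num)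
  have h3 : 1 + Real.log x ≤ 95 * x ^ (4 / 375 : ℝ) := by
    have h4 : x ^ (4 / 375 : ℝ) / (4 / 375) = 375 / 4 * x ^ (4 / 375 : ℝ) := by ring
    rw [h4] at h1
    linarith
  have h0 : 0 ≤ 1 + Real.log x := by
    have := Real.log_nonneg hx
    linarith
  calc (1 + Real.log x) ^ 5 ≤ (95 * x ^ (4 / 375 : ℝ)) ^ 5 := pow_le_pow_left₀ h0 h3 5
    _ = 95 ^ 5 * (x ^ (4 / 375 : ℝ)) ^ 5 := by rw [mul_pow]
    _ = 95 ^ 5 * x ^ (4 / 75 : ℝ) := by
        rw [← Real.rpow_natCast (x ^ (4 / 375 : ℝ)) 5, ← Real.rpow_mul hx0]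
        norm_num

theorem g2_sum (N w l : ℕ) (hN : 1 ≤ N) (hw : w.Prime) (hl : l.Prime) (hwl : w ≠ l) :
    ∑ a ∈ Icc 1 N, ((if w ∣ a then (w : ℝ) else 1) * (if l ∣ a then (l : ℝ) else 1)) / a ≤
      4 * (1 + Real.log N) := by
  have hw0 : (0 : ℝ) < w := by exact_mod_cast hw.pos
  have hl0 : (0 : ℝ) < l := by exact_mod_cast hl.pos
  have h1 : ∀ a ∈ Icc 1 N,
      ((if w ∣ a then (w : ℝ) else 1) * (if l ∣ a then (l : ℝ) else 1)) / a ≤
      (if 1 ∣ a then (1 : ℝ) / a else 0) + w * (if w ∣ a then (1 : ℝ) / a else 0) +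
        l * (if l ∣ a then (1 : ℝ) / a else 0) +
        (w * l) * (if w * l ∣ a then (1 : ℝ) / a else 0) := by
    intro a ha
    have ha0 : (0 : ℝ) < a := by exact_mod_cast (mem_Icc.1 ha).1
    rw [if_pos (one_dvd a)]
    have hia : (0 : ℝ) < 1 / a := by positivity
    by_cases h2 : w ∣ a
    · by_cases h3 : l ∣ a
      · have h4 : w * l ∣ a := Nat.Coprime.mul_dvd_of_dvd_of_dvd
          ((Nat.coprime_primes hw hl).2 hwl) h2 h3
        rw [if_pos h2, if_pos h3, if_pos h2, if_pos h3, if_pos h4]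
        have h5 : (w : ℝ) * l / a = (w * l) * (1 / a) := by ring
        rw [h5]
        have : 0 ≤ 1 / (a : ℝ) + w * (1 / a) + l * (1 / a) := by positivity
        linarith
      · rw [if_pos h2, if_neg h3, if_pos h2, if_neg h3]
        have h5 : (w : ℝ) * 1 / a = w * (1 / a) := by ring
        rw [h5]
        have : 0 ≤ (w * l : ℝ) * (if w * l ∣ a then (1 : ℝ) / a else 0) := by
          split_ifs <;> positivity
        linarith
    · by_cases h3 : l ∣ a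
      · rw [if_neg h2, if_pos h3, if_neg h2, if_pos h3]
        have h5 : (1 : ℝ) * l / a = l * (1 / a) := by ring
        rw [h5]
        have : 0 ≤ (w * l : ℝ) * (if w * l ∣ a then (1 : ℝ) / a else 0) := by
          split_ifs <;> positivity
        linarith
      · rw [if_neg h2, if_neg h3, if_neg h2, if_neg h3]
        have : 0 ≤ (w * l : ℝ) * (if w * l ∣ a then (1 : ℝ) / a else 0) := by
          split_ifs <;> positivity
        rw [mul_one]
        linarith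
  refine (sum_le_sum h1).trans ?_
  rw [sum_add_distrib, sum_add_distrib, sum_add_distrib, ← mul_sum, ← mul_sum, ← mul_sum,
    ← sum_filter, ← sum_filter, ← sum_filter, ← sum_filter]
  have e1 := sum_inv_mult N 1 le_rfl hN
  have e2 := sum_inv_mult N w hw.one_lt.le hN
  have e3 := sum_inv_mult N l hl.one_lt.le hN
  have e4 := sum_inv_mult N (w * l) (Nat.mul_pos hw.pos hl.pos) hN
  have f2 := mul_le_mul_of_nonneg_left e2 hw0.le
  have f3 := mul_le_mul_of_nonneg_left e3 hl0.le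
  have f4 := mul_le_mul_of_nonneg_left e4 (mul_pos hw0 hl0).le
  rw [mul_div_cancel₀ _ hw0.ne'] at f2
  rw [mul_div_cancel₀ _ hl0.ne'] at f3
  have h6 : ((w * l : ℕ) : ℝ) = (w : ℝ) * l := by push_cast; ring
  rw [h6, mul_div_cancel₀ _ (mul_pos hw0 hl0).ne'] at f4
  rw [Nat.cast_one, div_one] at e1
  linarith

theorem gamma_count : ∃ C : ℝ, 0 < C ∧ ∀ (x w l A : ℕ) [Fact w.Prime] [Fact l.Prime]
    (Rw : ZMod w → ZMod w → ZMod w → ZMod w → Prop)
    (Rl : ZMod l → ZMod l → ZMod l → ZMod l → Prop), 3 ≤ x → l < w → w ^ 200 ≤ x →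
    Few w Rw → Few l Rl → x ≤ 3 * (w * l) * A ^ 2 →
    ∑ a ∈ Icc A (Nat.sqrt x), cntA x a Rw Rl ≤ C * x * (1 + Real.log x) / ((w : ℝ) * l) := by
  refine ⟨288 + 126 * 95 ^ 5, by norm_num, ?_⟩
  intro x w l A hwF hlF Rw Rl hx hlw hw200 hRw hRl hxA
  have hw := hwF.out
  have hl := hlF.out
  have hwl : w ≠ l := by omega
  have hA : 1 ≤ A := by
    rcases Nat.eq_zero_or_pos A with h | h
    · subst h
      simp at hxA
      omega
    · exact h
  set N : ℕ := Nat.sqrt x with hN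
  have hN1 : 1 ≤ N := by
    rw [hN, Nat.le_sqrt]
    omega
  have hNN : N * N ≤ x := Nat.sqrt_le x
  have hwl2 : w * l ≤ w ^ 2 := by
    rw [pow_two]
    exact Nat.mul_le_mul_left w hlw.le
  have hwlN : w * l ≤ N := by
    rw [hN, Nat.le_sqrt]
    calc w * l * (w * l) ≤ w ^ 2 * w ^ 2 := Nat.mul_le_mul hwl2 hwl2
      _ = w ^ 4 := by ring
      _ ≤ w ^ 200 := Nat.pow_le_pow_right hw.pos (by norm_num)
      _ ≤ x := hw200
  have hwla : ∀ a ∈ Icc A N, w * l ≤ a := by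
    intro a ha
    have haA := (mem_Icc.1 ha).1
    by_contra hcon
    push Not at hcon
    have h1 : x < w ^ 200 := by
      calc x ≤ 3 * (w * l) * A ^ 2 := hxA
        _ ≤ 3 * (w * l) * a ^ 2 := Nat.mul_le_mul_left _ (Nat.pow_le_pow_left haA 2)
        _ ≤ 3 * w ^ 2 * (w ^ 2) ^ 2 := by
            refine Nat.mul_le_mul (Nat.mul_le_mul_left 3 hwl2) (Nat.pow_le_pow_left ?_ 2)
            omega
        _ < w ^ 2 * w ^ 2 * (w ^ 2) ^ 2 := by
            have h2 : 2 ≤ w := hw.two_le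
            have h3 : 0 < w ^ 2 := by positivity
            have h4 : 4 ≤ w ^ 2 := by nlinarith
            have h5 : 0 < w ^ 2 * (w ^ 2) ^ 2 := by positivity
            calc 3 * w ^ 2 * (w ^ 2) ^ 2 = 3 * (w ^ 2 * (w ^ 2) ^ 2) := by ring
              _ < 4 * (w ^ 2 * (w ^ 2) ^ 2) := by omega
              _ ≤ w ^ 2 * (w ^ 2 * (w ^ 2) ^ 2) := Nat.mul_le_mul_right _ h4
              _ = w ^ 2 * w ^ 2 * (w ^ 2) ^ 2 := by ring
        _ = w ^ 8 := by ring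
        _ ≤ w ^ 200 := Nat.pow_le_pow_right hw.pos (by norm_num)
    omega
  have hawl : ∀ a ∈ Icc A N, a * (w * l) ≤ x := by
    intro a ha
    have haN := (mem_Icc.1 ha).2
    exact (Nat.mul_le_mul haN hwlN).trans hNN
  -- real quantities
  have hw0 : (0 : ℝ) < w := by exact_mod_cast hw.pos
  have hl0 : (0 : ℝ) < l := by exact_mod_cast hl.pos
  have hwl0 : (0 : ℝ) < (w : ℝ) * l := mul_pos hw0 hl0
  have hx1 : (1 : ℝ) ≤ x := by
    have : (3 : ℝ) ≤ x := by exact_mod_cast hx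
    linarith
  have hx0 : (0 : ℝ) < x := by linarith
  have hlogx : 0 ≤ Real.log x := Real.log_nonneg hx1
  have hNx : Real.log N ≤ Real.log x := by
    apply Real.log_le_log
    · exact_mod_cast hN1
    · have : N ≤ x := Nat.sqrt_le_self x
      exact_mod_cast this
  have hsum1 : ∑ a ∈ Icc A N, cntA x a Rw Rl ≤
      ∑ a ∈ Icc A N, (72 * x * ((if w ∣ a then (w : ℝ) else 1) *
        (if l ∣ a then (l : ℝ) else 1)) / ((w : ℝ) * l * a) + 18 * ((w : ℝ) * l) * errK a x) :=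
    sum_le_sum fun a ha => cntA_le x a w l hwl Rw Rl hRw hRl (hwla a ha) (hawl a ha)
  rw [sum_add_distrib, ← mul_sum] at hsum1
  have hmain : ∑ a ∈ Icc A N, 72 * x * ((if w ∣ a then (w : ℝ) else 1) *
      (if l ∣ a then (l : ℝ) else 1)) / ((w : ℝ) * l * a) ≤
      288 * x * (1 + Real.log x) / ((w : ℝ) * l) := by
    have h1 : ∑ a ∈ Icc A N, 72 * x * ((if w ∣ a then (w : ℝ) else 1) *
        (if l ∣ a then (l : ℝ) else 1)) / ((w : ℝ) * l * a) =
        72 * x / ((w : ℝ) * l) * ∑ a ∈ Icc A N, ((if w ∣ a then (w : ℝ) else 1) *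
          (if l ∣ a then (l : ℝ) else 1)) / a := by
      rw [mul_sum]
      refine sum_congr rfl fun a ha => ?_
      have ha0 : (0 : ℝ) < a := by
        have := (mem_Icc.1 ha).1
        exact_mod_cast lt_of_lt_of_le hA this
      field_simp
    rw [h1]
    have h2 : ∑ a ∈ Icc A N, ((if w ∣ a then (w : ℝ) else 1) *
        (if l ∣ a then (l : ℝ) else 1)) / a ≤
        ∑ a ∈ Icc 1 N, ((if w ∣ a then (w : ℝ) else 1) *
        (if l ∣ a then (l : ℝ) else 1)) / a := by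
      refine sum_le_sum_of_subset_of_nonneg (Icc_subset_Icc_left hA) ?_
      intro a _ _
      split_ifs <;> positivity
    have h3 := h2.trans (g2_sum N w l hN1 hw hl hwl)
    have h4 : ∑ a ∈ Icc A N, ((if w ∣ a then (w : ℝ) else 1) *
        (if l ∣ a then (l : ℝ) else 1)) / a ≤ 4 * (1 + Real.log x) := by linarith
    calc 72 * x / ((w : ℝ) * l) * ∑ a ∈ Icc A N, ((if w ∣ a then (w : ℝ) else 1) *
          (if l ∣ a then (l : ℝ) else 1)) / a
        ≤ 72 * x / ((w : ℝ) * l) * (4 * (1 + Real.log x)) :=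
          mul_le_mul_of_nonneg_left h4 (by positivity)
      _ = 288 * x * (1 + Real.log x) / ((w : ℝ) * l) := by ring
  have herr : 18 * ((w : ℝ) * l) * ∑ a ∈ Icc A N, errK a x ≤
      126 * 95 ^ 5 * x * (1 + Real.log x) / ((w : ℝ) * l) := by
    have h1 := sum_err x A hx hA
    have hA2 : (0 : ℝ) < (A : ℝ) ^ 2 := by
      have : (0 : ℝ) < A := by exact_mod_cast hA
      positivity
    have h2 : (x : ℝ) / (A : ℝ) ^ 2 ≤ 3 * (w * l) := by
      rw [div_le_iff₀ hA2]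
      exact_mod_cast hxA
    have h3 : 4 + (x : ℝ) / (A : ℝ) ^ 2 ≤ 7 * ((w : ℝ) * l) := by
      have h4 : (1 : ℝ) ≤ (w : ℝ) * l := by
        have : 1 ≤ w * l := Nat.mul_pos hw.pos hl.pos
        exact_mod_cast this
      linarith
    have hxp : 0 ≤ (x : ℝ) ^ (11 / 12 : ℝ) * (1 + Real.log x) ^ 6 := by positivity
    have h5 : ∑ a ∈ Icc A N, errK a x ≤
        (x : ℝ) ^ (11 / 12 : ℝ) * (1 + Real.log x) ^ 6 * (7 * ((w : ℝ) * l)) :=
      h1.trans (mul_le_mul_of_nonneg_left h3 hxp)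
    have hw6 : ((w : ℝ) * l) ^ 3 ≤ (x : ℝ) ^ (3 / 100 : ℝ) := by
      have h6 : ((w : ℝ) * l) ^ 3 ≤ (w : ℝ) ^ 6 := by
        have h7 : ((w : ℝ) * l) ≤ (w : ℝ) ^ 2 := by exact_mod_cast hwl2
        calc ((w : ℝ) * l) ^ 3 ≤ ((w : ℝ) ^ 2) ^ 3 := pow_le_pow_left₀ hwl0.le h7 3
          _ = (w : ℝ) ^ 6 := by ring
      refine h6.trans ?_
      have h8 : (w : ℝ) ^ 200 ≤ x := by exact_mod_cast hw200
      calc (w : ℝ) ^ 6 = ((w : ℝ) ^ 200) ^ (3 / 100 : ℝ) := by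
            rw [← Real.rpow_natCast, ← Real.rpow_natCast, ← Real.rpow_mul hw0.le]
            norm_num
        _ ≤ (x : ℝ) ^ (3 / 100 : ℝ) := Real.rpow_le_rpow (by positivity) h8 (by norm_num)
    have hlog5 := g2_log hx1
    have hxpow : (x : ℝ) ^ (11 / 12 : ℝ) * (x : ℝ) ^ (3 / 100 : ℝ) * (x : ℝ) ^ (4 / 75 : ℝ) =
        x := by
      rw [← Real.rpow_add hx0, ← Real.rpow_add hx0]
      norm_num
    rw [le_div_iff₀ hwl0]
    calc 18 * ((w : ℝ) * l) * (∑ a ∈ Icc A N, errK a x) * ((w : ℝ) * l)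
        ≤ 18 * ((w : ℝ) * l) * ((x : ℝ) ^ (11 / 12 : ℝ) * (1 + Real.log x) ^ 6 *
          (7 * ((w : ℝ) * l))) * ((w : ℝ) * l) := by gcongr
      _ = 126 * (x : ℝ) ^ (11 / 12 : ℝ) * ((w : ℝ) * l) ^ 3 * (1 + Real.log x) ^ 5 *
          (1 + Real.log x) := by ring
      _ ≤ 126 * (x : ℝ) ^ (11 / 12 : ℝ) * (x : ℝ) ^ (3 / 100 : ℝ) *
          (95 ^ 5 * (x : ℝ) ^ (4 / 75 : ℝ)) * (1 + Real.log x) := by gcongr
      _ = 126 * 95 ^ 5 * ((x : ℝ) ^ (11 / 12 : ℝ) * (x : ℝ) ^ (3 / 100 : ℝ) *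
          (x : ℝ) ^ (4 / 75 : ℝ)) * (1 + Real.log x) := by ring
      _ = 126 * 95 ^ 5 * x * (1 + Real.log x) := by rw [hxpow]
  calc ∑ a ∈ Icc A N, cntA x a Rw Rl
      ≤ 288 * x * (1 + Real.log x) / ((w : ℝ) * l) +
        126 * 95 ^ 5 * x * (1 + Real.log x) / ((w : ℝ) * l) := by linarith
    _ = (288 + 126 * 95 ^ 5) * x * (1 + Real.log x) / ((w : ℝ) * l) := by ring

end Pool.Agent.Lib.MP_79499b_co.EO
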