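import Pool.Agent.Lib.MP_79499b_co.EO.Defs

/-!
# K1: Kloosterman sums to an arbitrary modulus `a`: the fourth moment

PROOF. `‖kl h k‖^4 = kl h k * kl h k * conj (kl h k) * conj (kl h k)` is the sum over units
`y1, y2, y3, y4` of `ψ (h (y1 + y2 - y3 - y4) + k (1/y1 + 1/y2 - 1/y3 - 1/y4))`, where
`ψ = ZMod.stdAddChar` (conj (ψ t) = ψ (-t)).  Sum over `h` and `k` and use orthogonality
`∑ h, ψ (h t) = if t = 0 then a else 0` (`AddChar.sum_mulShift` with `ZMod.isPrimitive_stdAddChar`).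
-/

set_option autoImplicit false

namespace Pool.Agent.Lib.MP_79499b_co.EO

open Finset
open scoped Classical

/-- Kloosterman sum -/
noncomputable def kl (a : ℕ) [NeZero a] (h k : ZMod a) : ℂ :=
  ∑ y : (ZMod a)ˣ, ZMod.stdAddChar (h * (y : ZMod a) + k * ((y⁻¹ : (ZMod a)ˣ) : ZMod a))

/-- number of solutions of `y1 + y2 = y3 + y4`, `1/y1 + 1/y2 = 1/y3 + 1/y4` in units -/
noncomputable def jj (a : ℕ) [NeZero a] : ℕ :=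
  (univ.filter (fun t : (ZMod a)ˣ × (ZMod a)ˣ × (ZMod a)ˣ × (ZMod a)ˣ =>
    (t.1 : ZMod a) + (t.2.1 : ZMod a) = (t.2.2.1 : ZMod a) + (t.2.2.2 : ZMod a) ∧
    ((t.1⁻¹ : (ZMod a)ˣ) : ZMod a) + ((t.2.1⁻¹ : (ZMod a)ˣ) : ZMod a) =
      ((t.2.2.1⁻¹ : (ZMod a)ˣ) : ZMod a) + ((t.2.2.2⁻¹ : (ZMod a)ˣ) : ZMod a))).card

lemma k1_mul {ι κ : Type*} [Fintype ι] [Fintype κ] (f : ι → ℂ) (g : κ → ℂ) :
    (∑ i, f i) * (∑ j, g j) = ∑ p : ι × κ, f p.1 * g p.2 := by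
  rw [Fintype.sum_prod_type, Fintype.sum_mul_sum]

lemma k1_conj (a : ℕ) [NeZero a] (t : ZMod a) :
    (starRingEnd ℂ) (ZMod.stdAddChar t) = ZMod.stdAddChar (-t) :=
  (AddChar.map_neg_eq_conj _ _).symm

lemma k1_orth (a : ℕ) [NeZero a] (b : ZMod a) :
    ∑ x : ZMod a, (ZMod.stdAddChar (x * b) : ℂ) = if b = 0 then (a : ℂ) else 0 := by
  have h := AddChar.sum_mulShift b (ZMod.isPrimitive_stdAddChar a)
  rw [h]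
  split_ifs with hb
  · rw [ZMod.card]
  · simp

lemma k1_pow (a : ℕ) [NeZero a] (h k : ZMod a) :
    ((‖kl a h k‖ ^ 4 : ℝ) : ℂ) = ∑ t : (ZMod a)ˣ × (ZMod a)ˣ × (ZMod a)ˣ × (ZMod a)ˣ,
      ZMod.stdAddChar (h * ((t.1 : ZMod a) + (t.2.1 : ZMod a) - (t.2.2.1 : ZMod a)
        - (t.2.2.2 : ZMod a)))
      * ZMod.stdAddChar (k * (((t.1⁻¹ : (ZMod a)ˣ) : ZMod a) + ((t.2.1⁻¹ : (ZMod a)ˣ) : ZMod a)
        - ((t.2.2.1⁻¹ : (ZMod a)ˣ) : ZMod a) - ((t.2.2.2⁻¹ : (ZMod a)ˣ) : ZMod a))) := by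
  have h1 : ((‖kl a h k‖ ^ 4 : ℝ) : ℂ) = kl a h k * (kl a h k * ((starRingEnd ℂ) (kl a h k)
      * (starRingEnd ℂ) (kl a h k))) := by
    have h2 : kl a h k * (starRingEnd ℂ) (kl a h k) = ((‖kl a h k‖ ^ 2 : ℝ) : ℂ) := by
      rw [Complex.mul_conj, Complex.normSq_eq_norm_sq]
    calc ((‖kl a h k‖ ^ 4 : ℝ) : ℂ) = ((‖kl a h k‖ ^ 2 : ℝ) : ℂ) * ((‖kl a h k‖ ^ 2 : ℝ) : ℂ) := by
          rw [← Complex.ofReal_mul]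
          congr 1
          ring
      _ = (kl a h k * (starRingEnd ℂ) (kl a h k)) * (kl a h k * (starRingEnd ℂ) (kl a h k)) := by
          rw [h2]
      _ = _ := by ring
  have h3 : (starRingEnd ℂ) (kl a h k) = ∑ y : (ZMod a)ˣ,
      ZMod.stdAddChar (-(h * (y : ZMod a) + k * ((y⁻¹ : (ZMod a)ˣ) : ZMod a))) := by
    unfold kl
    rw [map_sum]
    exact sum_congr rfl (fun y _ => k1_conj a _)
  rw [h1, h3]
  unfold kl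
  rw [k1_mul, k1_mul, k1_mul]
  refine sum_congr rfl (fun t _ => ?_)
  rw [← AddChar.map_add_eq_mul, ← AddChar.map_add_eq_mul, ← AddChar.map_add_eq_mul,
    ← AddChar.map_add_eq_mul]
  congr 1
  ring

theorem fourth_moment (a : ℕ) [NeZero a] :
    ∑ h : ZMod a, ∑ k : ZMod a, ‖kl a h k‖ ^ 4 = (a : ℝ) ^ 2 * jj a := by
  have key : ((∑ h : ZMod a, ∑ k : ZMod a, ‖kl a h k‖ ^ 4 : ℝ) : ℂ)
      = (((a : ℝ) ^ 2 * jj a : ℝ) : ℂ) := by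
    push_cast
    have h1 : ∀ h k : ZMod a, ((‖kl a h k‖ : ℂ)) ^ 4 = ((‖kl a h k‖ ^ 4 : ℝ) : ℂ) := by
      intro h k
      push_cast
      rfl
    simp_rw [h1, k1_pow]
    have h2 : ∀ h : ZMod a, ∑ k : ZMod a, ∑ t : (ZMod a)ˣ × (ZMod a)ˣ × (ZMod a)ˣ × (ZMod a)ˣ,
        (ZMod.stdAddChar (h * ((t.1 : ZMod a) + (t.2.1 : ZMod a) - (t.2.2.1 : ZMod a)
          - (t.2.2.2 : ZMod a))) : ℂ)
        * ZMod.stdAddChar (k * (((t.1⁻¹ : (ZMod a)ˣ) : ZMod a) + ((t.2.1⁻¹ : (ZMod a)ˣ) : ZMod a)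
          - ((t.2.2.1⁻¹ : (ZMod a)ˣ) : ZMod a) - ((t.2.2.2⁻¹ : (ZMod a)ˣ) : ZMod a)))
        = ∑ t : (ZMod a)ˣ × (ZMod a)ˣ × (ZMod a)ˣ × (ZMod a)ˣ,
        (ZMod.stdAddChar (h * ((t.1 : ZMod a) + (t.2.1 : ZMod a) - (t.2.2.1 : ZMod a)
          - (t.2.2.2 : ZMod a))) : ℂ)
        * (if (((t.1⁻¹ : (ZMod a)ˣ) : ZMod a) + ((t.2.1⁻¹ : (ZMod a)ˣ) : ZMod a)
          - ((t.2.2.1⁻¹ : (ZMod a)ˣ) : ZMod a) - ((t.2.2.2⁻¹ : (ZMod a)ˣ) : ZMod a)) = 0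
          then (a : ℂ) else 0) := by
      intro h
      rw [sum_comm]
      refine sum_congr rfl (fun t _ => ?_)
      rw [← mul_sum, k1_orth]
    rw [sum_congr rfl (fun h _ => h2 h), sum_comm]
    have h3 : ∀ t : (ZMod a)ˣ × (ZMod a)ˣ × (ZMod a)ˣ × (ZMod a)ˣ,
        (∑ h : ZMod a, (ZMod.stdAddChar (h * ((t.1 : ZMod a) + (t.2.1 : ZMod a)
          - (t.2.2.1 : ZMod a) - (t.2.2.2 : ZMod a))) : ℂ)
        * (if (((t.1⁻¹ : (ZMod a)ˣ) : ZMod a) + ((t.2.1⁻¹ : (ZMod a)ˣ) : ZMod a)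
          - ((t.2.2.1⁻¹ : (ZMod a)ˣ) : ZMod a) - ((t.2.2.2⁻¹ : (ZMod a)ˣ) : ZMod a)) = 0
          then (a : ℂ) else 0))
        = if ((t.1 : ZMod a) + (t.2.1 : ZMod a) = (t.2.2.1 : ZMod a) + (t.2.2.2 : ZMod a) ∧
          ((t.1⁻¹ : (ZMod a)ˣ) : ZMod a) + ((t.2.1⁻¹ : (ZMod a)ˣ) : ZMod a) =
          ((t.2.2.1⁻¹ : (ZMod a)ˣ) : ZMod a) + ((t.2.2.2⁻¹ : (ZMod a)ˣ) : ZMod a))
          then (a : ℂ) ^ 2 else 0 := by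
      intro t
      rw [← sum_mul, k1_orth]
      have e1 : ((t.1 : ZMod a) + (t.2.1 : ZMod a) - (t.2.2.1 : ZMod a)
          - (t.2.2.2 : ZMod a) = 0) ↔
          ((t.1 : ZMod a) + (t.2.1 : ZMod a) = (t.2.2.1 : ZMod a) + (t.2.2.2 : ZMod a)) := by
        rw [sub_sub, sub_eq_zero]
      have e2 : (((t.1⁻¹ : (ZMod a)ˣ) : ZMod a) + ((t.2.1⁻¹ : (ZMod a)ˣ) : ZMod a)
          - ((t.2.2.1⁻¹ : (ZMod a)ˣ) : ZMod a) - ((t.2.2.2⁻¹ : (ZMod a)ˣ) : ZMod a) = 0) ↔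
          (((t.1⁻¹ : (ZMod a)ˣ) : ZMod a) + ((t.2.1⁻¹ : (ZMod a)ˣ) : ZMod a) =
          ((t.2.2.1⁻¹ : (ZMod a)ˣ) : ZMod a) + ((t.2.2.2⁻¹ : (ZMod a)ˣ) : ZMod a)) := by
        rw [sub_sub, sub_eq_zero]
      by_cases c1 : (t.1 : ZMod a) + (t.2.1 : ZMod a) = (t.2.2.1 : ZMod a) + (t.2.2.2 : ZMod a)
      · by_cases c2 : ((t.1⁻¹ : (ZMod a)ˣ) : ZMod a) + ((t.2.1⁻¹ : (ZMod a)ˣ) : ZMod a) =
          ((t.2.2.1⁻¹ : (ZMod a)ˣ) : ZMod a) + ((t.2.2.2⁻¹ : (ZMod a)ˣ) : ZMod a)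
        · rw [if_pos (e1.mpr c1), if_pos (e2.mpr c2), if_pos ⟨c1, c2⟩]
          ring
        · rw [if_pos (e1.mpr c1), if_neg (fun h => c2 (e2.mp h)), if_neg (fun h => c2 h.2)]
          ring
      · rw [if_neg (fun h => c1 (e1.mp h)), zero_mul, if_neg (fun h => c1 h.1)]
    rw [sum_congr rfl (fun t _ => h3 t), ← sum_filter, sum_const, nsmul_eq_mul]
    unfold jj
    ring
  exact_mod_cast key

end Pool.Agent.Lib.MP_79499b_co.EO
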