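import Pool.Agent.Lib.MP_79499b_co.EO.K1

/-!
# K2: the number of solutions `jj a` is at most `τ(a)^2 a^(7/3)`

PROOF. For units `y1, ..., y4` with `y1 + y2 = y3 + y4 =: σ` the second equation says
`σ / (y1 y2) = σ / (y3 y4)`, that is `σ (y3 y4 - y1 y2) = 0`, and with `y4 = σ - y3`
`y3 y4 - y1 y2 = y3 (y1 + y2 - y3) - y1 y2 = - (y3 - y1) (y3 - y2)`.  So `jj a` is at most the number
of triples `(y1, y2, y3)` in `(ZMod a)^3` (or in `range a`) with
`a ∣ (y1 + y2) (y3 - y1) (y3 - y2)` (the fourth unit is determined by the first three).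
For such a triple let `d1 = gcd (y1 + y2, a)`, `d2 = gcd (y3 - y1, a / d1)`, `d3 = a / (d1 d2)`; then
`d1 ∣ y1 + y2`, `d2 ∣ y3 - y1`, `d3 ∣ y3 - y2` and `d1 d2 d3 = a`.
For given `(d1, d2, d3)` any two of the three congruences leave at most `a * (a / di) * (a / dj)`
triples (e.g. `y3` free, `y1 = y3 mod d2`, `y2 = y3 mod d3`; or `y1` free, `y2 = -y1 mod d1`,
`y3 = y1 mod d2`; or `y2` free, `y1 = - y2 mod d1`, `y3 = y2 mod d3`), which is `a^2 dk` for the third
index `k`; the smallest of `d1, d2, d3` is at most `a^(1/3)`, so at most `a^2 a^(1/3)` triples.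
The number of `(d1, d2, d3)` with product `a` is at most `τ(a)^2` (choose the divisors `d1`, `d2`).
-/

set_option autoImplicit false

namespace Pool.Agent.Lib.MP_79499b_co.EO

open Finset
open scoped Classical

/-- multiples of `d` in `ZMod a` -/
noncomputable def k2_Z (a : ℕ) [NeZero a] (d : ℕ) : Finset (ZMod a) :=
  univ.filter (fun x : ZMod a => d ∣ x.val)

theorem k2_Z_card (a : ℕ) [NeZero a] (d e : ℕ) (h : d * e = a) : (k2_Z a d).card ≤ e := by
  have ha : 0 < a := Nat.pos_of_ne_zero (NeZero.ne a)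
  have hd : 0 < d := Nat.pos_of_ne_zero fun h0 => by rw [h0, zero_mul] at h; omega
  calc (k2_Z a d).card ≤ (range e).card := by
        refine card_le_card_of_injOn (fun x => x.val / d) ?_ ?_
        · intro x _
          rw [mem_coe, mem_range]
          show x.val / d < e
          refine Nat.div_lt_of_lt_mul ?_
          rw [h]
          exact ZMod.val_lt x
        · intro x hx x' hx' hxx
          rw [mem_coe, k2_Z, mem_filter] at hx hx'
          simp only at hxx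
          apply ZMod.val_injective a
          rw [← Nat.div_mul_cancel hx.2, ← Nat.div_mul_cancel hx'.2, hxx]
    _ = e := card_range e

/-- the triples with given divisors -/
noncomputable def k2_S (a : ℕ) [NeZero a] (d : ℕ × ℕ) : Finset (ZMod a × ZMod a × ZMod a) :=
  univ.filter (fun t : ZMod a × ZMod a × ZMod a => d.1 * d.2 * (a / (d.1 * d.2)) = a ∧
    d.1 ∣ (t.1 + t.2.1).val ∧ d.2 ∣ (t.2.2 - t.1).val ∧ (a / (d.1 * d.2)) ∣ (t.2.2 - t.2.1).val)

theorem k2_S_card (a : ℕ) [NeZero a] (d1 d2 d3 : ℕ) (h : d1 * d2 * d3 = a)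
    (T : Finset (ZMod a × ZMod a × ZMod a))
    (hT : ∀ t ∈ T, d1 ∣ (t.1 + t.2.1).val ∧ d2 ∣ (t.2.2 - t.1).val ∧ d3 ∣ (t.2.2 - t.2.1).val) :
    T.card ≤ a ^ 2 * d3 ∧ T.card ≤ a ^ 2 * d2 ∧ T.card ≤ a ^ 2 * d1 := by
  have c1 : (k2_Z a d1).card ≤ d2 * d3 := k2_Z_card a d1 (d2 * d3) (by rw [← h]; ring)
  have c2 : (k2_Z a d2).card ≤ d1 * d3 := k2_Z_card a d2 (d1 * d3) (by rw [← h]; ring)
  have c3 : (k2_Z a d3).card ≤ d1 * d2 := k2_Z_card a d3 (d1 * d2) (by rw [← h]; ring)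
  have cu : (univ : Finset (ZMod a)).card = a := by rw [card_univ, ZMod.card]
  have hm : ∀ (d : ℕ) (x : ZMod a), d ∣ x.val → x ∈ k2_Z a d := fun d x hx => by
    rw [k2_Z, mem_filter]; exact ⟨mem_univ _, hx⟩
  refine ⟨?_, ?_, ?_⟩
  · have h1 : T.card ≤ ((univ : Finset (ZMod a)) ×ˢ (k2_Z a d1 ×ˢ k2_Z a d2)).card := by
      refine card_le_card_of_injOn (fun t => (t.1, t.1 + t.2.1, t.2.2 - t.1)) ?_ ?_
      · intro t ht
        obtain ⟨h2, h3, h4⟩ := hT t ht
        rw [mem_coe, mem_product, mem_product]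
        exact ⟨mem_univ _, hm _ _ h2, hm _ _ h3⟩
      · rintro ⟨y1, y2, y3⟩ _ ⟨z1, z2, z3⟩ _ hh
        simp only [Prod.mk.injEq] at hh ⊢
        obtain ⟨rfl, h3, h4⟩ := hh
        exact ⟨rfl, add_left_cancel h3, sub_left_injective h4⟩
    rw [card_product, card_product, cu] at h1
    calc T.card ≤ a * ((k2_Z a d1).card * (k2_Z a d2).card) := h1
      _ ≤ a * ((d2 * d3) * (d1 * d3)) := Nat.mul_le_mul le_rfl (Nat.mul_le_mul c1 c2)
      _ = a * (d1 * d2 * d3) * d3 := by ring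
      _ = a ^ 2 * d3 := by rw [h]; ring
  · have h1 : T.card ≤ ((univ : Finset (ZMod a)) ×ˢ (k2_Z a d1 ×ˢ k2_Z a d3)).card := by
      refine card_le_card_of_injOn (fun t => (t.2.1, t.1 + t.2.1, t.2.2 - t.2.1)) ?_ ?_
      · intro t ht
        obtain ⟨h2, h3, h4⟩ := hT t ht
        rw [mem_coe, mem_product, mem_product]
        exact ⟨mem_univ _, hm _ _ h2, hm _ _ h4⟩
      · rintro ⟨y1, y2, y3⟩ _ ⟨z1, z2, z3⟩ _ hh
        simp only [Prod.mk.injEq] at hh ⊢
        obtain ⟨rfl, h3, h4⟩ := hh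
        exact ⟨add_right_cancel h3, rfl, sub_left_injective h4⟩
    rw [card_product, card_product, cu] at h1
    calc T.card ≤ a * ((k2_Z a d1).card * (k2_Z a d3).card) := h1
      _ ≤ a * ((d2 * d3) * (d1 * d2)) := Nat.mul_le_mul le_rfl (Nat.mul_le_mul c1 c3)
      _ = a * (d1 * d2 * d3) * d2 := by ring
      _ = a ^ 2 * d2 := by rw [h]; ring
  · have h1 : T.card ≤ ((univ : Finset (ZMod a)) ×ˢ (k2_Z a d2 ×ˢ k2_Z a d3)).card := by
      refine card_le_card_of_injOn (fun t => (t.2.2, t.2.2 - t.1, t.2.2 - t.2.1)) ?_ ?_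
      · intro t ht
        obtain ⟨h2, h3, h4⟩ := hT t ht
        rw [mem_coe, mem_product, mem_product]
        exact ⟨mem_univ _, hm _ _ h3, hm _ _ h4⟩
      · rintro ⟨y1, y2, y3⟩ _ ⟨z1, z2, z3⟩ _ hh
        simp only [Prod.mk.injEq] at hh ⊢
        obtain ⟨rfl, h3, h4⟩ := hh
        exact ⟨sub_right_injective h3, sub_right_injective h4, rfl⟩
    rw [card_product, card_product, cu] at h1
    calc T.card ≤ a * ((k2_Z a d2).card * (k2_Z a d3).card) := h1
      _ ≤ a * ((d1 * d3) * (d1 * d2)) := Nat.mul_le_mul le_rfl (Nat.mul_le_mul c2 c3)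
      _ = a * (d1 * d2 * d3) * d1 := by ring
      _ = a ^ 2 * d1 := by rw [h]; ring

theorem k2_cube (d a : ℕ) (h : d ^ 3 ≤ a) : (d : ℝ) ≤ (a : ℝ) ^ (1 / 3 : ℝ) := by
  have h1 : ((d : ℝ) ^ 3) ≤ a := by exact_mod_cast h
  calc (d : ℝ) = ((d : ℝ) ^ 3) ^ (1 / 3 : ℝ) := by
        rw [← Real.rpow_natCast, ← Real.rpow_mul (Nat.cast_nonneg d)]
        norm_num
    _ ≤ _ := Real.rpow_le_rpow (by positivity) h1 (by norm_num)

theorem k2_S_le (a : ℕ) [NeZero a] (d : ℕ × ℕ) :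
    ((k2_S a d).card : ℝ) ≤ (a : ℝ) ^ (7 / 3 : ℝ) := by
  have ha : 0 < a := Nat.pos_of_ne_zero (NeZero.ne a)
  have ha' : (0 : ℝ) < a := by exact_mod_cast ha
  rcases (k2_S a d).eq_empty_or_nonempty with he | ⟨t0, ht0⟩
  · rw [he, card_empty, Nat.cast_zero]
    positivity
  · have h0 := ht0
    rw [k2_S, mem_filter] at h0
    obtain ⟨d3, hd3⟩ : ∃ d3, d3 = a / (d.1 * d.2) := ⟨_, rfl⟩
    have h := h0.2.1
    rw [← hd3] at h
    obtain ⟨c3, c2, c1⟩ := k2_S_card a d.1 d.2 d3 h (k2_S a d) (fun t ht => by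
      rw [k2_S, mem_filter] at ht
      rw [hd3]
      exact ht.2.2)
    have key : ∀ e : ℕ, e ^ 3 ≤ a → (k2_S a d).card ≤ a ^ 2 * e →
        ((k2_S a d).card : ℝ) ≤ (a : ℝ) ^ (7 / 3 : ℝ) := by
      intro e he hc
      have h1 : ((k2_S a d).card : ℝ) ≤ (a : ℝ) ^ 2 * e := by exact_mod_cast hc
      refine le_trans h1 (le_trans (mul_le_mul_of_nonneg_left (k2_cube e a he) (by positivity)) ?_)
      rw [← Real.rpow_natCast (a : ℝ) 2, ← Real.rpow_add ha']
      apply le_of_eq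
      congr 1
      norm_num
    obtain ⟨x, hx⟩ : ∃ x, x = d.1 := ⟨_, rfl⟩
    obtain ⟨y, hy⟩ : ∃ y, y = d.2 := ⟨_, rfl⟩
    rw [← hx, ← hy] at h
    rw [← hx] at c1
    rw [← hy] at c2
    by_cases h1 : x ≤ y ∧ x ≤ d3
    · refine key x ?_ c1
      calc x ^ 3 = x * x * x := by ring
        _ ≤ x * y * d3 := Nat.mul_le_mul (Nat.mul_le_mul le_rfl h1.1) h1.2
        _ = a := h
    · by_cases h2 : y ≤ x ∧ y ≤ d3
      · refine key y ?_ c2
        calc y ^ 3 = y * y * y := by ring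
          _ ≤ x * y * d3 := Nat.mul_le_mul (Nat.mul_le_mul h2.1 le_rfl) h2.2
          _ = a := h
      · refine key d3 ?_ c3
        calc d3 ^ 3 = d3 * d3 * d3 := by ring
          _ ≤ x * y * d3 := Nat.mul_le_mul (Nat.mul_le_mul (by omega) (by omega)) le_rfl
          _ = a := h

theorem jj_le (a : ℕ) [NeZero a] :
    (jj a : ℝ) ≤ (a.divisors.card : ℝ) ^ 2 * (a : ℝ) ^ (7 / 3 : ℝ) := by
  have ha : 0 < a := Nat.pos_of_ne_zero (NeZero.ne a)
  have h1 : jj a ≤ ((a.divisors ×ˢ a.divisors).biUnion (k2_S a)).card := by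
    unfold jj
    refine card_le_card_of_injOn
      (fun t => ((t.1 : ZMod a), (t.2.1 : ZMod a), (t.2.2.1 : ZMod a))) ?_ ?_
    · rintro ⟨y1, y2, y3, y4⟩ ht
      rw [mem_coe, mem_filter] at ht
      obtain ⟨_, h2, h3⟩ := ht
      simp only at h2 h3
      rw [mem_coe, mem_biUnion]
      beta_reduce
      have e1 : (y1 : ZMod a) * ((y1⁻¹ : (ZMod a)ˣ) : ZMod a) = 1 := Units.mul_inv y1
      have e2 : (y2 : ZMod a) * ((y2⁻¹ : (ZMod a)ˣ) : ZMod a) = 1 := Units.mul_inv y2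
      have e3 : (y3 : ZMod a) * ((y3⁻¹ : (ZMod a)ˣ) : ZMod a) = 1 := Units.mul_inv y3
      have e4 : (y4 : ZMod a) * ((y4⁻¹ : (ZMod a)ˣ) : ZMod a) = 1 := Units.mul_inv y4
      generalize ((y1⁻¹ : (ZMod a)ˣ) : ZMod a) = i1 at *
      generalize ((y2⁻¹ : (ZMod a)ˣ) : ZMod a) = i2 at *
      generalize ((y3⁻¹ : (ZMod a)ˣ) : ZMod a) = i3 at *
      generalize ((y4⁻¹ : (ZMod a)ˣ) : ZMod a) = i4 at *
      generalize (y1 : ZMod a) = x1 at *
      generalize (y2 : ZMod a) = x2 at *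
      generalize (y3 : ZMod a) = x3 at *
      generalize (y4 : ZMod a) = x4 at *
      have e5 : (x1 + x2) * (x3 * x4) = (x3 + x4) * (x1 * x2) := by
        have h4 : x1 * x2 * x3 * x4 * (i1 + i2) = x1 * x2 * x3 * x4 * (i3 + i4) := by rw [h3]
        have h5 : x1 * x2 * x3 * x4 * (i1 + i2) = (x1 + x2) * (x3 * x4) := by
          calc x1 * x2 * x3 * x4 * (i1 + i2) = (x1 * i1) * x2 * x3 * x4 + (x2 * i2) * x1 * x3 * x4 := by
                ring
            _ = _ := by rw [e1, e2]; ring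
        have h6 : x1 * x2 * x3 * x4 * (i3 + i4) = (x3 + x4) * (x1 * x2) := by
          calc x1 * x2 * x3 * x4 * (i3 + i4) = (x3 * i3) * x1 * x2 * x4 + (x4 * i4) * x1 * x2 * x3 := by
                ring
            _ = _ := by rw [e3, e4]; ring
        rw [← h5, ← h6, h4]
      have e6 : (x1 + x2) * (x3 - x1) * (x3 - x2) = 0 := by
        have h4 : x4 = x1 + x2 - x3 := by rw [h2]; ring
        rw [← h2, h4] at e5
        linear_combination -e5
      have e7 : a ∣ (x1 + x2).val * (x3 - x1).val * (x3 - x2).val := by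
        rw [← CharP.cast_eq_zero_iff (ZMod a) a]
        push_cast
        rw [ZMod.natCast_zmod_val, ZMod.natCast_zmod_val, ZMod.natCast_zmod_val]
        exact e6
      rw [Nat.dvd_mul] at e7
      obtain ⟨e, d3, he, hd3, hed⟩ := e7
      rw [Nat.dvd_mul] at he
      obtain ⟨d1, d2, hd1, hd2, h12⟩ := he
      have h7 : d1 * d2 * d3 = a := by rw [h12, hed]
      have h8 : 0 < d1 * d2 := Nat.pos_of_ne_zero fun h0 => by
        rw [h0, zero_mul] at h7
        omega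
      have h9 : a / (d1 * d2) = d3 := by
        rw [← h7]
        exact Nat.mul_div_cancel_left d3 h8
      refine ⟨(d1, d2), ?_, ?_⟩
      · rw [mem_product, Nat.mem_divisors, Nat.mem_divisors]
        refine ⟨⟨⟨d2 * d3, by rw [← h7]; ring⟩, ha.ne'⟩, ⟨⟨d1 * d3, by rw [← h7]; ring⟩, ha.ne'⟩⟩
      · rw [k2_S, mem_filter]
        simp only
        rw [h9]
        exact ⟨mem_univ _, h7, hd1, hd2, hd3⟩
    · rintro ⟨y1, y2, y3, y4⟩ ht ⟨z1, z2, z3, z4⟩ hz hh
      rw [mem_coe, mem_filter] at ht hz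
      simp only [Prod.mk.injEq] at hh ht hz ⊢
      obtain ⟨h4, h5, h6⟩ := hh
      have h7 : (y4 : ZMod a) = (z4 : ZMod a) := by
        have h8 := ht.2.1
        have h9 := hz.2.1
        rw [h4, h5, h6] at h8
        rw [h9] at h8
        exact (add_left_cancel h8).symm
      exact ⟨Units.ext h4, Units.ext h5, Units.ext h6, Units.ext h7⟩
  have h2 : (((a.divisors ×ˢ a.divisors).biUnion (k2_S a)).card : ℝ) ≤
      ∑ d ∈ a.divisors ×ˢ a.divisors, ((k2_S a d).card : ℝ) := by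
    exact_mod_cast card_biUnion_le
  calc (jj a : ℝ) ≤ (((a.divisors ×ˢ a.divisors).biUnion (k2_S a)).card : ℝ) := by
        exact_mod_cast h1
    _ ≤ ∑ d ∈ a.divisors ×ˢ a.divisors, ((k2_S a d).card : ℝ) := h2
    _ ≤ ∑ d ∈ a.divisors ×ˢ a.divisors, (a : ℝ) ^ (7 / 3 : ℝ) :=
        sum_le_sum fun d _ => k2_S_le a d
    _ = _ := by
        rw [sum_const, card_product, nsmul_eq_mul]
        push_cast
        ring

end Pool.Agent.Lib.MP_79499b_co.EO
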