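import Pool.Agent.Lib.MP_79499b_co.EO.K2

/-!
# K3: elementary bound for Kloosterman sums to an arbitrary modulus

PROOF. Let `g = gcd (h, k, a)`.  For a unit `u` the substitution `y -> u y` gives
`kl (h u) (k u⁻¹) = kl h k`.  The map `u ↦ (h u, k u⁻¹)` from the units to `ZMod a × ZMod a` has fibres of
size at most `g`: if `h u = h u'` and `k u⁻¹ = k u'⁻¹` then `h (u - u') = 0`, `k (u - u') = 0`, so
`a ∣ h.val (u - u')`, `a ∣ k.val (u - u')`, hence `a ∣ g (u - u')` (g is an integer combination of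
`h.val`, `k.val`, `a`), `u = u' mod a / g`: at most `g` residues `u` mod `a`.
So at least `φ(a) / g` pairs have the same value of `‖kl‖^4`, and K1, K2 give
`φ(a) / g * ‖kl h k‖^4 ≤ a^2 jj a ≤ a^2 τ(a)^2 a^(7/3)`.
Finally `a ≤ τ(a) φ(a)` (`Nat.sum_totient`: `a = ∑ d ∣ a, φ(d)` and `φ(d) ≤ φ(a)` for `d ∣ a`).
-/

set_option autoImplicit false

namespace Pool.Agent.Lib.MP_79499b_co.EO

open Finset
open scoped Classical

theorem k3_inv (a : ℕ) [NeZero a] (h k : ZMod a) (u : (ZMod a)ˣ) :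
    kl a (h * (u : ZMod a)) (k * ((u⁻¹ : (ZMod a)ˣ) : ZMod a)) = kl a h k := by
  unfold kl
  refine Fintype.sum_equiv (Equiv.mulLeft u) _ _ fun y => ?_
  have e1 : h * (u : ZMod a) * (y : ZMod a) + k * ((u⁻¹ : (ZMod a)ˣ) : ZMod a) *
      ((y⁻¹ : (ZMod a)ˣ) : ZMod a) = h * (((Equiv.mulLeft u) y : (ZMod a)ˣ) : ZMod a) +
      k * ((((Equiv.mulLeft u) y)⁻¹ : (ZMod a)ˣ) : ZMod a) := by
    rw [Equiv.coe_mulLeft, mul_inv_rev, Units.val_mul, Units.val_mul]
    ring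
  rw [e1]

theorem k3_ker (a g : ℕ) [NeZero a] (hg : g ∣ a) :
    (univ.filter (fun d : ZMod a => a ∣ g * d.val)).card ≤ g := by
  obtain ⟨M, hM⟩ := hg
  have ha : 0 < a := Nat.pos_of_ne_zero (NeZero.ne a)
  have hg0 : 0 < g := Nat.pos_of_ne_zero fun h => by rw [h, zero_mul] at hM; omega
  have hM0 : 0 < M := Nat.pos_of_ne_zero fun h => by rw [h, mul_zero] at hM; omega
  have hdvd : ∀ d : ZMod a, a ∣ g * d.val → M ∣ d.val := by
    intro d hd
    exact Nat.dvd_of_mul_dvd_mul_left hg0 ((dvd_of_eq hM.symm).trans hd)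
  calc (univ.filter (fun d : ZMod a => a ∣ g * d.val)).card ≤ (range g).card := by
        refine card_le_card_of_injOn (fun d => d.val / M) ?_ ?_
        · intro d _
          rw [mem_coe, mem_range]
          show d.val / M < g
          rw [Nat.div_lt_iff_lt_mul hM0, ← hM]
          exact ZMod.val_lt d
        · intro d hd d' hd' hdd
          rw [mem_coe, mem_filter] at hd hd'
          simp only at hdd
          have h1 := Nat.div_mul_cancel (hdvd d hd.2)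
          have h2 := Nat.div_mul_cancel (hdvd d' hd'.2)
          apply ZMod.val_injective a
          rw [← h1, ← h2, hdd]
    _ = g := card_range g

theorem k3_tot (a : ℕ) (ha : 0 < a) : a ≤ a.divisors.card * a.totient := by
  calc a = ∑ d ∈ a.divisors, d.totient := (Nat.sum_totient a).symm
    _ ≤ ∑ d ∈ a.divisors, a.totient := by
        refine sum_le_sum fun d hd => ?_
        exact Nat.le_of_dvd (Nat.totient_pos.mpr ha)
          (Nat.totient_dvd_of_dvd (Nat.dvd_of_mem_divisors hd))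
    _ = _ := by rw [sum_const, smul_eq_mul]

theorem k3_fib (a : ℕ) [NeZero a] (h k : ZMod a) (z : ZMod a × ZMod a) :
    (univ.filter (fun u : (ZMod a)ˣ =>
      (h * (u : ZMod a), k * ((u⁻¹ : (ZMod a)ˣ) : ZMod a)) = z)).card ≤
      Nat.gcd (Nat.gcd h.val k.val) a := by
  rcases (univ.filter (fun u : (ZMod a)ˣ =>
      (h * (u : ZMod a), k * ((u⁻¹ : (ZMod a)ˣ) : ZMod a)) = z)).eq_empty_or_nonempty with he | ⟨u0, hu0⟩
  · rw [he, card_empty]
    exact Nat.zero_le _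
  · rw [mem_filter] at hu0
    refine le_trans ?_ (k3_ker a (Nat.gcd (Nat.gcd h.val k.val) a) (Nat.gcd_dvd_right _ _))
    refine card_le_card_of_injOn (fun u => (u : ZMod a) - (u0 : ZMod a)) ?_ ?_
    · intro u hu
      rw [mem_coe, mem_filter] at hu
      rw [mem_coe, mem_filter]
      refine ⟨mem_univ _, ?_⟩
      have hz := hu.2.trans hu0.2.symm
      rw [Prod.mk.injEq] at hz
      obtain ⟨h1, h2⟩ := hz
      have h3 : k * (u : ZMod a) = k * (u0 : ZMod a) := by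
        have e1 : k * (u0 : ZMod a) = k * ((u⁻¹ : (ZMod a)ˣ) : ZMod a) * ((u : ZMod a) * (u0 : ZMod a)) := by
          have : ((u⁻¹ : (ZMod a)ˣ) : ZMod a) * (u : ZMod a) = 1 := Units.inv_mul u
          calc k * (u0 : ZMod a) = k * (((u⁻¹ : (ZMod a)ˣ) : ZMod a) * (u : ZMod a)) * (u0 : ZMod a) := by
                rw [this, mul_one]
            _ = _ := by ring
        rw [e1, h2]
        have : ((u0⁻¹ : (ZMod a)ˣ) : ZMod a) * (u0 : ZMod a) = 1 := Units.inv_mul u0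
        calc k * (u : ZMod a) = k * (((u0⁻¹ : (ZMod a)ˣ) : ZMod a) * (u0 : ZMod a)) * (u : ZMod a) := by
              rw [this, mul_one]
          _ = _ := by ring
      obtain ⟨d, hd⟩ : ∃ d, d = (u : ZMod a) - (u0 : ZMod a) := ⟨_, rfl⟩
      simp only
      rw [← hd]
      have h4 : h * d = 0 := by rw [hd, mul_sub, h1, sub_self]
      have h5 : k * d = 0 := by rw [hd, mul_sub, h3, sub_self]
      have h6 : ∀ x : ZMod a, x * d = 0 → a ∣ x.val * d.val := by
        intro x hx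
        rw [← CharP.cast_eq_zero_iff (ZMod a) a]
        push_cast
        rw [ZMod.natCast_zmod_val, ZMod.natCast_zmod_val]
        exact hx
      have h7 : Nat.gcd (Nat.gcd h.val k.val) a * d.val =
          Nat.gcd (Nat.gcd (h.val * d.val) (k.val * d.val)) (a * d.val) := by
        rw [Nat.gcd_mul_right, Nat.gcd_mul_right]
      rw [h7]
      exact Nat.dvd_gcd (Nat.dvd_gcd (h6 h h4) (h6 k h5)) (Nat.dvd_mul_right _ _)
    · intro u _ u' _ huu
      simp only at huu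
      exact Units.ext (sub_left_injective huu)

theorem kl_bound (a : ℕ) [NeZero a] (h k : ZMod a) :
    ‖kl a h k‖ ^ 4 ≤ (Nat.gcd (Nat.gcd h.val k.val) a : ℝ) * (a.divisors.card : ℝ) ^ 3 *
      (a : ℝ) ^ (10 / 3 : ℝ) := by
  have ha : 0 < a := Nat.pos_of_ne_zero (NeZero.ne a)
  have ha' : (0 : ℝ) < a := by exact_mod_cast ha
  obtain ⟨g, hg⟩ : ∃ g, g = Nat.gcd (Nat.gcd h.val k.val) a := ⟨_, rfl⟩
  rw [← hg]
  obtain ⟨Φ, hΦ⟩ : ∃ Φ : (ZMod a)ˣ → ZMod a × ZMod a,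
    Φ = fun u : (ZMod a)ˣ => (h * (u : ZMod a), k * ((u⁻¹ : (ZMod a)ˣ) : ZMod a)) := ⟨_, rfl⟩
  -- number of values
  have h1 : a.totient ≤ g * (univ.image Φ).card := by
    have h2 : (univ : Finset (ZMod a)ˣ).card ≤ g * (univ.image Φ).card := by
      refine card_le_mul_card_image univ g fun z _ => ?_
      rw [hg, hΦ]
      exact k3_fib a h k z
    rwa [card_univ, ZMod.card_units_eq_totient] at h2
  have h2 : ((univ.image Φ).card : ℝ) * ‖kl a h k‖ ^ 4 ≤ (a : ℝ) ^ 2 * jj a := by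
    rw [← fourth_moment, ← Fintype.sum_prod_type' (f := fun x y => ‖kl a x y‖ ^ 4)]
    calc ((univ.image Φ).card : ℝ) * ‖kl a h k‖ ^ 4
        = ∑ z ∈ univ.image Φ, ‖kl a h k‖ ^ 4 := by rw [sum_const, nsmul_eq_mul]
      _ = ∑ z ∈ univ.image Φ, ‖kl a z.1 z.2‖ ^ 4 := by
          refine sum_congr rfl fun z hz => ?_
          obtain ⟨u, _, rfl⟩ := mem_image.mp hz
          rw [hΦ]
          simp only
          rw [k3_inv]
      _ ≤ ∑ z : ZMod a × ZMod a, ‖kl a z.1 z.2‖ ^ 4 :=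
          sum_le_sum_of_subset_of_nonneg (subset_univ _) fun _ _ _ => by positivity
  have h3 := jj_le a
  have h4 : (a : ℝ) ≤ (a.divisors.card : ℝ) * (a.totient : ℝ) := by exact_mod_cast k3_tot a ha
  have h1' : (a.totient : ℝ) ≤ (g : ℝ) * ((univ.image Φ).card : ℝ) := by exact_mod_cast h1
  have hK : 0 ≤ ‖kl a h k‖ ^ 4 := by positivity
  have h5 : (a : ℝ) * ‖kl a h k‖ ^ 4 ≤ (a : ℝ) * ((g : ℝ) * (a.divisors.card : ℝ) ^ 3 *
      (a : ℝ) ^ (10 / 3 : ℝ)) := by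
    have e1 : (a : ℝ) ^ 2 * (a : ℝ) ^ (7 / 3 : ℝ) = (a : ℝ) * (a : ℝ) ^ (10 / 3 : ℝ) := by
      have e2 : (a : ℝ) ^ (10 / 3 : ℝ) = (a : ℝ) * (a : ℝ) ^ (7 / 3 : ℝ) := by
        rw [show (10 / 3 : ℝ) = 1 + 7 / 3 by norm_num, Real.rpow_add ha', Real.rpow_one]
      rw [e2]; ring
    calc (a : ℝ) * ‖kl a h k‖ ^ 4 ≤ ((a.divisors.card : ℝ) * (a.totient : ℝ)) * ‖kl a h k‖ ^ 4 :=
          mul_le_mul_of_nonneg_right h4 hK
      _ = (a.divisors.card : ℝ) * ((a.totient : ℝ) * ‖kl a h k‖ ^ 4) := by ring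
      _ ≤ (a.divisors.card : ℝ) * (((g : ℝ) * ((univ.image Φ).card : ℝ)) * ‖kl a h k‖ ^ 4) :=
          mul_le_mul_of_nonneg_left (mul_le_mul_of_nonneg_right h1' hK) (Nat.cast_nonneg _)
      _ = (a.divisors.card : ℝ) * (g : ℝ) * (((univ.image Φ).card : ℝ) * ‖kl a h k‖ ^ 4) := by ring
      _ ≤ (a.divisors.card : ℝ) * (g : ℝ) * ((a : ℝ) ^ 2 * jj a) :=
          mul_le_mul_of_nonneg_left h2 (by positivity)
      _ ≤ (a.divisors.card : ℝ) * (g : ℝ) * ((a : ℝ) ^ 2 *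
          ((a.divisors.card : ℝ) ^ 2 * (a : ℝ) ^ (7 / 3 : ℝ))) :=
          mul_le_mul_of_nonneg_left (mul_le_mul_of_nonneg_left h3 (by positivity)) (by positivity)
      _ = (g : ℝ) * (a.divisors.card : ℝ) ^ 3 * ((a : ℝ) ^ 2 * (a : ℝ) ^ (7 / 3 : ℝ)) := by ring
      _ = _ := by rw [e1]; ring
  exact le_of_mul_le_mul_left h5 ha'

end Pool.Agent.Lib.MP_79499b_co.EO
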