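import Pool.Agent.Lib.MP_79499b_co.EO.Defs

/-!
# K4: exponential sums over arithmetic progressions (geometric sums)

PROOF of `fs_sum_le`. `fs h = ψ(h b₀) ∑ b < B, ψ(h q)^b` (geometric sum), so with `r = (h q).val ≠ 0`
(`h ≠ 0`, `q` is a unit mod `a`) `‖fs h‖ ≤ 2 / ‖ψ(h q) - 1‖` and `‖ψ(h q) - 1‖ = 2 sin(π r / a) ≥
4 min (r, a - r) / a` (`Real.mul_le_sin` on `[0, π/2]`), so `‖fs h‖ ≤ a / (2 min (r, a - r))`.
The map `h ↦ h q` permutes the nonzero multiples of `g` in `ZMod a` (`g ∣ a`): `g ∣ h.val` iff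
`g ∣ (h q).val`.  With `r = g r'`, `M = a / g`, `1 ≤ r' ≤ M - 1`:
`∑ r', a / (2 g min (r', M - r')) ≤ (M / 2) * 2 * ∑ r' ≤ M/2, 1 / r' ≤ M (1 + log a)`.
(For `g = a` the sum is empty.)
-/

set_option autoImplicit false

namespace Pool.Agent.Lib.MP_79499b_co.EO

open Finset
open scoped Classical

/-- exponential sum over the progression `b₀ + q b`, `b < B` -/
noncomputable def fs (a : ℕ) [NeZero a] (q b₀ B : ℕ) (h : ZMod a) : ℂ :=
  ∑ b ∈ range B, ZMod.stdAddChar (h * ((b₀ + q * b : ℕ) : ZMod a))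

theorem fs_zero (a : ℕ) [NeZero a] (q b₀ B : ℕ) : fs a q b₀ B 0 = B := by
  simp [fs]

lemma k4_sin (a r : ℕ) (hr : 0 < r) (hra : r < a) :
    2 / (2 * |Real.sin (Real.pi * r / a)|) ≤ (a : ℝ) / 2 * (1 / r + 1 / (a - r)) := by
  have ha : (0 : ℝ) < a := by exact_mod_cast (hr.trans hra)
  have hr' : (0 : ℝ) < r := by exact_mod_cast hr
  have hra' : (r : ℝ) < a := by exact_mod_cast hra
  have har : (0 : ℝ) < a - r := by linarith
  have hpi := Real.pi_pos
  have main : ∀ s : ℝ, 0 < s → 2 * s ≤ a → Real.sin (Real.pi * s / a) = Real.sin (Real.pi * r / a) →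
      2 / (2 * |Real.sin (Real.pi * r / a)|) ≤ (a : ℝ) / 2 * (1 / s) := by
    intro s hs hsa he
    have h1 : 2 / Real.pi * (Real.pi * s / a) ≤ Real.sin (Real.pi * s / a) := by
      refine Real.mul_le_sin (by positivity) ?_
      rw [div_le_div_iff₀ ha (by norm_num)]
      nlinarith
    have h2 : 2 / Real.pi * (Real.pi * s / a) = 2 * s / a := by
      field_simp
    rw [h2, he] at h1
    have h3 : 0 < 2 * s / a := by positivity
    have h4 : 2 * s / a ≤ |Real.sin (Real.pi * r / a)| := h1.trans (le_abs_self _)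
    calc 2 / (2 * |Real.sin (Real.pi * r / a)|) = 1 / |Real.sin (Real.pi * r / a)| := by
          field_simp
      _ ≤ 1 / (2 * s / a) := one_div_le_one_div_of_le h3 h4
      _ = (a : ℝ) / 2 * (1 / s) := by field_simp
  rw [mul_add]
  rcases le_total (2 * (r : ℝ)) a with h | h
  · have := main r hr' h rfl
    have h5 : 0 < (a : ℝ) / 2 * (1 / (a - r)) := by positivity
    linarith
  · have h6 : Real.sin (Real.pi * ((a : ℝ) - r) / a) = Real.sin (Real.pi * r / a) := by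
      rw [← Real.sin_pi_sub]
      congr 1
      field_simp
      ring
    have := main (a - r) har (by linarith) h6
    have h5 : 0 < (a : ℝ) / 2 * (1 / r) := by positivity
    linarith

lemma k4_norm (a : ℕ) [NeZero a] (x : ZMod a) :
    ‖(ZMod.stdAddChar x : ℂ) - 1‖ = 2 * |Real.sin (Real.pi * x.val / a)| := by
  rw [ZMod.stdAddChar_apply, ZMod.toCircle_apply]
  have h : (2 * Real.pi * Complex.I * x.val / a : ℂ)
      = Complex.I * ((2 * (Real.pi * x.val / a) : ℝ) : ℂ) := by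
    push_cast
    ring
  rw [h, Complex.norm_exp_I_mul_ofReal_sub_one, norm_mul, Real.norm_eq_abs, Real.norm_eq_abs]
  have h2 : 2 * (Real.pi * x.val / a) / 2 = Real.pi * x.val / a := by ring
  rw [h2]
  norm_num

lemma k4_point (a : ℕ) [NeZero a] (q b₀ B : ℕ) (h : ZMod a) (hx : h * (q : ZMod a) ≠ 0) :
    ‖fs a q b₀ B h‖ ≤ (a : ℝ) / 2 * (1 / ((h * (q : ZMod a)).val : ℝ)
      + 1 / (a - ((h * (q : ZMod a)).val : ℝ))) := by
  have hz : (ZMod.stdAddChar (h * (q : ZMod a)) : ℂ) ≠ 1 := by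
    intro h0
    rw [← AddChar.map_zero_eq_one (ZMod.stdAddChar : AddChar (ZMod a) ℂ)] at h0
    exact hx (ZMod.injective_stdAddChar h0)
  have hz' : (ZMod.stdAddChar (h * (q : ZMod a)) : ℂ) - 1 ≠ 0 := sub_ne_zero.mpr hz
  have h1 : fs a q b₀ B h = ZMod.stdAddChar (h * (b₀ : ZMod a))
      * ∑ b ∈ range B, (ZMod.stdAddChar (h * (q : ZMod a)) : ℂ) ^ b := by
    unfold fs
    rw [mul_sum]
    refine sum_congr rfl (fun b _ => ?_)
    rw [← AddChar.map_nsmul_eq_pow, ← AddChar.map_add_eq_mul]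
    congr 1
    rw [nsmul_eq_mul]
    push_cast
    ring
  have hn : ∀ x : ZMod a, ‖(ZMod.stdAddChar x : ℂ)‖ = 1 := by
    intro x
    rw [ZMod.stdAddChar_apply]
    exact Circle.norm_coe _
  rw [h1, norm_mul, hn, one_mul, geom_sum_eq hz, norm_div]
  have h2 : ‖(ZMod.stdAddChar (h * (q : ZMod a)) : ℂ) ^ B - 1‖ ≤ 2 := by
    refine (norm_sub_le _ _).trans ?_
    rw [norm_pow, hn, one_pow, norm_one]
    norm_num
  have hpos : 0 < ‖(ZMod.stdAddChar (h * (q : ZMod a)) : ℂ) - 1‖ := norm_pos_iff.mpr hz'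
  refine (div_le_div_of_nonneg_right h2 hpos.le).trans ?_
  rw [k4_norm]
  refine k4_sin a _ ?_ (ZMod.val_lt _)
  rw [Nat.pos_iff_ne_zero]
  intro h0
  exact hx ((ZMod.val_eq_zero _).mp h0)

theorem fs_sum_le (a : ℕ) [NeZero a] (q b₀ B g : ℕ) (hq : Nat.Coprime q a) (hg : g ∣ a) :
    ∑ h ∈ univ.filter (fun h : ZMod a => h ≠ 0 ∧ g ∣ h.val), ‖fs a q b₀ B h‖ ≤
      (a : ℝ) / g * (1 + Real.log a) := by
  have ha0 : 0 < a := Nat.pos_of_ne_zero (NeZero.ne a)
  obtain ⟨M, hM⟩ := hg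
  have hg0 : 0 < g := Nat.pos_of_ne_zero (fun h => by rw [h, zero_mul] at hM; omega)
  have hM0 : 0 < M := Nat.pos_of_ne_zero (fun h => by rw [h, mul_zero] at hM; omega)
  have hgR : (0 : ℝ) < g := by exact_mod_cast hg0
  have hMR : (0 : ℝ) < M := by exact_mod_cast hM0
  have haR : (a : ℝ) = g * M := by exact_mod_cast hM
  have hu : IsUnit (q : ZMod a) := (ZMod.isUnit_iff_coprime q a).mpr hq
  set S := univ.filter (fun h : ZMod a => h ≠ 0 ∧ g ∣ h.val) with hS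
  have hval : ∀ h ∈ S, ∃ j, (h * (q : ZMod a)).val = g * j ∧ 1 ≤ j ∧ j < M := by
    intro h hh
    rw [hS, mem_filter] at hh
    have hx : h * (q : ZMod a) ≠ 0 := fun h0 => hh.2.1 (hu.mul_left_eq_zero.mp h0)
    have hd : g ∣ (h * (q : ZMod a)).val := by
      rw [ZMod.val_mul]
      refine (Nat.dvd_mod_iff ?_).mpr (dvd_mul_of_dvd_left hh.2.2 _)
      rw [hM]
      exact dvd_mul_right _ _
    obtain ⟨j, hj⟩ := hd
    refine ⟨j, hj, ?_, ?_⟩
    · rw [Nat.one_le_iff_ne_zero]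
      intro h0
      rw [h0, mul_zero] at hj
      exact hx ((ZMod.val_eq_zero _).mp hj)
    · have := ZMod.val_lt (h * (q : ZMod a))
      rw [hj] at this
      have this2 : g * j < g * M := lt_of_lt_of_eq this hM
      exact lt_of_mul_lt_mul_left this2 (Nat.zero_le _)
  set φ : ZMod a → ℕ := fun h => (h * (q : ZMod a)).val / g with hφ
  have hφv : ∀ h ∈ S, (h * (q : ZMod a)).val = g * φ h ∧ 1 ≤ φ h ∧ φ h < M := by
    intro h hh
    obtain ⟨j, h1, h2, h3⟩ := hval h hh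
    have : φ h = j := by
      rw [hφ]
      simp only
      rw [h1, Nat.mul_div_cancel_left _ hg0]
    rw [this]
    exact ⟨h1, h2, h3⟩
  have hinj : Set.InjOn φ S := by
    intro h hh h' hh' he
    have e1 := (hφv h hh).1
    have e2 := (hφv h' hh').1
    rw [← he, ← e1] at e2
    have e3 := ZMod.val_injective a e2
    exact (hu.mul_right_cancel e3).symm
  have hsub : S.image φ ⊆ Ico 1 M := by
    intro j hj
    rw [mem_image] at hj
    obtain ⟨h, hh, rfl⟩ := hj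
    rw [mem_Ico]
    exact ⟨(hφv h hh).2.1, (hφv h hh).2.2⟩
  set G : ℕ → ℝ := fun j => (M : ℝ) / 2 * ((j : ℝ)⁻¹ + ((M : ℝ) - j)⁻¹) with hG
  have hGn : ∀ j ∈ Ico 1 M, 0 ≤ G j := by
    intro j hj
    rw [mem_Ico] at hj
    have h1 : (0 : ℝ) < j := by exact_mod_cast hj.1
    have h2 : (j : ℝ) < M := by exact_mod_cast hj.2
    have h3 : (0 : ℝ) < M - j := by linarith
    rw [hG]
    simp only
    positivity
  have hle : ∀ h ∈ S, ‖fs a q b₀ B h‖ ≤ G (φ h) := by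
    intro h hh
    have hh' := hh
    rw [hS, mem_filter] at hh'
    have hx : h * (q : ZMod a) ≠ 0 := fun h0 => hh'.2.1 (hu.mul_left_eq_zero.mp h0)
    refine (k4_point a q b₀ B h hx).trans (le_of_eq ?_)
    obtain ⟨e1, e2, e3⟩ := hφv h hh
    rw [e1, hG]
    simp only
    have h1 : (0 : ℝ) < φ h := by exact_mod_cast e2
    have h2 : ((φ h : ℕ) : ℝ) < M := by exact_mod_cast e3
    have h3 : (0 : ℝ) < M - φ h := by linarith
    push_cast
    rw [haR, ← mul_sub]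
    field_simp
  have hrefl : ∑ j ∈ Ico 1 M, ((M : ℝ) - j)⁻¹ = ∑ j ∈ Ico 1 M, (j : ℝ)⁻¹ := by
    refine sum_nbij' (fun j => M - j) (fun j => M - j) ?_ ?_ ?_ ?_ ?_
    · intro j hj
      rw [mem_Ico] at hj ⊢
      omega
    · intro j hj
      rw [mem_Ico] at hj ⊢
      omega
    · intro j hj
      rw [mem_Ico] at hj
      omega
    · intro j hj
      rw [mem_Ico] at hj
      omega
    · intro j hj
      rw [mem_Ico] at hj
      rw [Nat.cast_sub hj.2.le]
  have hharm : ∑ j ∈ Ico 1 M, (j : ℝ)⁻¹ ≤ 1 + Real.log a := by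
    have h1 : ∑ j ∈ Ico 1 M, (j : ℝ)⁻¹ ≤ ∑ j ∈ Icc 1 M, (j : ℝ)⁻¹ := by
      refine sum_le_sum_of_subset_of_nonneg ?_ ?_
      · intro j hj
        rw [mem_Ico] at hj
        rw [mem_Icc]
        omega
      · intro j _ _
        positivity
    have h2 : ∑ j ∈ Icc 1 M, (j : ℝ)⁻¹ = ((harmonic M : ℚ) : ℝ) := by
      rw [harmonic_eq_sum_Icc]
      push_cast
      rfl
    have h3 := harmonic_le_one_add_log M
    have h4 : Real.log M ≤ Real.log a := by
      refine Real.log_le_log hMR ?_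
      rw [haR]
      have : (1 : ℝ) ≤ g := by exact_mod_cast hg0
      nlinarith
    rw [h2] at h1
    linarith
  calc ∑ h ∈ S, ‖fs a q b₀ B h‖ ≤ ∑ h ∈ S, G (φ h) := sum_le_sum hle
    _ = ∑ j ∈ S.image φ, G j := (sum_image hinj).symm
    _ ≤ ∑ j ∈ Ico 1 M, G j :=
        sum_le_sum_of_subset_of_nonneg hsub (fun j hj _ => hGn j hj)
    _ = (M : ℝ) / 2 * (∑ j ∈ Ico 1 M, (j : ℝ)⁻¹ + ∑ j ∈ Ico 1 M, ((M : ℝ) - j)⁻¹) := by
        rw [← sum_add_distrib, mul_sum]
    _ = (M : ℝ) * ∑ j ∈ Ico 1 M, (j : ℝ)⁻¹ := by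
        rw [hrefl]
        ring
    _ ≤ (M : ℝ) * (1 + Real.log a) := mul_le_mul_of_nonneg_left hharm hMR.le
    _ = (a : ℝ) / g * (1 + Real.log a) := by
        congr 1
        rw [haR]
        field_simp

end Pool.Agent.Lib.MP_79499b_co.EO
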