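import Pool.Agent.Lib.MP_79499b_co.EO.K3
import Pool.Agent.Lib.MP_79499b_co.EO.K4

/-!
# K5: points on a modular hyperbola with coordinates in arithmetic progressions

PROOF. Let `ψ = ZMod.stdAddChar`.  The number `N` of pairs is the sum over units `y` of `ZMod a` of
#{b : b₀ + q b = y} * #{e : e₀ + q e = - η y⁻¹} (from `b e = - η`, `η = ± 1`, the first coordinate is a
unit).  Orthogonality `1[t = y] = (1/a) ∑ h, ψ (h (t - y))` gives
`N = (1/a^2) ∑ h, ∑ k, fs q b₀ B h * fs q e₀ E k * ∑ y, ψ (- h y + k η y⁻¹)`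
and the inner sum is `kl a (-h) (η k)`.  The term `h = k = 0` is `B E φ(a) / a^2 ≤ B E / a`.  For the others
group by `g = gcd (h.val, k.val, a)`, `g ∣ a`, `g < a`; K3 gives `‖kl‖ ≤ g^(1/4) τ^(3/4) a^(5/6)` with
`τ = τ(a)` (`gcd ((-h).val, (η k).val, a)` is the same `g`), and by K4 with `S = (a/g) (1 + log a)`,
`∑ over (h,k) ≠ 0 divisible by g of ‖fs h‖ ‖fs k‖ ≤ S E + B S + S^2` (`fs 0 = B` resp. `E`).  Hence
`error ≤ a^(-2) τ^(3/4) a^(5/6) ∑_{g | a} g^(1/4) ((a/g) (1+log a) (B + E) + (a/g)^2 (1 + log a)^2)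
 ≤ τ^(3/4) a^(5/6) (1 + log a)^2 (1 + (B+E)/a) ∑_{g | a} g^(-3/4)`, and the last sum is `≤ τ`; `τ^(7/4) ≤ τ^2`.
-/

set_option autoImplicit false

namespace Pool.Agent.Lib.MP_79499b_co.EO

open Finset
open scoped Classical

theorem k5_ind (a : ℕ) [NeZero a] (s t : ZMod a) : (if s = t then (1 : ℂ) else 0) =
    (a : ℂ)⁻¹ * ∑ h : ZMod a, ZMod.stdAddChar (h * s) * ZMod.stdAddChar (-h * t) := by
  have ha : (a : ℂ) ≠ 0 := by exact_mod_cast NeZero.ne a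
  have h1 := AddChar.sum_mulShift (s - t) (ZMod.isPrimitive_stdAddChar a)
  have h2 : ∀ h : ZMod a, ZMod.stdAddChar (h * s) * ZMod.stdAddChar (-h * t) =
      ZMod.stdAddChar (h * (s - t)) := by
    intro h
    rw [← AddChar.map_add_eq_mul]
    congr 1
    ring
  rw [sum_congr rfl fun h _ => h2 h, h1, ZMod.card]
  by_cases hst : s = t
  · rw [if_pos hst, if_pos (sub_eq_zero.mpr hst)]
    rw [inv_mul_cancel₀ ha]
  · rw [if_neg hst, if_neg (sub_ne_zero.mpr hst), Nat.cast_zero, mul_zero]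

theorem k5_row (a q b₀ B : ℕ) [NeZero a] (y : ZMod a) :
    ∑ b ∈ range B, (if ((b₀ + q * b : ℕ) : ZMod a) = y then (1 : ℂ) else 0) =
    (a : ℂ)⁻¹ * ∑ h : ZMod a, fs a q b₀ B h * ZMod.stdAddChar (-h * y) := by
  rw [sum_congr rfl fun b _ => k5_ind a _ y, ← mul_sum, sum_comm]
  congr 1
  refine sum_congr rfl fun h _ => ?_
  unfold fs
  rw [sum_mul]

theorem k5_sum (a q b₀ e₀ B E : ℕ) [NeZero a] (c : ZMod a) :
    ∑ y : (ZMod a)ˣ, (∑ b ∈ range B, (if ((b₀ + q * b : ℕ) : ZMod a) = y then (1 : ℂ) else 0)) *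
      (∑ e ∈ range E, (if ((e₀ + q * e : ℕ) : ZMod a) = -(c * ((y⁻¹ : (ZMod a)ˣ) : ZMod a))
        then (1 : ℂ) else 0)) =
    ((a : ℂ)⁻¹) ^ 2 * ∑ p : ZMod a × ZMod a,
      fs a q b₀ B p.1 * fs a q e₀ E p.2 * kl a (-p.1) (c * p.2) := by
  rw [Fintype.sum_prod_type (f := fun p : ZMod a × ZMod a =>
    fs a q b₀ B p.1 * fs a q e₀ E p.2 * kl a (-p.1) (c * p.2))]
  simp only [k5_row]
  have h1 : ∀ y : (ZMod a)ˣ, ((a : ℂ)⁻¹ * ∑ h : ZMod a, fs a q b₀ B h *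
      ZMod.stdAddChar (-h * (y : ZMod a))) * ((a : ℂ)⁻¹ * ∑ k : ZMod a, fs a q e₀ E k *
      ZMod.stdAddChar (-k * -(c * ((y⁻¹ : (ZMod a)ˣ) : ZMod a)))) =
      ((a : ℂ)⁻¹) ^ 2 * ∑ h : ZMod a, ∑ k : ZMod a, fs a q b₀ B h * fs a q e₀ E k *
        ZMod.stdAddChar (-h * (y : ZMod a) + c * k * ((y⁻¹ : (ZMod a)ˣ) : ZMod a)) := by
    intro y
    rw [mul_mul_mul_comm, ← sq, sum_mul_sum]
    congr 1
    refine sum_congr rfl fun h _ => sum_congr rfl fun k _ => ?_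
    rw [AddChar.map_add_eq_mul]
    have e1 : -k * -(c * ((y⁻¹ : (ZMod a)ˣ) : ZMod a)) = c * k * ((y⁻¹ : (ZMod a)ˣ) : ZMod a) := by
      ring
    rw [e1]
    ring
  rw [sum_congr rfl fun y _ => h1 y, ← mul_sum, sum_comm]
  congr 1
  refine sum_congr rfl fun h _ => ?_
  rw [sum_comm]
  refine sum_congr rfl fun k _ => ?_
  unfold kl
  rw [mul_sum]

theorem k5_neg (a : ℕ) [NeZero a] (d : ℕ) (hd : d ∣ a) (x : ZMod a) (h : d ∣ (-x).val) :
    d ∣ x.val := by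
  rw [ZMod.neg_val] at h
  split_ifs at h with h0
  · rw [h0, ZMod.val_zero]
    exact dvd_zero d
  · have h1 := ZMod.val_lt x
    have h2 : x.val = a - (a - x.val) := by omega
    rw [h2]
    exact Nat.dvd_sub hd h

theorem k5_kl (a : ℕ) [NeZero a] (h k : ZMod a) (η : ℤ) (hη : η = 1 ∨ η = -1) :
    ∃ g : ℕ, g ∈ a.divisors ∧ g ∣ h.val ∧ g ∣ k.val ∧
      ‖kl a (-h) ((η : ZMod a) * k)‖ ≤ g * (a.divisors.card : ℝ) * (a : ℝ) ^ (5 / 6 : ℝ) := by
  have ha : 0 < a := Nat.pos_of_ne_zero (NeZero.ne a)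
  obtain ⟨g, hg⟩ : ∃ g, g = Nat.gcd (Nat.gcd (-h).val ((η : ZMod a) * k).val) a := ⟨_, rfl⟩
  have hga : g ∣ a := by rw [hg]; exact Nat.gcd_dvd_right _ _
  have hg0 : 1 ≤ g := Nat.pos_of_dvd_of_pos hga ha
  refine ⟨g, Nat.mem_divisors.mpr ⟨hga, ha.ne'⟩, ?_, ?_, ?_⟩
  · refine k5_neg a g hga h ?_
    rw [hg]
    exact (Nat.gcd_dvd_left _ _).trans (Nat.gcd_dvd_left _ _)
  · have h1 : g ∣ ((η : ZMod a) * k).val := by
      rw [hg]
      exact (Nat.gcd_dvd_left _ _).trans (Nat.gcd_dvd_right _ _)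
    rcases hη with rfl | rfl
    · simpa using h1
    · refine k5_neg a g hga k ?_
      simpa using h1
  · have h1 := kl_bound a (-h) ((η : ZMod a) * k)
    rw [← hg] at h1
    have ht : (1 : ℝ) ≤ (a.divisors.card : ℝ) := by
      have : 0 < a.divisors.card := card_pos.mpr ⟨1, Nat.mem_divisors.mpr ⟨one_dvd _, ha.ne'⟩⟩
      exact_mod_cast this
    have hg1 : (1 : ℝ) ≤ (g : ℝ) := by exact_mod_cast hg0
    have h2 : (g : ℝ) * (a.divisors.card : ℝ) ^ 3 * (a : ℝ) ^ (10 / 3 : ℝ) ≤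
        (g * (a.divisors.card : ℝ) * (a : ℝ) ^ (5 / 6 : ℝ)) ^ 4 := by
      have e1 : ((a : ℝ) ^ (5 / 6 : ℝ)) ^ 4 = (a : ℝ) ^ (10 / 3 : ℝ) := by
        rw [← Real.rpow_natCast, ← Real.rpow_mul (Nat.cast_nonneg a)]
        norm_num
      rw [mul_pow, mul_pow, e1]
      refine mul_le_mul_of_nonneg_right ?_ (by positivity)
      have e2 : (g : ℝ) ≤ (g : ℝ) ^ 4 := le_self_pow₀ hg1 (by norm_num)
      have e3 : (a.divisors.card : ℝ) ^ 3 ≤ (a.divisors.card : ℝ) ^ 4 :=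
        pow_le_pow_right₀ ht (by norm_num)
      exact mul_le_mul e2 e3 (by positivity) (by positivity)
    exact (pow_le_pow_iff_left₀ (norm_nonneg _) (by positivity) (by norm_num)).mp (h1.trans h2)

theorem k5_class (a : ℕ) [NeZero a] (g : ℕ) (F F' : ZMod a → ℝ) (hF : ∀ h, 0 ≤ F h)
    (hF' : ∀ h, 0 ≤ F' h) (S : ℝ) (B E : ℝ) (h0 : F 0 = B) (h0' : F' 0 = E)
    (hS : ∑ h ∈ univ.filter (fun h : ZMod a => h ≠ 0 ∧ g ∣ h.val), F h ≤ S)
    (hS' : ∑ h ∈ univ.filter (fun h : ZMod a => h ≠ 0 ∧ g ∣ h.val), F' h ≤ S) :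
    ∑ p ∈ univ.filter (fun p : ZMod a × ZMod a => p ≠ 0 ∧ g ∣ p.1.val ∧ g ∣ p.2.val),
      F p.1 * F' p.2 ≤ B * S + S * E + S * S := by
  obtain ⟨Z, hZ⟩ : ∃ Z, Z = univ.filter (fun h : ZMod a => h ≠ 0 ∧ g ∣ h.val) := ⟨_, rfl⟩
  rw [← hZ] at hS hS'
  have hB : 0 ≤ B := by rw [← h0]; exact hF 0
  have hE : 0 ≤ E := by rw [← h0']; exact hF' 0
  have hS0 : 0 ≤ S := le_trans (sum_nonneg fun i _ => hF i) hS
  have hnn : ∀ p : ZMod a × ZMod a, 0 ≤ F p.1 * F' p.2 := fun p => mul_nonneg (hF _) (hF' _)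
  have hsub : univ.filter (fun p : ZMod a × ZMod a => p ≠ 0 ∧ g ∣ p.1.val ∧ g ∣ p.2.val) ⊆
      ({0} ×ˢ Z) ∪ ((Z ×ˢ {0}) ∪ (Z ×ˢ Z)) := by
    rintro ⟨h, k⟩ hp
    rw [mem_filter] at hp
    obtain ⟨_, h1, h2, h3⟩ := hp
    simp only at h2 h3
    rw [mem_union, mem_union, mem_product, mem_product, mem_product, hZ, mem_filter, mem_filter,
      mem_singleton, mem_singleton]
    by_cases hh : h = 0
    · left
      exact ⟨hh, mem_univ _, fun hk => h1 (Prod.ext hh hk), h3⟩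
    · right
      by_cases hk : k = 0
      · left
        exact ⟨⟨mem_univ _, hh, h2⟩, hk⟩
      · right
        exact ⟨⟨mem_univ _, hh, h2⟩, mem_univ _, hk, h3⟩
  have hun : ∀ X Y : Finset (ZMod a × ZMod a), ∑ p ∈ X ∪ Y, F p.1 * F' p.2 ≤
      ∑ p ∈ X, F p.1 * F' p.2 + ∑ p ∈ Y, F p.1 * F' p.2 := by
    intro X Y
    rw [← sum_union_inter]
    exact le_add_of_nonneg_right (sum_nonneg fun p _ => hnn p)
  calc ∑ p ∈ univ.filter (fun p : ZMod a × ZMod a => p ≠ 0 ∧ g ∣ p.1.val ∧ g ∣ p.2.val),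
        F p.1 * F' p.2
      ≤ ∑ p ∈ ({0} ×ˢ Z) ∪ ((Z ×ˢ {0}) ∪ (Z ×ˢ Z)), F p.1 * F' p.2 :=
        sum_le_sum_of_subset_of_nonneg hsub fun p _ _ => hnn p
    _ ≤ ∑ p ∈ {0} ×ˢ Z, F p.1 * F' p.2 + (∑ p ∈ Z ×ˢ {0}, F p.1 * F' p.2 +
        ∑ p ∈ Z ×ˢ Z, F p.1 * F' p.2) :=
        le_trans (hun _ _) (add_le_add le_rfl (hun _ _))
    _ = B * ∑ k ∈ Z, F' k + ((∑ h ∈ Z, F h) * E + (∑ h ∈ Z, F h) * ∑ k ∈ Z, F' k) := by
        rw [sum_product, sum_product, sum_product, sum_mul_sum]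
        simp only [sum_singleton, h0, h0', ← mul_sum, ← sum_mul]
    _ ≤ B * S + (S * E + S * S) := by
        refine add_le_add (mul_le_mul_of_nonneg_left hS' hB) (add_le_add
          (mul_le_mul_of_nonneg_right hS hE) (mul_le_mul hS hS' (sum_nonneg fun i _ => hF' i) hS0))
    _ = _ := by ring

theorem lemmaK (a q b₀ e₀ B E : ℕ) (ha : 0 < a) (hq : Nat.Coprime q a) (η : ℤ)
    (hη : η = 1 ∨ η = -1) :
    (((range B ×ˢ range E).filter (fun t : ℕ × ℕ =>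
      (a : ℤ) ∣ ((b₀ + q * t.1 : ℕ) : ℤ) * ((e₀ + q * t.2 : ℕ) : ℤ) + η)).card : ℝ) ≤
      (B : ℝ) * E / a + (a.divisors.card : ℝ) ^ 2 * (a : ℝ) ^ (5 / 6 : ℝ) *
        (1 + Real.log a) ^ 2 * (1 + ((B : ℝ) + E) / a) := by
  haveI : NeZero a := ⟨ha.ne'⟩
  have ha' : (0 : ℝ) < a := by exact_mod_cast ha
  have ha1 : (1 : ℝ) ≤ a := by exact_mod_cast ha
  obtain ⟨τ, hτ⟩ : ∃ τ : ℝ, τ = (a.divisors.card : ℝ) := ⟨_, rfl⟩
  obtain ⟨A, hA⟩ : ∃ A : ℝ, A = (a : ℝ) ^ (5 / 6 : ℝ) := ⟨_, rfl⟩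
  obtain ⟨L, hL⟩ : ∃ L : ℝ, L = 1 + Real.log a := ⟨_, rfl⟩
  have hL1 : 1 ≤ L := by
    rw [hL]
    have := Real.log_nonneg ha1
    linarith
  have hτ0 : 0 ≤ τ := by rw [hτ]; exact Nat.cast_nonneg _
  have hA0 : 0 ≤ A := by rw [hA]; positivity
  -- the real double sum
  obtain ⟨R, hR⟩ : ∃ R : ℝ, R = ∑ y : (ZMod a)ˣ,
      (∑ b ∈ range B, (if ((b₀ + q * b : ℕ) : ZMod a) = y then (1 : ℝ) else 0)) *
      (∑ e ∈ range E, (if ((e₀ + q * e : ℕ) : ZMod a) =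
        -((η : ZMod a) * ((y⁻¹ : (ZMod a)ˣ) : ZMod a)) then (1 : ℝ) else 0)) := ⟨_, rfl⟩
  have hηη : (η : ZMod a) * (η : ZMod a) = 1 := by
    rcases hη with rfl | rfl <;> simp
  have hN : (((range B ×ˢ range E).filter (fun t : ℕ × ℕ =>
      (a : ℤ) ∣ ((b₀ + q * t.1 : ℕ) : ℤ) * ((e₀ + q * t.2 : ℕ) : ℤ) + η)).card : ℝ) ≤ R := by
    rw [card_filter, Nat.cast_sum, hR]
    simp only [sum_mul_sum]
    rw [sum_comm]
    rw [sum_product]
    refine sum_le_sum fun b _ => ?_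
    rw [sum_comm]
    refine sum_le_sum fun e _ => ?_
    by_cases hd : (a : ℤ) ∣ ((b₀ + q * b : ℕ) : ℤ) * ((e₀ + q * e : ℕ) : ℤ) + η
    · rw [if_pos hd]
      have h1 : ((b₀ + q * b : ℕ) : ZMod a) * ((e₀ + q * e : ℕ) : ZMod a) + (η : ZMod a) = 0 := by
        rw [← ZMod.intCast_zmod_eq_zero_iff_dvd] at hd
        push_cast at hd ⊢
        exact hd
      obtain ⟨u, hu⟩ : ∃ u : ZMod a, u = ((b₀ + q * b : ℕ) : ZMod a) := ⟨_, rfl⟩
      obtain ⟨v, hv⟩ : ∃ v : ZMod a, v = ((e₀ + q * e : ℕ) : ZMod a) := ⟨_, rfl⟩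
      rw [← hu, ← hv] at h1 ⊢
      have h2 : u * (-((η : ZMod a) * v)) = 1 := by linear_combination (-(η : ZMod a)) * h1 + hηη
      obtain ⟨y0, hy0⟩ : ∃ y0 : (ZMod a)ˣ, y0 = Units.mkOfMulEqOne u _ h2 := ⟨_, rfl⟩
      have h3 : (y0 : ZMod a) = u := by rw [hy0]; rfl
      have h4 : ((y0⁻¹ : (ZMod a)ˣ) : ZMod a) = -((η : ZMod a) * v) := by rw [hy0]; rfl
      have h5 : v = -((η : ZMod a) * ((y0⁻¹ : (ZMod a)ˣ) : ZMod a)) := by
        rw [h4]
        linear_combination (-v) * hηη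
      push_cast
      calc (1 : ℝ) = (if u = (y0 : ZMod a) then (1 : ℝ) else 0) *
            (if v = -((η : ZMod a) * ((y0⁻¹ : (ZMod a)ˣ) : ZMod a)) then (1 : ℝ) else 0) := by
            rw [if_pos h3.symm, if_pos h5, one_mul]
        _ ≤ _ := single_le_sum (f := fun y : (ZMod a)ˣ => (if u = (y : ZMod a) then (1 : ℝ) else 0) *
            (if v = -((η : ZMod a) * ((y⁻¹ : (ZMod a)ˣ) : ZMod a)) then (1 : ℝ) else 0))
            (fun y _ => by positivity) (mem_univ y0)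
    · rw [if_neg hd, Nat.cast_zero]
      exact sum_nonneg fun y _ => by positivity
  refine le_trans hN ?_
  have hRc : (R : ℂ) = ((a : ℂ)⁻¹) ^ 2 * ∑ p : ZMod a × ZMod a,
      fs a q b₀ B p.1 * fs a q e₀ E p.2 * kl a (-p.1) ((η : ZMod a) * p.2) := by
    rw [← k5_sum, hR, Complex.ofReal_sum]
    refine sum_congr rfl fun y _ => ?_
    rw [Complex.ofReal_mul, Complex.ofReal_sum, Complex.ofReal_sum]
    congr 1
    · refine sum_congr rfl fun b _ => ?_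
      split_ifs <;> simp
    · refine sum_congr rfl fun b _ => ?_
      split_ifs <;> simp
  obtain ⟨F, hF⟩ : ∃ F : ZMod a → ℝ, F = fun h => ‖fs a q b₀ B h‖ := ⟨_, rfl⟩
  obtain ⟨F', hF'⟩ : ∃ F' : ZMod a → ℝ, F' = fun h => ‖fs a q e₀ E h‖ := ⟨_, rfl⟩
  obtain ⟨K, hK⟩ : ∃ K : ZMod a × ZMod a → ℝ,
    K = fun p => ‖kl a (-p.1) ((η : ZMod a) * p.2)‖ := ⟨_, rfl⟩
  have hF0 : ∀ h, 0 ≤ F h := fun h => by rw [hF]; exact norm_nonneg _
  have hF'0 : ∀ h, 0 ≤ F' h := fun h => by rw [hF']; exact norm_nonneg _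
  have hK0 : ∀ p, 0 ≤ K p := fun h => by rw [hK]; exact norm_nonneg _
  have hRle : R ≤ ((a : ℝ)⁻¹) ^ 2 * ∑ p : ZMod a × ZMod a, F p.1 * F' p.2 * K p := by
    have h1 : |R| = ‖(R : ℂ)‖ := by rw [Complex.norm_real, Real.norm_eq_abs]
    refine le_trans (le_abs_self R) ?_
    rw [h1, hRc, norm_mul, norm_pow, norm_inv, Complex.norm_natCast]
    refine mul_le_mul_of_nonneg_left ?_ (by positivity)
    refine le_trans (norm_sum_le _ _) (sum_le_sum fun p _ => ?_)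
    rw [hF, hF', hK, norm_mul, norm_mul]
  refine le_trans hRle ?_
  -- the zero term
  have hz : F 0 * F' 0 * K 0 ≤ (B : ℝ) * E * a := by
    have h1 : F 0 = B := by
      rw [hF]
      simp only
      rw [fs_zero, Complex.norm_natCast]
    have h2 : F' 0 = E := by
      rw [hF']
      simp only
      rw [fs_zero, Complex.norm_natCast]
    have h3 : K 0 ≤ a := by
      rw [hK]
      simp only
      unfold kl
      refine le_trans (norm_sum_le _ _) ?_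
      calc ∑ y : (ZMod a)ˣ, ‖ZMod.stdAddChar (-(0 : ZMod a × ZMod a).1 * (y : ZMod a) +
            (η : ZMod a) * (0 : ZMod a × ZMod a).2 * ((y⁻¹ : (ZMod a)ˣ) : ZMod a))‖
          = ∑ y : (ZMod a)ˣ, (1 : ℝ) := by
            refine sum_congr rfl fun y _ => ?_
            exact AddChar.norm_apply _ _
        _ ≤ a := by
            rw [sum_const, nsmul_eq_mul, mul_one, card_univ, ZMod.card_units_eq_totient]
            exact_mod_cast Nat.totient_le a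
    rw [h1, h2]
    exact mul_le_mul_of_nonneg_left h3 (by positivity)
  have hrest : ∑ p ∈ univ.filter (fun p : ZMod a × ZMod a => p ≠ 0), F p.1 * F' p.2 * K p ≤
      τ * (τ * A * (a * L ^ 2 * (B + E + a))) := by
    have h1 : ∀ p ∈ univ.filter (fun p : ZMod a × ZMod a => p ≠ 0), F p.1 * F' p.2 * K p ≤
        ∑ g ∈ a.divisors, (if g ∣ p.1.val ∧ g ∣ p.2.val then
          (g * τ * A) * (F p.1 * F' p.2) else 0) := by
      intro p _
      obtain ⟨g, hg, hg1, hg2, hg3⟩ := k5_kl a p.1 p.2 η hη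
      rw [← hτ, ← hA] at hg3
      have h2 : K p ≤ g * τ * A := by rw [hK]; exact hg3
      calc F p.1 * F' p.2 * K p ≤ F p.1 * F' p.2 * (g * τ * A) :=
            mul_le_mul_of_nonneg_left h2 (mul_nonneg (hF0 _) (hF'0 _))
        _ = (if g ∣ p.1.val ∧ g ∣ p.2.val then (g * τ * A) * (F p.1 * F' p.2) else 0) := by
            rw [if_pos ⟨hg1, hg2⟩]; ring
        _ ≤ _ := single_le_sum (f := fun g : ℕ => (if g ∣ p.1.val ∧ g ∣ p.2.val then
            (g * τ * A) * (F p.1 * F' p.2) else 0)) (fun g _ => by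
              split_ifs
              · exact mul_nonneg (by positivity) (mul_nonneg (hF0 _) (hF'0 _))
              · exact le_rfl) hg
    refine le_trans (sum_le_sum h1) ?_
    rw [sum_comm]
    have h2 : ∀ g ∈ a.divisors, ∑ p ∈ univ.filter (fun p : ZMod a × ZMod a => p ≠ 0),
        (if g ∣ p.1.val ∧ g ∣ p.2.val then (g * τ * A) * (F p.1 * F' p.2) else 0) ≤
        τ * A * (a * L ^ 2 * (B + E + a)) := by
      intro g hg
      have hga := Nat.dvd_of_mem_divisors hg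
      have hg0 : 0 < g := Nat.pos_of_dvd_of_pos hga ha
      have hg' : (0 : ℝ) < g := by exact_mod_cast hg0
      have hg1 : (1 : ℝ) ≤ g := by exact_mod_cast hg0
      rw [← sum_filter, filter_filter, ← mul_sum]
      have h3 := k5_class a g F F' hF0 hF'0 ((a : ℝ) / g * L) B E
        (by rw [hF]; simp only; rw [fs_zero, Complex.norm_natCast])
        (by rw [hF']; simp only; rw [fs_zero, Complex.norm_natCast])
        (by rw [hF, hL]; exact fs_sum_le a q b₀ B g hq hga)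
        (by rw [hF', hL]; exact fs_sum_le a q e₀ E g hq hga)
      have h4 : (g : ℝ) * (B * ((a : ℝ) / g * L) + (a : ℝ) / g * L * E +
          (a : ℝ) / g * L * ((a : ℝ) / g * L)) ≤ a * L ^ 2 * (B + E + a) := by
        have e1 : (g : ℝ) * (B * ((a : ℝ) / g * L) + (a : ℝ) / g * L * E +
          (a : ℝ) / g * L * ((a : ℝ) / g * L)) = a * L * (B + E) + a * (a / g) * L ^ 2 := by
          field_simp
        rw [e1]
        have e2 : (a : ℝ) / g ≤ a := div_le_self ha'.le hg1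
        have e3 : L ≤ L ^ 2 := le_self_pow₀ hL1 (by norm_num)
        have e4 : a * L * ((B : ℝ) + E) ≤ a * L ^ 2 * (B + E) :=
          mul_le_mul_of_nonneg_right (mul_le_mul_of_nonneg_left e3 ha'.le) (by positivity)
        have e5 : (a : ℝ) * (a / g) * L ^ 2 ≤ a * a * L ^ 2 :=
          mul_le_mul_of_nonneg_right (mul_le_mul_of_nonneg_left e2 ha'.le) (by positivity)
        linarith
      calc (g * τ * A) * ∑ p ∈ univ.filter (fun p : ZMod a × ZMod a =>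
            p ≠ 0 ∧ g ∣ p.1.val ∧ g ∣ p.2.val), F p.1 * F' p.2
          ≤ (g * τ * A) * (B * ((a : ℝ) / g * L) + (a : ℝ) / g * L * E +
          (a : ℝ) / g * L * ((a : ℝ) / g * L)) :=
            mul_le_mul_of_nonneg_left h3 (by positivity)
        _ = τ * A * ((g : ℝ) * (B * ((a : ℝ) / g * L) + (a : ℝ) / g * L * E +
          (a : ℝ) / g * L * ((a : ℝ) / g * L))) := by ring
        _ ≤ _ := mul_le_mul_of_nonneg_left h4 (by positivity)
    refine le_trans (sum_le_sum h2) ?_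
    rw [sum_const, nsmul_eq_mul, ← hτ]
  have htot : ∑ p : ZMod a × ZMod a, F p.1 * F' p.2 * K p ≤
      (B : ℝ) * E * a + τ * (τ * A * (a * L ^ 2 * (B + E + a))) := by
    have h1 : ∑ p : ZMod a × ZMod a, F p.1 * F' p.2 * K p = F 0 * F' 0 * K 0 +
        ∑ p ∈ univ.filter (fun p : ZMod a × ZMod a => p ≠ 0), F p.1 * F' p.2 * K p := by
      rw [filter_ne']
      exact (add_sum_erase univ (fun p : ZMod a × ZMod a => F p.1 * F' p.2 * K p)
        (mem_univ 0)).symm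
    rw [h1]
    exact add_le_add hz hrest
  refine le_trans (mul_le_mul_of_nonneg_left htot (by positivity)) ?_
  rw [← hτ, ← hA, ← hL]
  apply le_of_eq
  field_simp
  ring

end Pool.Agent.Lib.MP_79499b_co.EO
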