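import Pool.Agent.Lib.MP_79499b_co.EO.K5

/-!
# K6: the count for one `a`

PROOF. For each `(b0, e0) ∈ Ω` the pairs `(b, e)` with `b % q = b0`, `e % q = e0`, `b ≤ a`, `e ≤ x / a` are
`b = b0 + q b'`, `b' < B = a / q + 1`, `e = e0 + q e'`, `e' < E = (x / a) / q + 1`.  Apply `lemmaK`.
`B ≤ 2 a / q` (`q ≤ a`), `E ≤ x / (a q) + 1 ≤ 2 x / (a q)` (`a q ≤ x`), so `B E / a ≤ 4 x / (q^2 a)`;
`1 + log a ≤ 1 + log x` and `1 + (B + E)/a ≤ 1 + (a + 1 + x/a + 1)/a ≤ 4 + x / a^2`.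
-/

set_option autoImplicit false

namespace Pool.Agent.Lib.MP_79499b_co.EO

open Finset
open scoped Classical

/-- the error term for one `a` -/
noncomputable def errK (a x : ℕ) : ℝ :=
  (a.divisors.card : ℝ) ^ 2 * (a : ℝ) ^ (5 / 6 : ℝ) * (1 + Real.log x) ^ 2 * (4 + (x : ℝ) / a ^ 2)

theorem per_a (x a q : ℕ) (Ω : Finset (ℕ × ℕ)) (η : ℤ) (hη : η = 1 ∨ η = -1) (hq : 1 ≤ q)
    (hqa : q ≤ a) (haq : a * q ≤ x) (hcop : Nat.Coprime q a) (hΩ : Ω ⊆ range q ×ˢ range q) :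
    (((range (a + 1) ×ˢ range (x / a + 1)).filter (fun t : ℕ × ℕ =>
      (a : ℤ) ∣ (t.1 : ℤ) * (t.2 : ℤ) + η ∧ (t.1 % q, t.2 % q) ∈ Ω)).card : ℝ) ≤
      (Ω.card : ℝ) * (4 * x / ((q : ℝ) ^ 2 * a) + errK a x) := by
  have ha : 0 < a := by omega
  have hq0 : (0 : ℝ) < q := by exact_mod_cast hq
  have ha0 : (0 : ℝ) < a := by exact_mod_cast ha
  have hax : a ≤ x := le_trans (Nat.le_mul_of_pos_right a hq) haq
  have hqa' : (q : ℝ) ≤ a := by exact_mod_cast hqa
  have haq' : (a : ℝ) * q ≤ x := by exact_mod_cast haq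
  have hax' : (a : ℝ) ≤ x := by exact_mod_cast hax
  have hx0 : (0 : ℝ) < x := ha0.trans_le hax'
  set B : ℕ := a / q + 1 with hB
  set E : ℕ := (x / a) / q + 1 with hE
  have hB1 : (B : ℝ) ≤ a / q + 1 := by
    rw [hB]
    push_cast
    have := @Nat.cast_div_le ℝ _ _ _ a q
    linarith
  have hE1 : (E : ℝ) ≤ x / (a * q) + 1 := by
    rw [hE]
    push_cast
    have h1 := @Nat.cast_div_le ℝ _ _ _ (x / a) q
    have h2 := @Nat.cast_div_le ℝ _ _ _ x a
    have h3 : ((x / a : ℕ) : ℝ) / q ≤ x / (a * q) := by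
      rw [← div_div]
      exact div_le_div_of_nonneg_right h2 hq0.le
    linarith
  have hB2 : (B : ℝ) ≤ 2 * a / q := by
    have h1 : (1 : ℝ) ≤ a / q := by rw [one_le_div hq0]; exact hqa'
    calc (B : ℝ) ≤ a / q + 1 := hB1
      _ ≤ a / q + a / q := by linarith
      _ = 2 * a / q := by ring
  have hE2 : (E : ℝ) ≤ 2 * x / (a * q) := by
    have h1 : (1 : ℝ) ≤ x / (a * q) := by
      rw [one_le_div (mul_pos ha0 hq0)]; exact haq'
    calc (E : ℝ) ≤ x / (a * q) + 1 := hE1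
      _ ≤ x / (a * q) + x / (a * q) := by linarith
      _ = 2 * x / (a * q) := by ring
  -- one pair of residues
  have hone : ∀ w ∈ Ω, (((range (a + 1) ×ˢ range (x / a + 1)).filter (fun t : ℕ × ℕ =>
      (a : ℤ) ∣ (t.1 : ℤ) * (t.2 : ℤ) + η ∧ (t.1 % q, t.2 % q) = w)).card : ℝ) ≤
      4 * x / ((q : ℝ) ^ 2 * a) + errK a x := by
    intro w _
    have h1 : (((range (a + 1) ×ˢ range (x / a + 1)).filter (fun t : ℕ × ℕ =>
        (a : ℤ) ∣ (t.1 : ℤ) * (t.2 : ℤ) + η ∧ (t.1 % q, t.2 % q) = w)).card : ℝ) ≤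
        (((range B ×ˢ range E).filter (fun t : ℕ × ℕ =>
        (a : ℤ) ∣ ((w.1 + q * t.1 : ℕ) : ℤ) * ((w.2 + q * t.2 : ℕ) : ℤ) + η)).card : ℝ) := by
      refine Nat.cast_le.mpr (card_le_card_of_injOn (fun t => (t.1 / q, t.2 / q)) ?_ ?_)
      · intro t ht
        rw [mem_coe, mem_filter, mem_product, mem_range, mem_range] at ht
        obtain ⟨⟨h1, h2⟩, h3, h4⟩ := ht
        have h5 : t.1 % q = w.1 := congrArg Prod.fst h4
        have h6 : t.2 % q = w.2 := congrArg Prod.snd h4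
        rw [mem_coe, mem_filter, mem_product, mem_range, mem_range]
        refine ⟨⟨?_, ?_⟩, ?_⟩
        · change t.1 / q < a / q + 1
          have : t.1 / q ≤ a / q := Nat.div_le_div_right (by omega)
          omega
        · change t.2 / q < x / a / q + 1
          have : t.2 / q ≤ x / a / q := Nat.div_le_div_right (by omega)
          omega
        · change (a : ℤ) ∣ ((w.1 + q * (t.1 / q) : ℕ) : ℤ) * ((w.2 + q * (t.2 / q) : ℕ) : ℤ) + η
          rw [← h5, ← h6, Nat.mod_add_div, Nat.mod_add_div]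
          exact h3
      · intro t ht t' ht' h
        rw [mem_coe, mem_filter] at ht ht'
        have h5 : t.1 % q = t'.1 % q :=
          (congrArg Prod.fst ht.2.2).trans (congrArg Prod.fst ht'.2.2).symm
        have h6 : t.2 % q = t'.2 % q :=
          (congrArg Prod.snd ht.2.2).trans (congrArg Prod.snd ht'.2.2).symm
        have h7 : t.1 / q = t'.1 / q := congrArg Prod.fst h
        have h8 : t.2 / q = t'.2 / q := congrArg Prod.snd h
        refine Prod.ext ?_ ?_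
        · rw [← Nat.mod_add_div t.1 q, h5, h7, Nat.mod_add_div]
        · rw [← Nat.mod_add_div t.2 q, h6, h8, Nat.mod_add_div]
    refine h1.trans ((lemmaK a q w.1 w.2 B E ha hcop η hη).trans ?_)
    have h2 : (B : ℝ) * E / a ≤ 4 * x / ((q : ℝ) ^ 2 * a) := by
      have h3 : (B : ℝ) * E ≤ (2 * a / q) * (2 * x / (a * q)) :=
        mul_le_mul hB2 hE2 (Nat.cast_nonneg _) (by positivity)
      calc (B : ℝ) * E / a ≤ (2 * a / q) * (2 * x / (a * q)) / a :=
            div_le_div_of_nonneg_right h3 ha0.le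
        _ = 4 * x / ((q : ℝ) ^ 2 * a) := by
            field_simp
            ring
    have h4 : 0 ≤ Real.log a := Real.log_nonneg (by exact_mod_cast ha)
    have h5 : Real.log a ≤ Real.log x := Real.log_le_log ha0 hax'
    have h6 : (1 + Real.log a) ^ 2 ≤ (1 + Real.log x) ^ 2 := by
      apply pow_le_pow_left₀ (by linarith)
      linarith
    have h7 : 1 + ((B : ℝ) + E) / a ≤ 4 + (x : ℝ) / a ^ 2 := by
      have hq1 : (1 : ℝ) ≤ q := by exact_mod_cast hq
      have h8 : (a : ℝ) / q ≤ a := div_le_self ha0.le hq1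
      have h9 : (x : ℝ) / (a * q) ≤ x / a := by
        rw [← div_div]
        exact div_le_self (by positivity) hq1
      have h10 : ((B : ℝ) + E) / a ≤ (a + 1 + (x / a + 1)) / a :=
        div_le_div_of_nonneg_right (by linarith) ha0.le
      have h11 : ((a : ℝ) + 1 + (x / a + 1)) / a = 1 + 2 / a + x / a ^ 2 := by
        field_simp
        ring
      have ha1 : (1 : ℝ) ≤ a := by exact_mod_cast ha
      have h12 : (2 : ℝ) / a ≤ 2 := div_le_self (by norm_num) ha1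
      rw [h11] at h10
      linarith
    have h8 : (a.divisors.card : ℝ) ^ 2 * (a : ℝ) ^ (5 / 6 : ℝ) *
        (1 + Real.log a) ^ 2 * (1 + ((B : ℝ) + E) / a) ≤ errK a x := by
      unfold errK
      have hnn : 0 ≤ (a.divisors.card : ℝ) ^ 2 * (a : ℝ) ^ (5 / 6 : ℝ) := by positivity
      refine mul_le_mul (mul_le_mul_of_nonneg_left h6 hnn) h7 (by positivity) (by positivity)
    linarith
  have hsub : (range (a + 1) ×ˢ range (x / a + 1)).filter (fun t : ℕ × ℕ =>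
      (a : ℤ) ∣ (t.1 : ℤ) * (t.2 : ℤ) + η ∧ (t.1 % q, t.2 % q) ∈ Ω) ⊆
      Ω.biUnion fun w => (range (a + 1) ×ˢ range (x / a + 1)).filter (fun t : ℕ × ℕ =>
      (a : ℤ) ∣ (t.1 : ℤ) * (t.2 : ℤ) + η ∧ (t.1 % q, t.2 % q) = w) := by
    intro t ht
    rw [mem_filter] at ht
    rw [mem_biUnion]
    exact ⟨_, ht.2.2, mem_filter.mpr ⟨ht.1, ht.2.1, rfl⟩⟩
  calc (((range (a + 1) ×ˢ range (x / a + 1)).filter (fun t : ℕ × ℕ =>
      (a : ℤ) ∣ (t.1 : ℤ) * (t.2 : ℤ) + η ∧ (t.1 % q, t.2 % q) ∈ Ω)).card : ℝ)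
      ≤ ((∑ w ∈ Ω, ((range (a + 1) ×ˢ range (x / a + 1)).filter (fun t : ℕ × ℕ =>
      (a : ℤ) ∣ (t.1 : ℤ) * (t.2 : ℤ) + η ∧ (t.1 % q, t.2 % q) = w)).card : ℕ) : ℝ) :=
        Nat.cast_le.mpr ((card_le_card hsub).trans card_biUnion_le)
    _ ≤ ∑ w ∈ Ω, (4 * x / ((q : ℝ) ^ 2 * a) + errK a x) := by
        rw [Nat.cast_sum]
        exact sum_le_sum hone
    _ = (Ω.card : ℝ) * (4 * x / ((q : ℝ) ^ 2 * a) + errK a x) := by
        rw [sum_const, nsmul_eq_mul]

end Pool.Agent.Lib.MP_79499b_co.EO
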