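import Pool.Agent.Lib.MP_79499b_co.EO.QR

/-!
# M1: number of roots of `vv m` modulo a prime

PROOF. `vv m n (n - 1) = n^m - 1`.  `-1` is a root for even `m` (`w ∤ 2`).  If `w = 1 mod 4` (`m = 4`) the elements of order 4 in
`(ZMod w)ˣ` give two more roots (all `n ≠ 1` with `n^4 = 1`; there are 3 of them, since `4 ∣ w - 1`); if
`w = 1 mod 3`, `w` odd (so `6 ∣ w - 1`) (`m = 6`) all 5 elements `n ≠ 1` with `n^6 = 1` are roots
(`IsCyclic.card_pow_eq_one_eq_gcd` or a generator).
-/

set_option autoImplicit false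

namespace Pool.Agent.Lib.MP_79499b_co.EO

open Finset
open scoped Classical

/-- number of roots mod `w` -/
noncomputable def rt (m w : ℕ) : ℕ := ((range w).filter (fun n => w ∣ vv m n)).card

/-- if `d` divides `m` and `w - 1` then all nontrivial `d`-th roots of unity are roots -/
theorem m1_ge {m w d : ℕ} (hw : w.Prime) (hdm : d ∣ m) (hdw : d ∣ w - 1) : d - 1 ≤ rt m w := by
  have : Fact w.Prime := ⟨hw⟩
  obtain ⟨g, hg⟩ := IsCyclic.exists_generator (α := (ZMod w)ˣ)
  have hgo : orderOf g = w - 1 := by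
    rw [orderOf_eq_card_of_forall_mem_zpowers hg, Nat.card_eq_fintype_card, ZMod.card_units]
  obtain ⟨c, hc⟩ := hdw
  have hw1 : 0 < w - 1 := by have := hw.one_lt; omega
  have hc0 : c ≠ 0 := by rintro rfl; omega
  have hx : orderOf (g ^ c) = d := by
    rw [orderOf_pow_of_dvd hc0 (by rw [hgo, hc]; exact dvd_mul_left _ _), hgo, hc]
    exact Nat.mul_div_cancel _ (Nat.pos_of_ne_zero hc0)
  generalize g ^ c = x at hx
  unfold rt
  have h1 : d - 1 = (Ico 1 d).card := by simp
  rw [h1]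
  refine card_le_card_of_injOn (fun i => ((x ^ i : (ZMod w)ˣ) : ZMod w).val) ?_ ?_
  · intro i hi
    rw [mem_coe, mem_Ico] at hi
    rw [mem_coe, mem_filter, mem_range]
    refine ⟨ZMod.val_lt _, ?_⟩
    rw [← ZMod.natCast_eq_zero_iff]
    have hy1 : ((x ^ i : (ZMod w)ˣ) : ZMod w) ≠ 1 := by
      intro h
      have h2 : x ^ i = 1 := Units.ext h
      have h3 := orderOf_dvd_of_pow_eq_one h2
      rw [hx] at h3
      have := Nat.le_of_dvd (by omega) h3
      omega
    have hym : ((x ^ i : (ZMod w)ˣ) : ZMod w) ^ m = 1 := by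
      obtain ⟨e, rfl⟩ := hdm
      rw [← Units.val_pow_eq_pow_val, ← pow_mul]
      have h2 : x ^ (i * (d * e)) = 1 := by
        rw [show i * (d * e) = d * (i * e) by ring, pow_mul, ← hx, pow_orderOf_eq_one, one_pow]
      rw [h2, Units.val_one]
    unfold vv
    push_cast
    rw [ZMod.natCast_zmod_val]
    have h4 := geom_sum_mul (((x ^ i : (ZMod w)ˣ) : ZMod w)) m
    rw [hym, sub_self] at h4
    rcases mul_eq_zero.mp h4 with h5 | h5
    · simpa using h5
    · exact absurd (sub_eq_zero.mp h5) hy1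
  · intro i hi j hj hij
    rw [mem_coe, mem_Ico] at hi hj
    simp only at hij
    have h2 := ZMod.val_injective w hij
    have h3 : x ^ i = x ^ j := Units.ext h2
    rw [pow_eq_pow_iff_modEq, hx] at h3
    unfold Nat.ModEq at h3
    rwa [Nat.mod_eq_of_lt hi.2, Nat.mod_eq_of_lt hj.2] at h3

theorem rt_four (w : ℕ) (hw : w.Prime) (h3 : 3 ≤ w) :
    1 + (if w % 4 = 1 then 2 else 0) ≤ rt 4 w := by
  split_ifs with h
  · exact m1_ge (d := 4) hw dvd_rfl (by omega)
  · have h2 : w % 2 = 1 := hw.eq_two_or_odd.resolve_left (by omega)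
    exact m1_ge (d := 2) hw (by norm_num) (by omega)

theorem rt_six (w : ℕ) (hw : w.Prime) (h3 : 3 ≤ w) :
    1 + (if w % 3 = 1 then 4 else 0) ≤ rt 6 w := by
  have h2 : w % 2 = 1 := hw.eq_two_or_odd.resolve_left (by omega)
  split_ifs with h
  · exact m1_ge (d := 6) hw dvd_rfl (by omega)
  · exact m1_ge (d := 2) hw (by norm_num) (by omega)

end Pool.Agent.Lib.MP_79499b_co.EO
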