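import Pool.Agent.Lib.MP_79499b_co.EO.M1
import Pool.Agent.Lib.MP_79499b_co.EO.S2

/-!
# M2: the sieve density of the good primes

PROOF. All primes: `∑_{W < w ≤ z} rt m w / w ≥ κ (log log z - log log W) - C` from `rt_four` / `rt_six`, `Q38.mertens_all`,
`Q38.mertens_one_mod` (`l = 4`: `φ = 2`, `1 + 2 * (1/2) = 2`; `l = 3`: `φ = 2`, `1 + 4 * (1/2) = 3`) for `z` and the upper bounds
for `W`: `Q38.msum_one_le` and the trivial upper bounds `msum 4 1 W ≤ msum 1 0 W ≤ log log W + C`.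
Removing the bad primes (`(sm Λ (w - 1))^4 > w`, `Λ = L^A`): with `j = w - 1`, `1 / w ≤ 1 / j`, `bad_w`.
-/

set_option autoImplicit false

namespace Pool.Agent.Lib.MP_79499b_co.EO

open Finset
open scoped Classical

/-- the finite set of good primes -/
noncomputable def goodSet (ε : ℝ) (A x : ℕ) : Finset ℕ := (range (x + 1)).filter (fun w => Good ε A x w)

/-- primes between `W` and `z` -/
noncomputable def m2_P (W z : ℕ) : Finset ℕ := (range (z + 1)).filter (fun w => w.Prime ∧ W < w)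

theorem m2_class (q a W z : ℕ) : Q38.msum q a (z + 1) - Q38.msum q a (W + 1) ≤
    ∑ w ∈ m2_P W z, (if w % q = a then (1 : ℝ) else 0) / w := by
  unfold Q38.msum m2_P
  rw [sub_le_iff_le_add]
  have h1 : ∑ w ∈ (range (z + 1)).filter (fun w => w.Prime ∧ W < w),
      (if w % q = a then (1 : ℝ) else 0) / w =
      ∑ w ∈ (range (z + 1)).filter (fun w => w.Prime ∧ W < w ∧ w % q = a), ((w : ℝ))⁻¹ := by
    rw [sum_filter, sum_filter]
    refine sum_congr rfl fun w _ => ?_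
    by_cases h2 : w.Prime ∧ W < w
    · by_cases h3 : w % q = a
      · rw [if_pos h2, if_pos h3, if_pos ⟨h2.1, h2.2, h3⟩, one_div]
      · rw [if_pos h2, if_neg h3, if_neg (fun h => h3 h.2.2), zero_div]
    · rw [if_neg h2, if_neg (fun h => h2 ⟨h.1, h.2.1⟩)]
  rw [h1, ← sum_filter_add_sum_filter_not ((range (z + 1)).filter (fun p => p.Prime ∧ p % q = a))
    (fun p => W < p)]
  refine add_le_add ?_ ?_
  · refine sum_le_sum_of_subset_of_nonneg ?_ (fun _ _ _ => by positivity)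
    intro w hw
    simp only [mem_filter] at hw ⊢
    exact ⟨hw.1.1, hw.1.2.1, hw.2, hw.1.2.2⟩
  · refine sum_le_sum_of_subset_of_nonneg ?_ (fun _ _ _ => by positivity)
    intro w hw
    simp only [mem_filter, mem_range] at hw ⊢
    exact ⟨by omega, hw.1.2⟩

theorem m2_msum_le (q a x : ℕ) : Q38.msum q a x ≤ Q38.msum 1 0 x := by
  unfold Q38.msum
  refine sum_le_sum_of_subset_of_nonneg ?_ (fun _ _ _ => by positivity)
  intro w hw
  simp only [mem_filter] at hw ⊢
  exact ⟨hw.1, hw.2.1, Nat.mod_one w⟩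

/-- basic facts about `L = log x` -/
theorem m2_L {x : ℕ} (hx : 3 ≤ x) : 1 < Real.log x := by
  have h1 : Real.exp 1 < x := by
    have h2 := Real.exp_one_lt_d9
    have h3 : (3 : ℝ) ≤ x := by exact_mod_cast hx
    linarith
  rw [Real.lt_log_iff_exp_lt (by positivity)]
  exact h1

theorem m2_floor {t : ℝ} (ht : 1 ≤ t) : 3 ≤ ⌊Real.exp t⌋₊ + 1 := by
  have h1 : (2 : ℝ) ≤ Real.exp t := by
    have := Real.add_one_le_exp t
    linarith
  have h2 : 2 ≤ ⌊Real.exp t⌋₊ := Nat.le_floor (by exact_mod_cast h1)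
  omega

theorem m2_loglog_lower {t : ℝ} (ht : 1 ≤ t) :
    Real.log t ≤ Real.log (Real.log ((⌊Real.exp t⌋₊ + 1 : ℕ) : ℝ)) := by
  apply Real.log_le_log (by linarith)
  rw [Real.le_log_iff_exp_le (by positivity)]
  push_cast
  exact (Nat.lt_floor_add_one _).le

theorem m2_loglog_upper {t : ℝ} (ht : 1 ≤ t) :
    Real.log (Real.log ((⌊Real.exp t⌋₊ + 1 : ℕ) : ℝ)) ≤ Real.log t + 1 := by
  have h1 : ((⌊Real.exp t⌋₊ + 1 : ℕ) : ℝ) ≤ 2 * Real.exp t := by
    push_cast
    have h2 := Nat.floor_le (Real.exp_pos t).le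
    have h3 := Real.add_one_le_exp t
    linarith
  have h4 : Real.log ((⌊Real.exp t⌋₊ + 1 : ℕ) : ℝ) ≤ Real.log 2 + t := by
    have h5 := Real.log_le_log (by positivity) h1
    rwa [Real.log_mul (by norm_num) (Real.exp_pos t).ne', Real.log_exp] at h5
  have h6 : Real.log ((⌊Real.exp t⌋₊ + 1 : ℕ) : ℝ) ≤ t * Real.exp 1 := by
    have h7 := Real.log_two_lt_d9
    have h8 := Real.exp_one_gt_d9
    nlinarith
  have h9 : 0 < Real.log ((⌊Real.exp t⌋₊ + 1 : ℕ) : ℝ) := by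
    apply Real.log_pos
    have := m2_floor ht
    have h10 : (3 : ℝ) ≤ ((⌊Real.exp t⌋₊ + 1 : ℕ) : ℝ) := by exact_mod_cast this
    linarith
  have h11 := Real.log_le_log h9 h6
  rwa [Real.log_mul (by linarith) (Real.exp_pos 1).ne', Real.log_exp] at h11

/-- the sum over all primes -/
theorem m2_all {q : ℕ} (hq : 2 ≤ q) (hφ : q.totient = 2) (a : ℕ) : ∃ C : ℝ, ∀ (s t : ℝ), 1 ≤ s →
    1 ≤ t → (1 + (a : ℝ) / 2) * Real.log t - (1 + a) * Real.log s - C ≤
      ∑ w ∈ m2_P ⌊Real.exp s⌋₊ ⌊Real.exp t⌋₊, (1 + (if w % q = 1 then (a : ℝ) else 0)) / w := by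
  obtain ⟨C1, h1⟩ := Q38.mertens_all
  obtain ⟨C2, h2⟩ := Q38.mertens_one_mod hq
  obtain ⟨C3, hC3, h3⟩ := Q38.msum_one_le
  refine ⟨C1 + a * C2 + (1 + a) * (C3 + 1), fun s t hs ht => ?_⟩
  set W := ⌊Real.exp s⌋₊ with hW
  set z := ⌊Real.exp t⌋₊ with hz
  have e1 := m2_class 1 0 W z
  have e2 := m2_class q 1 W z
  have e3 := h1 (z + 1) (m2_floor ht)
  have e4 := h2 (z + 1) (m2_floor ht)
  have e5 := h3 (W + 1) (m2_floor hs)
  have e6 := m2_msum_le q 1 (W + 1)
  have e7 := m2_loglog_lower ht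
  have e8 := m2_loglog_upper hs
  rw [← hz] at e7
  rw [← hW] at e8
  rw [hφ] at e4
  have e9 : ∑ w ∈ m2_P W z, (1 + (if w % q = 1 then (a : ℝ) else 0)) / w =
      ∑ w ∈ m2_P W z, (if w % 1 = 0 then (1 : ℝ) else 0) / w +
        a * ∑ w ∈ m2_P W z, (if w % q = 1 then (1 : ℝ) else 0) / w := by
    rw [mul_sum, ← sum_add_distrib]
    refine sum_congr rfl fun w _ => ?_
    rw [if_pos (Nat.mod_one w)]
    split_ifs
    · ring
    · ring
  rw [e9]
  have ha : (0 : ℝ) ≤ a := Nat.cast_nonneg a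
  set ℓ := Real.log (Real.log ((z + 1 : ℕ) : ℝ)) with hℓ
  set ℓ' := Real.log (Real.log ((W + 1 : ℕ) : ℝ)) with hℓ'
  have f1 : Real.log t - (Real.log s + 1) - C1 - C3 ≤
      ∑ w ∈ m2_P W z, (if w % 1 = 0 then (1 : ℝ) else 0) / w := by linarith
  have f2 : Real.log t / 2 - (Real.log s + 1) - C2 - C3 ≤
      ∑ w ∈ m2_P W z, (if w % q = 1 then (1 : ℝ) else 0) / w := by
    push_cast at e4
    linarith
  have f3 := mul_le_mul_of_nonneg_left f2 ha
  nlinarith

/-- the sum over the bad primes is at most `1` for large `x` -/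
theorem m2_bad {ε : ℝ} (hε : 0 < ε) (hε' : ε < 1 / 4) (A : ℕ) (hA : 1 ≤ A) :
    ∃ s₀ : ℝ, 1 ≤ s₀ ∧ ∀ x : ℕ, 3 ≤ x → s₀ ≤ Real.log x ^ (ε / 4) →
      ∑ j ∈ (Icc 1 x).filter (fun j : ℕ => Real.exp (Real.log x ^ ε) / 2 ≤ (j : ℝ) ∧
        j < (sm ⌊Real.log x ^ A⌋₊ j) ^ 4), (1 : ℝ) / j ≤ 1 := by
  obtain ⟨C, hC, hbad⟩ := bad_w
  have hAr : (1 : ℝ) ≤ A := by exact_mod_cast hA
  set σ : ℝ := ε / (2 * A + 2) with hσ
  have hσ0 : 0 < σ := by positivity
  have hσ1 : σ ≤ 1 / 4 := by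
    rw [hσ, div_le_iff₀ (by positivity)]
    nlinarith
  have hσA : A * σ ≤ ε / 2 := by
    rw [hσ, mul_div_assoc', div_le_iff₀ (by positivity)]
    nlinarith
  set K : ℝ := C * (1 + A * (4 / ε)) + 3 + 4 / ε with hK
  have hK0 : 0 < K := by positivity
  refine ⟨max 2 (4 * K / σ), le_max_of_le_left (by norm_num), fun x hx hs => ?_⟩
  set L := Real.log x with hL
  have hL1 : 1 < L := m2_L hx
  have hL0 : 0 < L := by linarith
  set s := L ^ (ε / 4) with hsdef
  have hs2 : 2 ≤ s := (le_max_left _ _).trans hs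
  have hsK : 4 * K / σ ≤ s := (le_max_right _ _).trans hs
  have hs4 : L ^ ε = s ^ 4 := by
    rw [hsdef, ← Real.rpow_natCast, ← Real.rpow_mul hL0.le]
    congr 1
    push_cast
    ring
  have hs22 : L ^ (ε / 2) = s ^ 2 := by
    rw [hsdef, ← Real.rpow_natCast, ← Real.rpow_mul hL0.le]
    congr 1
    push_cast
    ring
  have hsL : s ≤ L := by
    calc s = L ^ (ε / 4) := rfl
      _ ≤ L ^ (1 : ℝ) := Real.rpow_le_rpow_of_exponent_le hL1.le (by linarith)
      _ = L := Real.rpow_one L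
  have hlogL : Real.log L ≤ 4 / ε * s := by
    have := Real.log_le_rpow_div hL0.le (by positivity : 0 < ε / 4)
    calc Real.log L ≤ L ^ (ε / 4) / (ε / 4) := this
      _ = 4 / ε * s := by
        rw [← hsdef]
        field_simp
  have hlogL0 : 0 ≤ Real.log L := Real.log_nonneg hL1.le
  rw [← Real.rpow_natCast]
  set y : ℕ := ⌊L ^ (A : ℝ)⌋₊ with hy
  have hLA : (2 : ℝ) ≤ L ^ (A : ℝ) := by
    calc (2 : ℝ) ≤ L := hs2.trans hsL
      _ = L ^ (1 : ℝ) := (Real.rpow_one L).symm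
      _ ≤ L ^ (A : ℝ) := Real.rpow_le_rpow_of_exponent_le hL1.le hAr
  have hy2 : 2 ≤ y := Nat.le_floor (by exact_mod_cast hLA)
  have hyle : (y : ℝ) ≤ L ^ (A : ℝ) := Nat.floor_le (by positivity)
  have hy0 : (2 : ℝ) ≤ y := by exact_mod_cast hy2
  have hW1 : (1 : ℝ) ≤ Real.exp (L ^ ε) / 2 := by
    have h1 : (1 : ℝ) ≤ L ^ ε := Real.one_le_rpow hL1.le hε.le
    have h2 := Real.add_one_le_exp (L ^ ε)
    linarith
  have h1 := hbad y x (Real.exp (L ^ ε) / 2) σ hy2 (by omega) hW1 hσ0 hσ1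
  refine h1.trans ?_
  -- the three factors
  have f1 : 1 + Real.log x ≤ Real.exp (1 + Real.log L) := by
    rw [Real.exp_add, Real.exp_log hL0]
    have := Real.exp_one_gt_d9
    nlinarith
  have f2 : (Real.exp (L ^ ε) / 2) ^ (-σ / 4) = Real.exp ((Real.log 2 - s ^ 4) * (σ / 4)) := by
    rw [Real.rpow_def_of_pos (by positivity), Real.log_div (Real.exp_pos _).ne' (by norm_num),
      Real.log_exp, hs4]
    congr 1
    ring
  have f3 : (y : ℝ) ^ σ ≤ s ^ 2 := by
    calc (y : ℝ) ^ σ ≤ (L ^ (A : ℝ)) ^ σ := by gcongr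
      _ = L ^ (A * σ) := by rw [← Real.rpow_mul hL0.le]
      _ ≤ L ^ (ε / 2) := Real.rpow_le_rpow_of_exponent_le hL1.le hσA
      _ = s ^ 2 := hs22
  have hlogy : Real.log y ≤ A * (4 / ε * s) := by
    calc Real.log y ≤ Real.log (L ^ (A : ℝ)) := Real.log_le_log (by linarith) hyle
      _ = A * Real.log L := Real.log_rpow hL0 _
      _ ≤ A * (4 / ε * s) := by gcongr
  have hlogy0 : 0 ≤ Real.log y := Real.log_nonneg (by linarith)
  have f4 : Real.log (1 + Real.log y) ≤ A * (4 / ε * s) := by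
    have := Real.log_le_sub_one_of_pos (by linarith : 0 < 1 + Real.log y)
    linarith
  have f40 : 0 ≤ Real.log (1 + Real.log y) := Real.log_nonneg (by linarith)
  have f5 : C * (y : ℝ) ^ σ * (1 + Real.log (1 + Real.log y)) ≤
      C * s ^ 2 * (1 + A * (4 / ε * s)) := by
    gcongr
  rw [f2]
  calc (1 + Real.log x) * (Real.exp ((Real.log 2 - s ^ 4) * (σ / 4)) *
        Real.exp (C * (y : ℝ) ^ σ * (1 + Real.log (1 + Real.log y))))
      ≤ Real.exp (1 + Real.log L) * (Real.exp ((Real.log 2 - s ^ 4) * (σ / 4)) *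
        Real.exp (C * s ^ 2 * (1 + A * (4 / ε * s)))) := by
        gcongr
    _ = Real.exp (1 + Real.log L + ((Real.log 2 - s ^ 4) * (σ / 4) +
        C * s ^ 2 * (1 + A * (4 / ε * s)))) := by
        rw [← Real.exp_add, ← Real.exp_add]
    _ ≤ Real.exp 0 := by
        apply Real.exp_le_exp.2
        have g1 : Real.log 2 * (σ / 4) ≤ 1 := by
          have := Real.log_two_lt_d9
          have := Real.log_two_gt_d9
          nlinarith
        have g2 : C * s ^ 2 * (1 + A * (4 / ε * s)) ≤ C * (1 + A * (4 / ε)) * s ^ 3 := by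
          have : 1 + A * (4 / ε * s) ≤ (1 + A * (4 / ε)) * s := by
            nlinarith
          calc C * s ^ 2 * (1 + A * (4 / ε * s)) ≤ C * s ^ 2 * ((1 + A * (4 / ε)) * s) := by
                gcongr
            _ = _ := by ring
        have g3 : s ≤ s ^ 3 := by nlinarith [sq_nonneg (s - 1), sq_nonneg (s + 1)]
        have g4 : (1 : ℝ) ≤ s ^ 3 := by nlinarith
        have g5 : 4 / ε * s ≤ 4 / ε * s ^ 3 := by gcongr
        have g6 : K * s ^ 3 ≤ s ^ 4 * (σ / 4) := by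
          rw [div_le_iff₀ hσ0] at hsK
          have : 0 < s ^ 3 := by positivity
          nlinarith
        have g7 : 1 + Real.log L + ((Real.log 2 - s ^ 4) * (σ / 4) +
            C * s ^ 2 * (1 + A * (4 / ε * s))) ≤ K * s ^ 3 - s ^ 4 * (σ / 4) := by
          rw [hK]
          nlinarith
        linarith
    _ = 1 := Real.exp_zero

theorem density {m κ : ℕ} (hm : (m = 4 ∧ κ = 2) ∨ (m = 6 ∧ κ = 3)) {ε : ℝ} (hε : 0 < ε)
    (hε' : ε < 1 / 4) (A : ℕ) (hA : 1 ≤ A) : ∃ C : ℝ, 0 < C ∧ ∀ x : ℕ, 3 ≤ x →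
    ((κ : ℝ) - 8 * ε) * Real.log (Real.log x) - C ≤ ∑ w ∈ goodSet ε A x, (rt m w : ℝ) / w := by
  -- the modulus and the weight
  obtain ⟨q, a, hq, hφ, hκ, hκa, hrt⟩ : ∃ q a : ℕ, 2 ≤ q ∧ q.totient = 2 ∧
      (κ : ℝ) = 1 + (a : ℝ) / 2 ∧ (κ : ℝ) + (1 + a) ≤ 8 ∧ ∀ w : ℕ, w.Prime → 3 ≤ w →
        1 + (if w % q = 1 then a else 0) ≤ rt m w := by
    rcases hm with ⟨rfl, rfl⟩ | ⟨rfl, rfl⟩
    · exact ⟨4, 2, by norm_num, by decide, by norm_num, by norm_num, rt_four⟩
    · exact ⟨3, 4, by norm_num, by decide, by norm_num, by norm_num, rt_six⟩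
  have hm5 : m - 1 ≤ 5 ∧ 1 ≤ m := by
    rcases hm with ⟨rfl, -⟩ | ⟨rfl, -⟩ <;> norm_num
  have hκ2 : (2 : ℝ) ≤ κ := by
    rcases hm with ⟨-, rfl⟩ | ⟨-, rfl⟩ <;> norm_num
  have hκ3 : (κ : ℝ) ≤ 3 := by
    rcases hm with ⟨-, rfl⟩ | ⟨-, rfl⟩ <;> norm_num
  obtain ⟨C1, hall⟩ := m2_all hq hφ a
  obtain ⟨s₀, hs₀, hbad⟩ := m2_bad hε hε' A hA
  refine ⟨max 1 (max (C1 + 5) (3 * (4 / ε * Real.log s₀))), lt_max_of_lt_left one_pos,
    fun x hx => ?_⟩
  set L := Real.log x with hL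
  have hL1 : 1 < L := m2_L hx
  have hL0 : 0 < L := by linarith
  have hlogL0 : 0 ≤ Real.log L := Real.log_nonneg hL1.le
  rcases lt_or_ge (L ^ (ε / 4)) s₀ with hlt | hge
  · -- small `x`
    have h1 : Real.log L ≤ 4 / ε * Real.log s₀ := by
      have h2 := Real.log_le_log (by positivity) hlt.le
      rw [Real.log_rpow hL0] at h2
      have h3 : 4 / ε * (ε / 4 * Real.log L) ≤ 4 / ε * Real.log s₀ := by gcongr
      have h4 : 4 / ε * (ε / 4 * Real.log L) = Real.log L := by field_simp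
      linarith
    have h5 : ((κ : ℝ) - 8 * ε) * Real.log L ≤ 3 * (4 / ε * Real.log s₀) := by
      calc ((κ : ℝ) - 8 * ε) * Real.log L ≤ 3 * Real.log L := by
            gcongr
            linarith
        _ ≤ _ := by gcongr
    have h6 : 3 * (4 / ε * Real.log s₀) ≤ max 1 (max (C1 + 5) (3 * (4 / ε * Real.log s₀))) :=
      (le_max_right _ _).trans (le_max_right _ _)
    have h7 : 0 ≤ ∑ w ∈ goodSet ε A x, (rt m w : ℝ) / w := sum_nonneg fun _ _ => by positivity
    linarith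
  · have h1 := hall (L ^ ε) (L ^ (1 - ε)) (Real.one_le_rpow hL1.le hε.le)
      (Real.one_le_rpow hL1.le (by linarith))
    have h2 := hbad x hx hge
    rw [Real.log_rpow hL0, Real.log_rpow hL0] at h1
    set W := ⌊Real.exp (L ^ ε)⌋₊ with hW
    set z := ⌊Real.exp (L ^ (1 - ε))⌋₊ with hz
    have hW3 : 3 ≤ W + 1 := m2_floor (Real.one_le_rpow hL1.le hε.le)
    have hzx : z ≤ x := by
      have h3 : Real.exp (L ^ (1 - ε)) ≤ x := by
        have h4 : L ^ (1 - ε) ≤ L := by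
          calc L ^ (1 - ε) ≤ L ^ (1 : ℝ) :=
                Real.rpow_le_rpow_of_exponent_le hL1.le (by linarith)
            _ = L := Real.rpow_one L
        calc Real.exp (L ^ (1 - ε)) ≤ Real.exp L := Real.exp_le_exp.2 h4
          _ = x := by
            rw [hL, Real.exp_log]
            have : 0 < x := by omega
            exact_mod_cast this
      have h5 : (z : ℝ) ≤ x := (Nat.floor_le (Real.exp_pos _).le).trans h3
      exact_mod_cast h5
    -- the bad primes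
    set B : Finset ℕ := (m2_P W z).filter (fun w => ¬ (sm ⌊L ^ A⌋₊ (w - 1)) ^ 4 ≤ w) with hB
    have h3 : ∑ w ∈ m2_P W z, (rt m w : ℝ) / w ≤
        ∑ w ∈ goodSet ε A x, (rt m w : ℝ) / w + ∑ w ∈ B, (rt m w : ℝ) / w := by
      rw [← sum_filter_add_sum_filter_not (m2_P W z)
        (fun w => (sm ⌊L ^ A⌋₊ (w - 1)) ^ 4 ≤ w)]
      refine add_le_add ?_ le_rfl
      refine sum_le_sum_of_subset_of_nonneg ?_ (fun _ _ _ => by positivity)
      intro w hw
      simp only [m2_P, mem_filter, mem_range] at hw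
      obtain ⟨⟨hw1, hw2, hw3⟩, hw4⟩ := hw
      rw [goodSet, mem_filter, mem_range]
      refine ⟨by omega, hw2, ?_, ?_, hw4⟩
      · exact (Nat.floor_lt (Real.exp_pos _).le).1 hw3
      · exact (Nat.le_floor_iff (Real.exp_pos _).le).1 (Nat.lt_succ_iff.1 hw1)
    have h4 : ∑ w ∈ B, (rt m w : ℝ) / w ≤ 5 := by
      have h5 : ∑ w ∈ B, (rt m w : ℝ) / w ≤ ∑ w ∈ B, 5 * ((1 : ℝ) / ((w - 1 : ℕ) : ℝ)) := by
        refine sum_le_sum fun w hw => ?_
        simp only [hB, m2_P, mem_filter, mem_range] at hw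
        obtain ⟨⟨hw1, hw2, hw3⟩, hw4⟩ := hw
        have h6 : (rt m w : ℝ) ≤ 5 := by
          have := (roots_prime m w hm5.2 hw2).trans hm5.1
          exact_mod_cast this
        have h7 : (0 : ℝ) < ((w - 1 : ℕ) : ℝ) := by
          have : 0 < w - 1 := by omega
          exact_mod_cast this
        have h8 : ((w - 1 : ℕ) : ℝ) ≤ w := by
          have : w - 1 ≤ w := by omega
          exact_mod_cast this
        calc (rt m w : ℝ) / w ≤ 5 / w := by gcongr
          _ ≤ 5 / ((w - 1 : ℕ) : ℝ) := by gcongr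
          _ = _ := by ring
      refine h5.trans ?_
      rw [← mul_sum]
      have h9 : ∑ w ∈ B, (1 : ℝ) / ((w - 1 : ℕ) : ℝ) ≤ ∑ j ∈ (Icc 1 x).filter (fun j : ℕ =>
          Real.exp (L ^ ε) / 2 ≤ (j : ℝ) ∧ j < (sm ⌊L ^ A⌋₊ j) ^ 4), (1 : ℝ) / j := by
        have hinj : Set.InjOn (fun w : ℕ => w - 1) (B : Set ℕ) := by
          intro w hw w' hw' h
          simp only [hB, m2_P, coe_filter, mem_filter, mem_range, Set.mem_ofPred_eq] at hw hw'
          simp only at h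
          omega
        rw [← sum_image (f := fun j : ℕ => (1 : ℝ) / j) hinj]
        refine sum_le_sum_of_subset_of_nonneg ?_ (fun _ _ _ => by positivity)
        intro j hj
        rw [mem_image] at hj
        obtain ⟨w, hw, rfl⟩ := hj
        simp only [hB, m2_P, mem_filter, mem_range, not_le] at hw
        obtain ⟨⟨hw1, hw2, hw3⟩, hw4⟩ := hw
        rw [mem_filter, mem_Icc]
        refine ⟨⟨by omega, by omega⟩, ?_, by omega⟩
        have h10 : Real.exp (L ^ ε) < w := (Nat.floor_lt (Real.exp_pos _).le).1 hw3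
        have h11 : (2 : ℝ) ≤ Real.exp (L ^ ε) := by
          have h1 : (1 : ℝ) ≤ L ^ ε := Real.one_le_rpow hL1.le hε.le
          have h2 := Real.add_one_le_exp (L ^ ε)
          linarith
        have h12 : ((w - 1 : ℕ) : ℝ) = (w : ℝ) - 1 := by
          rw [Nat.cast_sub (by omega)]
          push_cast
          ring
        rw [h12]
        linarith
      linarith
    have h5 : ∑ w ∈ m2_P W z, (1 + (if w % q = 1 then (a : ℝ) else 0)) / w ≤
        ∑ w ∈ m2_P W z, (rt m w : ℝ) / w := by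
      refine sum_le_sum fun w hw => ?_
      simp only [m2_P, mem_filter, mem_range] at hw
      obtain ⟨hw1, hw2, hw3⟩ := hw
      have h6 := hrt w hw2 (by omega)
      have h7 : (1 + (if w % q = 1 then (a : ℝ) else 0)) ≤ (rt m w : ℝ) := by
        have h8 : ((1 + (if w % q = 1 then a else 0) : ℕ) : ℝ) ≤ (rt m w : ℝ) := by
          exact_mod_cast h6
        push_cast at h8
        exact h8
      gcongr
    have h6 : C1 + 5 ≤ max 1 (max (C1 + 5) (3 * (4 / ε * Real.log s₀))) :=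
      (le_max_left _ _).trans (le_max_right _ _)
    have h7 : ((κ : ℝ) - 8 * ε) * Real.log L ≤
        (1 + (a : ℝ) / 2) * ((1 - ε) * Real.log L) - (1 + a) * (ε * Real.log L) := by
      rw [← hκ]
      nlinarith [mul_nonneg hε.le hlogL0]
    linarith

end Pool.Agent.Lib.MP_79499b_co.EO
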