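import Pool.Agent.Lib.MP_79499b_co.EO.M2
import Pool.Agent.Lib.MP_79499b_co.Q38Brun

/-!
# M3: the sieve

PROOF. `Q38.brun` with `M = 1`, `U = goodSet ε A x`, `q w = w`, `P w n = (w ∣ vv m n)` (periodic mod `w`),
`G = ∑ rt m w / w`.  `G ≥ (κ - 8 ε) log L - C` (`density`), `G ≤ 5 (log L + C)` (`Q38.msum_one_le`, `rt ≤ 5`),
`D = 5 z` with `z = exp (L^(1-ε))` (at most `z` primes, each `rt ≤ 5`).  Choose `r` even, `r = 2 ⌈11 log L⌉`:
`exp (8 G) / 8^(r+1)` is `O(L^(-4))`, and `3 D^r = exp (O(log L) * L^(1-ε))`.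
-/

set_option autoImplicit false

namespace Pool.Agent.Lib.MP_79499b_co.EO

open Finset
open scoped Classical

/-- the growth estimate -/
private lemma m3_growth {ε : ℝ} (hε : 0 < ε) (hε' : ε < 1) : ∃ C : ℝ, 0 ≤ C ∧ ∀ L : ℝ, 1 ≤ L →
    3 * (22 * Real.log L + 2) * L ^ (1 - ε) + 3 * Real.log L ≤ L + C := by
  set B : ℝ := 132 / ε + 6 + 6 / ε with hB
  have hB0 : 0 < B := by positivity
  refine ⟨B * B ^ (2 / ε), by positivity, fun L hL => ?_⟩
  have hL0 : 0 < L := by linarith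
  have h1 : Real.log L ≤ L ^ (ε / 2) / (ε / 2) := Real.log_le_rpow_div hL0.le (by linarith)
  have h2 : 0 ≤ Real.log L := Real.log_nonneg hL
  have h3 : L ^ (1 - ε / 2) = L ^ (ε / 2) * L ^ (1 - ε) := by
    rw [← Real.rpow_add hL0]; congr 1; ring
  have h4 : L ^ (1 - ε) ≤ L ^ (1 - ε / 2) := Real.rpow_le_rpow_of_exponent_le hL (by linarith)
  have h5 : L ^ (ε / 2) ≤ L ^ (1 - ε / 2) := Real.rpow_le_rpow_of_exponent_le hL (by linarith)
  have h6 : 0 < L ^ (1 - ε) := Real.rpow_pos_of_pos hL0 _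
  have h7 : 3 * (22 * Real.log L + 2) * L ^ (1 - ε) + 3 * Real.log L ≤ B * L ^ (1 - ε / 2) := by
    have e1 : Real.log L * L ^ (1 - ε) ≤ (2 / ε) * L ^ (1 - ε / 2) := by
      rw [h3]
      calc Real.log L * L ^ (1 - ε) ≤ (L ^ (ε / 2) / (ε / 2)) * L ^ (1 - ε) :=
            mul_le_mul_of_nonneg_right h1 h6.le
        _ = (2 / ε) * (L ^ (ε / 2) * L ^ (1 - ε)) := by
            field_simp
    have e2 : Real.log L ≤ (2 / ε) * L ^ (1 - ε / 2) := by
      calc Real.log L ≤ L ^ (ε / 2) / (ε / 2) := h1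
        _ = (2 / ε) * L ^ (ε / 2) := by field_simp
        _ ≤ (2 / ε) * L ^ (1 - ε / 2) := mul_le_mul_of_nonneg_left h5 (by positivity)
    have e3 : B * L ^ (1 - ε / 2) = 66 * ((2 / ε) * L ^ (1 - ε / 2)) + 6 * L ^ (1 - ε / 2)
        + 3 * ((2 / ε) * L ^ (1 - ε / 2)) := by
      rw [hB]; ring
    rw [e3]
    nlinarith
  refine h7.trans ?_
  have h8 : 0 ≤ L ^ (1 - ε / 2) := Real.rpow_nonneg hL0.le _
  rcases le_total (B ^ (2 / ε)) L with h | h
  · have h9 : B ≤ L ^ (ε / 2) := by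
      have := Real.rpow_le_rpow (by positivity) h (by linarith : 0 ≤ ε / 2)
      rw [← Real.rpow_mul hB0.le] at this
      have h10 : 2 / ε * (ε / 2) = 1 := by field_simp
      rwa [h10, Real.rpow_one] at this
    have h10 : L ^ (ε / 2) * L ^ (1 - ε / 2) = L := by
      rw [← Real.rpow_add hL0]
      have : ε / 2 + (1 - ε / 2) = 1 := by ring
      rw [this, Real.rpow_one]
    have h11 : B * L ^ (1 - ε / 2) ≤ L ^ (ε / 2) * L ^ (1 - ε / 2) :=
      mul_le_mul_of_nonneg_right h9 h8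
    have h12 : 0 ≤ B * B ^ (2 / ε) := by positivity
    linarith
  · have h9 : L ^ (1 - ε / 2) ≤ L := by
      calc L ^ (1 - ε / 2) ≤ L ^ (1 : ℝ) := Real.rpow_le_rpow_of_exponent_le hL (by linarith)
        _ = L := Real.rpow_one L
    have h10 : B * L ^ (1 - ε / 2) ≤ B * B ^ (2 / ε) :=
      mul_le_mul_of_nonneg_left (h9.trans h) hB0.le
    linarith

private lemma m3_mod (m u n : ℕ) : u ∣ vv m (n % u) ↔ u ∣ vv m n := by
  rw [← ZMod.natCast_eq_zero_iff, ← ZMod.natCast_eq_zero_iff]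
  unfold vv
  push_cast
  rw [ZMod.natCast_mod]

theorem main_sieve {m κ : ℕ} (hm : (m = 4 ∧ κ = 2) ∨ (m = 6 ∧ κ = 3)) {ε : ℝ} (hε : 0 < ε)
    (hε' : ε < 1 / 4) (A : ℕ) (hA : 1 ≤ A) : ∃ C : ℝ, 0 < C ∧ ∀ x : ℕ, 3 ≤ x →
    cnt x (fun n => ∀ w : ℕ, Good ε A x w → ¬ w ∣ vv m n) ≤
      C * x / (Real.log x) ^ ((κ : ℝ) - 8 * ε) := by
  obtain ⟨C1, hC1, hdens⟩ := density hm hε hε' A hA
  obtain ⟨C2, hC2, hmert⟩ := Q38.msum_one_le
  obtain ⟨C3, hC3, hgrow⟩ := m3_growth hε (by linarith)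
  have hm1 : 1 ≤ m := by rcases hm with h | h <;> omega
  have hm6 : m - 1 ≤ 5 := by rcases hm with h | h <;> omega
  have hκ3 : (κ : ℝ) ≤ 3 := by
    rcases hm with h | h <;> rw [h.2] <;> norm_num
  refine ⟨Real.exp C1 + Real.exp (8 * (5 * (1 + C2))) + 3 * Real.exp C3, by positivity,
    fun x hx => ?_⟩
  have hx3 : (3 : ℝ) ≤ x := by exact_mod_cast hx
  have hx0 : (0 : ℝ) < x := by linarith
  set L : ℝ := Real.log x with hL
  have hL1 : 1 ≤ L := by
    rw [hL, Real.le_log_iff_exp_le hx0]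
    have := Real.exp_one_lt_d9
    linarith
  have hL0 : 0 < L := by linarith
  have hlogL : 0 ≤ Real.log L := Real.log_nonneg hL1
  have hexpL : Real.exp L = x := by rw [hL, Real.exp_log hx0]
  set s : ℝ := (κ : ℝ) - 8 * ε with hs
  have hs3 : s ≤ 3 := by rw [hs]; linarith
  have hLs : 0 < L ^ s := Real.rpow_pos_of_pos hL0 _
  set U := goodSet ε A x with hU
  have hUg : ∀ w ∈ U, Good ε A x w := by
    intro w hw
    rw [hU] at hw
    unfold goodSet at hw
    exact (mem_filter.mp hw).2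
  have hUp : ∀ w ∈ U, w.Prime := fun w hw => (hUg w hw).1
  set G : ℝ := ∑ w ∈ U, (rt m w : ℝ) / w with hG
  have hrt5 : ∀ w ∈ U, (rt m w : ℝ) ≤ 5 := by
    intro w hw
    have h1 : rt m w ≤ m - 1 := roots_prime m w hm1 (hUp w hw)
    exact_mod_cast h1.trans hm6
  -- lower bound for G
  have hGlow : s * Real.log L - C1 ≤ G := hdens x hx
  -- upper bound for G
  have hGup : G ≤ 5 * (Real.log L + 1 + C2) := by
    have h1 : G ≤ 5 * Q38.msum 1 0 (x + 1) := by
      rw [hG]
      unfold Q38.msum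
      rw [mul_sum]
      calc ∑ w ∈ U, (rt m w : ℝ) / w ≤ ∑ w ∈ U, 5 * ((w : ℝ))⁻¹ := by
            refine sum_le_sum fun w hw => ?_
            rw [div_eq_mul_inv]
            exact mul_le_mul_of_nonneg_right (hrt5 w hw) (by positivity)
        _ ≤ _ := by
            refine sum_le_sum_of_subset_of_nonneg ?_ fun _ _ _ => by positivity
            intro w hw
            have h2 := hUg w hw
            rw [hU] at hw
            unfold goodSet at hw
            have h3 := (mem_filter.mp hw).1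
            rw [mem_filter]
            exact ⟨h3, h2.1, Nat.mod_one w⟩
    have h2 := hmert (x + 1) (by omega)
    have h3 : Real.log (Real.log ((x + 1 : ℕ) : ℝ)) ≤ Real.log L + 1 := by
      have h4 : Real.log ((x + 1 : ℕ) : ℝ) ≤ 2 * L := by
        have h5 : (2 : ℝ) * L = Real.log ((x : ℝ) ^ 2) := by
          rw [Real.log_pow, hL]; norm_num
        rw [h5]
        refine Real.log_le_log (by positivity) ?_
        push_cast
        nlinarith
      have h6 : 0 < Real.log ((x + 1 : ℕ) : ℝ) := by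
        refine Real.log_pos ?_
        push_cast
        linarith
      calc Real.log (Real.log ((x + 1 : ℕ) : ℝ)) ≤ Real.log (2 * L) := Real.log_le_log h6 h4
        _ = Real.log 2 + Real.log L := Real.log_mul (by norm_num) hL0.ne'
        _ ≤ Real.log L + 1 := by
            have := Real.log_two_lt_d9
            linarith
    linarith
  -- the number D
  set z : ℝ := Real.exp (L ^ (1 - ε)) with hz
  have hz1 : 1 ≤ z := by
    rw [hz]
    exact Real.one_le_exp (Real.rpow_nonneg hL0.le _)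
  have hDle : ∑ w ∈ U, (rt m w : ℝ) ≤ 5 * z := by
    have h1 : (U.card : ℝ) ≤ z := by
      have h2 : U.card ≤ ⌊z⌋₊ := by
        have h3 : U ⊆ Icc 1 ⌊z⌋₊ := by
          intro w hw
          rw [mem_Icc]
          exact ⟨(hUp w hw).one_lt.le, Nat.le_floor (hUg w hw).2.2.1⟩
        have := card_le_card h3
        simpa using this
      exact (Nat.cast_le.mpr h2).trans (Nat.floor_le (by linarith))
    calc ∑ w ∈ U, (rt m w : ℝ) ≤ ∑ w ∈ U, (5 : ℝ) := sum_le_sum hrt5
      _ = 5 * U.card := by rw [sum_const, nsmul_eq_mul]; ring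
      _ ≤ 5 * z := by linarith
  -- the number r
  set r : ℕ := 2 * ⌈11 * Real.log L⌉₊ with hr
  have hreven : Even r := ⟨⌈11 * Real.log L⌉₊, by rw [hr]; ring⟩
  have hrlow : 22 * Real.log L ≤ r := by
    have := Nat.le_ceil (11 * Real.log L)
    rw [hr]; push_cast; linarith
  have hrup : (r : ℝ) ≤ 22 * Real.log L + 2 := by
    have := Nat.ceil_lt_add_one (by positivity : 0 ≤ 11 * Real.log L)
    rw [hr]; push_cast; linarith
  have hcard : ∀ w, ((((range w).filter (fun n => w ∣ vv m n)).card : ℕ) : ℝ) = (rt m w : ℝ) := by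
    intro w
    rfl
  have hb := Q38.brun (M := 1) one_pos (P := fun w n => w ∣ vv m n) (q := fun w => w) U
    (fun w hw => (hUp w hw).pos) (fun w _ => Nat.coprime_one_left w)
    (fun u hu v hv huv => (Nat.coprime_primes (hUp u hu) (hUp v hv)).mpr huv)
    (fun u _ n => m3_mod m u n) hreven x (G := G) (D := 5 * z)
    (by rw [hG]; refine sum_congr rfl fun w _ => ?_; unfold rt; congr!)
    (by linarith)
    (by refine le_trans (le_of_eq ?_) hDle; refine sum_congr rfl fun w _ => ?_; unfold rt; congr!)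
  have hcnt : cnt x (fun n => ∀ w : ℕ, Good ε A x w → ¬ w ∣ vv m n) ≤
      (x / (1 : ℕ)) * (Real.exp (-G) + Real.exp (8 * G) / 8 ^ (r + 1)) + 3 * (5 * z) ^ r := by
    refine le_trans ?_ hb
    unfold cnt
    refine Nat.cast_le.mpr (card_le_card ?_)
    intro n hn
    simp only [mem_filter] at hn ⊢
    exact ⟨hn.1, one_dvd _, fun u hu => hn.2 u (hUg u hu)⟩
  refine hcnt.trans ?_
  -- first term
  have t1 : Real.exp (-G) ≤ Real.exp C1 / L ^ s := by
    have h1 : L ^ s = Real.exp (s * Real.log L) := by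
      rw [Real.rpow_def_of_pos hL0, mul_comm]
    rw [h1, ← Real.exp_sub]
    exact Real.exp_le_exp.mpr (by linarith)
  have t2 : Real.exp (8 * G) / 8 ^ (r + 1) ≤ Real.exp (8 * (5 * (1 + C2))) / L ^ s := by
    have h8 : Real.exp 2 ≤ 8 := by
      have h9 : Real.exp 2 = Real.exp 1 * Real.exp 1 := by rw [← Real.exp_add]; norm_num
      have := Real.exp_one_lt_d9
      have h10 := Real.exp_pos 1
      rw [h9]
      nlinarith
    have h9 : Real.exp (44 * Real.log L) ≤ (8 : ℝ) ^ (r + 1) := by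
      calc Real.exp (44 * Real.log L) ≤ Real.exp (r * 2) := Real.exp_le_exp.mpr (by linarith)
        _ = Real.exp 2 ^ r := by rw [← Real.exp_nat_mul]
        _ ≤ 8 ^ r := pow_le_pow_left₀ (Real.exp_pos _).le h8 _
        _ ≤ 8 ^ (r + 1) := pow_le_pow_right₀ (by norm_num) (by omega)
    have h1 : L ^ s ≤ Real.exp (4 * Real.log L) := by
      rw [Real.rpow_def_of_pos hL0]
      exact Real.exp_le_exp.mpr (by nlinarith)
    rw [div_le_div_iff₀ (by positivity) hLs]
    calc Real.exp (8 * G) * L ^ s ≤ Real.exp (8 * G) * Real.exp (4 * Real.log L) :=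
          mul_le_mul_of_nonneg_left h1 (Real.exp_pos _).le
      _ = Real.exp (8 * G + 4 * Real.log L) := (Real.exp_add _ _).symm
      _ ≤ Real.exp (8 * (5 * (1 + C2)) + 44 * Real.log L) := Real.exp_le_exp.mpr (by linarith)
      _ = Real.exp (8 * (5 * (1 + C2))) * Real.exp (44 * Real.log L) := Real.exp_add _ _
      _ ≤ _ := mul_le_mul_of_nonneg_left h9 (Real.exp_pos _).le
  have t3 : 3 * (5 * z) ^ r ≤ 3 * Real.exp C3 * x / L ^ s := by
    have h5 : (5 : ℝ) ≤ Real.exp 2 := by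
      have h9 : Real.exp 2 = Real.exp 1 * Real.exp 1 := by rw [← Real.exp_add]; norm_num
      have := Real.exp_one_gt_d9
      rw [h9]
      nlinarith
    have hLe1 : 1 ≤ L ^ (1 - ε) := Real.one_le_rpow hL1 (by linarith)
    have h6 : 5 * z ≤ Real.exp (3 * L ^ (1 - ε)) := by
      calc 5 * z ≤ Real.exp 2 * z := mul_le_mul_of_nonneg_right h5 (by linarith)
        _ = Real.exp (2 + L ^ (1 - ε)) := by rw [hz, ← Real.exp_add]
        _ ≤ _ := Real.exp_le_exp.mpr (by linarith)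
    have h7 : (5 * z) ^ r ≤ Real.exp ((22 * Real.log L + 2) * (3 * L ^ (1 - ε))) := by
      calc (5 * z) ^ r ≤ Real.exp (3 * L ^ (1 - ε)) ^ r := pow_le_pow_left₀ (by linarith) h6 _
        _ = Real.exp (r * (3 * L ^ (1 - ε))) := (Real.exp_nat_mul _ _).symm
        _ ≤ _ := Real.exp_le_exp.mpr (mul_le_mul_of_nonneg_right hrup (by linarith))
    have h1 : L ^ s ≤ Real.exp (3 * Real.log L) := by
      rw [Real.rpow_def_of_pos hL0]
      exact Real.exp_le_exp.mpr (by nlinarith)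
    rw [le_div_iff₀ hLs]
    have h8 : (5 * z) ^ r * L ^ s ≤ Real.exp C3 * x := by
      calc (5 * z) ^ r * L ^ s
          ≤ Real.exp ((22 * Real.log L + 2) * (3 * L ^ (1 - ε))) * Real.exp (3 * Real.log L) :=
            mul_le_mul h7 h1 hLs.le (Real.exp_pos _).le
        _ = Real.exp ((22 * Real.log L + 2) * (3 * L ^ (1 - ε)) + 3 * Real.log L) :=
            (Real.exp_add _ _).symm
        _ ≤ Real.exp (C3 + L) := by
            refine Real.exp_le_exp.mpr ?_
            have := hgrow L hL1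
            linarith
        _ = Real.exp C3 * x := by rw [Real.exp_add, hexpL]
    linarith
  have hx1 : (x : ℝ) / (1 : ℕ) = x := by simp
  rw [hx1]
  calc (x : ℝ) * (Real.exp (-G) + Real.exp (8 * G) / 8 ^ (r + 1)) + 3 * (5 * z) ^ r
      ≤ (x : ℝ) * (Real.exp C1 / L ^ s + Real.exp (8 * (5 * (1 + C2))) / L ^ s)
        + 3 * Real.exp C3 * x / L ^ s := by
        have := mul_le_mul_of_nonneg_left (add_le_add t1 t2) hx0.le
        linarith
    _ = (Real.exp C1 + Real.exp (8 * (5 * (1 + C2))) + 3 * Real.exp C3) * x / L ^ s := by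
        ring

end Pool.Agent.Lib.MP_79499b_co.EO
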