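import Pool.Agent.Lib.MP_79499b_co.EO.QR

/-!
# O1: prime factors `p` of `n` whose order modulo `w` is not divisible by `l` are rare

PROOF. `H = {h ∈ ZMod w : h ≠ 0, l ∤ orderOf h}` has at most `(w - 1) / l` elements: it is contained in
`{h : h^((w-1)/l) = 1}` (`orderOf h ∣ w - 1`, `l` prime to `orderOf h`, so `orderOf h ∣ (w - 1)/l`), and
`X^((w-1)/l) - 1` has at most `(w-1)/l` roots.  (`p` prime, `p > w`, so `p ≠ 0` mod `w`.)
For a residue `ν` of `n` mod `w` (`roots_prime`, at most `m - 1` of them) and a prime `p`, `w < p ≤ x / w`, with `p mod w ∈ H`: `n = p r`,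
`r < x / p + 1`, `r = ν / p mod w`: at most `x / (p w) + 1 ≤ 2 x / (p w)` (one class for `n` modulo `p w`, `cnt_period`).
For `h ∈ H` the numbers `p ≤ x`, `p > w`, `p mod w = h` are `h + j w`, `1 ≤ j ≤ x`: `∑ 1/p ≤ (1 + log x) / w`.
Total: `(m - 1) * (2 x / w) * ((w - 1) / l) * (1 + log x) / w`.
-/

set_option autoImplicit false

namespace Pool.Agent.Lib.MP_79499b_co.EO

open Finset
open scoped Classical

lemma o1_vv_mod (m w n n' : ℕ) (h : n ≡ n' [MOD w]) : w ∣ vv m n ↔ w ∣ vv m n' := by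
  have h1 : vv m n ≡ vv m n' [MOD w] := by
    unfold vv
    induction m with
    | zero => simp only [range_zero, sum_empty]; exact Nat.ModEq.refl _
    | succ k ih =>
      rw [sum_range_succ, sum_range_succ]
      exact Nat.ModEq.add ih (h.pow k)
  exact h1.dvd_iff dvd_rfl

lemma o1_card (m w r : ℕ) (hm : 1 ≤ m) (hw : w.Prime) (hc : Nat.Coprime r w)
    (P : ℕ → Prop) (hP : ∀ n, P n → r ∣ n ∧ w ∣ vv m n) :
    ((range (r * w)).filter P).card ≤ m := by
  refine le_trans (card_le_card_of_injOn (fun n => n % w)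
    (t := (range w).filter (fun n => w ∣ vv m n)) ?_ ?_)
    ((roots_prime m w hm hw).trans (Nat.sub_le _ _))
  · intro n hn
    rw [mem_coe, mem_filter] at hn
    rw [mem_coe, mem_filter, mem_range]
    refine ⟨Nat.mod_lt _ hw.pos, ?_⟩
    rw [o1_vv_mod m w (n % w) n]
    · exact (hP n hn.2).2
    · exact Nat.mod_mod n w
  · intro n hn n' hn' he
    rw [mem_coe, mem_filter, mem_range] at hn hn'
    have e1 : n ≡ n' [MOD w] := he
    have e2 : n ≡ n' [MOD r] := by
      have a1 := (Nat.modEq_zero_iff_dvd.mpr (hP n hn.2).1)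
      have a2 := (Nat.modEq_zero_iff_dvd.mpr (hP n' hn'.2).1)
      exact a1.trans a2.symm
    have e3 : n ≡ n' [MOD r * w] := (Nat.modEq_and_modEq_iff_modEq_mul hc).mp ⟨e2, e1⟩
    exact e3.eq_of_lt_of_lt hn.1 hn'.1

/-- `n` divisible by `r`, `vv m n` divisible by the prime `w` -/
lemma o1_class (m x w r : ℕ) (hm : 1 ≤ m) (hw : w.Prime) (hr : 0 < r) (hc : Nat.Coprime r w) :
    cnt x (fun n => r ∣ n ∧ w ∣ vv m n) ≤ (m : ℝ) * ((x : ℝ) / (r * w) + 1) := by
  have hM : 0 < r * w := Nat.mul_pos hr hw.pos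
  refine (cnt_period hM x _ ?_).trans ?_
  · intro n hn
    refine ⟨(Nat.dvd_mod_iff (dvd_mul_right r w)).mpr hn.1, ?_⟩
    rw [o1_vv_mod m w (n % (r * w)) n]
    · exact hn.2
    · exact Nat.mod_mod_of_dvd n (dvd_mul_left w r)
  · push_cast
    exact mul_le_mul_of_nonneg_right (Nat.cast_le.mpr (o1_card m w r hm hw hc _ (fun n h => h)))
      (by positivity)

lemma o1_class' (m x w r : ℕ) (hm : 1 ≤ m) (hw : w.Prime) (hr : 0 < r) (hc : Nat.Coprime r w)
    (hx : r * w ≤ x) :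
    cnt x (fun n => r ∣ n ∧ w ∣ vv m n) ≤ 2 * m * x / (r * w) := by
  refine (o1_class m x w r hm hw hr hc).trans ?_
  have h1 : (0 : ℝ) < (r : ℝ) * w := by exact_mod_cast Nat.mul_pos hr hw.pos
  have h2 : (1 : ℝ) ≤ (x : ℝ) / (r * w) := by
    rw [le_div_iff₀ h1, one_mul]
    exact_mod_cast hx
  have h3 : (0 : ℝ) ≤ m := Nat.cast_nonneg _
  calc (m : ℝ) * ((x : ℝ) / (r * w) + 1) ≤ m * ((x : ℝ) / (r * w) + (x : ℝ) / (r * w)) :=
        mul_le_mul_of_nonneg_left (by linarith) h3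
    _ = 2 * m * x / (r * w) := by ring

lemma o1_harm (x : ℕ) : ∑ j ∈ Icc 1 x, (j : ℝ)⁻¹ ≤ 1 + Real.log x := by
  have h2 : ∑ j ∈ Icc 1 x, (j : ℝ)⁻¹ = ((harmonic x : ℚ) : ℝ) := by
    rw [harmonic_eq_sum_Icc]
    push_cast
    rfl
  rw [h2]
  exact harmonic_le_one_add_log x

theorem ord_count (m x w l : ℕ) (hm : 1 ≤ m) (hx : 3 ≤ x) (hw : w.Prime) (hl : l.Prime)
    (hlw : l ∣ w - 1) :
    cnt x (fun n => w ∣ vv m n ∧ ∃ p : ℕ, p.Prime ∧ p ∣ n ∧ w < p ∧ p * w ≤ x ∧
      ¬ l ∣ orderOf (p : ZMod w)) ≤ 2 * m * x * (1 + Real.log x) / ((w : ℝ) * l) := by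
  have : Fact w.Prime := ⟨hw⟩
  obtain ⟨k, hk⟩ := hlw
  have hw2 := hw.two_le
  have hk0 : 0 < k := Nat.pos_of_ne_zero (fun h => by rw [h, mul_zero] at hk; omega)
  set P : Finset ℕ := (range (x + 1)).filter (fun p => p.Prime ∧ w < p ∧ p * w ≤ x ∧
    ¬ l ∣ orderOf (p : ZMod w)) with hP
  set H : Finset ℕ := (range w).filter (fun h => (h : ZMod w) ^ k = 1) with hH
  have hHc : H.card ≤ k := by
    have h1 : (H.image (fun h : ℕ => (h : ZMod w))) ⊆
        (Polynomial.nthRoots k (1 : ZMod w)).toFinset := by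
      intro y hy
      rw [mem_image] at hy
      obtain ⟨h, hh, rfl⟩ := hy
      rw [hH, mem_filter] at hh
      rw [Multiset.mem_toFinset, Polynomial.mem_nthRoots hk0]
      exact hh.2
    have h2 : (H.image (fun h : ℕ => (h : ZMod w))).card = H.card := by
      refine card_image_of_injOn ?_
      intro a ha b hb hab
      rw [mem_coe, hH, mem_filter, mem_range] at ha hb
      have h3 := (ZMod.natCast_eq_natCast_iff a b w).mp hab
      exact h3.eq_of_lt_of_lt ha.1 hb.1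
    rw [← h2]
    exact (card_le_card h1).trans ((Multiset.toFinset_card_le _).trans
      (Polynomial.card_nthRoots k (1 : ZMod w)))
  have hPH : ∀ p ∈ P, p % w ∈ H ∧ p / w ∈ Icc 1 x := by
    intro p hp
    rw [hP, mem_filter, mem_range] at hp
    obtain ⟨hpx, hpp, hwp, hpw, hno⟩ := hp
    have hne : (p : ZMod w) ≠ 0 := by
      intro h0
      have h1 := (ZMod.natCast_eq_zero_iff p w).mp h0
      have h2 := (Nat.prime_dvd_prime_iff_eq hw hpp).mp h1
      omega
    have hd : orderOf (p : ZMod w) ∣ w - 1 := ZMod.orderOf_dvd_card_sub_one hne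
    have hcop : Nat.Coprime (orderOf (p : ZMod w)) l :=
      ((Nat.Prime.coprime_iff_not_dvd hl).mpr hno).symm
    rw [hk] at hd
    have hd2 : orderOf (p : ZMod w) ∣ k := hcop.dvd_of_dvd_mul_left hd
    refine ⟨?_, ?_⟩
    · rw [hH, mem_filter, mem_range]
      refine ⟨Nat.mod_lt _ hw.pos, ?_⟩
      rw [ZMod.natCast_mod]
      exact orderOf_dvd_iff_pow_eq_one.mp hd2
    · rw [mem_Icc]
      refine ⟨(Nat.one_le_div_iff hw.pos).mpr hwp.le, ?_⟩
      exact (Nat.div_le_self _ _).trans (Nat.lt_succ_iff.mp hpx)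
  have hwR : (0 : ℝ) < w := by exact_mod_cast hw.pos
  have hlR : (0 : ℝ) < l := by exact_mod_cast hl.pos
  have hsum : ∑ p ∈ P, (1 : ℝ) / p ≤ k * ((1 + Real.log x) / w) := by
    have h1 : ∀ p ∈ P, (1 : ℝ) / p ≤ ((p / w : ℕ) : ℝ)⁻¹ / w := by
      intro p hp
      have h2 := (hPH p hp).2
      rw [mem_Icc] at h2
      have h3 : (0 : ℝ) < ((p / w : ℕ) : ℝ) := by exact_mod_cast h2.1
      have h4 : ((p / w : ℕ) : ℝ) * w ≤ p := by exact_mod_cast Nat.div_mul_le_self p w
      rw [← one_div, div_div]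
      exact one_div_le_one_div_of_le (by positivity) h4
    have h2 : ∑ p ∈ P, ((p / w : ℕ) : ℝ)⁻¹ / w
        ≤ ∑ q ∈ H ×ˢ Icc 1 x, ((q.2 : ℕ) : ℝ)⁻¹ / w := by
      have hinj : Set.InjOn (fun p : ℕ => (p % w, p / w)) P := by
        intro a _ b _ hab
        simp only [Prod.mk.injEq] at hab
        rw [← Nat.div_add_mod a w, ← Nat.div_add_mod b w, hab.1, hab.2]
      rw [← sum_image (f := fun q : ℕ × ℕ => ((q.2 : ℕ) : ℝ)⁻¹ / w) hinj]
      refine sum_le_sum_of_subset_of_nonneg ?_ ?_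
      · intro q hq
        rw [mem_image] at hq
        obtain ⟨p, hp, rfl⟩ := hq
        rw [mem_product]
        exact hPH p hp
      · intro q _ _
        positivity
    have h3 : ∑ q ∈ H ×ˢ Icc 1 x, ((q.2 : ℕ) : ℝ)⁻¹ / w
        = H.card * ((∑ j ∈ Icc 1 x, (j : ℝ)⁻¹) / w) := by
      rw [sum_product]
      simp only
      rw [sum_const, nsmul_eq_mul, sum_div]
    have hlog : 0 ≤ 1 + Real.log x := by
      have := Real.log_nonneg (show (1 : ℝ) ≤ x by exact_mod_cast (by omega : 1 ≤ x))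
      linarith
    calc ∑ p ∈ P, (1 : ℝ) / p ≤ ∑ p ∈ P, ((p / w : ℕ) : ℝ)⁻¹ / w := sum_le_sum h1
      _ ≤ _ := h2
      _ = _ := h3
      _ ≤ k * ((1 + Real.log x) / w) := by
          have hk' : (H.card : ℝ) ≤ k := by exact_mod_cast hHc
          have h4 : (∑ j ∈ Icc 1 x, (j : ℝ)⁻¹) / w ≤ (1 + Real.log x) / w :=
            div_le_div_of_nonneg_right (o1_harm x) hwR.le
          refine mul_le_mul hk' h4 ?_ (Nat.cast_nonneg _)
          exact div_nonneg (sum_nonneg (fun j _ => by positivity)) hwR.le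
  have hlogn : 0 ≤ 1 + Real.log x := by
    have := Real.log_nonneg (show (1 : ℝ) ≤ x by exact_mod_cast (by omega : 1 ≤ x))
    linarith
  calc cnt x (fun n => w ∣ vv m n ∧ ∃ p : ℕ, p.Prime ∧ p ∣ n ∧ w < p ∧ p * w ≤ x ∧
      ¬ l ∣ orderOf (p : ZMod w)) ≤ cnt x (fun n => ∃ p ∈ P, p ∣ n ∧ w ∣ vv m n) := by
        refine cnt_mono (fun n hn h => ?_)
        obtain ⟨h1, p, hpp, hpn, hwp, hpw, hno⟩ := h
        refine ⟨p, ?_, hpn, h1⟩
        rw [hP, mem_filter, mem_range]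
        refine ⟨?_, hpp, hwp, hpw, hno⟩
        have : p * 1 ≤ p * w := Nat.mul_le_mul_left p hw.pos
        omega
    _ ≤ ∑ p ∈ P, cnt x (fun n => p ∣ n ∧ w ∣ vv m n) := cnt_exists x P _
    _ ≤ ∑ p ∈ P, 2 * m * x / w * ((1 : ℝ) / p) := by
        refine sum_le_sum (fun p hp => ?_)
        rw [hP, mem_filter, mem_range] at hp
        obtain ⟨hpx, hpp, hwp, hpw, hno⟩ := hp
        have hc : Nat.Coprime p w := (Nat.coprime_primes hpp hw).mpr (by omega)
        refine (o1_class' m x w p hm hw hpp.pos hc hpw).trans (le_of_eq ?_)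
        have : (0 : ℝ) < p := by exact_mod_cast hpp.pos
        field_simp
    _ = 2 * m * x / w * ∑ p ∈ P, (1 : ℝ) / p := by rw [mul_sum]
    _ ≤ 2 * m * x / w * (k * ((1 + Real.log x) / w)) := by
        refine mul_le_mul_of_nonneg_left hsum ?_
        positivity
    _ ≤ 2 * m * x * (1 + Real.log x) / ((w : ℝ) * l) := by
        have hkl : (k : ℝ) * l ≤ w := by
          have : k * l ≤ w := by
            rw [mul_comm, ← hk]
            exact Nat.sub_le _ _
          exact_mod_cast this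
        have h5 : (k : ℝ) / w ≤ 1 / l := by
          rw [div_le_div_iff₀ hwR hlR, one_mul]
          exact hkl
        calc 2 * (m : ℝ) * x / w * (k * ((1 + Real.log x) / w))
            = 2 * m * x * (1 + Real.log x) / w * (k / w) := by ring
          _ ≤ 2 * m * x * (1 + Real.log x) / w * (1 / l) :=
              mul_le_mul_of_nonneg_left h5 (by positivity)
          _ = 2 * m * x * (1 + Real.log x) / ((w : ℝ) * l) := by
              field_simp

end Pool.Agent.Lib.MP_79499b_co.EO
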