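import Pool.Agent.Lib.MP_79499b_co.EO.QR
import Pool.Agent.Lib.MP_79499b_co.EO.O1

/-!
# O2: primes `w` for which a small `r` has small order are rare

PROOF. `sum_small_order`: fixed `r ≥ 2`.  For each `w` in the sum let `t = orderOf (r : ZMod w)`, `1 ≤ t`, `t^4 ≤ w`, `t ≤ z`,
`w ∣ r^t - 1`, and `w^2 ≥ w0 t^4`, so `1 / w ≤ 1 / (√w0 t^2)`.  For fixed `t` the number of primes dividing `r^t - 1` is at most
`log (r^t) / log 2 ≤ 2 t log r`.  Sum over `1 ≤ t ≤ z`: `∑ 2 t log r / (√w0 t^2) ≤ 2 log r (1 + log z) / √w0`.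
`bp_count`: for a prime `w ≤ z` and `2 ≤ r < w`: the `n < x` with `r ∣ n`, `w ∣ vv m n` lie in at most `m - 1` classes modulo
`r w` (coprime), at most `m (x / (r w) + 1) ≤ 2 m x / (r w)` (`r w ≤ z^2 ≤ x`).  Sum over `w` for fixed `r` by `sum_small_order`, then
`∑_{r ≤ z} (1/r) log r ≤ log z (1 + log z)`, and `log z ≤ log x`.
-/

set_option autoImplicit false

namespace Pool.Agent.Lib.MP_79499b_co.EO

open Finset
open scoped Classical

/-- a positive integer `N` has at most `2 log N` prime factors -/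
lemma o2_omega (N : ℕ) (hN : N ≠ 0) (S : Finset ℕ) (hS : ∀ w ∈ S, w.Prime ∧ w ∣ N) :
    (S.card : ℝ) ≤ 2 * Real.log N := by
  have hsub : S ⊆ N.primeFactors := fun w hw => Nat.mem_primeFactors.mpr ⟨(hS w hw).1, (hS w hw).2, hN⟩
  have h1 : 2 ^ S.card ≤ N := by
    calc 2 ^ S.card ≤ 2 ^ N.primeFactors.card :=
          Nat.pow_le_pow_right (by norm_num) (card_le_card hsub)
      _ ≤ ∏ p ∈ N.primeFactors, p := by
          refine Finset.pow_card_le_prod _ _ _ (fun p hp => ?_)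
          exact (Nat.prime_of_mem_primeFactors hp).two_le
      _ ≤ N := Nat.le_of_dvd (Nat.pos_of_ne_zero hN) (Nat.prod_primeFactors_dvd N)
  have h2 : (S.card : ℝ) * Real.log 2 ≤ Real.log N := by
    rw [← Real.log_pow]
    refine Real.log_le_log (by positivity) ?_
    exact_mod_cast h1
  have h3 := Real.log_two_gt_d9
  have h4 : (0 : ℝ) ≤ S.card := Nat.cast_nonneg _
  nlinarith

theorem sum_small_order (w₀ z r : ℕ) (hw₀ : 1 ≤ w₀) (hr : 2 ≤ r) (hz : 1 ≤ z) :
    ∑ w ∈ (Icc 1 z).filter (fun w => w.Prime ∧ w₀ < w ∧ r < w ∧ (orderOf (r : ZMod w)) ^ 4 ≤ w),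
      (1 : ℝ) / w ≤ 2 * Real.log r * (1 + Real.log z) / Real.sqrt w₀ := by
  set S := (Icc 1 z).filter (fun w => w.Prime ∧ w₀ < w ∧ r < w ∧ (orderOf (r : ZMod w)) ^ 4 ≤ w)
    with hS
  have hw₀R : (0 : ℝ) < w₀ := by exact_mod_cast hw₀
  have hsq : 0 < Real.sqrt w₀ := Real.sqrt_pos.mpr hw₀R
  have hrR : (2 : ℝ) ≤ r := by exact_mod_cast hr
  have hlr : 0 ≤ Real.log r := Real.log_nonneg (by linarith)
  have hord : ∀ w ∈ S, 1 ≤ orderOf (r : ZMod w) ∧ orderOf (r : ZMod w) ≤ z ∧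
      w ∣ r ^ orderOf (r : ZMod w) - 1 := by
    intro w hw
    rw [hS, mem_filter, mem_Icc] at hw
    obtain ⟨⟨h1, hwz⟩, hwp, hww, hrw, hle⟩ := hw
    have : Fact w.Prime := ⟨hwp⟩
    have hne : (r : ZMod w) ≠ 0 := by
      intro h0
      have h2 := (ZMod.natCast_eq_zero_iff r w).mp h0
      have h3 := Nat.le_of_dvd (by omega) h2
      omega
    have hd : orderOf (r : ZMod w) ∣ w - 1 := ZMod.orderOf_dvd_card_sub_one hne
    have hpos : 0 < orderOf (r : ZMod w) :=
      Nat.pos_of_dvd_of_pos hd (by have := hwp.two_le; omega)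
    refine ⟨hpos, ?_, ?_⟩
    · calc orderOf (r : ZMod w) ≤ (orderOf (r : ZMod w)) ^ 4 := Nat.le_self_pow (by norm_num) _
        _ ≤ w := hle
        _ ≤ z := hwz
    · rw [← ZMod.natCast_eq_zero_iff, Nat.cast_sub (Nat.one_le_pow _ _ (by omega))]
      push_cast
      rw [pow_orderOf_eq_one, sub_self]
  calc ∑ w ∈ S, (1 : ℝ) / w
      ≤ ∑ w ∈ S, 1 / (Real.sqrt w₀ * ((orderOf (r : ZMod w) : ℕ) : ℝ) ^ 2) := by
        refine sum_le_sum (fun w hw => ?_)
        obtain ⟨o1, o2, o3⟩ := hord w hw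
        rw [hS, mem_filter, mem_Icc] at hw
        obtain ⟨⟨h1, hwz⟩, hwp, hww, hrw, hle⟩ := hw
        have ho : (0 : ℝ) < ((orderOf (r : ZMod w) : ℕ) : ℝ) := by exact_mod_cast o1
        refine one_div_le_one_div_of_le (by positivity) ?_
        refine (pow_le_pow_iff_left₀ (by positivity) (Nat.cast_nonneg _) two_ne_zero).mp ?_
        rw [mul_pow, Real.sq_sqrt hw₀R.le]
        have h5 : (((orderOf (r : ZMod w) : ℕ) : ℝ) ^ 2) ^ 2 ≤ w := by
          rw [← pow_mul]
          exact_mod_cast hle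
        have h6 : (w₀ : ℝ) ≤ w := by exact_mod_cast hww.le
        rw [sq (w : ℝ)]
        exact mul_le_mul h6 h5 (by positivity) (Nat.cast_nonneg _)
    _ = ∑ t ∈ Icc 1 z, ∑ w ∈ S.filter (fun w => orderOf (r : ZMod w) = t),
          1 / (Real.sqrt w₀ * ((orderOf (r : ZMod w) : ℕ) : ℝ) ^ 2) := by
        refine (sum_fiberwise_of_maps_to (fun w hw => ?_) _).symm
        rw [mem_Icc]
        exact ⟨(hord w hw).1, (hord w hw).2.1⟩
    _ ≤ ∑ t ∈ Icc 1 z, 2 * Real.log r / Real.sqrt w₀ * (t : ℝ)⁻¹ := by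
        refine sum_le_sum (fun t ht => ?_)
        rw [mem_Icc] at ht
        have htR : (0 : ℝ) < t := by exact_mod_cast ht.1
        have h1 : ∑ w ∈ S.filter (fun w => orderOf (r : ZMod w) = t),
            1 / (Real.sqrt w₀ * ((orderOf (r : ZMod w) : ℕ) : ℝ) ^ 2)
            = (S.filter (fun w => orderOf (r : ZMod w) = t)).card
              * (1 / (Real.sqrt w₀ * (t : ℝ) ^ 2)) := by
          rw [← nsmul_eq_mul, ← sum_const]
          refine sum_congr rfl (fun w hw => ?_)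
          rw [mem_filter] at hw
          rw [hw.2]
        rw [h1]
        have hN : r ^ t - 1 ≠ 0 := by
          have : 2 ^ 1 ≤ r ^ t := by
            calc 2 ^ 1 ≤ r ^ 1 := Nat.pow_le_pow_left hr 1
              _ ≤ r ^ t := Nat.pow_le_pow_right (by omega) ht.1
          omega
        have h2 : ((S.filter (fun w => orderOf (r : ZMod w) = t)).card : ℝ)
            ≤ 2 * Real.log ((r ^ t - 1 : ℕ)) := by
          refine o2_omega _ hN _ (fun w hw => ?_)
          rw [mem_filter] at hw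
          have h3 := (hord w hw.1).2.2
          rw [hw.2] at h3
          refine ⟨?_, h3⟩
          have h4 := hw.1
          rw [hS, mem_filter] at h4
          exact h4.2.1
        have h3 : Real.log ((r ^ t - 1 : ℕ)) ≤ t * Real.log r := by
          rw [← Real.log_pow]
          refine Real.log_le_log ?_ ?_
          · exact_mod_cast Nat.pos_of_ne_zero hN
          · have : r ^ t - 1 ≤ r ^ t := Nat.sub_le _ _
            exact_mod_cast this
        calc ((S.filter (fun w => orderOf (r : ZMod w) = t)).card : ℝ)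
              * (1 / (Real.sqrt w₀ * (t : ℝ) ^ 2))
            ≤ (2 * (t * Real.log r)) * (1 / (Real.sqrt w₀ * (t : ℝ) ^ 2)) :=
              mul_le_mul_of_nonneg_right (by linarith) (by positivity)
          _ = 2 * Real.log r / Real.sqrt w₀ * (t : ℝ)⁻¹ := by
              field_simp
    _ = 2 * Real.log r / Real.sqrt w₀ * ∑ t ∈ Icc 1 z, (t : ℝ)⁻¹ := by rw [mul_sum]
    _ ≤ 2 * Real.log r / Real.sqrt w₀ * (1 + Real.log z) :=
        mul_le_mul_of_nonneg_left (o1_harm z) (by positivity)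
    _ = 2 * Real.log r * (1 + Real.log z) / Real.sqrt w₀ := by ring

theorem bp_count (m x w₀ z : ℕ) (hm : 1 ≤ m) (hx : 3 ≤ x) (hw₀ : 1 ≤ w₀) (hz : 1 ≤ z)
    (hzx : z ^ 2 ≤ x) :
    cnt x (fun n => ∃ w : ℕ, w.Prime ∧ w₀ < w ∧ w ≤ z ∧ w ∣ vv m n ∧
      ∃ r : ℕ, 2 ≤ r ∧ r < w ∧ r ∣ n ∧ (orderOf (r : ZMod w)) ^ 4 ≤ w) ≤
      4 * m * x * (1 + Real.log x) ^ 3 / Real.sqrt w₀ := by
  have hw₀R : (0 : ℝ) < w₀ := by exact_mod_cast hw₀
  have hsq : 0 < Real.sqrt w₀ := Real.sqrt_pos.mpr hw₀R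
  have hzR : (1 : ℝ) ≤ z := by exact_mod_cast hz
  have hzxR : (z : ℝ) ≤ x := by
    have : z ≤ x := (Nat.le_self_pow (by norm_num) z).trans hzx
    exact_mod_cast this
  have hlz : 0 ≤ Real.log z := Real.log_nonneg hzR
  have hlzx : Real.log z ≤ Real.log x := Real.log_le_log (by linarith) hzxR
  set S : ℕ → Finset ℕ := fun r =>
    (Icc 1 z).filter (fun w => w.Prime ∧ w₀ < w ∧ r < w ∧ (orderOf (r : ZMod w)) ^ 4 ≤ w) with hS
  calc cnt x (fun n => ∃ w : ℕ, w.Prime ∧ w₀ < w ∧ w ≤ z ∧ w ∣ vv m n ∧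
      ∃ r : ℕ, 2 ≤ r ∧ r < w ∧ r ∣ n ∧ (orderOf (r : ZMod w)) ^ 4 ≤ w)
      ≤ cnt x (fun n => ∃ r ∈ Icc 2 z, ∃ w ∈ S r, r ∣ n ∧ w ∣ vv m n) := by
        refine cnt_mono (fun n hn h => ?_)
        obtain ⟨w, hwp, hww, hwz, hwv, r, hr2, hrw, hrn, hle⟩ := h
        refine ⟨r, mem_Icc.mpr ⟨hr2, by omega⟩, w, ?_, hrn, hwv⟩
        rw [hS]
        simp only
        rw [mem_filter, mem_Icc]
        exact ⟨⟨hwp.one_le, hwz⟩, hwp, hww, hrw, hle⟩
    _ ≤ ∑ r ∈ Icc 2 z, cnt x (fun n => ∃ w ∈ S r, r ∣ n ∧ w ∣ vv m n) := cnt_exists x _ _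
    _ ≤ ∑ r ∈ Icc 2 z, ∑ w ∈ S r, cnt x (fun n => r ∣ n ∧ w ∣ vv m n) :=
        sum_le_sum (fun r _ => cnt_exists x _ _)
    _ ≤ ∑ r ∈ Icc 2 z, 2 * m * x * (r : ℝ)⁻¹ * ∑ w ∈ S r, (1 : ℝ) / w := by
        refine sum_le_sum (fun r hr => ?_)
        rw [mul_sum]
        refine sum_le_sum (fun w hw => ?_)
        rw [mem_Icc] at hr
        rw [hS] at hw
        simp only at hw
        rw [mem_filter, mem_Icc] at hw
        obtain ⟨⟨h1, hwz⟩, hwp, hww, hrw, hle⟩ := hw
        have hc : Nat.Coprime r w :=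
          (Nat.coprime_of_lt_prime (by omega) hrw hwp).symm
        have hrwx : r * w ≤ x := by
          calc r * w ≤ z * z := Nat.mul_le_mul hr.2 hwz
            _ = z ^ 2 := by ring
            _ ≤ x := hzx
        refine (o1_class' m x w r hm hwp (by omega) hc hrwx).trans (le_of_eq ?_)
        have h2 : (0 : ℝ) < r := by exact_mod_cast (by omega : 0 < r)
        have h3 : (0 : ℝ) < w := by exact_mod_cast hwp.pos
        field_simp
    _ ≤ ∑ r ∈ Icc 2 z, 4 * m * x * (1 + Real.log x) * Real.log x / Real.sqrt w₀ * (r : ℝ)⁻¹ := by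
        refine sum_le_sum (fun r hr => ?_)
        rw [mem_Icc] at hr
        have h1 := sum_small_order w₀ z r hw₀ hr.1 hz
        have hrR : (0 : ℝ) < r := by exact_mod_cast (by omega : 0 < r)
        have hlr : Real.log r ≤ Real.log x := by
          refine Real.log_le_log hrR (le_trans ?_ hzxR)
          exact_mod_cast hr.2
        have hlr0 : 0 ≤ Real.log r := Real.log_nonneg (by exact_mod_cast (by omega : 1 ≤ r))
        have h2 : 2 * Real.log r * (1 + Real.log z) ≤ 2 * Real.log x * (1 + Real.log x) := by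
          have := mul_le_mul hlr (show 1 + Real.log z ≤ 1 + Real.log x by linarith)
            (by linarith) (hlr0.trans hlr)
          linarith
        have h3 : ∑ w ∈ S r, (1 : ℝ) / w ≤ 2 * Real.log x * (1 + Real.log x) / Real.sqrt w₀ :=
          h1.trans (div_le_div_of_nonneg_right h2 hsq.le)
        calc 2 * (m : ℝ) * x * (r : ℝ)⁻¹ * ∑ w ∈ S r, (1 : ℝ) / w
            ≤ 2 * (m : ℝ) * x * (r : ℝ)⁻¹ * (2 * Real.log x * (1 + Real.log x) / Real.sqrt w₀) :=
              mul_le_mul_of_nonneg_left h3 (by positivity)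
          _ = 4 * m * x * (1 + Real.log x) * Real.log x / Real.sqrt w₀ * (r : ℝ)⁻¹ := by ring
    _ = 4 * m * x * (1 + Real.log x) * Real.log x / Real.sqrt w₀ * ∑ r ∈ Icc 2 z, (r : ℝ)⁻¹ := by
        rw [mul_sum]
    _ ≤ 4 * m * x * (1 + Real.log x) * Real.log x / Real.sqrt w₀ * (1 + Real.log x) := by
        have hlx : 0 ≤ Real.log x := hlz.trans hlzx
        refine mul_le_mul_of_nonneg_left ?_ (by positivity)
        refine le_trans ?_ ((o1_harm z).trans (by linarith))
        refine sum_le_sum_of_subset_of_nonneg ?_ (fun _ _ _ => by positivity)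
        intro j hj
        rw [mem_Icc] at hj ⊢
        omega
    _ ≤ 4 * m * x * (1 + Real.log x) ^ 3 / Real.sqrt w₀ := by
        have hlx : 0 ≤ Real.log x := hlz.trans hlzx
        have h1 : (1 + Real.log x) * Real.log x * (1 + Real.log x) ≤ (1 + Real.log x) ^ 3 := by
          have : Real.log x ≤ 1 + Real.log x := by linarith
          calc (1 + Real.log x) * Real.log x * (1 + Real.log x)
              ≤ (1 + Real.log x) * (1 + Real.log x) * (1 + Real.log x) := by
                refine mul_le_mul_of_nonneg_right ?_ (by linarith)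
                exact mul_le_mul_of_nonneg_left this (by linarith)
            _ = (1 + Real.log x) ^ 3 := by ring
        calc 4 * (m : ℝ) * x * (1 + Real.log x) * Real.log x / Real.sqrt w₀ * (1 + Real.log x)
            = 4 * m * x / Real.sqrt w₀ * ((1 + Real.log x) * Real.log x * (1 + Real.log x)) := by
              ring
          _ ≤ 4 * m * x / Real.sqrt w₀ * (1 + Real.log x) ^ 3 :=
              mul_le_mul_of_nonneg_left h1 (by positivity)
          _ = 4 * m * x * (1 + Real.log x) ^ 3 / Real.sqrt w₀ := by ring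

end Pool.Agent.Lib.MP_79499b_co.EO
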