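import Pool.Agent.Lib.MP_79499b_co.EO.R2

/-!
# QA: small primes `u = 1 mod l` dividing `n^2 + s n + 1`

PROOF. For each prime `u ≤ x / w`, `u ≠ w`, `u = 1 mod l`: the `n < x` with `n % w = ν`, `u ∣ qp s n` lie in at most two
residue classes modulo `u w` (`two_roots` with `c = 0`, Chinese remainder), so `cnt_period` gives at most
`2 (x / (u w) + 1) ≤ 4 x / (u w)`.  Such a `u` is `1 + l j`, `1 ≤ j ≤ x`, so the sum over `u` is at most
`(4 x / w) ∑_{j ≤ x} 1 / (l j) ≤ 4 x (1 + log x) / (w l)`.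
-/

set_option autoImplicit false

namespace Pool.Agent.Lib.MP_79499b_co.EO

open Finset
open scoped Classical

theorem qa_harm (x : ℕ) : ∑ j ∈ Icc 1 x, (1 : ℝ) / j ≤ 1 + Real.log x := by
  have h1 := harmonic_le_one_add_log x
  have h2 : ((harmonic x : ℚ) : ℝ) = ∑ j ∈ Icc 1 x, (1 : ℝ) / j := by
    rw [harmonic_eq_sum_Icc]
    push_cast
    apply sum_congr rfl
    intro j _
    rw [one_div]
  rw [h2] at h1
  exact h1

/-- sum of the reciprocals of the numbers `u > 1`, `u = 1 mod l` -/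
theorem sum_inv_ap (x l : ℕ) (hx : 1 ≤ x) (hl : 2 ≤ l) :
    ∑ u ∈ (Icc 2 x).filter (fun u => u % l = 1), (1 : ℝ) / u ≤ (1 + Real.log x) / l := by
  have hl0 : (0 : ℝ) < l := by exact_mod_cast (by omega : 0 < l)
  have h1 : ∑ u ∈ (Icc 2 x).filter (fun u => u % l = 1), (1 : ℝ) / u
      ≤ ∑ u ∈ (Icc 2 x).filter (fun u => u % l = 1), (1 : ℝ) / (l * ((u / l : ℕ) : ℝ)) := by
    apply sum_le_sum
    intro u hu
    rw [mem_filter, mem_Icc] at hu
    have hj : 1 ≤ u / l := by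
      by_contra hc
      have h0 : u / l = 0 := Nat.lt_one_iff.mp (not_le.mp hc)
      have h2 := Nat.div_add_mod u l
      rw [h0, hu.2] at h2
      omega
    have hj0 : (0 : ℝ) < ((u / l : ℕ) : ℝ) := by exact_mod_cast hj
    apply one_div_le_one_div_of_le (mul_pos hl0 hj0)
    have h3 : l * (u / l) ≤ u := Nat.mul_div_le u l
    exact_mod_cast h3
  have h2 : ∑ u ∈ (Icc 2 x).filter (fun u => u % l = 1), (1 : ℝ) / (l * ((u / l : ℕ) : ℝ))
      = ∑ j ∈ ((Icc 2 x).filter (fun u => u % l = 1)).image (fun u => u / l),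
        (1 : ℝ) / (l * (j : ℝ)) := by
    rw [sum_image]
    intro a ha b hb hab
    rw [mem_coe, mem_filter] at ha hb
    have h3 := Nat.div_add_mod a l
    have h4 := Nat.div_add_mod b l
    simp only at hab
    rw [ha.2] at h3
    rw [hb.2, ← hab] at h4
    omega
  have h3 : ∑ j ∈ ((Icc 2 x).filter (fun u => u % l = 1)).image (fun u => u / l),
        (1 : ℝ) / (l * (j : ℝ)) ≤ ∑ j ∈ Icc 1 x, (1 : ℝ) / (l * (j : ℝ)) := by
    apply sum_le_sum_of_subset_of_nonneg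
    · intro j hj
      rw [mem_image] at hj
      obtain ⟨u, hu, rfl⟩ := hj
      rw [mem_filter, mem_Icc] at hu
      rw [mem_Icc]
      constructor
      · by_contra hc
        have h0 : u / l = 0 := Nat.lt_one_iff.mp (not_le.mp hc)
        have h2 := Nat.div_add_mod u l
        rw [h0, hu.2] at h2
        omega
      · exact (Nat.div_le_self u l).trans hu.1.2
    · intro j _ _
      positivity
  have h4 : ∑ j ∈ Icc 1 x, (1 : ℝ) / (l * (j : ℝ)) = (∑ j ∈ Icc 1 x, (1 : ℝ) / j) / l := by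
    rw [sum_div]
    apply sum_congr rfl
    intro j _
    rw [div_div, mul_comm]
  rw [h2] at h1
  refine (h1.trans h3).trans ?_
  rw [h4]
  exact div_le_div_of_nonneg_right (qa_harm x) hl0.le

theorem qa_qp_mod (s n M u : ℕ) (hu : u ∣ M) : u ∣ qp s (n % M) ↔ u ∣ qp s n := by
  have h1 : n % M ≡ n [MOD u] := (Nat.mod_modEq n M).of_dvd hu
  have h2 : qp s (n % M) ≡ qp s n [MOD u] := by
    unfold qp
    exact ((h1.pow 2).add (h1.mul_left s)).add_right 1
  exact ⟨fun h => (h2.dvd_iff dvd_rfl).mp h, fun h => (h2.dvd_iff dvd_rfl).mpr h⟩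

/-- counting in few residue classes -/
theorem qa_cnt (x M k : ℕ) (hM : 0 < M) (P : ℕ → Prop) (hP : ∀ n, P n → P (n % M)) (f : ℕ → ℕ)
    (T : Finset ℕ) (hT : T.card ≤ k) (hf : ∀ n < M, P n → f n ∈ T)
    (hinj : ∀ a < M, ∀ b < M, P a → P b → f a = f b → a = b) :
    cnt x P ≤ k * ((x : ℝ) / M + 1) := by
  refine (cnt_period hM x P hP).trans ?_
  apply mul_le_mul_of_nonneg_right _ (by positivity)
  refine Nat.cast_le.mpr (le_trans ?_ hT)
  apply card_le_card_of_injOn f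
  · intro n hn
    rw [mem_coe, mem_filter, mem_range] at hn
    exact hf n hn.1 hn.2
  · intro a ha b hb hab
    rw [mem_coe, mem_filter, mem_range] at ha hb
    exact hinj a ha.1 b hb.1 ha.2 hb.2 hab

/-- Chinese remainder theorem -/
theorem qa_crt (u w a b : ℕ) (huw : Nat.Coprime u w) (ha : a < u * w) (hb : b < u * w)
    (h1 : a % u = b % u) (h2 : a % w = b % w) : a = b :=
  Nat.ModEq.eq_of_lt_of_lt ((Nat.modEq_and_modEq_iff_modEq_mul huw).mp ⟨h1, h2⟩) ha hb

theorem small_u (x w l s ν : ℕ) (hx : 3 ≤ x) (hw : w.Prime) (hl : l.Prime) (hlw : l < w) :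
    cnt x (fun n => n % w = ν ∧ ∃ u : ℕ, u.Prime ∧ u ≠ w ∧ u % l = 1 ∧ u * w ≤ x ∧ u ∣ qp s n) ≤
      4 * x * (1 + Real.log x) / ((w : ℝ) * l) := by
  have hw0 : 0 < w := hw.pos
  have hwR : (0 : ℝ) < w := by exact_mod_cast hw0
  have hlR : (0 : ℝ) < l := by exact_mod_cast hl.pos
  have hxR : (0 : ℝ) ≤ x := Nat.cast_nonneg x
  set U : Finset ℕ := ((Icc 2 x).filter (fun u => u % l = 1)).filter
    (fun u => u.Prime ∧ u ≠ w ∧ u * w ≤ x) with hU
  have h1 : cnt x (fun n => n % w = ν ∧ ∃ u : ℕ, u.Prime ∧ u ≠ w ∧ u % l = 1 ∧ u * w ≤ x ∧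
      u ∣ qp s n) ≤ ∑ u ∈ U, cnt x (fun n => n % w = ν ∧ u ∣ qp s n) := by
    refine le_trans (cnt_mono ?_) (cnt_exists x U (fun u n => n % w = ν ∧ u ∣ qp s n))
    rintro n _ ⟨hn, u, hup, huw, hul, hux, hud⟩
    refine ⟨u, ?_, hn, hud⟩
    rw [hU, mem_filter, mem_filter, mem_Icc]
    refine ⟨⟨⟨hup.two_le, ?_⟩, hul⟩, hup, huw, hux⟩
    exact le_trans (Nat.le_mul_of_pos_right u hw0) hux
  have h2 : ∀ u ∈ U, cnt x (fun n => n % w = ν ∧ u ∣ qp s n) ≤ (4 * x / w) * (1 / u) := by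
    intro u hu
    rw [hU, mem_filter, mem_filter, mem_Icc] at hu
    obtain ⟨⟨⟨hu2, hux⟩, hul⟩, hup, huw, huwx⟩ := hu
    have huR : (0 : ℝ) < u := by exact_mod_cast hup.pos
    have hcop : Nat.Coprime u w := (Nat.coprime_primes hup hw).mpr huw
    have h3 : cnt x (fun n => n % w = ν ∧ u ∣ qp s n) ≤ (2 : ℕ) * ((x : ℝ) / ((u * w : ℕ) : ℝ) + 1) := by
      apply qa_cnt x (u * w) 2 (Nat.mul_pos hup.pos hw0) _ ?_ (fun n => n % u)
        ((range u).filter (fun n => qp s n % u = 0 % u)) (two_roots hup 0)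
      · rintro n _ ⟨_, hn2⟩
        rw [mem_filter, mem_range]
        refine ⟨Nat.mod_lt _ hup.pos, ?_⟩
        have h9 := (qa_qp_mod s n u u dvd_rfl).mpr hn2
        rw [Nat.zero_mod]
        exact Nat.mod_eq_zero_of_dvd h9
      · rintro a ha b hb ⟨ha1, _⟩ ⟨hb1, _⟩ hab
        exact qa_crt u w a b hcop ha hb hab (ha1.trans hb1.symm)
      · rintro n ⟨hn1, hn2⟩
        refine ⟨?_, ?_⟩
        · rw [Nat.mod_mul_left_mod]; exact hn1
        · exact (qa_qp_mod s n (u * w) u (Dvd.intro _ rfl)).mpr hn2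
    have h7 : (1 : ℝ) ≤ x / ((u * w : ℕ) : ℝ) := by
      rw [le_div_iff₀ (by exact_mod_cast Nat.mul_pos hup.pos hw0), one_mul]
      exact_mod_cast huwx
    calc cnt x (fun n => n % w = ν ∧ u ∣ qp s n) ≤ _ := h3
      _ ≤ 2 * (x / ((u * w : ℕ) : ℝ) + x / ((u * w : ℕ) : ℝ)) := by
          push_cast at h7 ⊢
          linarith
      _ = (4 * x / w) * (1 / u) := by
          push_cast
          field_simp
          ring
  have h3 : ∑ u ∈ U, cnt x (fun n => n % w = ν ∧ u ∣ qp s n) ≤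
      (4 * x / w) * ((1 + Real.log x) / l) := by
    refine (sum_le_sum h2).trans ?_
    rw [← mul_sum]
    apply mul_le_mul_of_nonneg_left _ (by positivity)
    refine le_trans ?_ (sum_inv_ap x l (by omega) hl.two_le)
    apply sum_le_sum_of_subset_of_nonneg (filter_subset _ _)
    intro u _ _
    positivity
  refine (h1.trans h3).trans (le_of_eq ?_)
  field_simp

end Pool.Agent.Lib.MP_79499b_co.EO
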