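import Pool.Agent.Lib.MP_79499b_co.EO.R2
import Pool.Agent.Lib.MP_79499b_co.EO.K7

/-!
# QB: factorizations `u d = n^2 + s n + 1` with `u = 1 mod l` and a small cofactor `d`

PROOF. `l ∤ d` and `qp s n = u d = d mod l`.
Case 1: `w ∤ qp s ν` (then `w ∤ d`).  For fixed `d` with `d (w l) ≤ x`, prime to `w l`, the `n` lie in at most
`ρ(d) * 1 * 2` classes modulo `d w l` (`rho_le`, `two_roots`; `d`, `w`, `l` pairwise coprime), so `cnt_period` gives at most
`2 τ(d) (x / (d w l) + 1) ≤ 4 τ(d) x / (d w l)`.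
Case 2: `w ∣ qp s ν`, so `w ∣ u d`, `w ∣ d` (`u ≠ w` primes); write `d = w d1`.  Forget `n % w = ν`: at most `2 ρ(d)` classes modulo
`d l` (`l ∤ d`), at most `2 τ(d) (x / (d l) + 1) ≤ 4 τ(d) x / (d l)`, `τ(d) ≤ 2 τ(d1)`: `8 τ(d1) x / (w l d1)`.
Sum over `d ≤ x` resp. `d1 ≤ x` with `sum_tau_div`.
-/

set_option autoImplicit false

namespace Pool.Agent.Lib.MP_79499b_co.EO

open Finset
open scoped Classical

theorem qb_qp_modEq (s n M u : ℕ) (hu : u ∣ M) : qp s (n % M) ≡ qp s n [MOD u] := by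
  have h1 : n % M ≡ n [MOD u] := (Nat.mod_modEq n M).of_dvd hu
  unfold qp
  exact ((h1.pow 2).add (h1.mul_left s)).add_right 1

/-- counting in few residue classes -/
theorem qb_cnt (x M k : ℕ) (hM : 0 < M) (P : ℕ → Prop) (hP : ∀ n, P n → P (n % M))
    (f : ℕ → ℕ × ℕ) (T : Finset (ℕ × ℕ)) (hT : T.card ≤ k) (hf : ∀ n < M, P n → f n ∈ T)
    (hinj : ∀ a < M, ∀ b < M, P a → P b → f a = f b → a = b) :
    cnt x P ≤ k * ((x : ℝ) / M + 1) := by
  refine (cnt_period hM x P hP).trans ?_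
  apply mul_le_mul_of_nonneg_right _ (by positivity)
  refine Nat.cast_le.mpr (le_trans ?_ hT)
  apply card_le_card_of_injOn f
  · intro n hn
    rw [mem_coe, mem_filter, mem_range] at hn
    exact hf n hn.1 hn.2
  · intro a ha b hb hab
    rw [mem_coe, mem_filter, mem_range] at ha hb
    exact hinj a ha.1 b hb.1 ha.2 hb.2 hab

theorem qb_tau (w d : ℕ) (hw : w.Prime) : (w * d).divisors.card ≤ 2 * d.divisors.card := by
  rw [Nat.divisors_mul]
  refine (card_mul_le).trans ?_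
  rw [Nat.Prime.divisors hw, card_pair hw.one_lt.ne]

theorem qb_roots {s l d : ℕ} (hs : s ≤ 1) (hl : l.Prime) (hd : 0 < d) :
    (((range d).filter (fun n => d ∣ qp s n)) ×ˢ
      ((range l).filter (fun n => qp s n % l = d % l))).card ≤ 2 * d.divisors.card := by
  rw [card_product]
  calc _ ≤ d.divisors.card * 2 := Nat.mul_le_mul (rho_le hs hd) (two_roots hl d)
    _ = _ := by ring

theorem qb_mem {s l d n : ℕ} (hl : l.Prime) (hd : 0 < d) (h1 : d ∣ qp s n)
    (h2 : qp s n % l = d % l) : (n % d, n % l) ∈ ((range d).filter (fun n => d ∣ qp s n)) ×ˢ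
      ((range l).filter (fun n => qp s n % l = d % l)) := by
  rw [mem_product, mem_filter, mem_filter, mem_range, mem_range]
  refine ⟨⟨Nat.mod_lt _ hd, ?_⟩, Nat.mod_lt _ hl.pos, ?_⟩
  · exact ((qb_qp_modEq s n d d dvd_rfl).dvd_iff dvd_rfl).mpr h1
  · have h3 : qp s (n % l) ≡ qp s n [MOD l] := qb_qp_modEq s n l l dvd_rfl
    exact Eq.trans h3 h2

theorem qb_case1 (x w l s ν d : ℕ) (hs : s ≤ 1) (hw : w.Prime) (hl : l.Prime)
    (hlw : l < w) (hd : 0 < d) (hdw : ¬ w ∣ d) (hdl : ¬ l ∣ d) (hdx : d * (w * l) ≤ x) :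
    cnt x (fun n => n % w = ν ∧ d ∣ qp s n ∧ qp s n % l = d % l) ≤
      (4 * x / (w * l)) * ((d.divisors.card : ℝ) / d) := by
  have hwR : (0 : ℝ) < w := by exact_mod_cast hw.pos
  have hlR : (0 : ℝ) < l := by exact_mod_cast hl.pos
  have hdR : (0 : ℝ) < d := by exact_mod_cast hd
  have hxR : (0 : ℝ) ≤ x := Nat.cast_nonneg x
  have c1 : Nat.Coprime d l := Nat.Coprime.symm ((Nat.Prime.coprime_iff_not_dvd hl).mpr hdl)
  have c2 : Nat.Coprime (d * l) w := by
    apply Nat.Coprime.mul_left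
    · exact Nat.Coprime.symm ((Nat.Prime.coprime_iff_not_dvd hw).mpr hdw)
    · exact (Nat.coprime_primes hl hw).mpr (by omega)
  have hM : 0 < d * l * w := Nat.mul_pos (Nat.mul_pos hd hl.pos) hw.pos
  have h1 : cnt x (fun n => n % w = ν ∧ d ∣ qp s n ∧ qp s n % l = d % l) ≤
      ((2 * d.divisors.card : ℕ) : ℝ) * ((x : ℝ) / ((d * l * w : ℕ) : ℝ) + 1) := by
    apply qb_cnt x (d * l * w) (2 * d.divisors.card) hM _ ?_ (fun n => (n % d, n % l)) _
      (qb_roots hs hl hd)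
    · rintro n _ ⟨_, h2, h3⟩
      exact qb_mem hl hd h2 h3
    · rintro a ha b hb ⟨ha1, _, _⟩ ⟨hb1, _, _⟩ hab
      simp only [Prod.mk.injEq] at hab
      have h4 : a ≡ b [MOD d * l] := (Nat.modEq_and_modEq_iff_modEq_mul c1).mp hab
      have h5 : a ≡ b [MOD w] := ha1.trans hb1.symm
      exact Nat.ModEq.eq_of_lt_of_lt ((Nat.modEq_and_modEq_iff_modEq_mul c2).mp ⟨h4, h5⟩) ha hb
    · rintro n ⟨h2, h3, h4⟩
      refine ⟨?_, ?_, ?_⟩
      · rw [Nat.mod_mul_left_mod]; exact h2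
      · exact ((qb_qp_modEq s n (d * l * w) d (Dvd.intro (l * w) (by ring))).dvd_iff dvd_rfl).mpr h3
      · exact Eq.trans (qb_qp_modEq s n (d * l * w) l (Dvd.intro (d * w) (by ring))) h4
  have h7 : (1 : ℝ) ≤ x / ((d * l * w : ℕ) : ℝ) := by
    rw [le_div_iff₀ (by exact_mod_cast hM), one_mul]
    have h8 : d * l * w ≤ x := by
      refine le_trans (le_of_eq (by ring)) hdx
    exact_mod_cast h8
  refine h1.trans ?_
  calc ((2 * d.divisors.card : ℕ) : ℝ) * ((x : ℝ) / ((d * l * w : ℕ) : ℝ) + 1)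
      ≤ ((2 * d.divisors.card : ℕ) : ℝ) * (2 * ((x : ℝ) / ((d * l * w : ℕ) : ℝ))) := by
        apply mul_le_mul_of_nonneg_left (by linarith) (by positivity)
    _ = (4 * x / (w * l)) * ((d.divisors.card : ℝ) / d) := by
        push_cast
        field_simp
        ring

theorem qb_case2 (x w l s d1 : ℕ) (hs : s ≤ 1) (hw : w.Prime) (hl : l.Prime)
    (hd : 0 < d1) (hdl : ¬ l ∣ w * d1) (hdx : (w * d1) * (w * l) ≤ x) :
    cnt x (fun n => w * d1 ∣ qp s n ∧ qp s n % l = (w * d1) % l) ≤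
      (8 * x / (w * l)) * ((d1.divisors.card : ℝ) / d1) := by
  have hwR : (0 : ℝ) < w := by exact_mod_cast hw.pos
  have hlR : (0 : ℝ) < l := by exact_mod_cast hl.pos
  have hdR : (0 : ℝ) < d1 := by exact_mod_cast hd
  have hxR : (0 : ℝ) ≤ x := Nat.cast_nonneg x
  have hd' : 0 < w * d1 := Nat.mul_pos hw.pos hd
  have c1 : Nat.Coprime (w * d1) l :=
    Nat.Coprime.symm ((Nat.Prime.coprime_iff_not_dvd hl).mpr hdl)
  have hM : 0 < (w * d1) * l := Nat.mul_pos hd' hl.pos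
  have h1 : cnt x (fun n => w * d1 ∣ qp s n ∧ qp s n % l = (w * d1) % l) ≤
      ((2 * (w * d1).divisors.card : ℕ) : ℝ) * ((x : ℝ) / (((w * d1) * l : ℕ) : ℝ) + 1) := by
    apply qb_cnt x ((w * d1) * l) (2 * (w * d1).divisors.card) hM _ ?_
      (fun n => (n % (w * d1), n % l)) _ (qb_roots hs hl hd')
    · rintro n _ ⟨h2, h3⟩
      exact qb_mem hl hd' h2 h3
    · rintro a ha b hb _ _ hab
      simp only [Prod.mk.injEq] at hab
      exact Nat.ModEq.eq_of_lt_of_lt ((Nat.modEq_and_modEq_iff_modEq_mul c1).mp hab) ha hb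
    · rintro n ⟨h3, h4⟩
      refine ⟨?_, ?_⟩
      · exact ((qb_qp_modEq s n ((w * d1) * l) (w * d1) (Dvd.intro l rfl)).dvd_iff dvd_rfl).mpr h3
      · exact Eq.trans (qb_qp_modEq s n ((w * d1) * l) l (Dvd.intro (w * d1) (by ring))) h4
  have h7 : (1 : ℝ) ≤ x / (((w * d1) * l : ℕ) : ℝ) := by
    rw [le_div_iff₀ (by exact_mod_cast hM), one_mul]
    have h8 : (w * d1) * l ≤ x := by
      refine le_trans ?_ hdx
      exact Nat.mul_le_mul_left _ (Nat.le_mul_of_pos_left l hw.pos)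
    exact_mod_cast h8
  have h9 : ((w * d1).divisors.card : ℝ) ≤ 2 * (d1.divisors.card : ℝ) := by
    exact_mod_cast qb_tau w d1 hw
  refine h1.trans ?_
  calc ((2 * (w * d1).divisors.card : ℕ) : ℝ) * ((x : ℝ) / (((w * d1) * l : ℕ) : ℝ) + 1)
      ≤ ((2 * (w * d1).divisors.card : ℕ) : ℝ) * (2 * ((x : ℝ) / (((w * d1) * l : ℕ) : ℝ))) := by
        apply mul_le_mul_of_nonneg_left (by linarith) (by positivity)
    _ = (4 * x / (w * l)) * (((w * d1).divisors.card : ℝ) / d1) := by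
        push_cast
        field_simp
        ring
    _ ≤ (4 * x / (w * l)) * ((2 * (d1.divisors.card : ℝ)) / d1) := by
        apply mul_le_mul_of_nonneg_left _ (by positivity)
        exact div_le_div_of_nonneg_right h9 hdR.le
    _ = (8 * x / (w * l)) * ((d1.divisors.card : ℝ) / d1) := by
        field_simp
        ring

theorem small_d (x w l s ν : ℕ) (hx : 3 ≤ x) (hs : s ≤ 1) (hw : w.Prime) (hl : l.Prime)
    (hlw : l < w) :
    cnt x (fun n => n % w = ν ∧ ¬ l ∣ qp s n ∧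
      ∃ u d : ℕ, u.Prime ∧ u ≠ w ∧ u % l = 1 ∧ u * d = qp s n ∧ d * (w * l) ≤ x) ≤
      8 * x * (1 + Real.log x) ^ 2 / ((w : ℝ) * l) := by
  have hwR : (0 : ℝ) < w := by exact_mod_cast hw.pos
  have hlR : (0 : ℝ) < l := by exact_mod_cast hl.pos
  have hxR : (0 : ℝ) ≤ x := Nat.cast_nonneg x
  have hdiv : ∀ n u d : ℕ, ¬ l ∣ qp s n → u % l = 1 → u * d = qp s n →
      0 < d ∧ ¬ l ∣ d ∧ d ∣ qp s n ∧ qp s n % l = d % l := by
    intro n u d h1 h2 h3
    refine ⟨?_, ?_, ?_, ?_⟩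
    · rcases Nat.eq_zero_or_pos d with h | h
      · exfalso
        rw [h, mul_zero] at h3
        unfold qp at h3
        omega
      · exact h
    · intro h4
      exact h1 (h3 ▸ Dvd.dvd.mul_left h4 u)
    · exact Dvd.intro_left u h3
    · have h5 : u ≡ 1 [MOD l] := by
        unfold Nat.ModEq
        rw [h2, Nat.mod_eq_of_lt hl.one_lt]
      have h6 := h5.mul_right d
      rw [one_mul, h3] at h6
      exact h6
  by_cases hc : w ∣ qp s ν
  · -- case 2
    have h1 : cnt x (fun n => n % w = ν ∧ ¬ l ∣ qp s n ∧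
        ∃ u d : ℕ, u.Prime ∧ u ≠ w ∧ u % l = 1 ∧ u * d = qp s n ∧ d * (w * l) ≤ x) ≤
        ∑ d1 ∈ (Icc 1 x).filter (fun d1 => ¬ l ∣ w * d1 ∧ (w * d1) * (w * l) ≤ x),
          cnt x (fun n => w * d1 ∣ qp s n ∧ qp s n % l = (w * d1) % l) := by
      refine le_trans (cnt_mono ?_) (cnt_exists x _
        (fun d1 n => w * d1 ∣ qp s n ∧ qp s n % l = (w * d1) % l))
      rintro n _ ⟨hn, hln, u, d, hup, huw, hul, hud, hdx⟩
      obtain ⟨hd0, hld, hdq, hmod⟩ := hdiv n u d hln hul hud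
      have h2 : w ∣ qp s n := by
        rw [← hn] at hc
        exact ((qb_qp_modEq s n w w dvd_rfl).dvd_iff dvd_rfl).mp hc
      have h3 : w ∣ d := by
        rw [← hud] at h2
        rcases (Nat.Prime.dvd_mul hw).mp h2 with h | h
        · exact absurd ((Nat.prime_dvd_prime_iff_eq hw hup).mp h).symm huw
        · exact h
      obtain ⟨d1, rfl⟩ := h3
      have hd1 : 0 < d1 := Nat.pos_of_mul_pos_left hd0
      refine ⟨d1, ?_, hdq, hmod⟩
      rw [mem_filter, mem_Icc]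
      refine ⟨⟨hd1, ?_⟩, hld, hdx⟩
      calc d1 ≤ w * d1 := Nat.le_mul_of_pos_left d1 hw.pos
        _ ≤ (w * d1) * (w * l) := Nat.le_mul_of_pos_right _ (Nat.mul_pos hw.pos hl.pos)
        _ ≤ x := hdx
    refine h1.trans ?_
    have h2 : ∑ d1 ∈ (Icc 1 x).filter (fun d1 => ¬ l ∣ w * d1 ∧ (w * d1) * (w * l) ≤ x),
          cnt x (fun n => w * d1 ∣ qp s n ∧ qp s n % l = (w * d1) % l) ≤
        ∑ d1 ∈ (Icc 1 x).filter (fun d1 => ¬ l ∣ w * d1 ∧ (w * d1) * (w * l) ≤ x),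
          (8 * x / (w * l)) * ((d1.divisors.card : ℝ) / d1) := by
      apply sum_le_sum
      intro d1 hd1
      rw [mem_filter, mem_Icc] at hd1
      exact qb_case2 x w l s d1 hs hw hl hd1.1.1 hd1.2.1 hd1.2.2
    refine h2.trans ?_
    rw [← mul_sum]
    have h3 : ∑ d1 ∈ (Icc 1 x).filter (fun d1 => ¬ l ∣ w * d1 ∧ (w * d1) * (w * l) ≤ x),
        ((d1.divisors.card : ℝ) / d1) ≤ (1 + Real.log x) ^ 2 := by
      refine le_trans ?_ (sum_tau_div x (by omega))
      apply sum_le_sum_of_subset_of_nonneg (filter_subset _ _)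
      intro u _ _
      positivity
    refine (mul_le_mul_of_nonneg_left h3 (by positivity)).trans (le_of_eq ?_)
    field_simp
  · -- case 1
    have h1 : cnt x (fun n => n % w = ν ∧ ¬ l ∣ qp s n ∧
        ∃ u d : ℕ, u.Prime ∧ u ≠ w ∧ u % l = 1 ∧ u * d = qp s n ∧ d * (w * l) ≤ x) ≤
        ∑ d ∈ (Icc 1 x).filter (fun d => ¬ w ∣ d ∧ ¬ l ∣ d ∧ d * (w * l) ≤ x),
          cnt x (fun n => n % w = ν ∧ d ∣ qp s n ∧ qp s n % l = d % l) := by
      refine le_trans (cnt_mono ?_) (cnt_exists x _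
        (fun d n => n % w = ν ∧ d ∣ qp s n ∧ qp s n % l = d % l))
      rintro n _ ⟨hn, hln, u, d, hup, huw, hul, hud, hdx⟩
      obtain ⟨hd0, hld, hdq, hmod⟩ := hdiv n u d hln hul hud
      refine ⟨d, ?_, hn, hdq, hmod⟩
      rw [mem_filter, mem_Icc]
      refine ⟨⟨hd0, ?_⟩, ?_, hld, hdx⟩
      · exact (Nat.le_mul_of_pos_right _ (Nat.mul_pos hw.pos hl.pos)).trans hdx
      · intro hwd
        apply hc
        rw [← hn]
        exact ((qb_qp_modEq s n w w dvd_rfl).dvd_iff dvd_rfl).mpr (hwd.trans hdq)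
    refine h1.trans ?_
    have h2 : ∑ d ∈ (Icc 1 x).filter (fun d => ¬ w ∣ d ∧ ¬ l ∣ d ∧ d * (w * l) ≤ x),
          cnt x (fun n => n % w = ν ∧ d ∣ qp s n ∧ qp s n % l = d % l) ≤
        ∑ d ∈ (Icc 1 x).filter (fun d => ¬ w ∣ d ∧ ¬ l ∣ d ∧ d * (w * l) ≤ x),
          (4 * x / (w * l)) * ((d.divisors.card : ℝ) / d) := by
      apply sum_le_sum
      intro d hd
      rw [mem_filter, mem_Icc] at hd
      exact qb_case1 x w l s ν d hs hw hl hlw hd.1.1 hd.2.1 hd.2.2.1 hd.2.2.2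
    refine h2.trans ?_
    rw [← mul_sum]
    have h3 : ∑ d ∈ (Icc 1 x).filter (fun d => ¬ w ∣ d ∧ ¬ l ∣ d ∧ d * (w * l) ≤ x),
        ((d.divisors.card : ℝ) / d) ≤ (1 + Real.log x) ^ 2 := by
      refine le_trans ?_ (sum_tau_div x (by omega))
      apply sum_le_sum_of_subset_of_nonneg (filter_subset _ _)
      intro u _ _
      positivity
    refine (mul_le_mul_of_nonneg_left h3 (by positivity)).trans ?_
    have h4 : (8 * x * (1 + Real.log x) ^ 2 / ((w : ℝ) * l)) =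
        2 * ((4 * x / (w * l)) * (1 + Real.log x) ^ 2) := by
      field_simp
      ring
    rw [h4]
    have h5 : 0 ≤ (4 * x / (w * l) : ℝ) * (1 + Real.log x) ^ 2 := by positivity
    linarith

end Pool.Agent.Lib.MP_79499b_co.EO
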