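import Pool.Agent.Lib.MP_79499b_co.EO.Defs

/-!
# R1: factorizations of `n^2 + s n + 1` are parametrised by integer matrices of determinant one

PROOF of `rep`. Strong induction on `n`.  If `c ≤ c'` and `n < c` then `c^2 ≤ c c' = n^2 + s n + 1 ≤
(c - 1)^2 + s (c - 1) + 1` forces `c = 1`, `n = 0`, `c' = 1`: take `(a, b, e, f) = (1, 0, 0, 1)`.
If `c ≤ c'` and `c ≤ n`: `c'' = c' + c - (2 n + s)` satisfies `c c'' = (n - c)^2 + s (n - c) + 1` (work in `ℤ`; so
`c'' > 0`); the induction hypothesis for `n - c` gives `(a, b, e', f')`, take `e = e' + a`, `f = f' + b`.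
If `c' < c`: symmetric, with `(a, b) = (a' + e, b' + f)` and `n - c'`.
PROOF of `rep_sorted`. Take `rep`; if `a < b` swap the coordinates: `(b, a, f, e)` (then `b e = a f + 1` in the new
names).  `a ≥ 1` because `b ≤ a` and `c ≥ 1`.  `2 a e ≤ 2 n + s ≤ 2 n + 1` gives `a e ≤ n`; `a^2 ≤ c ≤ 3 a^2`
from `b ≤ a`, `s ≤ 1`; `c^2 ≤ c c' ≤ (n + 1)^2`.
-/

set_option autoImplicit false

namespace Pool.Agent.Lib.MP_79499b_co.EO

theorem r1_pos {s n c c' : ℕ} (h : c * c' = qp s n) : 0 < c ∧ 0 < c' := by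
  unfold qp at h
  constructor
  · rcases Nat.eq_zero_or_pos c with h0 | h0
    · subst h0; simp at h
    · exact h0
  · rcases Nat.eq_zero_or_pos c' with h0 | h0
    · subst h0; simp at h
    · exact h0

theorem r1_step {s n c c' : ℕ} (h : c * c' = qp s n) (hc : c ≤ n) (hs : s ≤ 1) (hcc : c ≤ c') :
    ∃ c'' : ℕ, c'' + (2 * n + s) = c' + c ∧ c * c'' = qp s (n - c) := by
  obtain ⟨hp, hp'⟩ := r1_pos h
  obtain ⟨m, rfl⟩ := Nat.exists_eq_add_of_le hc
  unfold qp at h ⊢
  have hsub : c + m - c = m := by omega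
  rw [hsub]
  have hz : (c : ℤ) * c' = ((c : ℤ) + m) ^ 2 + s * ((c : ℤ) + m) + 1 := by exact_mod_cast h
  have key : (c : ℤ) * ((c' : ℤ) + c - (2 * ((c : ℤ) + m) + s)) = (m : ℤ) ^ 2 + s * m + 1 := by
    linear_combination hz
  have hpos : (0 : ℤ) < (c' : ℤ) + c - (2 * ((c : ℤ) + m) + s) := by
    have h1 : (0 : ℤ) < (c : ℤ) * ((c' : ℤ) + c - (2 * ((c : ℤ) + m) + s)) := by rw [key]; positivity
    exact (mul_pos_iff_of_pos_left (by exact_mod_cast hp)).1 h1
  refine ⟨((c' : ℤ) + c - (2 * ((c : ℤ) + m) + s)).toNat, ?_, ?_⟩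
  · omega
  · have h2 : ((((c' : ℤ) + c - (2 * ((c : ℤ) + m) + s)).toNat : ℕ) : ℤ) =
      (c' : ℤ) + c - (2 * ((c : ℤ) + m) + s) := Int.toNat_of_nonneg hpos.le
    have h3 : ((c * ((c' : ℤ) + c - (2 * ((c : ℤ) + m) + s)).toNat : ℕ) : ℤ) =
        ((m ^ 2 + s * m + 1 : ℕ) : ℤ) := by
      push_cast [h2]
      have := key
      push_cast at this ⊢
      linarith
    exact_mod_cast h3

theorem rep {s : ℕ} (hs : s ≤ 1) : ∀ n c c' : ℕ, c * c' = qp s n →
    ∃ a b e f : ℕ, a * f = b * e + 1 ∧ c = qf s a b ∧ c' = qf s e f ∧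
      2 * n + s = 2 * (a * e) + s * (a * f + b * e) + 2 * (b * f) := by
  intro n
  induction n using Nat.strong_induction_on with
  | _ n ih =>
    intro c c' h
    obtain ⟨hp, hp'⟩ := r1_pos h
    rcases le_or_gt c c' with hcc | hcc
    · rcases le_or_gt c n with hcn | hcn
      · obtain ⟨c'', h1, h2⟩ := r1_step h hcn hs hcc
        obtain ⟨a, b, e, f, g1, g2, g3, g4⟩ := ih (n - c) (by omega) c c'' h2
        refine ⟨a, b, e + a, f + b, ?_, g2, ?_, ?_⟩
        · linarith
        · have hn : (n - c) + c = n := by omega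
          have g2' := g2
          have g3' := g3
          unfold qf at g2' g3' ⊢
          nlinarith
        · have hn : (n - c) + c = n := by omega
          have g2' := g2
          unfold qf at g2'
          nlinarith
      · have h1 : c * c ≤ c * c' := Nat.mul_le_mul_left c hcc
        rw [h] at h1
        unfold qp at h1
        have hc1 : c = 1 := by
          rcases (by omega : s = 0 ∨ s = 1) with rfl | rfl
          · nlinarith
          · nlinarith
        have hn : n = 0 := by omega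
        subst hc1
        subst hn
        unfold qp at h
        refine ⟨1, 0, 0, 1, by norm_num, ?_, ?_, ?_⟩
        · unfold qf; ring
        · unfold qf; simp at h ⊢; omega
        · simp
    · rcases le_or_gt c' n with hcn | hcn
      · obtain ⟨c'', h1, h2⟩ := r1_step (by rw [mul_comm]; exact h) hcn hs hcc.le
        obtain ⟨a, b, e, f, g1, g2, g3, g4⟩ := ih (n - c') (by omega) c'' c' (by rw [mul_comm]; exact h2)
        refine ⟨a + e, b + f, e, f, ?_, ?_, g3, ?_⟩
        · nlinarith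
        · have hn : (n - c') + c' = n := by omega
          have g2' := g2
          have g3' := g3
          unfold qf at g2' g3' ⊢
          nlinarith
        · have hn : (n - c') + c' = n := by omega
          have g3' := g3
          unfold qf at g3'
          nlinarith
      · have h1 : c' * c' ≤ c * c' := Nat.mul_le_mul_right c' hcc.le
        rw [h] at h1
        unfold qp at h1
        have hc1 : c' = 1 := by
          rcases (by omega : s = 0 ∨ s = 1) with rfl | rfl
          · nlinarith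
          · nlinarith
        have hn : n = 0 := by omega
        subst hc1
        subst hn
        unfold qp at h
        refine ⟨1, 0, 0, 1, by norm_num, ?_, ?_, ?_⟩
        · unfold qf; simp at h ⊢; omega
        · unfold qf; ring
        · simp

theorem rep_sorted {s n c c' : ℕ} (hs : s ≤ 1) (h : c * c' = qp s n) (hcc : c ≤ c') :
    ∃ a b e f : ℕ, b ≤ a ∧ 1 ≤ a ∧ (a * f = b * e + 1 ∨ b * e = a * f + 1) ∧
      c = qf s a b ∧ c' = qf s e f ∧
      2 * n + s = 2 * (a * e) + s * (a * f + b * e) + 2 * (b * f) ∧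
      a * e ≤ n ∧ a ^ 2 ≤ c ∧ c ≤ 3 * a ^ 2 ∧ c ≤ n + 1 := by
  obtain ⟨hp, hp'⟩ := r1_pos h
  have hc2 : c ≤ n + 1 := by
    have h1 : c * c ≤ c * c' := Nat.mul_le_mul_left c hcc
    rw [h] at h1
    unfold qp at h1
    rcases (by omega : s = 0 ∨ s = 1) with rfl | rfl
    · nlinarith
    · nlinarith
  obtain ⟨a, b, e, f, g1, g2, g3, g4⟩ := rep hs n c c' h
  have aux : ∀ a b e f : ℕ, b ≤ a → c = qf s a b →
      2 * n + s = 2 * (a * e) + s * (a * f + b * e) + 2 * (b * f) →
      1 ≤ a ∧ a * e ≤ n ∧ a ^ 2 ≤ c ∧ c ≤ 3 * a ^ 2 := by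
    intro a b e f hba hc hn
    unfold qf at hc
    have hb2 : b ^ 2 ≤ a ^ 2 := Nat.pow_le_pow_left hba 2
    have hab : a * b ≤ a ^ 2 := by rw [sq]; exact Nat.mul_le_mul_left a hba
    refine ⟨?_, ?_, ?_, ?_⟩
    · rcases Nat.eq_zero_or_pos a with h0 | h0
      · subst h0
        have : b = 0 := by omega
        subst this
        simp at hc
        omega
      · exact h0
    · rcases (by omega : s = 0 ∨ s = 1) with rfl | rfl
      · omega
      · have : 2 * (a * e) ≤ 2 * n + 1 := by rw [hn]; nlinarith [Nat.zero_le (a * f + b * e), Nat.zero_le (b * f)]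
        omega
    · rcases (by omega : s = 0 ∨ s = 1) with rfl | rfl
      · nlinarith
      · nlinarith
    · rcases (by omega : s = 0 ∨ s = 1) with rfl | rfl
      · nlinarith
      · nlinarith
  rcases le_or_gt b a with hba | hba
  · obtain ⟨k1, k2, k3, k4⟩ := aux a b e f hba g2 g4
    exact ⟨a, b, e, f, hba, k1, Or.inl g1, g2, g3, g4, k2, k3, k4, hc2⟩
  · have g2' : c = qf s b a := by rw [g2]; unfold qf; ring
    have g3' : c' = qf s f e := by rw [g3]; unfold qf; ring
    have g4' : 2 * n + s = 2 * (b * f) + s * (b * e + a * f) + 2 * (a * e) := by rw [g4]; ring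
    obtain ⟨k1, k2, k3, k4⟩ := aux b a f e hba.le g2' g4'
    exact ⟨b, a, f, e, hba.le, k1, Or.inr g1, g2', g3', g4', k2, k3, k4, hc2⟩

end Pool.Agent.Lib.MP_79499b_co.EO
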