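import Pool.Agent.Lib.MP_79499b_co.EO.G2
import Pool.Agent.Lib.MP_79499b_co.EO.F1
import Pool.Agent.Lib.MP_79499b_co.EO.F2
import Pool.Agent.Lib.MP_79499b_co.EO.R1

/-!
# QG: factorizations `u d = n^2 + s n + 1` with `u = 1 mod l` and both factors large

PROOF. Let `c = min u d`, `c' = max u d`; `c > x / (w l)` (`u > x / w`, `d > x / (w l)`).  `rep_sorted` gives `a, b, e, f` with
`b ≤ a`, `a e ≤ n < x`, `a^2 ≤ c ≤ n + 1 ≤ x`, `3 a^2 ≥ c > x / (w l)`.  Let `A` be the least number with `x ≤ 3 (w l) A^2`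
(`Nat.find`); then `A ≤ a ≤ √x`.  `n` is determined by `(a, b, e, f)` and `f` by `(a, b, e)` and the sign, so the number of `n` is at most
twice the number of `(a, b, e)` counted in `∑_{A ≤ a ≤ √x} cntA x a Rw Rl` where the relations are (two cases, each
bounded by `gamma_count`):
modulo `l`: `relC s 1` if `u = c`, `relD s 1` if `u = c'`;
modulo `w`: `relN s ν` (from `2 n + s = ...` and `n % w = ν`).
-/

set_option autoImplicit false

namespace Pool.Agent.Lib.MP_79499b_co.EO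

open Finset
open scoped Classical

/-- the parametrised numbers satisfying a relation modulo `w` and a relation modulo `l` -/
def QG_par (x s A w l : ℕ) (Rw : ZMod w → ZMod w → ZMod w → ZMod w → Prop)
    (Rl : ZMod l → ZMod l → ZMod l → ZMod l → Prop) (n : ℕ) : Prop :=
  ∃ a b e f : ℕ, A ≤ a ∧ a ≤ Nat.sqrt x ∧ 1 ≤ a ∧ b ≤ a ∧ a * e ≤ x ∧
    (a * f = b * e + 1 ∨ b * e = a * f + 1) ∧
    2 * n + s = 2 * (a * e) + s * (a * f + b * e) + 2 * (b * f) ∧
    Rw a b e f ∧ Rl a b e f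

/-- the number determined by `(a, b, e)` and the sign -/
def QG_map (s : ℕ) (t : Bool × (Σ _ : ℕ, ℕ × ℕ)) : ℕ :=
  let a := t.2.1
  let b := t.2.2.1
  let e := t.2.2.2
  let f := if t.1 then (b * e + 1) / a else (b * e - 1) / a
  (2 * (a * e) + s * (a * f + b * e) + 2 * (b * f) - s) / 2

lemma QG_cnt (x s A w l : ℕ) (Rw : ZMod w → ZMod w → ZMod w → ZMod w → Prop)
    (Rl : ZMod l → ZMod l → ZMod l → ZMod l → Prop) :
    cnt x (QG_par x s A w l Rw Rl) ≤ 2 * ∑ a ∈ Icc A (Nat.sqrt x), cntA x a Rw Rl := by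
  set F : ℕ → Finset (ℕ × ℕ) := fun a =>
    (range (a + 1) ×ˢ range (x / a + 1)).filter (fun t : ℕ × ℕ =>
      ∃ f : ℕ, (a * f = t.1 * t.2 + 1 ∨ t.1 * t.2 = a * f + 1) ∧
        Rw a t.1 t.2 f ∧ Rl a t.1 t.2 f) with hF
  set T : Finset (Bool × (Σ _ : ℕ, ℕ × ℕ)) := univ ×ˢ ((Icc A (Nat.sqrt x)).sigma F) with hT
  have h1 : ((range x).filter (QG_par x s A w l Rw Rl)) ⊆ T.image (QG_map s) := by
    intro n hn
    rw [mem_filter, mem_range] at hn
    obtain ⟨a, b, e, f, hA, hax, ha1, hba, hae, hdet, hnn, hw, hl⟩ := hn.2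
    rw [mem_image]
    have hmem : ∀ σ : Bool, ((σ, ⟨a, (b, e)⟩) : Bool × (Σ _ : ℕ, ℕ × ℕ)) ∈ T := by
      intro σ
      rw [hT, mem_product, mem_sigma, mem_Icc, hF]
      refine ⟨mem_univ _, ⟨hA, hax⟩, ?_⟩
      simp only [mem_filter, mem_product, mem_range]
      refine ⟨⟨by omega, ?_⟩, f, hdet, hw, hl⟩
      have : e ≤ x / a := (Nat.le_div_iff_mul_le ha1).mpr (by rw [mul_comm]; exact hae)
      omega
    rcases hdet with hd | hd
    · refine ⟨(true, ⟨a, (b, e)⟩), hmem _, ?_⟩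
      have hf : (b * e + 1) / a = f := by
        rw [← hd]
        exact Nat.mul_div_cancel_left _ ha1
      simp only [QG_map, if_true, hf]
      omega
    · refine ⟨(false, ⟨a, (b, e)⟩), hmem _, ?_⟩
      have hf : (b * e - 1) / a = f := by
        rw [hd, Nat.add_sub_cancel]
        exact Nat.mul_div_cancel_left _ ha1
      simp only [QG_map, hf]
      simp only [Bool.false_eq_true, if_false]
      omega
  have h2 : ((range x).filter (QG_par x s A w l Rw Rl)).card ≤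
      2 * ∑ a ∈ Icc A (Nat.sqrt x), (F a).card := by
    refine (card_le_card h1).trans (card_image_le.trans ?_)
    rw [hT, card_product, card_sigma]
    simp
  unfold cnt cntA
  have h3 : ((((range x).filter (QG_par x s A w l Rw Rl)).card : ℕ) : ℝ) ≤
      ((2 * ∑ a ∈ Icc A (Nat.sqrt x), (F a).card : ℕ) : ℝ) := Nat.cast_le.mpr h2
  refine h3.trans (le_of_eq ?_)
  push_cast
  rfl

theorem mid_range : ∃ C : ℝ, 0 < C ∧ ∀ x w l s ν : ℕ, 3 ≤ x → s ≤ 1 → w.Prime → l.Prime → 5 ≤ l →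
    l < w → w ^ 200 ≤ x →
    cnt x (fun n => n % w = ν ∧ ∃ u d : ℕ, u.Prime ∧ u ≠ w ∧ u % l = 1 ∧ u * d = qp s n ∧
      x < d * (w * l) ∧ x < u * w) ≤ C * x * (1 + Real.log x) / ((w : ℝ) * l) := by
  obtain ⟨C, hC, hγ⟩ := gamma_count
  refine ⟨4 * C, by positivity, ?_⟩
  intro x w l s ν hx hs hw hl hl5 hlw hwx
  have : Fact w.Prime := ⟨hw⟩
  have : Fact l.Prime := ⟨hl⟩
  have hw3 : 3 ≤ w := by omega
  have hw1 : 1 ≤ w := hw.one_lt.le
  have hl1 : 1 ≤ l := hl.one_lt.le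
  have hex : ∃ A : ℕ, x ≤ 3 * (w * l) * A ^ 2 := by
    refine ⟨x, ?_⟩
    have h1 : 1 ≤ w * l := Nat.mul_pos hw1 hl1
    nlinarith [Nat.mul_le_mul h1 (show x ≤ x ^ 2 by nlinarith)]
  set A := Nat.find hex with hA
  have hAx : x ≤ 3 * (w * l) * A ^ 2 := Nat.find_spec hex
  have hAmin : ∀ a : ℕ, x ≤ 3 * (w * l) * a ^ 2 → A ≤ a := fun a h => Nat.find_min' hex h
  have hN : Few w (relN s (ν : ZMod w)) := few_relN hw3 s (ν : ZMod w)
  have hγ1 := hγ x w l A (relN s (ν : ZMod w)) (relC s (1 : ZMod l)) hx hlw hwx hN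
    (few_relC s 1) hAx
  have hγ2 := hγ x w l A (relN s (ν : ZMod w)) (relD s (1 : ZMod l)) hx hlw hwx hN
    (few_relD s 1) hAx
  have hc1 := QG_cnt x s A w l (relN s (ν : ZMod w)) (relC s (1 : ZMod l))
  have hc2 := QG_cnt x s A w l (relN s (ν : ZMod w)) (relD s (1 : ZMod l))
  have hsplit : cnt x (fun n => n % w = ν ∧ ∃ u d : ℕ, u.Prime ∧ u ≠ w ∧ u % l = 1 ∧
      u * d = qp s n ∧ x < d * (w * l) ∧ x < u * w) ≤
      cnt x (fun n => QG_par x s A w l (relN s (ν : ZMod w)) (relC s (1 : ZMod l)) n ∨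
        QG_par x s A w l (relN s (ν : ZMod w)) (relD s (1 : ZMod l)) n) := by
    refine cnt_mono ?_
    rintro n hnx ⟨hnw, u, d, hu, huw, hul, hud, hd1, hu1⟩
    have hnν : ((n : ℕ) : ZMod w) = (ν : ZMod w) := by
      rw [← hnw]; exact (ZMod.natCast_mod n w).symm
    have hul' : ((u : ℕ) : ZMod l) = 1 := by
      rw [← ZMod.natCast_mod u l, hul, Nat.cast_one]
    have hrel : ∀ a b e f : ℕ, 2 * n + s = 2 * (a * e) + s * (a * f + b * e) + 2 * (b * f) →
        relN s (ν : ZMod w) (a : ZMod w) b e f := by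
      intro a b e f h
      unfold relN
      rw [← hnν]
      have := congrArg (Nat.cast : ℕ → ZMod w) h
      push_cast at this
      exact this.symm
    rcases le_total u d with hle | hle
    · obtain ⟨a, b, e, f, hba, ha1, hdet, hc, hc', hn, hae, hac, hca, hcn⟩ :=
        rep_sorted hs hud hle
      left
      refine ⟨a, b, e, f, ?_, ?_, ha1, hba, by omega, hdet, hn, hrel a b e f hn, ?_⟩
      · apply hAmin
        have h1 : u * w ≤ 3 * a ^ 2 * w := Nat.mul_le_mul_right w hca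
        have h2 : 3 * a ^ 2 * w ≤ 3 * (w * l) * a ^ 2 := by
          calc 3 * a ^ 2 * w = 3 * a ^ 2 * w * 1 := by ring
            _ ≤ 3 * a ^ 2 * w * l := Nat.mul_le_mul_left _ hl1
            _ = 3 * (w * l) * a ^ 2 := by ring
        omega
      · rw [Nat.le_sqrt']
        omega
      · unfold relC
        rw [← hul', hc]
        unfold qf
        push_cast
        ring
    · obtain ⟨a, b, e, f, hba, ha1, hdet, hc, hc', hn, hae, hac, hca, hcn⟩ :=
        rep_sorted hs ((mul_comm d u).trans hud) hle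
      right
      refine ⟨a, b, e, f, ?_, ?_, ha1, hba, by omega, hdet, hn, hrel a b e f hn, ?_⟩
      · apply hAmin
        have h1 : d * (w * l) ≤ 3 * a ^ 2 * (w * l) := Nat.mul_le_mul_right _ hca
        have h2 : 3 * a ^ 2 * (w * l) = 3 * (w * l) * a ^ 2 := by ring
        omega
      · rw [Nat.le_sqrt']
        omega
      · unfold relD
        rw [← hul', hc']
        unfold qf
        push_cast
        ring
  calc _ ≤ _ := hsplit
    _ ≤ _ := cnt_or x _ _
    _ ≤ 2 * (C * x * (1 + Real.log x) / ((w : ℝ) * l)) +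
        2 * (C * x * (1 + Real.log x) / ((w : ℝ) * l)) := by
        refine add_le_add (hc1.trans ?_) (hc2.trans ?_)
        · exact mul_le_mul_of_nonneg_left hγ1 (by norm_num)
        · exact mul_le_mul_of_nonneg_left hγ2 (by norm_num)
    _ = 4 * C * x * (1 + Real.log x) / ((w : ℝ) * l) := by ring

end Pool.Agent.Lib.MP_79499b_co.EO
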