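import Pool.Agent.Lib.MP_79499b_co.EO.QA

/-!
# QL: primes `u = 1 mod l` dividing `n + 1`

PROOF. Case 1: `ν + 1 = w` (`w ∣ n + 1`): then `u w ∣ n + 1 ≤ x`, at most `x / (u w)` numbers `n < x` for each `u ≤ x`
(`sum_inv_ap`).  Case 2: `w ∤ n + 1`.  For `u w ≤ x`: one class modulo `u w`, at most `x / (u w) + 1 ≤ 2 x / (u w)`; sum over `u`.
For `u w > x`: `n + 1 = d u` with `1 ≤ d < w`; `n + 1 = d u` and `u = 1 mod l` give `n + 1 = d mod d l`; with `n % w = ν`
one class modulo `d l w` (`d l` and `w` coprime), at most `x / (d l w) + 1 ≤ 2 x / (d l w)` (`d l w ≤ w^3 ≤ x`);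
sum over `d < w` at most `2 x (1 + log x) / (w l)`.
-/

set_option autoImplicit false

namespace Pool.Agent.Lib.MP_79499b_co.EO

open Finset
open scoped Classical

/-- `n + 1` divisible by `M` -/
theorem ql_div (x M : ℕ) (hM : 0 < M) : cnt x (fun n => M ∣ n + 1) ≤ (x : ℝ) / M := by
  have h1 : ((range x).filter (fun n => M ∣ n + 1)).card ≤ x / M := by
    have h2 : ((range x).filter (fun n => M ∣ n + 1)).card ≤ (Icc 1 (x / M)).card := by
      apply card_le_card_of_injOn (fun n => (n + 1) / M)
      · intro n hn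
        rw [mem_coe, mem_filter, mem_range] at hn
        rw [mem_coe, mem_Icc]
        refine ⟨?_, ?_⟩
        · exact Nat.div_pos (Nat.le_of_dvd (Nat.succ_pos n) hn.2) hM
        · exact Nat.div_le_div_right hn.1
      · intro a ha b hb hab
        rw [mem_coe, mem_filter, mem_range] at ha hb
        have h3 := Nat.div_mul_cancel ha.2
        have h4 := Nat.div_mul_cancel hb.2
        simp only at hab
        rw [hab] at h3
        omega
    rw [Nat.card_Icc] at h2
    simpa using h2
  unfold cnt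
  refine le_trans ?_ (Nat.cast_div_le (α := ℝ) (m := x) (n := M))
  refine Nat.cast_le.mpr (le_trans (le_of_eq ?_) h1)
  congr

theorem lin_u (x w l ν : ℕ) (hx : 3 ≤ x) (hw : w.Prime) (hl : l.Prime) (hlw : l < w)
    (hwx : w ^ 3 ≤ x) :
    cnt x (fun n => n % w = ν ∧ ∃ u : ℕ, u.Prime ∧ u ≠ w ∧ u % l = 1 ∧ u ∣ n + 1) ≤
      4 * x * (1 + Real.log x) / ((w : ℝ) * l) := by
  have hw0 : 0 < w := hw.pos
  have hwR : (0 : ℝ) < w := by exact_mod_cast hw0
  have hlR : (0 : ℝ) < l := by exact_mod_cast hl.pos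
  have hxR : (0 : ℝ) ≤ x := Nat.cast_nonneg x
  have hlog : 0 ≤ Real.log x := Real.log_natCast_nonneg x
  set U : Finset ℕ := ((Icc 2 x).filter (fun u => u % l = 1)).filter
    (fun u => u.Prime ∧ u ≠ w) with hU
  have hsumU : ∑ u ∈ U, (1 : ℝ) / u ≤ (1 + Real.log x) / l := by
    refine le_trans ?_ (sum_inv_ap x l (by omega) hl.two_le)
    apply sum_le_sum_of_subset_of_nonneg (filter_subset _ _)
    intro u _ _
    positivity
  have hnU : ∀ n, n < x → ∀ u : ℕ, u.Prime → u ≠ w → u % l = 1 → u ∣ n + 1 → u ∈ U := by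
    intro n hn u hup huw hul hud
    rw [hU, mem_filter, mem_filter, mem_Icc]
    refine ⟨⟨⟨hup.two_le, ?_⟩, hul⟩, hup, huw⟩
    exact (Nat.le_of_dvd (Nat.succ_pos n) hud).trans hn
  by_cases hc : (ν + 1) % w = 0
  · -- `w` divides `n + 1`
    have h1 : cnt x (fun n => n % w = ν ∧ ∃ u : ℕ, u.Prime ∧ u ≠ w ∧ u % l = 1 ∧ u ∣ n + 1) ≤
        ∑ u ∈ U, cnt x (fun n => u * w ∣ n + 1) := by
      refine le_trans (cnt_mono ?_) (cnt_exists x U (fun u n => u * w ∣ n + 1))
      rintro n hnx ⟨hn, u, hup, huw, hul, hud⟩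
      refine ⟨u, hnU n hnx u hup huw hul hud, ?_⟩
      have h2 : w ∣ n + 1 := by
        apply Nat.dvd_of_mod_eq_zero
        rw [← hn] at hc
        rw [← hc, Nat.mod_add_mod]
      exact Nat.Coprime.mul_dvd_of_dvd_of_dvd ((Nat.coprime_primes hup hw).mpr huw) hud h2
    have h2 : ∀ u ∈ U, cnt x (fun n => u * w ∣ n + 1) ≤ (x / w) * (1 / u) := by
      intro u hu
      rw [hU, mem_filter] at hu
      have huR : (0 : ℝ) < u := by exact_mod_cast hu.2.1.pos
      refine (ql_div x (u * w) (Nat.mul_pos hu.2.1.pos hw0)).trans (le_of_eq ?_)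
      push_cast
      field_simp
    have h3 : ∑ u ∈ U, cnt x (fun n => u * w ∣ n + 1) ≤ (x / w) * ((1 + Real.log x) / l) := by
      refine (sum_le_sum h2).trans ?_
      rw [← mul_sum]
      exact mul_le_mul_of_nonneg_left hsumU (by positivity)
    refine (h1.trans h3).trans ?_
    have h4 : (x / w : ℝ) * ((1 + Real.log x) / l) = x * (1 + Real.log x) / (w * l) := by
      field_simp
    rw [h4]
    apply div_le_div_of_nonneg_right _ (by positivity)
    nlinarith [mul_nonneg hxR (by linarith : (0 : ℝ) ≤ 1 + Real.log x)]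
  · -- `w` does not divide `n + 1`
    have hA : cnt x (fun n => ∃ u ∈ U.filter (fun u => u * w ≤ x), (n % w = ν ∧ u ∣ n + 1)) ≤
        2 * x * (1 + Real.log x) / ((w : ℝ) * l) := by
      refine (cnt_exists x _ (fun u n => n % w = ν ∧ u ∣ n + 1)).trans ?_
      have h2 : ∀ u ∈ U.filter (fun u => u * w ≤ x), cnt x (fun n => n % w = ν ∧ u ∣ n + 1)
          ≤ (2 * x / w) * (1 / u) := by
        intro u hu
        rw [mem_filter, hU, mem_filter] at hu
        obtain ⟨⟨_, hup, huw⟩, huwx⟩ := hu
        have huR : (0 : ℝ) < u := by exact_mod_cast hup.pos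
        have hcop : Nat.Coprime u w := (Nat.coprime_primes hup hw).mpr huw
        have h3 : cnt x (fun n => n % w = ν ∧ u ∣ n + 1) ≤
            (1 : ℕ) * ((x : ℝ) / ((u * w : ℕ) : ℝ) + 1) := by
          apply qa_cnt x (u * w) 1 (Nat.mul_pos hup.pos hw0) _ ?_ (fun _ => 0) {0} (by simp)
          · intro n _ _
            simp
          · rintro a ha b hb ⟨ha1, ha2⟩ ⟨hb1, hb2⟩ _
            apply qa_crt u w a b hcop ha hb _ (ha1.trans hb1.symm)
            have h4 : a + 1 ≡ b + 1 [MOD u] := by
              unfold Nat.ModEq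
              rw [Nat.mod_eq_zero_of_dvd ha2, Nat.mod_eq_zero_of_dvd hb2]
            exact Nat.ModEq.add_right_cancel' 1 h4
          · rintro n ⟨hn1, hn2⟩
            refine ⟨by rw [Nat.mod_mul_left_mod]; exact hn1, ?_⟩
            have h4 : n % (u * w) ≡ n [MOD u] := (Nat.mod_modEq n _).of_dvd (Dvd.intro _ rfl)
            exact ((h4.add_right 1).dvd_iff dvd_rfl).mpr hn2
        have h7 : (1 : ℝ) ≤ x / ((u * w : ℕ) : ℝ) := by
          rw [le_div_iff₀ (by exact_mod_cast Nat.mul_pos hup.pos hw0), one_mul]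
          exact_mod_cast huwx
        refine h3.trans ?_
        calc ((1 : ℕ) : ℝ) * ((x : ℝ) / ((u * w : ℕ) : ℝ) + 1)
            ≤ 2 * ((x : ℝ) / ((u * w : ℕ) : ℝ)) := by
              push_cast at h7 ⊢
              linarith
          _ = (2 * x / w) * (1 / u) := by
              push_cast
              field_simp
      refine (sum_le_sum h2).trans ?_
      rw [← mul_sum]
      have h5 : ∑ u ∈ U.filter (fun u => u * w ≤ x), (1 : ℝ) / u ≤ (1 + Real.log x) / l := by
        refine le_trans ?_ hsumU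
        apply sum_le_sum_of_subset_of_nonneg (filter_subset _ _)
        intro u _ _
        positivity
      refine (mul_le_mul_of_nonneg_left h5 (by positivity)).trans (le_of_eq ?_)
      field_simp
    have hB : cnt x (fun n => ∃ d ∈ Icc 1 (w - 1), (n % w = ν ∧ (n + 1) % (d * l) = d % (d * l)))
        ≤ 2 * x * (1 + Real.log x) / ((w : ℝ) * l) := by
      refine (cnt_exists x _ (fun d n => n % w = ν ∧ (n + 1) % (d * l) = d % (d * l))).trans ?_
      have h2 : ∀ d ∈ Icc 1 (w - 1), cnt x (fun n => n % w = ν ∧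
          (n + 1) % (d * l) = d % (d * l)) ≤ (2 * x / (w * l)) * (1 / d) := by
        intro d hd
        rw [mem_Icc] at hd
        have hd0 : 0 < d := hd.1
        have hdR : (0 : ℝ) < d := by exact_mod_cast hd0
        have hdw : d < w := by omega
        have hcop : Nat.Coprime (d * l) w := by
          apply Nat.Coprime.mul_left
          · exact Nat.Coprime.symm ((Nat.Prime.coprime_iff_not_dvd hw).mpr
              (fun hdvd => absurd (Nat.le_of_dvd hd0 hdvd) (by omega)))
          · exact (Nat.coprime_primes hl hw).mpr (by omega)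
        have hdl : 0 < d * l := Nat.mul_pos hd0 hl.pos
        have h3 : cnt x (fun n => n % w = ν ∧ (n + 1) % (d * l) = d % (d * l)) ≤
            (1 : ℕ) * ((x : ℝ) / (((d * l) * w : ℕ) : ℝ) + 1) := by
          apply qa_cnt x ((d * l) * w) 1 (Nat.mul_pos hdl hw0) _ ?_ (fun _ => 0) {0} (by simp)
          · intro n _ _
            simp
          · rintro a ha b hb ⟨ha1, ha2⟩ ⟨hb1, hb2⟩ _
            apply qa_crt (d * l) w a b hcop ha hb _ (ha1.trans hb1.symm)
            have h4 : a + 1 ≡ b + 1 [MOD (d * l)] := ha2.trans hb2.symm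
            exact Nat.ModEq.add_right_cancel' 1 h4
          · rintro n ⟨hn1, hn2⟩
            refine ⟨by rw [Nat.mod_mul_left_mod]; exact hn1, ?_⟩
            have h4 : n % (d * l * w) ≡ n [MOD (d * l)] :=
              (Nat.mod_modEq n _).of_dvd (Dvd.intro _ rfl)
            exact (h4.add_right 1).trans hn2
        have h6 : d * l * w ≤ x := by
          refine le_trans ?_ hwx
          have : d * l * w ≤ w * w * w :=
            Nat.mul_le_mul_right _ (Nat.mul_le_mul hdw.le hlw.le)
          refine this.trans (le_of_eq (by ring))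
        have h7 : (1 : ℝ) ≤ x / (((d * l) * w : ℕ) : ℝ) := by
          rw [le_div_iff₀ (by exact_mod_cast Nat.mul_pos hdl hw0), one_mul]
          exact_mod_cast h6
        refine h3.trans ?_
        calc ((1 : ℕ) : ℝ) * ((x : ℝ) / (((d * l) * w : ℕ) : ℝ) + 1)
            ≤ 2 * ((x : ℝ) / (((d * l) * w : ℕ) : ℝ)) := by
              push_cast at h7 ⊢
              linarith
          _ = (2 * x / (w * l)) * (1 / d) := by
              push_cast
              field_simp
      refine (sum_le_sum h2).trans ?_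
      rw [← mul_sum]
      have h5 : ∑ d ∈ Icc 1 (w - 1), (1 : ℝ) / d ≤ 1 + Real.log x := by
        refine le_trans ?_ (qa_harm x)
        apply sum_le_sum_of_subset_of_nonneg
        · intro d hd
          rw [mem_Icc] at hd ⊢
          refine ⟨hd.1, ?_⟩
          have h6 : w ≤ w ^ 3 := Nat.le_self_pow (by norm_num) w
          omega
        · intro d _ _
          positivity
      refine (mul_le_mul_of_nonneg_left h5 (by positivity)).trans (le_of_eq ?_)
      field_simp
    have hAB : cnt x (fun n => n % w = ν ∧ ∃ u : ℕ, u.Prime ∧ u ≠ w ∧ u % l = 1 ∧ u ∣ n + 1) ≤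
        cnt x (fun n => ∃ u ∈ U.filter (fun u => u * w ≤ x), (n % w = ν ∧ u ∣ n + 1)) +
        cnt x (fun n => ∃ d ∈ Icc 1 (w - 1), (n % w = ν ∧ (n + 1) % (d * l) = d % (d * l))) := by
      refine le_trans (cnt_mono ?_) (cnt_or x _ _)
      rintro n hnx ⟨hn, u, hup, huw, hul, hud⟩
      have huU := hnU n hnx u hup huw hul hud
      by_cases hux : u * w ≤ x
      · left
        exact ⟨u, mem_filter.mpr ⟨huU, hux⟩, hn, hud⟩
      · right
        obtain ⟨d, hd⟩ := hud
        have hd0 : 0 < d := by
          rcases Nat.eq_zero_or_pos d with h | h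
          · rw [h] at hd; omega
          · exact h
        have hdw : d < w := by
          have h1 : u * d < u * w := by
            rw [← hd]; omega
          exact lt_of_mul_lt_mul_left h1 (Nat.zero_le u)
        refine ⟨d, mem_Icc.mpr ⟨hd0, by omega⟩, hn, ?_⟩
        have h1 : u ≡ 1 [MOD l] := by
          unfold Nat.ModEq
          rw [hul, Nat.mod_eq_of_lt hl.one_lt]
        have h2 : d * u ≡ d * 1 [MOD d * l] := Nat.ModEq.mul_left' d h1
        rw [hd, mul_comm u d]
        rw [mul_one] at h2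
        exact h2
    refine (hAB.trans (add_le_add hA hB)).trans (le_of_eq ?_)
    ring

end Pool.Agent.Lib.MP_79499b_co.EO
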