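import Pool.Agent.Lib.MP_79499b_co.EO.Defs

/-!
# QR: residues `n` modulo `w`, `w^2`, `l` with `vv m n = 0`

PROOF. `vv m n * (n - 1) = n^m - 1`.  `vv_factor4`, `vv_factor6`: polynomial identities.
`roots_prime`: in the field `ZMod w` the polynomial `1 + X + ... + X^(m-1)` is nonzero of degree `m - 1`.
`roots_sq`: `n` is then a unit mod `w^2` with `n^m = 1`, and `(ZMod (w^2))ˣ` is cyclic (`w` odd), so at most `m` such residues
(`IsCyclic.card_pow_eq_one_le`; `ZMod.isCyclic_units_iff` or the repository's version).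
-/

set_option autoImplicit false

namespace Pool.Agent.Lib.MP_79499b_co.EO

open Finset
open scoped Classical

theorem vv_mul (m n : ℕ) (hn : 1 ≤ n) : vv m n * (n - 1) = n ^ m - 1 := by
  unfold vv
  have h1 : 1 ≤ n ^ m := Nat.one_le_pow _ _ hn
  zify [hn, h1]
  exact geom_sum_mul (n : ℤ) m

theorem vv_factor4 (n : ℕ) : vv 4 n = (n + 1) * qp 0 n := by
  unfold vv qp
  simp only [sum_range_succ, sum_range_zero]
  ring

/-- `n^2 - n + 1 = qp 1 (n - 1)` -/
theorem vv_factor6 (n : ℕ) (hn : 1 ≤ n) : vv 6 n = (n + 1) * (qp 1 n * qp 1 (n - 1)) := by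
  obtain ⟨k, rfl⟩ : ∃ k, n = k + 1 := ⟨n - 1, by omega⟩
  unfold vv qp
  simp only [sum_range_succ, sum_range_zero, Nat.add_sub_cancel]
  ring

theorem roots_prime (m w : ℕ) (hm : 1 ≤ m) (hw : w.Prime) :
    ((range w).filter (fun n => w ∣ vv m n)).card ≤ m - 1 := by
  have : Fact w.Prime := ⟨hw⟩
  let P : Polynomial (ZMod w) := ∑ i ∈ range m, Polynomial.X ^ i
  have hP0 : P ≠ 0 := by
    intro h
    have h1 : P.coeff 0 = 1 := by
      obtain ⟨k, rfl⟩ : ∃ k, m = k + 1 := ⟨m - 1, by omega⟩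
      simp only [P, Polynomial.finsetSum_coeff, Polynomial.coeff_X_pow]
      simp
    rw [h] at h1
    simp at h1
  have hdeg : P.natDegree ≤ m - 1 := by
    refine Polynomial.natDegree_sum_le_of_forall_le _ _ ?_
    intro i hi
    rw [mem_range] at hi
    rw [Polynomial.natDegree_X_pow]
    omega
  have hmap : ((range w).filter (fun n => w ∣ vv m n)).card ≤ P.roots.toFinset.card := by
    refine card_le_card_of_injOn (fun n : ℕ => (n : ZMod w)) ?_ ?_
    · intro n hn
      rw [mem_coe, mem_filter] at hn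
      rw [mem_coe, Multiset.mem_toFinset, Polynomial.mem_roots hP0]
      have h2 : ((vv m n : ℕ) : ZMod w) = 0 := (ZMod.natCast_eq_zero_iff _ _).2 hn.2
      rw [Polynomial.IsRoot.def]
      simp only [P, Polynomial.eval_finsetSum, Polynomial.eval_pow, Polynomial.eval_X]
      unfold vv at h2
      push_cast at h2
      exact h2
    · intro a ha b hb hab
      rw [mem_coe, mem_filter, mem_range] at ha hb
      have h3 : ((a : ℕ) : ZMod w) = ((b : ℕ) : ZMod w) := hab
      rw [ZMod.natCast_eq_natCast_iff'] at h3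
      rwa [Nat.mod_eq_of_lt ha.1, Nat.mod_eq_of_lt hb.1] at h3
  calc ((range w).filter (fun n => w ∣ vv m n)).card ≤ P.roots.toFinset.card := hmap
    _ ≤ Multiset.card P.roots := Multiset.toFinset_card_le _
    _ ≤ P.natDegree := Polynomial.card_roots' P
    _ ≤ m - 1 := hdeg

theorem roots_sq (m w : ℕ) (hm : 1 ≤ m) (hw : w.Prime) (hw3 : 3 ≤ w) :
    ((range (w ^ 2)).filter (fun n => w ^ 2 ∣ vv m n)).card ≤ m := by
  have : Fact w.Prime := ⟨hw⟩
  have : NeZero (w ^ 2) := ⟨by have := hw.pos; positivity⟩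
  have hcyc : IsCyclic (ZMod (w ^ 2))ˣ :=
    ZMod.isCyclic_units_of_prime_pow w hw (by omega) 2
  have h1w : 1 < w ^ 2 := by nlinarith
  have hpow : ∀ n : ℕ, w ^ 2 ∣ vv m n → ((n : ℕ) : ZMod (w ^ 2)) ^ m = 1 := by
    intro n hn
    rcases Nat.eq_zero_or_pos n with h0 | hpos
    · exfalso
      subst h0
      have h4 : vv m 0 = 1 := by
        unfold vv
        obtain ⟨k, rfl⟩ : ∃ k, m = k + 1 := ⟨m - 1, by omega⟩
        rw [sum_range_succ']
        simp
      rw [h4, Nat.dvd_one] at hn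
      omega
    · have h5 := vv_mul m n hpos
      have h6 : w ^ 2 ∣ n ^ m - 1 := by
        rw [← h5]
        exact Dvd.dvd.mul_right hn _
      have h7 : 1 ≤ n ^ m := Nat.one_le_pow _ _ hpos
      have h8 : ((n ^ m - 1 : ℕ) : ZMod (w ^ 2)) = 0 := (ZMod.natCast_eq_zero_iff _ _).2 h6
      rw [Nat.cast_sub h7] at h8
      push_cast at h8
      exact sub_eq_zero.1 h8
  have hmap : ((range (w ^ 2)).filter (fun n => w ^ 2 ∣ vv m n)).card ≤
      (univ.filter (fun a : (ZMod (w ^ 2))ˣ => a ^ m = 1)).card := by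
    have hex : ∀ n : ℕ, w ^ 2 ∣ vv m n →
        ∃ u : (ZMod (w ^ 2))ˣ, (u : ZMod (w ^ 2)) = n ∧ u ^ m = 1 := by
      intro n hn
      have h9 := hpow n hn
      have hu : IsUnit ((n : ℕ) : ZMod (w ^ 2)) := IsUnit.of_pow_eq_one h9 (by omega)
      obtain ⟨u, hu⟩ := hu
      refine ⟨u, hu, ?_⟩
      ext
      rw [Units.val_pow_eq_pow_val, hu, h9, Units.val_one]
    choose! f hf using hex
    refine card_le_card_of_injOn f ?_ ?_
    · intro n hn
      rw [mem_coe, mem_filter] at hn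
      rw [mem_coe, mem_filter]
      exact ⟨mem_univ _, (hf n hn.2).2⟩
    · intro a ha b hb hab
      rw [mem_coe, mem_filter, mem_range] at ha hb
      have h3 : ((a : ℕ) : ZMod (w ^ 2)) = ((b : ℕ) : ZMod (w ^ 2)) := by
        rw [← (hf a ha.2).1, ← (hf b hb.2).1, hab]
      rw [ZMod.natCast_eq_natCast_iff'] at h3
      rwa [Nat.mod_eq_of_lt ha.1, Nat.mod_eq_of_lt hb.1] at h3
  refine hmap.trans ?_
  have h10 := IsCyclic.card_pow_eq_one_le (α := (ZMod (w ^ 2))ˣ) (n := m) (by omega)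
  convert h10 using 2

end Pool.Agent.Lib.MP_79499b_co.EO
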