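import Pool.Agent.Lib.MP_79499b_co.EO.QA
import Pool.Agent.Lib.MP_79499b_co.EO.QB
import Pool.Agent.Lib.MP_79499b_co.EO.QG
import Pool.Agent.Lib.MP_79499b_co.EO.QL
import Pool.Agent.Lib.MP_79499b_co.EO.QR

/-!
# QV: the failing events for a pair `(w, l)` are rare

PROOF. `quad_u`: a factorization `u d = qp s n` with `u` prime, `u ≠ w`, `u = 1 mod l` is counted in `small_u` (`u w ≤ x`),
`small_d` (`d (w l) ≤ x`) or `mid_range`.
`ev_count`: if `Ev m w l n` holds then one of: (1) `w^2 ∣ vv m n`: at most `m (x / w^2 + 1) ≤ 2 m x / w^2 ≤ 2 m x / (w l)`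
(`roots_sq`, `cnt_period`; `l < w`); (2) `w ∣ vv m n`, `l ∣ vv m n`: at most `(m-1)^2` classes modulo `w l`, at most
`(m - 1)^2 (x/(w l) + 1)`; (3) `w ∣ vv m n`, `l ∤ vv m n` and a prime `u ≠ w`, `u = 1 mod l`, `u ∣ vv m n`: by
`vv_factor4`, `vv_factor6` `u` divides `n + 1`, or `qp s n'` with `n' = n` or (`m = 6`) `n' = n - 1`; `n % w` is one of at most
`m - 1` residues `ν` (`roots_prime`), so `n' % w` is one of at most `m - 1` residues; apply `lin_u`, `quad_u` for each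
(for `n' = n - 1` the map `n ↦ n - 1` is injective on `n ≥ 1` and `n = 0` is impossible since `vv m 0 = 1`).
-/

set_option autoImplicit false

namespace Pool.Agent.Lib.MP_79499b_co.EO

open Finset
open scoped Classical

theorem qv_modeq (m : ℕ) {M a b : ℕ} (h : a ≡ b [MOD M]) : vv m a ≡ vv m b [MOD M] := by
  induction m with
  | zero => exact Nat.ModEq.refl _
  | succ m ih =>
    unfold vv at *
    rw [sum_range_succ, sum_range_succ]
    exact ih.add (h.pow m)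

theorem qv_dvd (m : ℕ) {M w n : ℕ} (hwM : w ∣ M) (h : w ∣ vv m n) : w ∣ vv m (n % M) := by
  have h1 : n % M ≡ n [MOD w] := (Nat.mod_modEq n M).of_dvd hwM
  exact (Nat.ModEq.dvd_iff (qv_modeq m h1) (dvd_refl w)).mpr h

theorem qv_inj (x : ℕ) (P Q : ℕ → Prop) (f : ℕ → ℕ) (h : ∀ n, n < x → Q n → f n < x ∧ P (f n))
    (hf : ∀ a b, Q a → Q b → f a = f b → a = b) : cnt x Q ≤ cnt x P := by
  unfold cnt
  refine Nat.cast_le.mpr (card_le_card_of_injOn f ?_ ?_)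
  · intro n hn
    rw [mem_coe, mem_filter, mem_range] at hn
    rw [mem_coe, mem_filter, mem_range]
    exact h n hn.1 hn.2
  · intro a ha b hb hab
    rw [mem_coe, mem_filter, mem_range] at ha hb
    exact hf a b ha.2 hb.2 hab

theorem qv_shift (x : ℕ) (P : ℕ → Prop) : cnt x (fun n => 1 ≤ n ∧ P (n - 1)) ≤ cnt x P := by
  refine qv_inj x P _ (fun n => n - 1) ?_ ?_
  · rintro n hn ⟨h1, h2⟩
    exact ⟨lt_of_le_of_lt (Nat.sub_le _ _) hn, h2⟩
  · rintro a b ⟨h1, -⟩ ⟨h2, -⟩ hab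
    have hab' : a - 1 = b - 1 := hab
    omega

theorem qv_period {M : ℕ} (hM : 0 < M) (x : ℕ) (P : ℕ → Prop) (hP : ∀ n, P n → P (n % M)) (K : ℕ)
    (hK : ((range M).filter P).card ≤ K) : cnt x P ≤ (K : ℝ) * (x / M + 1) := by
  refine (cnt_period hM x P hP).trans ?_
  refine mul_le_mul_of_nonneg_right (Nat.cast_le.mpr hK) (by positivity)

theorem quad_u : ∃ C : ℝ, 0 < C ∧ ∀ x w l s ν : ℕ, 3 ≤ x → s ≤ 1 → w.Prime → l.Prime → 5 ≤ l →
    l < w → w ^ 200 ≤ x →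
    cnt x (fun n => n % w = ν ∧ ¬ l ∣ qp s n ∧
      ∃ u : ℕ, u.Prime ∧ u ≠ w ∧ u % l = 1 ∧ u ∣ qp s n) ≤
      C * x * (1 + Real.log x) ^ 2 / ((w : ℝ) * l) := by
  obtain ⟨C, hC, hmid⟩ := mid_range
  refine ⟨12 + C, by linarith, ?_⟩
  intro x w l s ν hx hs hw hl hl5 hlw hwx
  have h1 := small_u x w l s ν hx hw hl hlw
  have h2 := small_d x w l s ν hx hs hw hl hlw
  have h3 := hmid x w l s ν hx hs hw hl hl5 hlw hwx
  have h4 : cnt x (fun n => n % w = ν ∧ ¬ l ∣ qp s n ∧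
      ∃ u : ℕ, u.Prime ∧ u ≠ w ∧ u % l = 1 ∧ u ∣ qp s n) ≤
      cnt x (fun n => (n % w = ν ∧ ∃ u : ℕ, u.Prime ∧ u ≠ w ∧ u % l = 1 ∧ u * w ≤ x ∧
        u ∣ qp s n) ∨ ((n % w = ν ∧ ¬ l ∣ qp s n ∧
      ∃ u d : ℕ, u.Prime ∧ u ≠ w ∧ u % l = 1 ∧ u * d = qp s n ∧ d * (w * l) ≤ x) ∨
      (n % w = ν ∧ ∃ u d : ℕ, u.Prime ∧ u ≠ w ∧ u % l = 1 ∧ u * d = qp s n ∧
      x < d * (w * l) ∧ x < u * w))) := by
    refine cnt_mono fun n _ h => ?_
    obtain ⟨hn, hln, u, hu, huw, hul, d, hd⟩ := h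
    by_cases c1 : u * w ≤ x
    · exact Or.inl ⟨hn, u, hu, huw, hul, c1, d, hd⟩
    · by_cases c2 : d * (w * l) ≤ x
      · exact Or.inr (Or.inl ⟨hn, hln, u, d, hu, huw, hul, hd.symm, c2⟩)
      · exact Or.inr (Or.inr ⟨hn, u, d, hu, huw, hul, hd.symm, not_le.mp c2, not_le.mp c1⟩)
  have h5 := cnt_or x (fun n => (n % w = ν ∧ ∃ u : ℕ, u.Prime ∧ u ≠ w ∧ u % l = 1 ∧ u * w ≤ x ∧
        u ∣ qp s n)) (fun n => ((n % w = ν ∧ ¬ l ∣ qp s n ∧
      ∃ u d : ℕ, u.Prime ∧ u ≠ w ∧ u % l = 1 ∧ u * d = qp s n ∧ d * (w * l) ≤ x) ∨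
      (n % w = ν ∧ ∃ u d : ℕ, u.Prime ∧ u ≠ w ∧ u % l = 1 ∧ u * d = qp s n ∧
      x < d * (w * l) ∧ x < u * w)))
  have h6 := cnt_or x (fun n => (n % w = ν ∧ ¬ l ∣ qp s n ∧
      ∃ u d : ℕ, u.Prime ∧ u ≠ w ∧ u % l = 1 ∧ u * d = qp s n ∧ d * (w * l) ≤ x))
      (fun n => (n % w = ν ∧ ∃ u d : ℕ, u.Prime ∧ u ≠ w ∧ u % l = 1 ∧ u * d = qp s n ∧
      x < d * (w * l) ∧ x < u * w))
  have hlog : 0 ≤ Real.log x := Real.log_natCast_nonneg x
  have hw0 : (0 : ℝ) < w := by exact_mod_cast hw.pos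
  have hl0 : (0 : ℝ) < l := by exact_mod_cast hl.pos
  have hx0 : (0 : ℝ) ≤ x := Nat.cast_nonneg x
  have h7 : (x : ℝ) * (1 + Real.log x) / ((w : ℝ) * l) ≤
      x * (1 + Real.log x) ^ 2 / ((w : ℝ) * l) := by
    refine div_le_div_of_nonneg_right ?_ (by positivity)
    refine mul_le_mul_of_nonneg_left ?_ hx0
    nlinarith
  have e1 : 4 * (x : ℝ) * (1 + Real.log x) / ((w : ℝ) * l) =
      4 * (x * (1 + Real.log x) / ((w : ℝ) * l)) := by ring
  have e2 : 8 * (x : ℝ) * (1 + Real.log x) ^ 2 / ((w : ℝ) * l) =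
      8 * (x * (1 + Real.log x) ^ 2 / ((w : ℝ) * l)) := by ring
  have e3 : C * (x : ℝ) * (1 + Real.log x) / ((w : ℝ) * l) =
      C * (x * (1 + Real.log x) / ((w : ℝ) * l)) := by ring
  have e4 : (12 + C) * (x : ℝ) * (1 + Real.log x) ^ 2 / ((w : ℝ) * l) =
      4 * (x * (1 + Real.log x) ^ 2 / ((w : ℝ) * l)) +
      8 * (x * (1 + Real.log x) ^ 2 / ((w : ℝ) * l)) +
      C * (x * (1 + Real.log x) ^ 2 / ((w : ℝ) * l)) := by ring
  have h8 := mul_le_mul_of_nonneg_left h7 hC.le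
  rw [e1] at h1
  rw [e2] at h2
  rw [e3] at h3
  rw [e4]
  linarith

theorem ev_count {m : ℕ} (hm : m = 4 ∨ m = 6) : ∃ C : ℝ, 0 < C ∧ ∀ x w l : ℕ, 3 ≤ x → w.Prime →
    l.Prime → 5 ≤ l → l ∣ w - 1 → w ^ 200 ≤ x →
    cnt x (fun n => Ev m w l n) ≤ C * x * (1 + Real.log x) ^ 2 / ((w : ℝ) * l) := by
  obtain ⟨C, hC, hq⟩ := quad_u
  refine ⟨12 + 50 + 5 * (4 + 2 * C), by linarith, ?_⟩
  intro x w l hx hw hl hl5 hlw1 hwx
  have hw2 := hw.two_le
  have hlw : l < w := by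
    have := Nat.le_of_dvd (by omega) hlw1
    omega
  have hm1 : 1 ≤ m := by omega
  have hm6 : m ≤ 6 := by omega
  have hlog : 0 ≤ Real.log x := Real.log_natCast_nonneg x
  have hw0 : (0 : ℝ) < w := by exact_mod_cast hw.pos
  have hl0 : (0 : ℝ) < l := by exact_mod_cast hl.pos
  have hx0 : (0 : ℝ) ≤ x := Nat.cast_nonneg x
  have hlw' : (l : ℝ) ≤ w := by exact_mod_cast hlw.le
  have hw1 : 1 ≤ w := hw.pos
  have hw2x : w ^ 2 ≤ x := (Nat.pow_le_pow_right hw1 (by norm_num)).trans hwx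
  have hw3x : w ^ 3 ≤ x := (Nat.pow_le_pow_right hw1 (by norm_num)).trans hwx
  have hw2x' : (w : ℝ) ^ 2 ≤ x := by exact_mod_cast hw2x
  obtain ⟨Y, hY⟩ : ∃ Y : ℝ, Y = x * (1 + Real.log x) ^ 2 / ((w : ℝ) * l) := ⟨_, rfl⟩
  have hYL : (x : ℝ) / ((w : ℝ) * l) ≤ Y := by
    rw [hY]
    refine div_le_div_of_nonneg_right ?_ (by positivity)
    nlinarith [mul_nonneg hx0 hlog, mul_nonneg hx0 (mul_nonneg hlog hlog)]
  have hY1 : (x : ℝ) * (1 + Real.log x) / ((w : ℝ) * l) ≤ Y := by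
    rw [hY]
    refine div_le_div_of_nonneg_right ?_ (by positivity)
    refine mul_le_mul_of_nonneg_left ?_ hx0
    nlinarith
  have hY0 : 0 ≤ Y := by rw [hY]; positivity
  -- (1)
  have b1 : cnt x (fun n => w ^ 2 ∣ vv m n) ≤ 12 * Y := by
    have hw3 : 3 ≤ w := by omega
    have h2 := roots_sq m w hm1 hw hw3
    have h1 := qv_period (M := w ^ 2) (by positivity) x (fun n => w ^ 2 ∣ vv m n)
      (fun n h => qv_dvd m (dvd_refl _) h) 6 (le_trans (le_of_eq (by congr)) (h2.trans hm6))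
    have h4 : (x : ℝ) / ((w ^ 2 : ℕ) : ℝ) + 1 ≤ 2 * Y := by
      push_cast
      have h5 : (1 : ℝ) ≤ x / (w : ℝ) ^ 2 := by
        rw [one_le_div (by positivity)]
        exact hw2x'
      have h6 : (x : ℝ) / (w : ℝ) ^ 2 ≤ x / ((w : ℝ) * l) := by
        refine div_le_div_of_nonneg_left hx0 (by positivity) ?_
        rw [sq]
        exact mul_le_mul_of_nonneg_left hlw' hw0.le
      linarith
    push_cast at h1 h4
    linarith
  -- roots
  have hr := roots_prime m w hm1 hw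
  have hrl := roots_prime m l hm1 hl
  -- (2)
  have b2 : cnt x (fun n => w ∣ vv m n ∧ l ∣ vv m n) ≤ 50 * Y := by
    have h2 : ((range (w * l)).filter (fun n => w ∣ vv m n ∧ l ∣ vv m n)).card ≤ 25 := by
      have h3 : ((range (w * l)).filter (fun n => w ∣ vv m n ∧ l ∣ vv m n)).card ≤
          (((range w).filter (fun n => w ∣ vv m n)) ×ˢ
            ((range l).filter (fun n => l ∣ vv m n))).card := by
        refine card_le_card_of_injOn (fun n => (n % w, n % l)) ?_ ?_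
        · intro n hn
          rw [mem_coe, mem_filter, mem_range] at hn
          rw [mem_coe, mem_product, mem_filter, mem_filter, mem_range, mem_range]
          exact ⟨⟨Nat.mod_lt _ hw.pos, qv_dvd m (dvd_refl _) hn.2.1⟩,
            ⟨Nat.mod_lt _ hl.pos, qv_dvd m (dvd_refl _) hn.2.2⟩⟩
        · intro a ha b hb hab
          rw [mem_coe, mem_filter, mem_range] at ha hb
          simp only [Prod.mk.injEq] at hab
          have hcop : Nat.Coprime w l := by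
            rw [Nat.coprime_primes hw hl]
            omega
          have h4 : a ≡ b [MOD w * l] :=
            (Nat.modEq_and_modEq_iff_modEq_mul hcop).mp ⟨hab.1, hab.2⟩
          exact Nat.ModEq.eq_of_lt_of_lt h4 ha.1 hb.1
      rw [card_product] at h3
      calc ((range (w * l)).filter (fun n => w ∣ vv m n ∧ l ∣ vv m n)).card ≤
          ((range w).filter (fun n => w ∣ vv m n)).card *
            ((range l).filter (fun n => l ∣ vv m n)).card := h3
        _ ≤ 5 * 5 := Nat.mul_le_mul (hr.trans (by omega)) (hrl.trans (by omega))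
        _ = 25 := rfl
    have h1 := qv_period (M := w * l) (Nat.mul_pos hw.pos hl.pos) x
      (fun n => w ∣ vv m n ∧ l ∣ vv m n)
      (fun n h => ⟨qv_dvd m (Dvd.intro _ rfl) h.1, qv_dvd m (Dvd.intro_left _ rfl) h.2⟩) 25
      (le_trans (le_of_eq (by congr)) h2)
    have h4 : (x : ℝ) / ((w * l : ℕ) : ℝ) + 1 ≤ 2 * Y := by
      push_cast
      have h5 : (1 : ℝ) ≤ x / ((w : ℝ) * l) := by
        rw [one_le_div (by positivity)]
        refine le_trans ?_ hw2x'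
        rw [sq]
        exact mul_le_mul_of_nonneg_left hlw' hw0.le
      linarith
    push_cast at h1 h4
    linarith
  -- (3)
  set R := (range w).filter (fun n => w ∣ vv m n) with hR
  have hRc : (R.card : ℝ) ≤ 5 := by
    have : R.card ≤ 5 := hr.trans (by omega)
    exact_mod_cast this
  obtain ⟨P1, hP1⟩ : ∃ P1 : ℕ → ℕ → Prop, P1 = fun ν n => n % w = ν ∧ ∃ u : ℕ, u.Prime ∧ u ≠ w ∧
    u % l = 1 ∧ u ∣ n + 1 := ⟨_, rfl⟩
  obtain ⟨P2, hP2⟩ : ∃ P2 : ℕ → ℕ → ℕ → Prop, P2 = fun s ν n => n % w = ν ∧ ¬ l ∣ qp s n ∧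
      ∃ u : ℕ, u.Prime ∧ u ≠ w ∧ u % l = 1 ∧ u ∣ qp s n := ⟨_, rfl⟩
  have c1 : ∀ ν, cnt x (P1 ν) ≤ 4 * Y := by
    intro ν
    rw [hP1]
    refine (lin_u x w l ν hx hw hl hlw hw3x).trans ?_
    calc 4 * (x : ℝ) * (1 + Real.log x) / ((w : ℝ) * l) =
      4 * (x * (1 + Real.log x) / ((w : ℝ) * l)) := by ring
      _ ≤ 4 * Y := mul_le_mul_of_nonneg_left hY1 (by norm_num)
  have c2 : ∀ s ν, s ≤ 1 → cnt x (P2 s ν) ≤ C * Y := by
    intro s ν hs
    rw [hP2]
    refine (hq x w l s ν hx hs hw hl hl5 hlw hwx).trans (le_of_eq ?_)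
    rw [hY]
    ring
  have b3 : cnt x (fun n => w ∣ vv m n ∧ ¬ l ∣ vv m n ∧
      ∃ u : ℕ, u.Prime ∧ u ≠ w ∧ u % l = 1 ∧ u ∣ vv m n) ≤ 5 * (4 + 2 * C) * Y := by
    have h1 : cnt x (fun n => w ∣ vv m n ∧ ¬ l ∣ vv m n ∧
        ∃ u : ℕ, u.Prime ∧ u ≠ w ∧ u % l = 1 ∧ u ∣ vv m n) ≤
        cnt x (fun n => ∃ ν ∈ R, (P1 ν n ∨ ((P2 (if m = 4 then 0 else 1) ν n) ∨
          (1 ≤ n ∧ P2 1 ((ν + w - 1) % w) (n - 1))))) := by
      refine cnt_mono fun n _ h => ?_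
      obtain ⟨hwn, hln, u, hu, huw, hul, hun⟩ := h
      refine ⟨n % w, ?_, ?_⟩
      · rw [hR, mem_filter, mem_range]
        exact ⟨Nat.mod_lt _ hw.pos, qv_dvd m (dvd_refl _) hwn⟩
      · rcases hm with rfl | rfl
        · rw [vv_factor4] at hun hln
          rcases (Nat.Prime.dvd_mul hu).mp hun with h | h
          · left
            rw [hP1]
            exact ⟨rfl, u, hu, huw, hul, h⟩
          · right
            left
            rw [if_pos rfl, hP2]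
            exact ⟨rfl, fun h' => hln (Dvd.dvd.mul_left h' _), u, hu, huw, hul, h⟩
        · have hn1 : 1 ≤ n := by
            rcases Nat.eq_zero_or_pos n with h0 | h0
            · exfalso
              subst h0
              have : vv 6 0 = 1 := by decide
              rw [this] at hwn
              exact hw.one_lt.ne' (Nat.dvd_one.mp hwn)
            · exact h0
          rw [vv_factor6 n hn1] at hun hln
          rcases (Nat.Prime.dvd_mul hu).mp hun with h | h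
          · left
            rw [hP1]
            exact ⟨rfl, u, hu, huw, hul, h⟩
          · right
            rcases (Nat.Prime.dvd_mul hu).mp h with h | h
            · left
              rw [if_neg (by norm_num), hP2]
              exact ⟨rfl, fun h' => hln (Dvd.dvd.mul_left (Dvd.dvd.mul_right h' _) _),
                u, hu, huw, hul, h⟩
            · right
              refine ⟨hn1, ?_⟩
              rw [hP2]
              refine ⟨?_, fun h' => hln (Dvd.dvd.mul_left (Dvd.dvd.mul_left h' _) _),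
                u, hu, huw, hul, h⟩
              have e1 : n % w + w - 1 = n % w + (w - 1) := by omega
              rw [e1]
              have e2 : n - 1 ≡ n % w + (w - 1) [MOD w] := by
                have e3 : n - 1 + w = n + (w - 1) := by omega
                have e4 : n - 1 + w ≡ n - 1 [MOD w] := by
                  have := Nat.add_modEq_right (n := w) (a := n - 1)
                  exact this
                rw [e3] at e4
                exact e4.symm.trans ((Nat.mod_modEq n w).symm.add_right _)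
              exact e2
    refine h1.trans ((cnt_exists x R _).trans ?_)
    have h2 : ∀ ν ∈ R, cnt x (fun n => (P1 ν n ∨ ((P2 (if m = 4 then 0 else 1) ν n) ∨
          (1 ≤ n ∧ P2 1 ((ν + w - 1) % w) (n - 1))))) ≤ (4 + 2 * C) * Y := by
      intro ν _
      have d1 := cnt_or x (P1 ν) (fun n => ((P2 (if m = 4 then 0 else 1) ν n) ∨
          (1 ≤ n ∧ P2 1 ((ν + w - 1) % w) (n - 1))))
      have d2 := cnt_or x (P2 (if m = 4 then 0 else 1) ν)
        (fun n => (1 ≤ n ∧ P2 1 ((ν + w - 1) % w) (n - 1)))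
      have d3 := qv_shift x (P2 1 ((ν + w - 1) % w))
      have d4 := c1 ν
      have d5 := c2 (if m = 4 then 0 else 1) ν (by split_ifs <;> norm_num)
      have d6 := c2 1 ((ν + w - 1) % w) le_rfl
      linarith
    calc ∑ ν ∈ R, cnt x (fun n => (P1 ν n ∨ ((P2 (if m = 4 then 0 else 1) ν n) ∨
          (1 ≤ n ∧ P2 1 ((ν + w - 1) % w) (n - 1)))))
        ≤ ∑ ν ∈ R, (4 + 2 * C) * Y := sum_le_sum h2
      _ = R.card * ((4 + 2 * C) * Y) := by rw [sum_const, nsmul_eq_mul]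
      _ ≤ 5 * ((4 + 2 * C) * Y) := mul_le_mul_of_nonneg_right hRc (by positivity)
      _ = 5 * (4 + 2 * C) * Y := by ring
  have h9 : cnt x (fun n => Ev m w l n) ≤ cnt x (fun n => w ^ 2 ∣ vv m n ∨
      ((w ∣ vv m n ∧ l ∣ vv m n) ∨ (w ∣ vv m n ∧ ¬ l ∣ vv m n ∧
      ∃ u : ℕ, u.Prime ∧ u ≠ w ∧ u % l = 1 ∧ u ∣ vv m n))) := by
    refine cnt_mono fun n _ h => ?_
    obtain ⟨h1, h2⟩ := h
    by_cases hln : l ∣ vv m n
    · exact Or.inr (Or.inl ⟨h1, hln⟩)
    · rcases h2 with h2 | h2 | h2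
      · exact Or.inl h2
      · exact absurd h2 hln
      · exact Or.inr (Or.inr ⟨h1, hln, h2⟩)
  have h10 := cnt_or x (fun n => w ^ 2 ∣ vv m n) (fun n =>
      ((w ∣ vv m n ∧ l ∣ vv m n) ∨ (w ∣ vv m n ∧ ¬ l ∣ vv m n ∧
      ∃ u : ℕ, u.Prime ∧ u ≠ w ∧ u % l = 1 ∧ u ∣ vv m n)))
  have h11 := cnt_or x (fun n => (w ∣ vv m n ∧ l ∣ vv m n)) (fun n =>
      (w ∣ vv m n ∧ ¬ l ∣ vv m n ∧
      ∃ u : ℕ, u.Prime ∧ u ≠ w ∧ u % l = 1 ∧ u ∣ vv m n))
  have h12 : (12 + 50 + 5 * (4 + 2 * C)) * (x : ℝ) * (1 + Real.log x) ^ 2 / ((w : ℝ) * l) =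
      12 * Y + 50 * Y + 5 * (4 + 2 * C) * Y := by
    rw [hY]
    ring
  rw [h12]
  linarith

end Pool.Agent.Lib.MP_79499b_co.EO
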