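import Pool.Agent.Lib.MP_79499b_co.EO.Defs

/-!
# R2: number of roots of `n^2 + s n + 1` modulo `d`

PROOF. `ρ(d) = #{n < d : d ∣ n^2 + s n + 1}`.  For coprime `d1, d2` reduction gives an injection, so
`ρ(d1 d2) ≤ ρ(d1) ρ(d2)`.  Prime powers: if `n1, n2` are roots mod `p^k` then `p^k ∣ (n1 - n2)(n1 + n2 + s)`.
If `p` divides both factors then `p ∣ 2 n1 + s`, so `p ∣ (2 n1 + s)^2 - 4 (n1^2 + s n1 + 1) = s^2 - 4`: `p = 2`, `s = 0` or `p = 3`, `s = 1`.
In these cases there is one root mod `p` and none mod `p^2` (`n^2 + 1` mod 4, `n^2 + n + 1` mod 9).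
Otherwise `p^k` divides one factor, so there are at most two roots.
`ρ(p^k) ≤ 2 ≤ k + 1 = τ(p^k)`; use `Nat.recOnPosPrimePosCoprime`.
-/

set_option autoImplicit false

namespace Pool.Agent.Lib.MP_79499b_co.EO

open Finset
open scoped Classical

theorem R2_quad {p : ℕ} [Fact p.Prime] (u v : ZMod p) :
    (univ.filter (fun b : ZMod p => b ^ 2 + u * b + v = 0)).card ≤ 2 := by
  by_cases h : ∃ b₀ : ZMod p, b₀ ^ 2 + u * b₀ + v = 0
  · obtain ⟨b₀, h₀⟩ := h
    refine (card_le_card (t := {b₀, -b₀ - u}) ?_).trans (card_le_two)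
    intro b hb
    rw [mem_filter] at hb
    have h1 : (b - b₀) * (b + b₀ + u) = 0 := by linear_combination hb.2 - h₀
    rw [mem_insert, mem_singleton]
    rcases mul_eq_zero.1 h1 with h2 | h2
    · exact Or.inl (sub_eq_zero.1 h2)
    · right
      linear_combination h2
  · rw [filter_eq_empty_iff.2 (fun b _ hb => h ⟨b, hb⟩)]
    simp

/-- a quadratic congruence modulo a prime has at most two solutions -/
theorem two_roots {s p : ℕ} (hp : p.Prime) (c : ℕ) :
    ((range p).filter (fun n => qp s n % p = c % p)).card ≤ 2 := by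
  have : Fact p.Prime := ⟨hp⟩
  refine le_trans ?_ (R2_quad (s : ZMod p) (1 - (c : ZMod p)))
  refine card_le_card_of_injOn (fun n : ℕ => (n : ZMod p)) ?_ ?_
  · intro n hn
    rw [mem_coe, mem_filter] at hn
    rw [mem_coe, mem_filter]
    refine ⟨mem_univ _, ?_⟩
    have h2 : ((qp s n : ℕ) : ZMod p) = (c : ZMod p) := by
      rw [ZMod.natCast_eq_natCast_iff']
      exact hn.2
    unfold qp at h2
    push_cast at h2
    linear_combination h2
  · intro a ha b hb hab
    rw [mem_coe, mem_filter, mem_range] at ha hb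
    have h3 : ((a : ℕ) : ZMod p) = ((b : ℕ) : ZMod p) := hab
    rw [ZMod.natCast_eq_natCast_iff'] at h3
    rwa [Nat.mod_eq_of_lt ha.1, Nat.mod_eq_of_lt hb.1] at h3

theorem R2_mod (s n d : ℕ) : qp s (n % d) ≡ qp s n [MOD d] := by
  unfold qp
  have h : n % d ≡ n [MOD d] := Nat.mod_modEq n d
  exact ((h.pow 2).add (h.mul_left s)).add_right 1

theorem R2_mul (s a b : ℕ) (ha : 1 < a) (hb : 1 < b) (hab : Nat.Coprime a b) :
    ((range (a * b)).filter (fun n => a * b ∣ qp s n)).card ≤
      ((range a).filter (fun n => a ∣ qp s n)).card *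
        ((range b).filter (fun n => b ∣ qp s n)).card := by
  rw [← card_product]
  refine card_le_card_of_injOn (fun n => (n % a, n % b)) ?_ ?_
  · intro n hn
    rw [mem_coe, mem_filter] at hn
    rw [mem_coe, mem_product, mem_filter, mem_filter, mem_range, mem_range]
    have h1 : a ∣ qp s n := (Dvd.intro _ rfl).trans hn.2
    have h2 : b ∣ qp s n := (Dvd.intro_left _ rfl).trans hn.2
    refine ⟨⟨Nat.mod_lt _ (by omega), ?_⟩, ⟨Nat.mod_lt _ (by omega), ?_⟩⟩
    · exact ((R2_mod s n a).dvd_iff dvd_rfl).2 h1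
    · exact ((R2_mod s n b).dvd_iff dvd_rfl).2 h2
  · intro n hn n' hn' h
    rw [mem_coe, mem_filter, mem_range] at hn hn'
    simp only [Prod.mk.injEq] at h
    have h1 : n ≡ n' [MOD a * b] :=
      (Nat.modEq_and_modEq_iff_modEq_mul hab).1 ⟨h.1, h.2⟩
    exact Nat.ModEq.eq_of_lt_of_lt h1 hn.1 hn'.1

theorem R2_pp (s p k : ℕ) (hs : s ≤ 1) (hp : p.Prime) (hk : 0 < k) :
    ((range (p ^ k)).filter (fun n => p ^ k ∣ qp s n)).card ≤ 2 := by
  rcases Nat.lt_or_ge 1 k with hk2 | hk1
  swap
  · have hk' : k = 1 := by omega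
    subst hk'
    rw [pow_one]
    refine le_trans (card_le_card ?_) (two_roots (s := s) hp 0)
    intro n hn
    rw [mem_filter] at hn ⊢
    refine ⟨hn.1, ?_⟩
    rw [Nat.zero_mod]
    exact Nat.mod_eq_zero_of_dvd hn.2
  · have : NeZero (p ^ k) := ⟨pow_ne_zero _ hp.ne_zero⟩
    rcases ((range (p ^ k)).filter (fun n => p ^ k ∣ qp s n)).eq_empty_or_nonempty with h | h
    · rw [h]
      simp
    · obtain ⟨n₀, hn₀⟩ := h
      rw [mem_filter] at hn₀
      refine le_trans ?_ (card_le_two (a := (n₀ : ZMod (p ^ k)))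
        (b := -(n₀ : ZMod (p ^ k)) - (s : ZMod (p ^ k))))
      refine card_le_card_of_injOn (fun n : ℕ => (n : ZMod (p ^ k))) ?_ ?_
      · intro n hn
        rw [mem_coe, mem_filter] at hn
        rw [mem_coe, mem_insert, mem_singleton]
        have e1 : ((p ^ k : ℕ) : ℤ) ∣ ((qp s n : ℕ) : ℤ) := Int.natCast_dvd_natCast.2 hn.2
        have e2 : ((p ^ k : ℕ) : ℤ) ∣ ((qp s n₀ : ℕ) : ℤ) := Int.natCast_dvd_natCast.2 hn₀.2
        have e3 : ((p ^ k : ℕ) : ℤ) ∣ ((n : ℤ) - n₀) * ((n : ℤ) + n₀ + s) := by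
          have e4 := dvd_sub e1 e2
          have e5 : ((qp s n : ℕ) : ℤ) - ((qp s n₀ : ℕ) : ℤ) =
              ((n : ℤ) - n₀) * ((n : ℤ) + n₀ + s) := by
            unfold qp
            push_cast
            ring
          rwa [e5] at e4
        have hpI : Prime (p : ℤ) := Nat.prime_iff_prime_int.1 hp
        have hnot : ¬ ((p : ℤ) ∣ ((n : ℤ) - n₀) ∧ (p : ℤ) ∣ ((n : ℤ) + n₀ + s)) := by
          rintro ⟨f1, f2⟩
          have f3 : (p : ℤ) ∣ 2 * n₀ + s := by
            have := dvd_sub f2 f1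
            have f4 : ((n : ℤ) + n₀ + s) - ((n : ℤ) - n₀) = 2 * n₀ + s := by ring
            rwa [f4] at this
          have hp2 : ((p : ℤ) ^ 2) ∣ ((qp s n₀ : ℕ) : ℤ) := by
            refine dvd_trans ?_ e2
            push_cast
            exact pow_dvd_pow _ (by omega)
          have hp1 : (p : ℤ) ∣ ((qp s n₀ : ℕ) : ℤ) := dvd_trans (dvd_pow_self _ two_ne_zero) hp2
          have f5 : (p : ℤ) ∣ (s : ℤ) ^ 2 - 4 := by
            have f6 : (s : ℤ) ^ 2 - 4 = (2 * n₀ + s) * (2 * n₀ + s) -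
                4 * ((qp s n₀ : ℕ) : ℤ) := by
              unfold qp
              push_cast
              ring
            rw [f6]
            exact dvd_sub (Dvd.dvd.mul_left f3 _) (Dvd.dvd.mul_left hp1 _)
          have hs' : s = 0 ∨ s = 1 := by omega
          rcases hs' with rfl | rfl
          · -- p divides 4
            have f7 : (p : ℤ) ∣ 2 := by
              have f8 : (p : ℤ) ∣ 2 * 2 := by
                have : (p : ℤ) ∣ -(((0 : ℕ) : ℤ) ^ 2 - 4) := (dvd_neg.2 f5)
                norm_num at this ⊢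
                exact this
              rcases hpI.dvd_or_dvd f8 with f9 | f9 <;> exact f9
            have f10 : p ∣ 2 := by exact_mod_cast f7
            have f11 : p = 2 := (Nat.prime_dvd_prime_iff_eq hp Nat.prime_two).1 f10
            subst f11
            have f12 : 4 ∣ qp 0 n₀ := by
              have : ((4 : ℕ) : ℤ) ∣ ((qp 0 n₀ : ℕ) : ℤ) := by
                norm_num at hp2 ⊢
                exact hp2
              exact_mod_cast this
            unfold qp at f12
            have f13 : (n₀ ^ 2 + 0 * n₀ + 1) % 4 = 0 := Nat.mod_eq_zero_of_dvd f12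
            have f14 : n₀ % 4 = 0 ∨ n₀ % 4 = 1 ∨ n₀ % 4 = 2 ∨ n₀ % 4 = 3 := by omega
            rcases f14 with h | h | h | h <;> simp [Nat.add_mod, Nat.pow_mod, h] at f13
          · have f7 : (p : ℤ) ∣ 3 := by
              have : (p : ℤ) ∣ -(((1 : ℕ) : ℤ) ^ 2 - 4) := (dvd_neg.2 f5)
              norm_num at this ⊢
              exact this
            have f10 : p ∣ 3 := by exact_mod_cast f7
            have f11 : p = 3 := (Nat.prime_dvd_prime_iff_eq hp Nat.prime_three).1 f10
            subst f11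
            have f12 : 9 ∣ qp 1 n₀ := by
              have : ((9 : ℕ) : ℤ) ∣ ((qp 1 n₀ : ℕ) : ℤ) := by
                norm_num at hp2 ⊢
                exact hp2
              exact_mod_cast this
            unfold qp at f12
            have f13 : (n₀ ^ 2 + 1 * n₀ + 1) % 9 = 0 := Nat.mod_eq_zero_of_dvd f12
            have f14 : n₀ % 9 = 0 ∨ n₀ % 9 = 1 ∨ n₀ % 9 = 2 ∨ n₀ % 9 = 3 ∨ n₀ % 9 = 4 ∨
              n₀ % 9 = 5 ∨ n₀ % 9 = 6 ∨ n₀ % 9 = 7 ∨ n₀ % 9 = 8 := by omega
            rcases f14 with h | h | h | h | h | h | h | h | h <;>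
              simp [Nat.add_mod, Nat.pow_mod, h] at f13
        push_cast at e3
        by_cases g : (p : ℤ) ∣ ((n : ℤ) - n₀)
        · have g' : ¬ (p : ℤ) ∣ ((n : ℤ) + n₀ + s) := fun h => hnot ⟨g, h⟩
          left
          have g2 : IsCoprime ((p : ℤ) ^ k) ((n : ℤ) + n₀ + s) :=
            IsCoprime.pow_left ((Prime.coprime_iff_not_dvd hpI).2 g')
          have g3 : ((p : ℤ) ^ k) ∣ ((n : ℤ) - n₀) := g2.dvd_of_dvd_mul_right e3
          have g4 : (((n : ℤ) - n₀ : ℤ) : ZMod (p ^ k)) = 0 := by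
            rw [ZMod.intCast_zmod_eq_zero_iff_dvd]
            push_cast
            exact g3
          push_cast at g4
          exact sub_eq_zero.1 g4
        · right
          have g2 : IsCoprime ((p : ℤ) ^ k) ((n : ℤ) - n₀) :=
            IsCoprime.pow_left ((Prime.coprime_iff_not_dvd hpI).2 g)
          have g3 : ((p : ℤ) ^ k) ∣ ((n : ℤ) + n₀ + s) := g2.dvd_of_dvd_mul_left e3
          have g4 : (((n : ℤ) + n₀ + s : ℤ) : ZMod (p ^ k)) = 0 := by
            rw [ZMod.intCast_zmod_eq_zero_iff_dvd]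
            push_cast
            exact g3
          push_cast at g4
          linear_combination g4
      · intro a ha b hb hab
        rw [mem_coe, mem_filter, mem_range] at ha hb
        have h3 : ((a : ℕ) : ZMod (p ^ k)) = ((b : ℕ) : ZMod (p ^ k)) := hab
        rw [ZMod.natCast_eq_natCast_iff'] at h3
        rwa [Nat.mod_eq_of_lt ha.1, Nat.mod_eq_of_lt hb.1] at h3

theorem rho_le {s : ℕ} (hs : s ≤ 1) {d : ℕ} (hd : 0 < d) :
    ((range d).filter (fun n => d ∣ qp s n)).card ≤ d.divisors.card := by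
  induction d using Nat.recOnPosPrimePosCoprime with
  | prime_pow p k hp hk =>
    refine (R2_pp s p k hs hp hk).trans ?_
    rw [Nat.divisors_prime_pow hp, card_map, card_range]
    omega
  | zero => omega
  | one =>
    refine (card_filter_le _ _).trans ?_
    simp
  | coprime a b ha hb hab iha ihb =>
    rw [Nat.Coprime.card_divisors_mul hab]
    exact (R2_mul s a b ha hb hab).trans
      (Nat.mul_le_mul (iha (by omega)) (ihb (by omega)))

end Pool.Agent.Lib.MP_79499b_co.EO
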