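import Pool.Agent.Lib.MP_79499b_co.EO.Defs
import Pool.Agent.Lib.MP_79499b_co.Q38MertensAP
import Pool.Agent.Lib.Sieve.Smooth

/-!
# S1: Rankin's bound for the tail of the sum of `1/j` over `y`-smooth `j`

PROOF. `1/j ≤ S^(-σ) j^(σ-1)` for `j ≥ S`.  `∑ j^(σ-1)` over smooth `j ≤ M` is at most `∏_{p ≤ y} (1 - p^(σ-1))^(-1)`
(`Sieve.sum_primeFactors_subset_le`, `T` = primes up to `y`, `f j = j^(σ-1)` for `j ≠ 0`).
For `σ ≤ 1/4`: `t = p^(σ-1) ≤ 2^(-3/4) < 0.6` and `(1 - t)^(-1) ≤ exp (3 t)`.  `p^σ ≤ y^σ`, so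
`∑ t ≤ y^σ ∑_{p ≤ y} 1/p ≤ y^σ (log (1 + log y) + C')` (`Q38.msum_one_le`; `msum 1 0 y` is this sum, for `y = 2` direct).
-/

set_option autoImplicit false

namespace Pool.Agent.Lib.MP_79499b_co.EO

open Finset
open scoped Classical

theorem s1_inv_le {t : ℝ} (h0 : 0 ≤ t) (h1 : t ≤ 0.6) : (1 - t)⁻¹ ≤ Real.exp (3 * t) := by
  have h2 : (1 - t)⁻¹ ≤ 1 + 3 * t := by
    rw [inv_le_iff_one_le_mul₀ (by linarith)]
    nlinarith
  refine h2.trans ?_
  have := Real.add_one_le_exp (3 * t)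
  linarith

theorem s1_two : (2 : ℝ) ^ (-(3 / 4) : ℝ) ≤ 0.6 := by
  have h1 : ((2 : ℝ) ^ (-(3 / 4) : ℝ)) ^ 4 ≤ (0.6 : ℝ) ^ 4 := by
    rw [← Real.rpow_natCast, ← Real.rpow_mul (by norm_num)]
    norm_num
  exact le_of_pow_le_pow_left₀ (by norm_num) (by norm_num) h1

theorem s1_msum : ∃ C : ℝ, 0 ≤ C ∧ ∀ y : ℕ, 2 ≤ y →
    ∑ p ∈ (Icc 1 y).filter Nat.Prime, ((p : ℝ))⁻¹ ≤ Real.log (1 + Real.log y) + C := by
  obtain ⟨C, hC0, hC⟩ := Q38.msum_one_le
  refine ⟨C, hC0, fun y hy => ?_⟩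
  have h1 := hC (y + 1) (by omega)
  have h2 : ∑ p ∈ (Icc 1 y).filter Nat.Prime, ((p : ℝ))⁻¹ ≤ Q38.msum 1 0 (y + 1) := by
    unfold Q38.msum
    refine sum_le_sum_of_subset_of_nonneg ?_ (fun _ _ _ => by positivity)
    intro p hp
    rw [mem_filter, mem_Icc] at hp
    rw [mem_filter, mem_range]
    exact ⟨by omega, hp.2, Nat.mod_one p⟩
  have hyr : (2 : ℝ) ≤ y := by exact_mod_cast hy
  have h3 : Real.log (Real.log ((y + 1 : ℕ) : ℝ)) ≤ Real.log (1 + Real.log y) := by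
    apply Real.log_le_log
    · apply Real.log_pos
      push_cast
      linarith
    · have h4 : Real.log ((y + 1 : ℕ) : ℝ) ≤ Real.log (2 * y) := by
        apply Real.log_le_log (by positivity)
        push_cast
        linarith
      rw [Real.log_mul (by norm_num) (by positivity)] at h4
      have := Real.log_two_lt_d9
      linarith
  linarith

theorem rankin_tail : ∃ C : ℝ, 0 < C ∧ ∀ (y M : ℕ) (S σ : ℝ), 2 ≤ y → 1 ≤ S → 0 < σ → σ ≤ 1 / 4 →
    ∑ j ∈ (Icc 1 M).filter (fun j : ℕ => (∀ p ∈ j.primeFactors, p ≤ y) ∧ S ≤ (j : ℝ)), (1 : ℝ) / j ≤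
      S ^ (-σ) * Real.exp (C * (y : ℝ) ^ σ * (1 + Real.log (1 + Real.log y))) := by
  obtain ⟨C, hC0, hC⟩ := s1_msum
  refine ⟨3 * (1 + C), by positivity, fun y M S σ hy hS hσ hσ4 => ?_⟩
  have hyr : (2 : ℝ) ≤ y := by exact_mod_cast hy
  set f : ℕ → ℝ := fun j => (j : ℝ) ^ (σ - 1) with hf
  set T : Finset ℕ := (Icc 1 y).filter Nat.Prime with hT
  have hTp : ∀ p ∈ T, p.Prime := fun p hp => (mem_filter.1 hp).2
  have hf0 : ∀ n, 0 ≤ f n := fun n => by positivity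
  have hf06 : ∀ p ∈ T, f p ≤ 0.6 := by
    intro p hp
    have hp2 : (2 : ℝ) ≤ p := by exact_mod_cast (hTp p hp).two_le
    calc f p = (p : ℝ) ^ (σ - 1) := rfl
      _ ≤ (2 : ℝ) ^ (σ - 1) := Real.rpow_le_rpow_of_nonpos (by norm_num) hp2 (by linarith)
      _ ≤ (2 : ℝ) ^ (-(3 / 4) : ℝ) := Real.rpow_le_rpow_of_exponent_le (by norm_num) (by linarith)
      _ ≤ 0.6 := s1_two
  have h1 := Sieve.sum_primeFactors_subset_le f hf0 (by simp [hf])
    (fun m n => by simp only [hf]; push_cast; exact Real.mul_rpow (by positivity) (by positivity))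
    M T hTp (fun p hp => (hf06 p hp).trans_lt (by norm_num))
  have h2 : ∏ p ∈ T, (1 - f p)⁻¹ ≤ Real.exp (3 * ∑ p ∈ T, f p) := by
    rw [mul_sum, Real.exp_sum]
    refine prod_le_prod (fun p hp => ?_) (fun p hp => s1_inv_le (hf0 p) (hf06 p hp))
    have := hf06 p hp
    exact inv_nonneg.2 (by linarith)
  have h3 : ∑ p ∈ T, f p ≤ (y : ℝ) ^ σ * (Real.log (1 + Real.log y) + C) := by
    calc ∑ p ∈ T, f p ≤ ∑ p ∈ T, (y : ℝ) ^ σ * ((p : ℝ))⁻¹ := by
          refine sum_le_sum fun p hp => ?_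
          have hp0 : (0 : ℝ) < p := by exact_mod_cast (hTp p hp).pos
          have hpy : (p : ℝ) ≤ y := by
            have := (mem_Icc.1 (mem_filter.1 hp).1).2
            exact_mod_cast this
          calc f p = (p : ℝ) ^ σ * (p : ℝ)⁻¹ := by
                simp only [hf]
                rw [sub_eq_add_neg, Real.rpow_add hp0, Real.rpow_neg_one]
            _ ≤ (y : ℝ) ^ σ * (p : ℝ)⁻¹ := by
                gcongr
      _ = (y : ℝ) ^ σ * ∑ p ∈ T, ((p : ℝ))⁻¹ := by rw [mul_sum]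
      _ ≤ _ := by
          gcongr
          exact hC y hy
  have hlog : 0 ≤ Real.log (1 + Real.log y) := by
    apply Real.log_nonneg
    have := Real.log_nonneg (by linarith : (1 : ℝ) ≤ y)
    linarith
  calc ∑ j ∈ (Icc 1 M).filter (fun j : ℕ => (∀ p ∈ j.primeFactors, p ≤ y) ∧ S ≤ (j : ℝ)), (1 : ℝ) / j
      ≤ ∑ j ∈ (Icc 1 M).filter (fun j : ℕ => (∀ p ∈ j.primeFactors, p ≤ y) ∧ S ≤ (j : ℝ)),
          S ^ (-σ) * f j := by
        refine sum_le_sum fun j hj => ?_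
        rw [mem_filter, mem_Icc] at hj
        have hj0 : (0 : ℝ) < j := by exact_mod_cast hj.1.1
        have hS0 : 0 < S := by linarith
        calc (1 : ℝ) / j = (j : ℝ) ^ (-σ) * (j : ℝ) ^ (σ - 1) := by
              rw [← Real.rpow_add hj0, show -σ + (σ - 1) = -1 by ring, Real.rpow_neg_one, one_div]
          _ ≤ S ^ (-σ) * (j : ℝ) ^ (σ - 1) := by
              gcongr ?_ * _
              exact Real.rpow_le_rpow_of_nonpos hS0 hj.2.2 (by linarith)
    _ ≤ ∑ j ∈ Icc 1 M with j.primeFactors ⊆ T, S ^ (-σ) * f j := by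
        refine sum_le_sum_of_subset_of_nonneg ?_ (fun j _ _ => mul_nonneg (by positivity) (hf0 j))
        intro j hj
        rw [mem_filter] at hj ⊢
        refine ⟨hj.1, fun p hp => ?_⟩
        have hpp := Nat.prime_of_mem_primeFactors hp
        exact mem_filter.2 ⟨mem_Icc.2 ⟨hpp.one_lt.le, hj.2.1 p hp⟩, hpp⟩
    _ = S ^ (-σ) * ∑ j ∈ Icc 1 M with j.primeFactors ⊆ T, f j := by rw [mul_sum]
    _ ≤ S ^ (-σ) * Real.exp (3 * (1 + C) * (y : ℝ) ^ σ * (1 + Real.log (1 + Real.log y))) := by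
        gcongr
        refine h1.trans (h2.trans ?_)
        apply Real.exp_le_exp.2
        have hyσ : 0 ≤ (y : ℝ) ^ σ := by positivity
        calc 3 * ∑ p ∈ T, f p ≤ 3 * ((y : ℝ) ^ σ * (Real.log (1 + Real.log y) + C)) := by
              gcongr
          _ ≤ 3 * ((y : ℝ) ^ σ * ((1 + C) * (1 + Real.log (1 + Real.log y)))) := by
              gcongr
              nlinarith [mul_nonneg hC0 hlog]
          _ = _ := by ring

end Pool.Agent.Lib.MP_79499b_co.EO
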