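import Pool.Agent.Lib.MP_79499b_co.EO.QV
import Pool.Agent.Lib.MP_79499b_co.EO.O1

/-!
# Z1: the sum of the failing events over all pairs `(w, l)`

PROOF. For a fixed prime `w ≤ z` the number of primes `l ∣ w - 1` is at most `log w / log 2 ≤ 2 log x`; each `l > Λ`; so with
`ev_count`, `ord_count` the number of `n < x` in the union (`cnt_exists` over `w ≤ z` and `l ∈ (w-1).primeFactors`, `l > Λ ≥ 7`) is at most
`∑_{w ≤ z} 2 log x * C x (1 + log x)^2 / (w Λ) ≤ C' x (1 + log x)^4 / Λ`.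
-/

set_option autoImplicit false

namespace Pool.Agent.Lib.MP_79499b_co.EO

open Finset
open scoped Classical

theorem z1_card (n : ℕ) (hn : 1 ≤ n) : (n.primeFactors.card : ℝ) ≤ 2 * Real.log n := by
  have h1 : 2 ^ n.primeFactors.card ≤ n := by
    calc 2 ^ n.primeFactors.card = ∏ _p ∈ n.primeFactors, 2 := by rw [prod_const]
      _ ≤ ∏ p ∈ n.primeFactors, p :=
          prod_le_prod' fun p hp => (Nat.prime_of_mem_primeFactors hp).two_le
      _ ≤ n := Nat.le_of_dvd hn (Nat.prod_primeFactors_dvd n)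
  have h2 : Real.log ((2 : ℝ) ^ n.primeFactors.card) ≤ Real.log n := by
    apply Real.log_le_log (by positivity)
    exact_mod_cast h1
  rw [Real.log_pow] at h2
  have h3 := Real.log_two_gt_d9
  have h4 : (0 : ℝ) ≤ n.primeFactors.card := Nat.cast_nonneg _
  nlinarith

theorem z1_harm (z x : ℕ) (hz : z ≤ x) :
    ∑ w ∈ (range (z + 1)).filter Nat.Prime, (1 : ℝ) / w ≤ 1 + Real.log x := by
  have h1 : ∑ w ∈ (range (z + 1)).filter Nat.Prime, (1 : ℝ) / w ≤ ∑ w ∈ Icc 1 x, (1 : ℝ) / w := by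
    refine sum_le_sum_of_subset_of_nonneg ?_ (fun _ _ _ => by positivity)
    intro w hw
    rw [mem_filter, mem_range] at hw
    rw [mem_Icc]
    exact ⟨hw.2.one_lt.le, by omega⟩
  have h2 := harmonic_le_one_add_log x
  rw [harmonic_eq_sum_Icc] at h2
  push_cast at h2
  refine h1.trans (le_trans (le_of_eq ?_) h2)
  exact sum_congr rfl fun w _ => one_div _

theorem events_count {m : ℕ} (hm : m = 4 ∨ m = 6) : ∃ C : ℝ, 0 < C ∧ ∀ x z Λ : ℕ, 3 ≤ x → 7 ≤ Λ →
    z ^ 200 ≤ x →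
    cnt x (fun n => ∃ w l : ℕ, w.Prime ∧ w ≤ z ∧ l.Prime ∧ l ∣ w - 1 ∧ Λ < l ∧ w ∣ vv m n ∧
      (Ev m w l n ∨ ∃ p : ℕ, p.Prime ∧ p ∣ n ∧ w < p ∧ p * w ≤ x ∧ ¬ l ∣ orderOf (p : ZMod w))) ≤
      C * x * (1 + Real.log x) ^ 4 / Λ := by
  obtain ⟨C1, hC1, hev⟩ := ev_count hm
  have hm6 : (m : ℝ) ≤ 6 := by
    rcases hm with rfl | rfl <;> norm_num
  have hm1 : 1 ≤ m := by rcases hm with rfl | rfl <;> norm_num
  refine ⟨2 * (C1 + 12), by positivity, fun x z Λ hx hΛ hz => ?_⟩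
  have hxr : (3 : ℝ) ≤ x := by exact_mod_cast hx
  have hL : 0 ≤ Real.log x := Real.log_nonneg (by linarith)
  have hzx : z ≤ x := by
    rcases Nat.eq_zero_or_pos z with h0 | h0
    · omega
    · calc z = z ^ 1 := (pow_one z).symm
        _ ≤ z ^ 200 := Nat.pow_le_pow_right h0 (by norm_num)
        _ ≤ x := hz
  have hΛr : (0 : ℝ) < Λ := by
    have : 0 < Λ := by omega
    exact_mod_cast this
  let S : Finset (Σ _ : ℕ, ℕ) := ((range (z + 1)).filter Nat.Prime).sigma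
    fun w => (w - 1).primeFactors.filter fun l => Λ < l
  let P : (Σ _ : ℕ, ℕ) → ℕ → Prop := fun q n => Ev m q.1 q.2 n ∨ (q.1 ∣ vv m n ∧
    ∃ p : ℕ, p.Prime ∧ p ∣ n ∧ q.1 < p ∧ p * q.1 ≤ x ∧ ¬ q.2 ∣ orderOf (p : ZMod q.1))
  have h1 : cnt x (fun n => ∃ w l : ℕ, w.Prime ∧ w ≤ z ∧ l.Prime ∧ l ∣ w - 1 ∧ Λ < l ∧
      w ∣ vv m n ∧ (Ev m w l n ∨ ∃ p : ℕ, p.Prime ∧ p ∣ n ∧ w < p ∧ p * w ≤ x ∧
      ¬ l ∣ orderOf (p : ZMod w))) ≤ cnt x (fun n => ∃ q ∈ S, P q n) := by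
    refine cnt_mono fun n _ => ?_
    rintro ⟨w, l, hw, hwz, hl, hlw, hΛl, hwv, h⟩
    refine ⟨⟨w, l⟩, ?_, ?_⟩
    · rw [mem_sigma, mem_filter, mem_range, mem_filter, Nat.mem_primeFactors]
      exact ⟨⟨Nat.lt_succ_of_le hwz, hw⟩, ⟨hl, hlw, Nat.sub_ne_zero_of_lt hw.one_lt⟩, hΛl⟩
    · rcases h with h | h
      · exact Or.inl h
      · exact Or.inr ⟨hwv, h⟩
  refine h1.trans ((cnt_exists x S P).trans ?_)
  rw [sum_sigma]
  have h2 : ∀ w ∈ (range (z + 1)).filter Nat.Prime,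
      ∑ l ∈ (w - 1).primeFactors.filter (fun l => Λ < l), cnt x (P ⟨w, l⟩) ≤
        2 * Real.log x * ((C1 + 12) * x * (1 + Real.log x) ^ 2 / Λ) * (1 / w) := by
    intro w hw
    rw [mem_filter, mem_range] at hw
    obtain ⟨hwz, hwp⟩ := hw
    have hw0 : (0 : ℝ) < w := by exact_mod_cast hwp.pos
    have hw200 : w ^ 200 ≤ x := (Nat.pow_le_pow_left (by omega) 200).trans hz
    have h3 : ∀ l ∈ (w - 1).primeFactors.filter (fun l => Λ < l), cnt x (P ⟨w, l⟩) ≤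
        (C1 + 12) * x * (1 + Real.log x) ^ 2 / Λ * (1 / w) := by
      intro l hl
      rw [mem_filter, Nat.mem_primeFactors] at hl
      obtain ⟨⟨hlp, hlw, -⟩, hΛl⟩ := hl
      have hlr : (Λ : ℝ) ≤ l := by exact_mod_cast hΛl.le
      have hl0 : (0 : ℝ) < l := hΛr.trans_le hlr
      have e1 := hev x w l hx hwp hlp (by omega) hlw hw200
      have e2 := ord_count m x w l hm1 hx hwp hlp hlw
      have e3 := cnt_or x (fun n => Ev m w l n) (fun n => w ∣ vv m n ∧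
        ∃ p : ℕ, p.Prime ∧ p ∣ n ∧ w < p ∧ p * w ≤ x ∧ ¬ l ∣ orderOf (p : ZMod w))
      have e4 : (2 * m * x * (1 + Real.log x) : ℝ) ≤ 12 * x * (1 + Real.log x) ^ 2 := by
        have : (2 * m * x * (1 + Real.log x) : ℝ) ≤ 2 * 6 * x * (1 + Real.log x) := by gcongr
        nlinarith [mul_nonneg (by positivity : (0 : ℝ) ≤ 12 * x * (1 + Real.log x)) hL]
      calc cnt x (P ⟨w, l⟩) ≤ C1 * x * (1 + Real.log x) ^ 2 / ((w : ℝ) * l) +
            2 * m * x * (1 + Real.log x) / ((w : ℝ) * l) := e3.trans (add_le_add e1 e2)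
        _ ≤ C1 * x * (1 + Real.log x) ^ 2 / ((w : ℝ) * l) +
            12 * x * (1 + Real.log x) ^ 2 / ((w : ℝ) * l) := by gcongr
        _ = (C1 + 12) * x * (1 + Real.log x) ^ 2 / ((w : ℝ) * l) := by ring
        _ ≤ (C1 + 12) * x * (1 + Real.log x) ^ 2 / ((w : ℝ) * Λ) := by gcongr
        _ = _ := by
            field_simp
    have h5 : (((w - 1).primeFactors.filter (fun l => Λ < l)).card : ℝ) ≤ 2 * Real.log x := by
      have h6 : (((w - 1).primeFactors.filter (fun l => Λ < l)).card : ℝ) ≤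
          ((w - 1).primeFactors.card : ℝ) := by exact_mod_cast card_filter_le _ _
      have hw1 : 1 ≤ w - 1 := by
        have := hwp.two_le
        omega
      have h7 := z1_card (w - 1) hw1
      have h8 : Real.log ((w - 1 : ℕ) : ℝ) ≤ Real.log x := by
        apply Real.log_le_log
        · exact_mod_cast hw1
        · have : w - 1 ≤ x := by omega
          exact_mod_cast this
      linarith
    calc ∑ l ∈ (w - 1).primeFactors.filter (fun l => Λ < l), cnt x (P ⟨w, l⟩)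
        ≤ ∑ _l ∈ (w - 1).primeFactors.filter (fun l => Λ < l),
            (C1 + 12) * x * (1 + Real.log x) ^ 2 / Λ * (1 / w) := sum_le_sum h3
      _ = (((w - 1).primeFactors.filter (fun l => Λ < l)).card : ℝ) *
            ((C1 + 12) * x * (1 + Real.log x) ^ 2 / Λ * (1 / w)) := by
          rw [sum_const, nsmul_eq_mul]
      _ ≤ 2 * Real.log x * ((C1 + 12) * x * (1 + Real.log x) ^ 2 / Λ * (1 / w)) := by
          gcongr
      _ = _ := by ring
  calc ∑ w ∈ (range (z + 1)).filter Nat.Prime,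
        ∑ l ∈ (w - 1).primeFactors.filter (fun l => Λ < l), cnt x (P ⟨w, l⟩)
      ≤ ∑ w ∈ (range (z + 1)).filter Nat.Prime,
        2 * Real.log x * ((C1 + 12) * x * (1 + Real.log x) ^ 2 / Λ) * (1 / w) := sum_le_sum h2
    _ = 2 * Real.log x * ((C1 + 12) * x * (1 + Real.log x) ^ 2 / Λ) *
        ∑ w ∈ (range (z + 1)).filter Nat.Prime, (1 : ℝ) / w := by rw [mul_sum]
    _ ≤ 2 * Real.log x * ((C1 + 12) * x * (1 + Real.log x) ^ 2 / Λ) * (1 + Real.log x) := by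
        gcongr
        exact z1_harm z x hzx
    _ ≤ 2 * (1 + Real.log x) * ((C1 + 12) * x * (1 + Real.log x) ^ 2 / Λ) * (1 + Real.log x) := by
        gcongr
        linarith
    _ = _ := by ring

end Pool.Agent.Lib.MP_79499b_co.EO
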