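import Pool.Agent.Lib.MP_79499b_co.EO.Z1
import Pool.Agent.Lib.MP_79499b_co.EO.O2
import Pool.Agent.Lib.MP_79499b_co.EO.B1
import Pool.Agent.Lib.MP_79499b_co.EO.M3

/-!
# Z2: the main theorem in counting form

PROOF. Let `L = log x`, `A = 8`, `Λ = ⌊L^8⌋`, `z = y = ⌊exp (L^(1-ε))⌋`, `w0 = ⌊exp (L^ε)⌋`.  For `x ≥ x0(ε)` every composite order `n < x` is in one of:
(1) `n ≤ x / L^4`; (2) `x^(1/10) ≤ sm y n` (`sm_count` with `S = x^(1/10)`, `σ = 1 / log y` (≤ 1/4), `y^σ = e`: at most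
`x exp (- L^ε / 10 + C e (1 + log (1 + L)))`); (3) no good `w` divides `vv m n` (`main_sieve`); (4) `events_count`:
`C x (1 + L)^4 / Λ`; (5) `bp_count`: `C x (1+L)^3 / √w0`.
Otherwise `ded` applies to a good `w ∣ vv m n`: `(y + 1)^6 ≤ n` since `n > x / L^4`, `y ≤ exp (L^(1-ε))`; `(sm y n)^4 + 1 ≤ n` since
`sm y n < x^(1/10)`.  All five counts are `≤ C x / L^(κ - 8 ε)` (`κ ≤ 3`).  For `x < x0` use `cnt ≤ x`.
-/

set_option autoImplicit false

namespace Pool.Agent.Lib.MP_79499b_co.EO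

open Finset
open scoped Classical

theorem z2_cnt_le (x : ℕ) (P : ℕ → Prop) : cnt x P ≤ x := by
  unfold cnt
  have : ((range x).filter P).card ≤ x := (card_filter_le _ _).trans (by rw [card_range])
  exact_mod_cast this

theorem z2_cnt_small (x : ℕ) (t : ℝ) (ht : 0 ≤ t) : cnt x (fun n => (n : ℝ) ≤ t) ≤ t + 1 := by
  unfold cnt
  have h1 : ((range x).filter (fun n : ℕ => (n : ℝ) ≤ t)).card ≤ ⌊t⌋₊ + 1 := by
    have h2 : (range x).filter (fun n : ℕ => (n : ℝ) ≤ t) ⊆ range (⌊t⌋₊ + 1) := by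
      intro n hn
      rw [mem_filter] at hn
      rw [mem_range]
      exact Nat.lt_succ_of_le (Nat.le_floor hn.2)
    exact (card_le_card h2).trans (by rw [card_range])
  have h3 : (((range x).filter (fun n : ℕ => (n : ℝ) ≤ t)).card : ℝ) ≤ ((⌊t⌋₊ + 1 : ℕ) : ℝ) := by
    exact_mod_cast h1
  push_cast at h3
  have := Nat.floor_le ht
  linarith

/-- the threshold for `L = log x` -/
theorem z2_large {ε : ℝ} (hε : 0 < ε) (C : ℝ) : ∃ L₀ : ℝ, 1 ≤ L₀ ∧ ∀ L : ℝ, L₀ ≤ L →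
    200 ≤ L ∧ 200 ≤ L ^ ε ∧ Real.log L ≤ L ^ ε / 100 ∧
      3 * Real.log L + C * Real.exp 1 * (1 + Real.log (1 + L)) ≤ L ^ ε / 10 := by
  set B : ℝ := |C| * Real.exp 1 with hB
  have hB0 : 0 ≤ B := by positivity
  set δ : ℝ := 1 / (100 * (3 + B)) with hδ
  have hδ0 : 0 < δ := by positivity
  have h1 := (isLittleO_log_rpow_atTop hε).bound hδ0
  have h2 := (tendsto_rpow_atTop hε).eventually_ge_atTop (max 200 (40 * B))
  have h3 : ∀ᶠ L : ℝ in Filter.atTop, 200 ≤ L := Filter.eventually_ge_atTop 200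
  obtain ⟨L₀, hL₀⟩ := Filter.eventually_atTop.1 (h1.and (h2.and h3))
  refine ⟨max 1 L₀, le_max_left _ _, fun L hL => ?_⟩
  obtain ⟨a1, a2, a3⟩ := hL₀ L ((le_max_right _ _).trans hL)
  have hL0 : 0 < L := by linarith
  have hlog0 : 0 ≤ Real.log L := Real.log_nonneg (by linarith)
  have hp : 0 < L ^ ε := Real.rpow_pos_of_pos hL0 ε
  rw [Real.norm_of_nonneg hlog0, Real.norm_of_nonneg hp.le] at a1
  have b1 : 200 ≤ L ^ ε := (le_max_left _ _).trans a2
  have b2 : 40 * B ≤ L ^ ε := (le_max_right _ _).trans a2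
  have b3 : (3 + B) * Real.log L ≤ L ^ ε / 100 := by
    have h4 : (3 + B) * Real.log L ≤ (3 + B) * (δ * L ^ ε) :=
      mul_le_mul_of_nonneg_left a1 (by positivity)
    have h5 : (3 + B) * (δ * L ^ ε) = L ^ ε / 100 := by
      rw [hδ]
      field_simp
    linarith
  have b4 : 0 ≤ B * Real.log L := by positivity
  refine ⟨a3, b1, by nlinarith, ?_⟩
  have b5 : Real.log (1 + L) ≤ 1 + Real.log L := by
    have h6 : Real.log (1 + L) ≤ Real.log (2 * L) := Real.log_le_log (by linarith) (by linarith)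
    rw [Real.log_mul (by norm_num) hL0.ne'] at h6
    have := Real.log_two_lt_d9
    linarith
  have b50 : 0 ≤ Real.log (1 + L) := Real.log_nonneg (by linarith)
  have b6 : C * Real.exp 1 * (1 + Real.log (1 + L)) ≤ B * (2 + Real.log L) := by
    calc C * Real.exp 1 * (1 + Real.log (1 + L)) ≤ B * (1 + Real.log (1 + L)) := by
          rw [hB]
          gcongr
          exact le_abs_self C
      _ ≤ B * (2 + Real.log L) := mul_le_mul_of_nonneg_left (by linarith) hB0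
  nlinarith

theorem z2_pow {L : ℝ} (hL : 0 < L) (k : ℕ) : L ^ k = Real.exp (k * Real.log L) := by
  rw [Real.exp_nat_mul, Real.exp_log hL]

theorem z2_floor {t : ℝ} (ht : 1 ≤ t) : Real.exp t / 2 ≤ (⌊Real.exp t⌋₊ : ℝ) := by
  have h1 := Nat.lt_floor_add_one (Real.exp t)
  have h2 := Real.add_one_le_exp t
  linarith

theorem main_count {m κ : ℕ} (hm : (m = 4 ∧ κ = 2) ∨ (m = 6 ∧ κ = 3)) {ε : ℝ} (hε : 0 < ε)
    (hε' : ε < 1 / 4) : ∃ C : ℝ, 0 < C ∧ ∀ x : ℕ, 3 ≤ x →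
    cnt x (fun n => 2 ≤ n ∧ ¬ n.Prime ∧ AbOrder n m) ≤
      C * x / (Real.log x) ^ ((κ : ℝ) - 8 * ε) := by
  have hm46 : m = 4 ∨ m = 6 := by
    rcases hm with ⟨h, -⟩ | ⟨h, -⟩
    · exact Or.inl h
    · exact Or.inr h
  have hm1 : 1 ≤ m := by rcases hm46 with rfl | rfl <;> norm_num
  have hm6 : (m : ℝ) ≤ 6 := by rcases hm46 with rfl | rfl <;> norm_num
  have hκ3 : (κ : ℝ) ≤ 3 := by
    rcases hm with ⟨-, rfl⟩ | ⟨-, rfl⟩ <;> norm_num
  obtain ⟨C2, hC2, hsm⟩ := sm_count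
  obtain ⟨C3, hC3, hsieve⟩ := main_sieve hm hε hε' 8 (by norm_num)
  obtain ⟨C4, hC4, hev⟩ := events_count hm46
  obtain ⟨L₀, hL₀, hlarge⟩ := z2_large hε C2
  refine ⟨L₀ ^ 3 + (387 + C3 + 32 * C4), by positivity, fun x hx => ?_⟩
  set L := Real.log x with hL
  have hL1 : 1 < L := m2_L hx
  have hL0 : 0 < L := by linarith
  have hxr : (3 : ℝ) ≤ x := by exact_mod_cast hx
  have hx0 : (0 : ℝ) < x := by linarith
  have hexpL : Real.exp L = x := Real.exp_log hx0
  have hD : L ^ ((κ : ℝ) - 8 * ε) ≤ L ^ 3 := by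
    rw [← Real.rpow_natCast]
    exact Real.rpow_le_rpow_of_exponent_le hL1.le (by push_cast; linarith)
  have hD0 : 0 < L ^ ((κ : ℝ) - 8 * ε) := Real.rpow_pos_of_pos hL0 _
  rcases lt_or_ge L L₀ with hlt | hge
  · -- small `x`
    rw [le_div_iff₀ hD0]
    calc cnt x (fun n => 2 ≤ n ∧ ¬ n.Prime ∧ AbOrder n m) * L ^ ((κ : ℝ) - 8 * ε)
        ≤ x * L₀ ^ 3 := by
          refine mul_le_mul (z2_cnt_le x _) (hD.trans ?_) hD0.le hx0.le
          gcongr
      _ ≤ (L₀ ^ 3 + (387 + C3 + 32 * C4)) * x := by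
          have : 0 ≤ (387 + C3 + 32 * C4) * x := by positivity
          linarith
  obtain ⟨g1, g2, g3, g4⟩ := hlarge L hge
  have hlogL0 : 0 ≤ Real.log L := Real.log_nonneg hL1.le
  have hLε : L ^ ε ≤ L := by
    calc L ^ ε ≤ L ^ (1 : ℝ) := Real.rpow_le_rpow_of_exponent_le hL1.le (by linarith)
      _ = L := Real.rpow_one L
  have hL1ε : 200 * L ^ (1 - ε) ≤ L := by
    have h1 : L ^ (1 - ε) * L ^ ε = L := by
      rw [← Real.rpow_add hL0, sub_add_cancel, Real.rpow_one]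
    have h2 : 0 < L ^ (1 - ε) := Real.rpow_pos_of_pos hL0 _
    nlinarith
  have hL1ε4 : 4 ≤ L ^ (1 - ε) - 1 := by
    -- `L^(1-ε) ≥ L^(3/4)`
    have h1 : L ^ ε ≤ L ^ (1 - ε) := Real.rpow_le_rpow_of_exponent_le hL1.le (by linarith)
    linarith
  set t := L ^ (1 - ε) with ht
  set y : ℕ := ⌊Real.exp t⌋₊ with hy
  set w₀ : ℕ := ⌊Real.exp (L ^ ε)⌋₊ with hw₀
  set Λ : ℕ := ⌊L ^ 8⌋₊ with hΛ
  have hyle : (y : ℝ) ≤ Real.exp t := Nat.floor_le (Real.exp_pos t).le
  have hyge : Real.exp t / 2 ≤ y := z2_floor (by linarith)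
  have hw₀ge : Real.exp (L ^ ε) / 2 ≤ w₀ := z2_floor (by linarith)
  have hL8 : (200 : ℝ) ≤ L ^ 8 := by
    calc (200 : ℝ) ≤ L := g1
      _ = L ^ 1 := (pow_one L).symm
      _ ≤ L ^ 8 := pow_le_pow_right₀ hL1.le (by norm_num)
  have hΛge : L ^ 8 / 2 ≤ Λ := by
    have := Nat.lt_floor_add_one (L ^ 8)
    linarith
  have hΛ7 : 7 ≤ Λ := Nat.le_floor (by push_cast; linarith)
  have hy200 : y ^ 200 ≤ x := by
    have h1 : (y : ℝ) ^ 200 ≤ x := by
      calc (y : ℝ) ^ 200 ≤ (Real.exp t) ^ 200 := by gcongr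
        _ = Real.exp (200 * t) := by rw [← Real.exp_nat_mul]; norm_num
        _ ≤ Real.exp L := Real.exp_le_exp.2 hL1ε
        _ = x := hexpL
    exact_mod_cast h1
  have hy1 : 1 ≤ y := by
    have h1 : (1 : ℝ) ≤ Real.exp t := Real.one_le_exp (by linarith)
    exact Nat.le_floor (by exact_mod_cast h1)
  have hw₀1 : 1 ≤ w₀ := by
    have h1 : (1 : ℝ) ≤ Real.exp (L ^ ε) := Real.one_le_exp (by linarith)
    exact Nat.le_floor (by exact_mod_cast h1)
  have hy2x : y ^ 2 ≤ x := (Nat.pow_le_pow_right hy1 (by norm_num)).trans hy200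
  -- the five counts
  have hcover : cnt x (fun n => 2 ≤ n ∧ ¬ n.Prime ∧ AbOrder n m) ≤
      cnt x (fun n => (n : ℝ) ≤ x / L ^ 4 ∨ ((1 ≤ n ∧ Real.exp (L / 10) ≤ (sm y n : ℝ)) ∨
        ((∀ w : ℕ, Good ε 8 x w → ¬ w ∣ vv m n) ∨
        ((∃ w l : ℕ, w.Prime ∧ w ≤ y ∧ l.Prime ∧ l ∣ w - 1 ∧ Λ < l ∧ w ∣ vv m n ∧
          (Ev m w l n ∨ ∃ p : ℕ, p.Prime ∧ p ∣ n ∧ w < p ∧ p * w ≤ x ∧
            ¬ l ∣ orderOf (p : ZMod w))) ∨
        (∃ w : ℕ, w.Prime ∧ w₀ < w ∧ w ≤ y ∧ w ∣ vv m n ∧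
          ∃ r : ℕ, 2 ≤ r ∧ r < w ∧ r ∣ n ∧ (orderOf (r : ZMod w)) ^ 4 ≤ w))))) := by
    refine cnt_mono fun n hnx hn => ?_
    obtain ⟨hn2, hnp, ho⟩ := hn
    by_contra hcon
    push Not at hcon
    obtain ⟨c1, c2, ⟨w, hwg, hwv⟩, c4, c5⟩ := hcon
    obtain ⟨hwp, hwlo, hwhi, hwsm⟩ := hwg
    rw [← hL] at hwlo hwhi hwsm
    have hwy : w ≤ y := Nat.le_floor hwhi
    have hw₀w : w₀ < w := (Nat.floor_lt (Real.exp_pos _).le).2 hwlo
    have hw17 : 17 ≤ w := by
      have h1 : (17 : ℝ) ≤ Real.exp (L ^ ε) := by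
        have := Real.add_one_le_exp (L ^ ε)
        linarith
      have h2 : (17 : ℝ) ≤ w := h1.trans hwlo.le
      exact_mod_cast h2
    -- `n` is large
    have hnbig : Real.exp (9 / 10 * L) ≤ n := by
      have h1 : Real.exp (9 / 10 * L) ≤ x / L ^ 4 := by
        rw [le_div_iff₀ (by positivity)]
        have h2 : L ^ 4 = Real.exp (4 * Real.log L) := by
          rw [z2_pow hL0 4]
          norm_num
        rw [h2, ← Real.exp_add, ← hexpL]
        apply Real.exp_le_exp.2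
        linarith
      exact h1.trans c1.le
    have hyn : (y + 1) ^ 6 ≤ n := by
      have h1 : ((y : ℝ) + 1) ^ 6 ≤ n := by
        calc ((y : ℝ) + 1) ^ 6 ≤ (Real.exp (t + 1)) ^ 6 := by
              have h2 : (y : ℝ) + 1 ≤ Real.exp (t + 1) := by
                rw [Real.exp_add]
                have h3 := Real.exp_one_gt_d9
                have h4 : 1 ≤ Real.exp t := Real.one_le_exp (by linarith)
                nlinarith
              gcongr
          _ = Real.exp (6 * (t + 1)) := by rw [← Real.exp_nat_mul]; norm_num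
          _ ≤ Real.exp (9 / 10 * L) := Real.exp_le_exp.2 (by linarith)
          _ ≤ n := hnbig
      exact_mod_cast h1
    have hsmn : (sm y n) ^ 4 + 1 ≤ n := by
      have h1 : (sm y n : ℝ) < Real.exp (L / 10) := c2 (by omega)
      have h2 : ((sm y n : ℝ)) ^ 4 + 1 ≤ n := by
        have h3 : ((sm y n : ℝ)) ^ 4 ≤ Real.exp (4 / 10 * L) := by
          calc ((sm y n : ℝ)) ^ 4 ≤ (Real.exp (L / 10)) ^ 4 := by gcongr
            _ = Real.exp (4 / 10 * L) := by
              rw [← Real.exp_nat_mul]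
              congr 1
              push_cast
              ring
        have h4 : Real.exp (4 / 10 * L) * 2 ≤ Real.exp (9 / 10 * L) := by
          have h5 : Real.exp (9 / 10 * L) = Real.exp (4 / 10 * L) * Real.exp (1 / 2 * L) := by
            rw [← Real.exp_add]
            congr 1
            ring
          rw [h5]
          have h6 := Real.add_one_le_exp (1 / 2 * L)
          gcongr
          linarith
        have h7 : 1 ≤ Real.exp (4 / 10 * L) := Real.one_le_exp (by linarith)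
        linarith
      exact_mod_cast h2
    rcases ded hm46 hn2 hnx hnp ho hwp hwy hyn hsmn hΛ7 hwsm hw17 hwv with
      ⟨l, h1, h2, h3, h4⟩ | ⟨l, h1, h2, h3, h4⟩ | ⟨r, h1, h2, h3, h4⟩
    · exact c4 w l hwp hwy h1 h2 h3 hwv |>.1 h4
    · obtain ⟨p, hp1, hp2, hp3, hp4, hp5⟩ := h4
      exact hp5 ((c4 w l hwp hwy h1 h2 h3 hwv).2 p hp1 hp2 hp3 hp4)
    · exact absurd h4 (not_le.2 (c5 w hwp hw₀w hwy hwv r h1 h2 h3))
  have k1 : cnt x (fun n => (n : ℝ) ≤ x / L ^ 4) ≤ 2 * (x / L ^ 3) := by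
    refine (z2_cnt_small x (x / L ^ 4) (by positivity)).trans ?_
    have h1 : x / L ^ 4 ≤ x / L ^ 3 := by
      apply div_le_div_of_nonneg_left hx0.le (by positivity)
      exact pow_le_pow_right₀ hL1.le (by norm_num)
    have h2 : 1 ≤ x / L ^ 3 := by
      rw [le_div_iff₀ (by positivity), one_mul]
      have h2 : L ^ 3 = Real.exp (3 * Real.log L) := by
        rw [z2_pow hL0 3]
        norm_num
      rw [h2, ← hexpL]
      apply Real.exp_le_exp.2
      linarith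
    linarith
  have k2 : cnt x (fun n => 1 ≤ n ∧ Real.exp (L / 10) ≤ (sm y n : ℝ)) ≤ x / L ^ 3 := by
    have hly : 4 ≤ Real.log y := by
      have h1 : Real.log (Real.exp t / 2) ≤ Real.log y := Real.log_le_log (by positivity) hyge
      rw [Real.log_div (Real.exp_pos t).ne' (by norm_num), Real.log_exp] at h1
      have := Real.log_two_lt_d9
      linarith
    have hlyt : Real.log y ≤ t := by
      have h1 := Real.log_le_log (by exact_mod_cast hy1) hyle
      rwa [Real.log_exp] at h1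
    have hy2 : 2 ≤ y := by
      by_contra hlt
      have h1 : y = 1 := by omega
      rw [h1] at hly
      norm_num at hly
    have hσ0 : 0 < 1 / Real.log y := by positivity
    have hσ4 : 1 / Real.log y ≤ 1 / 4 := by gcongr
    have h1 := hsm y x (Real.exp (L / 10)) (1 / Real.log y) hy2 (Real.one_le_exp (by linarith))
      hσ0 hσ4
    refine h1.trans ?_
    have h2 : (y : ℝ) ^ (1 / Real.log y) = Real.exp 1 := by
      rw [Real.rpow_def_of_pos (by exact_mod_cast hy1), mul_one_div_cancel (by linarith)]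
    have h3 : (Real.exp (L / 10)) ^ (-(1 / Real.log y)) ≤ Real.exp (-(L ^ ε / 10)) := by
      rw [← Real.exp_mul]
      apply Real.exp_le_exp.2
      have h4 : L ^ ε ≤ L / Real.log y := by
        rw [le_div_iff₀ (by linarith)]
        calc L ^ ε * Real.log y ≤ L ^ ε * t := by gcongr
          _ = L := by rw [ht, ← Real.rpow_add hL0, add_sub_cancel, Real.rpow_one]
      have h5 : L / 10 * -(1 / Real.log y) = -(L / Real.log y / 10) := by ring
      rw [h5]
      linarith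
    have h6 : Real.log (1 + Real.log y) ≤ Real.log (1 + L) := by
      apply Real.log_le_log (by linarith)
      have : t ≤ L := by linarith
      linarith
    rw [h2, div_eq_mul_inv]
    refine mul_le_mul_of_nonneg_left ?_ hx0.le
    have h7 : (L ^ 3)⁻¹ = Real.exp (-(3 * Real.log L)) := by
      rw [Real.exp_neg, z2_pow hL0 3]
      norm_num
    rw [h7]
    calc (Real.exp (L / 10)) ^ (-(1 / Real.log y)) *
          Real.exp (C2 * Real.exp 1 * (1 + Real.log (1 + Real.log y)))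
        ≤ Real.exp (-(L ^ ε / 10)) * Real.exp (C2 * Real.exp 1 * (1 + Real.log (1 + L))) := by
          gcongr
      _ = Real.exp (-(L ^ ε / 10) + C2 * Real.exp 1 * (1 + Real.log (1 + L))) := by
          rw [← Real.exp_add]
      _ ≤ Real.exp (-(3 * Real.log L)) := Real.exp_le_exp.2 (by linarith)
  have k3 := hsieve x hx
  rw [← hL] at k3
  have k4 : cnt x (fun n => ∃ w l : ℕ, w.Prime ∧ w ≤ y ∧ l.Prime ∧ l ∣ w - 1 ∧ Λ < l ∧
      w ∣ vv m n ∧ (Ev m w l n ∨ ∃ p : ℕ, p.Prime ∧ p ∣ n ∧ w < p ∧ p * w ≤ x ∧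
        ¬ l ∣ orderOf (p : ZMod w))) ≤ 32 * C4 * (x / L ^ 3) := by
    refine (hev x y Λ hx hΛ7 hy200).trans ?_
    rw [← hL]
    calc C4 * x * (1 + L) ^ 4 / Λ ≤ C4 * x * (2 * L) ^ 4 / (L ^ 8 / 2) := by
          gcongr
          linarith
      _ = 32 * C4 * (x / L ^ 4) := by
          field_simp
          ring
      _ ≤ 32 * C4 * (x / L ^ 3) := by
          gcongr
          · exact hL1.le
          · norm_num
  have k5 : cnt x (fun n => ∃ w : ℕ, w.Prime ∧ w₀ < w ∧ w ≤ y ∧ w ∣ vv m n ∧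
      ∃ r : ℕ, 2 ≤ r ∧ r < w ∧ r ∣ n ∧ (orderOf (r : ZMod w)) ^ 4 ≤ w) ≤ 384 * (x / L ^ 3) := by
    refine (bp_count m x w₀ y hm1 hx hw₀1 hy1 hy2x).trans ?_
    rw [← hL]
    have h1 : Real.exp (L ^ ε / 2) / 2 ≤ Real.sqrt w₀ := by
      apply Real.le_sqrt_of_sq_le
      have h2 : (Real.exp (L ^ ε / 2) / 2) ^ 2 = Real.exp (L ^ ε) / 4 := by
        rw [div_pow, ← Real.exp_nat_mul]
        norm_num
        congr 1
        ring
      rw [h2]
      have := Real.exp_pos (L ^ ε)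
      linarith
    have h3 : L ^ 3 * L ^ 3 ≤ Real.exp (L ^ ε / 2) := by
      have h4 : L ^ 3 * L ^ 3 = Real.exp (6 * Real.log L) := by
        rw [← pow_add, z2_pow hL0 (3 + 3)]
        norm_num
      rw [h4]
      apply Real.exp_le_exp.2
      linarith
    have h5 : (0 : ℝ) < Real.exp (L ^ ε / 2) := Real.exp_pos _
    calc 4 * m * x * (1 + L) ^ 3 / Real.sqrt w₀
        ≤ 4 * 6 * x * (2 * L) ^ 3 / (Real.exp (L ^ ε / 2) / 2) := by
          gcongr
          linarith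
      _ = 384 * x * L ^ 3 / Real.exp (L ^ ε / 2) := by
          field_simp
          ring
      _ ≤ 384 * x * L ^ 3 / (L ^ 3 * L ^ 3) := by
          gcongr
      _ = 384 * (x / L ^ 3) := by
          field_simp
  have hx3 : x / L ^ 3 ≤ x / L ^ ((κ : ℝ) - 8 * ε) :=
    div_le_div_of_nonneg_left hx0.le hD0 hD
  have hx3' : 0 ≤ x / L ^ ((κ : ℝ) - 8 * ε) := by positivity
  refine hcover.trans ?_
  refine (cnt_or x _ _).trans ?_
  refine (add_le_add le_rfl (cnt_or x _ _)).trans ?_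
  refine (add_le_add le_rfl (add_le_add le_rfl (cnt_or x _ _))).trans ?_
  refine (add_le_add le_rfl (add_le_add le_rfl (add_le_add le_rfl (cnt_or x _ _)))).trans ?_
  have k3' : C3 * x / L ^ ((κ : ℝ) - 8 * ε) = C3 * (x / L ^ ((κ : ℝ) - 8 * ε)) := by ring
  rw [k3'] at k3
  have hC4x : 32 * C4 * (x / L ^ 3) ≤ 32 * C4 * (x / L ^ ((κ : ℝ) - 8 * ε)) := by gcongr
  have hL₀3 : 0 ≤ L₀ ^ 3 * (x / L ^ ((κ : ℝ) - 8 * ε)) := by positivity
  calc _ ≤ 2 * (x / L ^ 3) + (x / L ^ 3 + (C3 * (x / L ^ ((κ : ℝ) - 8 * ε)) +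
        (32 * C4 * (x / L ^ 3) + 384 * (x / L ^ 3)))) := by
        refine add_le_add k1 (add_le_add k2 (add_le_add k3 (add_le_add k4 k5)))
    _ ≤ (L₀ ^ 3 + (387 + C3 + 32 * C4)) * (x / L ^ ((κ : ℝ) - 8 * ε)) := by
        linarith
    _ = _ := by ring

end Pool.Agent.Lib.MP_79499b_co.EO
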